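import Pool.Agent.H5.M3F.M3c

/-!
# Weights for the last coordinate

`exF F j sg`: the family with the additional coordinate `2 ^ (-sg) x_j`. The records of a point and
of a line are functions of those of `F`, and conversely. `m3f_clsw`: closed labels with jets for a
label of the last coordinate with steep gradients.
-/

set_option autoImplicit false

namespace Pool.M3F

open Finset Real MvPolynomial
open Pool.Agent.H49.Ent Pool.Agent.H32.Dense Pool.STK Pool.KA Pool.KSAT Pool.K2S Pool.KS3 Pool.PB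
  Pool.STAT Pool.STAT.CLO Pool.GEN Pool.S6C

variable {m J : ℕ}

/-- One more coordinate. -/
def sn {β : Type} {m : ℕ} (f : Fin m → β) (a : β) : Fin (m + 1) → β :=
  Fin.snoc (α := fun _ => β) f a

theorem sn_cs {β : Type} {m : ℕ} (f : Fin m → β) (a : β) (i : Fin m) :
    sn f a (Fin.castSucc i) = f i := Fin.snoc_castSucc (α := fun _ => β) a f i

theorem sn_last {β : Type} {m : ℕ} (f : Fin m → β) (a : β) : sn f a (Fin.last m) = a :=
  Fin.snoc_last (α := fun _ => β) a f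

theorem sn_ext {β : Type} {m : ℕ} {f : Fin (m + 1) → β} {f' : Fin m → β} {a : β}
    (h : ∀ i, f (Fin.castSucc i) = f' i) (h' : f (Fin.last m) = a) : f = sn f' a := by
  funext i
  refine Fin.lastCases ?_ (fun i => ?_) i
  · rw [h', sn_last]
  · rw [h, sn_cs]

/-- The family with the additional coordinate `2 ^ (-sg) x_j`. -/
noncomputable def exF (F : Fam m J) (j : Fin m) (sg : ℕ) : Fam (m + 1) J where
  Ω := F.Ω
  ζ := F.ζ
  fin := F.fin
  p := F.p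
  u := fun ω => sn (F.u ω) (F.u ω j / 2 ^ sg)
  d := fun ω => sn (F.d ω) (F.d ω j / 2 ^ sg)
  T := F.T
  Z := F.Z
  isLaw := F.isLaw
  dir := fun ω i => by
    refine Fin.lastCases ?_ (fun i => ?_) i
    · rw [sn_last, abs_div, abs_of_pos (by positivity : (0 : ℝ) < 2 ^ sg),
        div_le_one (by positivity)]
      exact (F.dir ω j).trans (one_le_pow₀ (by norm_num))
    · rw [sn_cs]
      exact F.dir ω i
  tim := F.tim

theorem exF_x (F : Fam m J) (j : Fin m) (sg : ℕ) (ω : F.Ω) :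
    (exF F j sg).x ω = sn (F.x ω) (F.x ω j / 2 ^ sg) := by
  refine sn_ext (fun i => ?_) ?_
  · show sn (F.u ω) (F.u ω j / 2 ^ sg) (Fin.castSucc i) + F.t ω *
      sn (F.d ω) (F.d ω j / 2 ^ sg) (Fin.castSucc i) = F.x ω i
    rw [sn_cs, sn_cs]
    rfl
  · show sn (F.u ω) (F.u ω j / 2 ^ sg) (Fin.last m) + F.t ω *
      sn (F.d ω) (F.d ω j / 2 ^ sg) (Fin.last m) = F.x ω j / 2 ^ sg
    rw [sn_last, sn_last]
    show _ = (F.u ω j + F.t ω * F.d ω j) / 2 ^ sg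
    ring

theorem fl_sn (i : ℕ) (f : Fin m → ℝ) (j : Fin m) (sg : ℕ) :
    fl i (sn f (f j / 2 ^ sg)) = sn (fl i f) (fl i f j / 2 ^ sg) := by
  refine sn_ext (fun l => ?_) ?_
  · show ⌊(2 : ℝ) ^ i * sn f (f j / 2 ^ sg) (Fin.castSucc l)⌋ = ⌊(2 : ℝ) ^ i * f l⌋
    rw [sn_cs]
  · show ⌊(2 : ℝ) ^ i * sn f (f j / 2 ^ sg) (Fin.last m)⌋ = ⌊(2 : ℝ) ^ i * f j⌋ / 2 ^ sg
    rw [sn_last, ← mul_div_assoc]
    have h1 := Int.floor_div_natCast ((2 : ℝ) ^ i * f j) (2 ^ sg)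
    push_cast at h1
    exact h1

theorem exF_X (F : Fam m J) (j : Fin m) (sg i : ℕ) (ω : F.Ω) :
    (exF F j sg).X i ω = sn (F.X i ω) (F.X i ω j / 2 ^ sg) := by
  show fl i ((exF F j sg).x ω) = _
  rw [exF_x]
  exact fl_sn i _ j sg

theorem exF_D (F : Fam m J) (j : Fin m) (sg i : ℕ) (ω : F.Ω) :
    (exF F j sg).D i ω = sn (F.D i ω) (F.D i ω j / 2 ^ sg) := fl_sn i _ j sg

/-- The record of the point in the extended family. -/
def eP (F : Fam m J) (j : Fin m) (sg : ℕ) (ξ : PtT F) : PtT (exF F j sg) :=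
  (sn ξ.1 (ξ.1 j / 2 ^ sg), ξ.2)

/-- The record of the line in the extended family. -/
noncomputable def eL (F : Fam m J) (j : Fin m) (sg : ℕ) (s : LnT F) : LnT (exF F j sg) :=
  ((sn s.1.1 (s.1.1 j / 2 ^ sg), sn s.1.2 (s.1.2 j / 2 ^ sg)), s.2)

/-- The record of the point in the family. -/
def rP (F : Fam m J) (j : Fin m) (sg : ℕ) (ξ : PtT (exF F j sg)) : PtT F :=
  (fun i => ξ.1 (Fin.castSucc i), ξ.2)

/-- The record of the line in the family. -/
def rL (F : Fam m J) (j : Fin m) (sg : ℕ) (s : LnT (exF F j sg)) : LnT F :=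
  ((fun i => s.1.1 (Fin.castSucc i), fun i => s.1.2 (Fin.castSucc i)), s.2)

theorem rP_eP (F : Fam m J) (j : Fin m) (sg : ℕ) (ξ : PtT F) : rP F j sg (eP F j sg ξ) = ξ := by
  refine Prod.ext ?_ rfl
  funext i
  exact sn_cs _ _ i

theorem rL_eL (F : Fam m J) (j : Fin m) (sg : ℕ) (s : LnT F) : rL F j sg (eL F j sg s) = s := by
  refine Prod.ext (Prod.ext ?_ ?_) rfl
  · funext i
    exact sn_cs _ _ i
  · funext i
    exact sn_cs _ _ i

theorem exF_ptr (F : Fam m J) (j : Fin m) (sg : ℕ) (ω : F.Ω) :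
    ptr (exF F j sg) J ω = eP F j sg (ptr F J ω) :=
  Prod.ext (exF_X F j sg J ω) rfl

theorem exF_slam (F : Fam m J) (j : Fin m) (sg W : ℕ) (ω : F.Ω) :
    slam (exF F j sg) W ω = eL F j sg (slam F W ω) := rfl

/-! ### The class -/

theorem Rg_map {Ω S T : Type} [Fintype Ω] {p : Ω → ℝ} {f : Ω → S} {h e : ℝ}
    (H : Rg p f h e) (φ : S → T) (ψ : T → S) (hφ : ∀ s, ψ (φ s) = s) :
    Rg p (fun ω => φ (f ω)) h e := by
  classical
  obtain ⟨h1, h2⟩ := H
  constructor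
  · refine le_trans ?_ h1
    have h3 : (Finset.univ.filter (fun ω => p ω ≠ 0)).image (fun ω => φ (f ω)) =
        ((Finset.univ.filter (fun ω => p ω ≠ 0)).image f).image φ := by
      rw [Finset.image_image]
      rfl
    have h4 : ((Finset.univ.filter (fun ω => p ω ≠ 0)).image (fun ω => φ (f ω))).card ≤
        ((Finset.univ.filter (fun ω => p ω ≠ 0)).image f).card := by
      rw [h3]
      exact Finset.card_image_le
    exact_mod_cast h4
  · intro s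
    by_cases hs : ∃ s', φ s' = s
    · obtain ⟨s', rfl⟩ := hs
      refine le_trans (le_of_eq ?_) (h2 s')
      unfold law
      refine Finset.sum_congr rfl fun ω _ => ?_
      have h5 : (φ (f ω) = φ s') ↔ (f ω = s') := by
        constructor
        · intro h6
          rw [← hφ (f ω), h6, hφ]
        · exact fun h6 => by rw [h6]
      by_cases h6 : f ω = s'
      · rw [if_pos h6, if_pos (h5.2 h6)]
      · rw [if_neg h6, if_neg fun h7 => h6 (h5.1 h7)]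
    · have h5 : law p (fun ω => φ (f ω)) s = 0 := by
        unfold law
        refine Finset.sum_eq_zero fun ω _ => ?_
        rw [if_neg]
        exact fun h6 => hs ⟨_, h6⟩
      rw [h5]
      exact (Real.exp_pos _).le

theorem exF_Rb {F : Fam m J} (j : Fin m) (sg : ℕ) {e : ℝ} (h : F.Rb e) :
    (exF F j sg).Rb e := by
  obtain ⟨⟨h1, H1⟩, ⟨h2, H2⟩, ⟨h3, H3⟩, ⟨h4, H4⟩, ⟨h5, H5⟩⟩ := h
  have eD : (exF F j sg).D J = fun ω => sn (F.D J ω) (F.D J ω j / 2 ^ sg) := by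
    funext ω
    exact exF_D F j sg J ω
  have eX : (fun ω => ((exF F j sg).X J ω, (exF F j sg).T ω)) =
      fun ω => (sn (F.X J ω) (F.X J ω j / 2 ^ sg), F.T ω) := by
    funext ω
    exact Prod.ext (exF_X F j sg J ω) rfl
  refine ⟨⟨h1, ?_⟩, ⟨h2, ?_⟩, ⟨h3, H3⟩, ⟨h4, ?_⟩, ⟨h5, ?_⟩⟩
  · rw [eD]
    exact Rg_map H1 (fun v => sn v (v j / 2 ^ sg)) (fun v i => v (Fin.castSucc i)) (fun v => by
      funext i
      exact sn_cs _ _ i)
  · rw [eX]
    exact Rg_map H2 (fun v => (sn v.1 (v.1 j / 2 ^ sg), v.2))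
      (fun v => (fun i => v.1 (Fin.castSucc i), v.2)) (fun v => by
      refine Prod.ext ?_ rfl
      funext i
      exact sn_cs _ _ i)
  · exact Rg_map H4 (fun v => ((sn v.1.1 (v.1.1 j / 2 ^ sg), sn v.1.2 (v.1.2 j / 2 ^ sg)), v.2))
      (fun v => ((fun i => v.1.1 (Fin.castSucc i), fun i => v.1.2 (Fin.castSucc i)), v.2))
      (fun v => by
      refine Prod.ext (Prod.ext ?_ ?_) rfl
      · funext i
        exact sn_cs _ _ i
      · funext i
        exact sn_cs _ _ i)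
  · exact Rg_map H5 (fun v => (sn v.1 (v.1 j / 2 ^ sg), sn v.2 (v.2 j / 2 ^ sg)))
      (fun v => (fun i => v.1 (Fin.castSucc i), fun i => v.2 (Fin.castSucc i)))
      (fun v => by
      refine Prod.ext ?_ ?_
      · funext i
        exact sn_cs _ _ i
      · funext i
        exact sn_cs _ _ i)

theorem exF_Tm {F : Fam m J} (j : Fin m) (sg : ℕ) {e : ℝ} (h : F.Tm e) :
    (exF F j sg).Tm e := by
  refine le_trans h (CH_mono_cond F.isLaw.nonneg fun ω ω' _ _ e => ?_)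
  have e1 := Prod.ext_iff.1 e
  have e2 := Prod.ext_iff.1 e1.1
  refine Prod.ext (Prod.ext ?_ ?_) e1.2
  · show sn (F.u ω) (F.u ω j / 2 ^ sg) = sn (F.u ω') (F.u ω' j / 2 ^ sg)
    have e3 : F.u ω = F.u ω' := e2.1
    rw [e3]
  · show sn (F.d ω) (F.d ω j / 2 ^ sg) = sn (F.d ω') (F.d ω' j / 2 ^ sg)
    have e3 : F.d ω = F.d ω' := e2.2
    rw [e3]

/-- The members of the extended class. -/
inductive ExSt (S : PCl m) (j : Fin m) (τ : ℝ) (J : ℕ) :
    (F' : Fam (m + 1) J) → (F'.Ω → Prop) → Prop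
  | mk (F : Fam m J) (sg : ℕ) (A : F.Ω → Prop) (h : S.St τ J F A) : ExSt S j τ J (exF F j sg) A

/-- The extended class. -/
def exS (S : PCl m) (j : Fin m) : PCl (m + 1) where
  St τ J F A := ExSt S j τ J F A
  mono := by
    intro τ τ' J F A hτ h
    cases h with
    | mk F sg A h => exact ExSt.mk F sg A (S.mono hτ h)
  res := by
    intro τ τ' J F A B hτ h hB hP
    cases h with
    | mk F sg A h => exact ExSt.mk F sg B (S.res hτ h hB hP)

/-! ### Polynomials -/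

/-- The variables of the family among the variables of the extended family. -/
def vx (m : ℕ) : Option (Fin m) → Option (Fin (m + 1)) := Option.map Fin.castSucc

theorem vx_inj (m : ℕ) : Function.Injective (vx m) :=
  Option.map_injective (Fin.castSucc_injective m)

/-- The chain in the extended family: the last coordinate is the new one. -/
def cx' (c : ℕ → Fin m) (r l : ℕ) : Fin (m + 1) := if l = r then Fin.last m else Fin.castSucc (c l)

theorem cx'_lt {c : ℕ → Fin m} {r l : ℕ} (hl : l < r) : cx' c r l = Fin.castSucc (c l) :=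
  if_neg hl.ne

theorem cx'_r (c : ℕ → Fin m) (r : ℕ) : cx' c r r = Fin.last m := if_pos rfl

theorem cx'_inj {c : ℕ → Fin m} {r : ℕ} (hc : Inj c r) : Inj (cx' c r) (r + 1) := by
  intro l hl l' hl' h
  rcases Nat.lt_or_ge l r with h1 | h1 <;> rcases Nat.lt_or_ge l' r with h2 | h2
  · rw [cx'_lt h1, cx'_lt h2] at h
    exact hc l h1 l' h2 (Fin.castSucc_injective m h)
  · have h3 : l' = r := by omega
    rw [h3, cx'_lt h1, cx'_r] at h
    exact absurd h (Fin.castSucc_lt_last _).ne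
  · have h3 : l = r := by omega
    rw [h3, cx'_lt h2, cx'_r] at h
    exact absurd h.symm (Fin.castSucc_lt_last _).ne
  · omega

/-- The system with the weight `2 ^ (-sg)` for the last coordinate. -/
noncomputable def Gw (sg r : ℕ) (G : ℕ → MvPolynomial (Option (Fin m)) ℝ) (i : ℕ) :
    MvPolynomial (Option (Fin m)) ℝ := if i = r then C (1 / 2 ^ sg) * G i else G i

theorem Gw_lt {sg r i : ℕ} {G : ℕ → MvPolynomial (Option (Fin m)) ℝ} (h : i < r) :
    Gw sg r G i = G i := if_neg h.ne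

theorem Gw_r {sg r : ℕ} {G : ℕ → MvPolynomial (Option (Fin m)) ℝ} :
    Gw sg r G r = C (1 / 2 ^ sg) * G r := if_pos rfl

theorem Gw_deg {sg r i K : ℕ} {G : ℕ → MvPolynomial (Option (Fin m)) ℝ}
    (h : (G i).totalDegree ≤ K) : (Gw sg r G i).totalDegree ≤ K := by
  unfold Gw
  split_ifs
  · refine (totalDegree_mul _ _).trans ?_
    rw [totalDegree_C, zero_add]
    exact h
  · exact h

theorem Gw_dep {sg r i : ℕ} {c : ℕ → Fin m} {G : ℕ → MvPolynomial (Option (Fin m)) ℝ}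
    (h : DepC c i (G i)) : DepC c i (Gw sg r G i) := by
  intro b b' h0 hb
  unfold Gw
  split_ifs
  · rw [map_mul, map_mul, eval_C, eval_C, h b b' h0 hb]
  · exact h b b' h0 hb

/-- The system in the extended family. -/
noncomputable def Gx (sg r : ℕ) (G : ℕ → MvPolynomial (Option (Fin m)) ℝ) (i : ℕ) :
    MvPolynomial (Option (Fin (m + 1))) ℝ := if i ≤ r then rename (vx m) (Gw sg r G i) else 0

theorem Gx_le {sg r i : ℕ} {G : ℕ → MvPolynomial (Option (Fin m)) ℝ} (h : i ≤ r) :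
    Gx sg r G i = rename (vx m) (Gw sg r G i) := if_pos h

theorem Gx_eval {sg r i : ℕ} {G : ℕ → MvPolynomial (Option (Fin m)) ℝ} (h : i ≤ r)
    (b : Option (Fin (m + 1)) → ℝ) : eval b (Gx sg r G i) = eval (b ∘ vx m) (Gw sg r G i) := by
  rw [Gx_le h, eval_rename]

theorem Gx_deg {sg r i K : ℕ} {G : ℕ → MvPolynomial (Option (Fin m)) ℝ}
    (h : (G i).totalDegree ≤ K) : (Gx sg r G i).totalDegree ≤ K := by
  unfold Gx
  split_ifs
  · exact (totalDegree_rename_le _ _).trans (Gw_deg h)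
  · rw [totalDegree_zero]
    exact Nat.zero_le _

theorem Gx_dep {sg r i : ℕ} {c : ℕ → Fin m} {G : ℕ → MvPolynomial (Option (Fin m)) ℝ}
    (h : DepC c i (G i)) : DepC (cx' c r) i (Gx sg r G i) := by
  intro b b' h0 hb
  by_cases hi : i ≤ r
  · rw [Gx_eval hi, Gx_eval hi]
    refine Gw_dep h _ _ h0 fun l hl => ?_
    have h1 := hb l hl
    rw [cx'_lt (by omega)] at h1
    exact h1
  · unfold Gx
    rw [if_neg hi, map_zero, map_zero]

theorem Gx_pd {sg r i l : ℕ} {c : ℕ → Fin m} {G : ℕ → MvPolynomial (Option (Fin m)) ℝ}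
    (hi : i ≤ r) (hl : l < i) (b : Option (Fin (m + 1)) → ℝ) :
    eval b (pderiv (some (cx' c r l)) (Gx sg r G i)) =
      eval (b ∘ vx m) (pderiv (some (c l)) (Gw sg r G i)) := by
  have h1 : (some (cx' c r l) : Option (Fin (m + 1))) = vx m (some (c l)) := by
    rw [cx'_lt (by omega)]
    rfl
  rw [Gx_le hi, h1, pderiv_rename (vx_inj m), eval_rename]

/-- The systems in the variables `0, 1, …`. -/
theorem sy_Gx {sg r : ℕ} {c : ℕ → Fin m} {G : ℕ → MvPolynomial (Option (Fin m)) ℝ} (t : ℝ) :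
    sy (cx' c r) (r + 1) t (Gx sg r G) = sy c (r + 1) t (Gw sg r G) := by
  funext i
  unfold sy
  by_cases h0 : i = 0
  · rw [if_pos h0, if_pos h0]
  · rw [if_neg h0, if_neg h0]
    by_cases h1 : i ≤ r + 1
    · rw [if_pos h1, if_pos h1]
      unfold tr
      rw [Gx_le (by omega), bind₁_rename]
      congr 2
      funext o
      show vr (cx' c r) (i - 1) (vx m o) = vr c (i - 1) o
      rcases o with _ | j
      · rfl
      · have h2 : ∀ l, (l < i - 1 ∧ cx' c r l = Fin.castSucc j) ↔ (l < i - 1 ∧ c l = j) := by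
          intro l
          constructor
          · rintro ⟨h3, h4⟩
            rw [cx'_lt (by omega)] at h4
            exact ⟨h3, Fin.castSucc_injective m h4⟩
          · rintro ⟨h3, h4⟩
            refine ⟨h3, ?_⟩
            rw [cx'_lt (by omega), h4]
        show vr (cx' c r) (i - 1) (some (Fin.castSucc j)) = vr c (i - 1) (some j)
        unfold vr
        simp only
        by_cases h3 : ∃ l, l < i - 1 ∧ c l = j
        · have h4 : ∃ l, l < i - 1 ∧ cx' c r l = Fin.castSucc j := by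
            obtain ⟨l, hl⟩ := h3
            exact ⟨l, (h2 l).2 hl⟩
          rw [dif_pos h3, dif_pos h4]
          congr 1
          congr 1
          exact Nat.find_congr' (fun {l} => h2 l)
        · have h4 : ¬ ∃ l, l < i - 1 ∧ cx' c r l = Fin.castSucc j := by
            rintro ⟨l, hl⟩
            exact h3 ⟨l, (h2 l).1 hl⟩
          rw [dif_neg h3, dif_neg h4]
    · rw [if_neg h1, if_neg h1]

theorem nbx_Gx {sg r : ℕ} {c : ℕ → Fin m} {G : ℕ → MvPolynomial (Option (Fin m)) ℝ} {g : ℕ → ℕ}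
    {a : ℕ} {t : ℝ} {i : ℕ} (hi : i ≤ r) {b : Option (Fin (m + 1)) → ℝ} :
    NBx (cx' c r) (Gx sg r G) g a t i b ↔ NBx c G g a t i (b ∘ vx m) := by
  have h1 : ∀ l < i, (|b (some (cx' c r l)) - eval b (Gx sg r G l)| ≤ 1 / 2 ^ g l) ↔
      (|(b ∘ vx m) (some (c l)) - eval (b ∘ vx m) (G l)| ≤ 1 / 2 ^ g l) := by
    intro l hl
    rw [Gx_eval (by omega), Gw_lt (by omega), cx'_lt (by omega)]
    rfl
  constructor
  · rintro ⟨h2, h3⟩
    exact ⟨h2, fun l hl => (h1 l hl).1 (h3 l hl)⟩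
  · rintro ⟨h2, h3⟩
    exact ⟨h2, fun l hl => (h1 l hl).2 (h3 l hl)⟩

theorem nbx_Gw {sg r : ℕ} {c : ℕ → Fin m} {G : ℕ → MvPolynomial (Option (Fin m)) ℝ} {g : ℕ → ℕ}
    {a : ℕ} {t : ℝ} {i : ℕ} (hi : i ≤ r) {b : Option (Fin m) → ℝ} :
    NBx c (Gw sg r G) g a t i b ↔ NBx c G g a t i b := by
  have h1 : ∀ l < i, (|b (some (c l)) - eval b (Gw sg r G l)| ≤ 1 / 2 ^ g l) ↔
      (|b (some (c l)) - eval b (G l)| ≤ 1 / 2 ^ g l) := by
    intro l hl
    rw [Gw_lt (by omega)]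
  constructor
  · rintro ⟨h2, h3⟩
    exact ⟨h2, fun l hl => (h1 l hl).1 (h3 l hl)⟩
  · rintro ⟨h2, h3⟩
    exact ⟨h2, fun l hl => (h1 l hl).2 (h3 l hl)⟩

/-- The values of the derivatives on the leaf. -/
theorem jetp_val {c : ℕ → Fin m} {r : ℕ} (hc : Inj c (r + 1))
    {G : ℕ → MvPolynomial (Option (Fin m)) ℝ} (hG : ∀ i, DepC c i (G i)) (t : ℝ) {b : ℕ → ℝ}
    {B : Option (Fin m) → ℝ} (h0 : B none = b 0) (h : ∀ l < r, B (some (c l)) = b (l + 1))
    {Q : PN} (hQ : Q.vars ⊆ range (r + 2)) (k : ℕ) : eval (lfo c r G B)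
      ((fun R : MvPolynomial (Option (Fin m)) ℝ => pderiv (some (c r)) R)^[k] (bk c Q)) =
      eval (lfpt r (sy c (r + 1) t G) b) ((fun R : PN => pderiv (r + 1) R)^[k] Q) := by
  rw [eval_lfo hc hG (t := t) h0 h (dep_iter k _ (bk_dep hQ)), tr_iter hc, tr_bk hc hQ]

/-- Jets in the extended family and in the family. -/
theorem jetp_Gx {sg r D : ℕ} {c : ℕ → Fin m} (hc : Inj c (r + 1))
    {G : ℕ → MvPolynomial (Option (Fin m)) ℝ} (hG : ∀ i, DepC c i (G i)) {g : ℕ → ℕ} {a : ℕ}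
    {t : ℝ} {Q : PN} {ρ S E : ℝ} (hv : Q.vars ⊆ range (r + 2)) (hd : Q.totalDegree ≤ D)
    (h : JetP (cx' c r) r D (Gx sg r G) g a t (bk (cx' c r) Q) ρ S E) :
    JetP c r D (Gw sg r G) g a t (bk c Q) ρ S E := by
  have hc' : Inj (cx' c r) (r + 1) := cx'_inj fun l hl l' hl' e => hc l (by omega) l' (by omega) e
  have hGx : ∀ i, DepC (cx' c r) i (Gx sg r G i) := fun i => Gx_dep (hG i)
  have hGw : ∀ i, DepC c i (Gw sg r G i) := fun i => Gw_dep (hG i)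
  have hval : ∀ (B : Option (Fin (m + 1)) → ℝ) (k : ℕ), eval (lfo (cx' c r) r (Gx sg r G) B)
      ((fun R : MvPolynomial (Option (Fin (m + 1))) ℝ => pderiv (some (cx' c r r)) R)^[k]
        (bk (cx' c r) Q)) = eval (lfo c r (Gw sg r G) (B ∘ vx m))
      ((fun R : MvPolynomial (Option (Fin m)) ℝ => pderiv (some (c r)) R)^[k] (bk c Q)) := by
    intro B k
    rw [jetp_val hc' hGx t (b := fun i : ℕ => if i = 0 then B none else
        (B ∘ vx m) (some (c (i - 1)))) rfl (fun l hl => by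
        rw [cx'_lt hl, if_neg (Nat.succ_ne_zero l)]
        rfl) hv k,
      jetp_val hc hGw t (b := fun i : ℕ => if i = 0 then B none else
        (B ∘ vx m) (some (c (i - 1)))) rfl (fun l hl => by
        rw [if_neg (Nat.succ_ne_zero l)]
        rfl) hv k, sy_Gx]
  refine ⟨(bk_deg c Q).trans hd, bk_dep hv, h.pos, ?_, ?_⟩
  · obtain ⟨b, hb, hbS⟩ := h.att
    refine ⟨b ∘ vx m, (nbx_Gw le_rfl).2 ((nbx_Gx le_rfl).1 hb), ?_⟩
    have h1 := hval b 1
    simp only [Function.iterate_one] at h1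
    rw [← h1]
    exact hbS
  · intro b hb k
    obtain ⟨B, hB⟩ : ∃ B : Option (Fin (m + 1)) → ℝ, B = fun o =>
      o.elim (b none) (fun i => sn (fun j => b (some j)) 0 i) := ⟨_, rfl⟩
    have hBb : B ∘ vx m = b := by
      funext o
      rw [hB]
      rcases o with _ | j
      · rfl
      · exact sn_cs (fun j => b (some j)) 0 j
    have h1 := h.jet B ((nbx_Gx le_rfl).2 (by rw [hBb]; exact (nbx_Gw le_rfl).1 hb)) k
    rw [hval B k, hBb] at h1
    exact h1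

/-! ### Chains -/

section chain

variable {F : Fam m J} {c : ℕ → Fin m} {r : ℕ} {Kv : ℕ → ℕ} {W e sg : ℕ} {g : ℕ → ℕ}
  {A : F.Ω → Prop} {G : PtT F → ℕ → MvPolynomial (Option (Fin m)) ℝ}
  {H : LnT F → ℕ → MvPolynomial (Option (Fin m)) ℝ}

theorem bt_vx (F : Fam m J) (j : Fin m) (sg : ℕ) (ω : F.Ω) :
    (bt (exF F j sg) ω) ∘ vx m = bt F ω := by
  funext o
  rcases o with _ | i
  · rfl
  · show (exF F j sg).x ω (Fin.castSucc i) = F.x ω i
    rw [exF_x, sn_cs]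

/-- **The chain in the extended family.** -/
theorem ch_ext (hV : ChOK F c r Kv W W e g A G H)
    (hpos : ∀ ω, A ω → |F.x ω (c r) - eval (bt F ω) (G (ptr F J ω) r)| ≤ 2 ^ sg / 2 ^ g r)
    (hagr : ∀ ω, A ω → ∀ b : Option (Fin m) → ℝ, NBx c (G (ptr F J ω)) g W (F.t ω) r b →
      |eval b (G (ptr F J ω) r) - eval b (H (slam F W ω) r)| ≤ 2 ^ sg / 2 ^ g r)
    (hlip : ∀ ω, A ω → ∀ b : Option (Fin m) → ℝ, NBx c (G (ptr F J ω)) g W (F.t ω) r b →
      ∀ l < r, |eval b (pderiv (some (c l)) (G (ptr F J ω) r))| ≤ 2 ^ sg * 2 ^ (e + nlp g l r)) :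
    ChOK (exF F (c r) sg) (cx' c r) (r + 1) Kv W W e g A
      (fun y => Gx sg r (G (rP F (c r) sg y))) (fun s => Gx sg r (H (rL F (c r) sg s))) := by
  have p2 : (0 : ℝ) < 2 ^ sg := by positivity
  have hone : ∀ y : ℝ, 1 / 2 ^ sg * (2 ^ sg * y) = y := by
    intro y
    field_simp
  have hwt : ∀ x y : ℝ, |x| ≤ 2 ^ sg * y → |1 / 2 ^ sg * x| ≤ y := by
    intro x y hxy
    rw [abs_mul, abs_of_pos (by positivity : (0 : ℝ) < 1 / 2 ^ sg)]
    calc 1 / 2 ^ sg * |x| ≤ 1 / 2 ^ sg * (2 ^ sg * y) :=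
          mul_le_mul_of_nonneg_left hxy (by positivity)
      _ = y := hone y
  have hP : ∀ ω : F.Ω, rP F (c r) sg (ptr (exF F (c r) sg) J ω) = ptr F J ω := by
    intro ω
    rw [exF_ptr, rP_eP]
  have hL : ∀ ω : F.Ω, rL F (c r) sg (slam (exF F (c r) sg) W ω) = slam F W ω := by
    intro ω
    rw [exF_slam, rL_eL]
  refine ⟨fun y i => Gx_deg (hV.degG _ i), fun y i => Gx_deg (hV.degH _ i),
    fun y i => Gx_dep (hV.depG _ i), fun y i => Gx_dep (hV.depH _ i), ?_, ?_, ?_⟩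
  · intro ω hω i hi
    rw [hP ω, Gx_eval (by omega), bt_vx F (c r) sg ω, exF_x F (c r) sg ω]
    rcases Nat.lt_or_ge i r with h1 | h1
    · rw [Gw_lt h1, cx'_lt h1, sn_cs]
      exact hV.pos ω hω i h1
    · have h2 : i = r := by omega
      rw [h2, Gw_r, cx'_r, sn_last, map_mul, eval_C]
      have h3 : F.x ω (c r) / 2 ^ sg - 1 / 2 ^ sg * eval (bt F ω) (G (ptr F J ω) r) =
          1 / 2 ^ sg * (F.x ω (c r) - eval (bt F ω) (G (ptr F J ω) r)) := by ring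
      rw [h3]
      refine hwt _ _ ?_
      rw [← div_eq_mul_one_div]
      exact hpos ω hω
  · intro ω hω i hi b hb
    rw [hP ω] at hb ⊢
    rw [hL ω]
    have hb' := (nbx_Gx (by omega)).1 hb
    rw [Gx_eval (by omega), Gx_eval (by omega)]
    rcases Nat.lt_or_ge i r with h1 | h1
    · rw [Gw_lt h1, Gw_lt h1]
      exact hV.agr ω hω i h1 _ hb'
    · have h2 : i = r := by omega
      rw [h2] at hb' ⊢
      rw [Gw_r, Gw_r, map_mul, map_mul, eval_C, ← mul_sub]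
      refine hwt _ _ ?_
      rw [← div_eq_mul_one_div]
      exact hagr ω hω _ hb'
  · intro ω hω i hi b hb l hl
    rw [hP ω] at hb ⊢
    have hb' := (nbx_Gx (by omega)).1 hb
    rw [Gx_pd (by omega) hl]
    rcases Nat.lt_or_ge i r with h1 | h1
    · rw [Gw_lt h1]
      exact hV.lip ω hω i h1 _ hb' l hl
    · have h2 : i = r := by omega
      rw [h2] at hb' hl ⊢
      rw [Gw_r, pderiv_C_mul, map_mul, eval_C]
      exact hwt _ _ (hlip ω hω _ hb' l hl)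

end chain

/-- **Closed labels on natural boxes**, with the weight `2 ^ (-sg)` for the last coordinate. -/
structure NLabW (F : Fam m J) (c : ℕ → Fin m) (r W sg : ℕ) (g : ℕ → ℕ) (K : ℕ) (L : ℝ)
    (B : F.Ω → Prop) {V : Type} (z : PtT F → V) (z' : LnT F → V) (P : V → ℕ → PN) : Prop where
  deg : ∀ v i, (P v i).totalDegree ≤ K
  tri : ∀ v, TriN (P v)
  cls : ∀ ω, B ω → z (ptr F J ω) = z' (slam F W ω)
  zero : ∀ ω, B ω → P (z (ptr F J ω)) 0 = MvPolynomial.C ((F.T1 W ω : ℝ) / 2 ^ W)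
  pos : ∀ ω, B ω → ∀ i < r, |px c (ptr F J ω) (i + 1) -
    eval (px c (ptr F J ω)) (P (z (ptr F J ω)) (i + 1))| ≤ 1 / 2 ^ g i
  posN : ∀ ω, B ω → |px c (ptr F J ω) (r + 1) / 2 ^ sg -
    eval (px c (ptr F J ω)) (P (z (ptr F J ω)) (r + 1))| ≤ 1 / 2 ^ g r + 1 / 2 ^ J
  grad : ∀ ω, B ω → ∀ b : ℕ → ℝ, CLO.Bxr 4 (wid W g) (P (z (ptr F J ω))) (r + 1) b →
    ∀ i ≤ r + 1, ∀ l < i, |eval b (pderiv l (P (z (ptr F J ω)) i))| ≤ L

theorem px_ext {F : Fam m J} {c : ℕ → Fin m} {r sg : ℕ} (ξ : PtT F) {i : ℕ} (hi : i < r + 1) :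
    px (cx' c r) (eP F (c r) sg ξ) i = px c ξ i := by
  unfold px
  by_cases h0 : i = 0
  · rw [if_pos h0, if_pos h0]
    rfl
  · rw [if_neg h0, if_neg h0, cx'_lt (by omega)]
    show ((sn ξ.1 (ξ.1 (c r) / 2 ^ sg) (Fin.castSucc (c (i - 1))) : ℤ) : ℝ) / 2 ^ J = _
    rw [sn_cs]

theorem px_ext_r {F : Fam m J} {c : ℕ → Fin m} {r sg : ℕ} (ξ : PtT F) :
    |px (cx' c r) (eP F (c r) sg ξ) (r + 1) - px c ξ (r + 1) / 2 ^ sg| ≤ 1 / 2 ^ J := by
  have e1 : px (cx' c r) (eP F (c r) sg ξ) (r + 1) = ((ξ.1 (c r) / 2 ^ sg : ℤ) : ℝ) / 2 ^ J := by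
    rw [px_succ, cx'_r]
    show ((sn ξ.1 (ξ.1 (c r) / 2 ^ sg) (Fin.last m) : ℤ) : ℝ) / 2 ^ J = _
    rw [sn_last]
  have pJ : (0 : ℝ) < 2 ^ J := by positivity
  have p2 : (0 : ℝ) < 2 ^ sg := by positivity
  have h0 : (0 : ℤ) < 2 ^ sg := by positivity
  have h1 : ξ.1 (c r) / 2 ^ sg * 2 ^ sg ≤ ξ.1 (c r) := Int.ediv_mul_le _ h0.ne'
  have h2 : ξ.1 (c r) < (ξ.1 (c r) / 2 ^ sg + 1) * 2 ^ sg :=
    Int.lt_ediv_add_one_mul_self (ξ.1 (c r)) h0
  have h1' : (((ξ.1 (c r) / 2 ^ sg : ℤ)) : ℝ) * 2 ^ sg ≤ (ξ.1 (c r) : ℝ) := by exact_mod_cast h1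
  have h2' : ((ξ.1 (c r) : ℝ)) < ((((ξ.1 (c r) / 2 ^ sg : ℤ)) : ℝ) + 1) * 2 ^ sg := by
    exact_mod_cast h2
  rw [e1, px_succ, div_div, mul_comm ((2 : ℝ) ^ J), ← div_div, ← sub_div, abs_div, abs_of_pos pJ]
  refine div_le_div_of_nonneg_right ?_ pJ.le
  rw [← le_div_iff₀ p2] at h1'
  rw [← div_lt_iff₀ p2] at h2'
  rw [abs_le]
  constructor <;> linarith

/-- **Closed labels with jets in a class, with a steep label for the last coordinate.** The weight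
`2 ^ (-sg)` is arbitrary; `2 ^ (-g' r)` is the precision of `2 ^ (-sg) x_(c r)`. -/
theorem m3f_clsw (r : ℕ) : ∃ D : ℕ, ∀ K : ℕ, ∃ (sh sh₂ K' : ℕ) (S₀ E : ℝ), sh ≤ sh₂ ∧ 1 ≤ K' ∧
    1 ≤ S₀ ∧ 1 ≤ E ∧ ∀ {m : ℕ} (S : PCl m),
    (∀ (τ : ℝ) (J : ℕ) (F : Fam m J) (A : F.Ω → Prop), S.St τ J F A →
      F.Tr ∧ F.Tm (τ * J) ∧ F.Rb (τ * J) ∧ Real.exp (-(τ * J)) ≤ Pe F.p A) →
    ∀ (c : ℕ → Fin m) (w : ℝ) (g : ℕ → ℝ) (γ : ℝ), Inj c (r + 1) → 0 ≤ w → 0 < γ →
    (∀ l ≤ r, w ≤ g l) → (∀ l ≤ r, γ ≤ g l) → (∀ l l', l ≤ l' → l' ≤ r → g l ≤ g l') →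
    (∀ l < r, g l + 2 * γ ≤ g r) → w + 2 * γ ≤ g r → g r ≤ 1 →
    (∀ ρ : ℝ, 0 < ρ → ExvY S w (fun J F ω (i : Fin r) => F.X J ω (c i))
      ((∑ l ∈ range r, (1 - g l)) - ρ)) →
    ∀ δ : ℝ, 0 < δ → ∃ φ : ℝ, 0 < φ ∧ Bas S (fun J F A => ∀ (e sg : ℕ) (g' Kv : ℕ → ℕ)
      (G : PtT F → ℕ → MvPolynomial (Option (Fin m)) ℝ)
      (H : LnT F → ℕ → MvPolynomial (Option (Fin m)) ℝ),
      (∀ l ≤ r, |(g' l : ℝ) - g l * J| ≤ φ * J) → (e : ℝ) ≤ φ * J → (∀ i < r + 1, Kv i ≤ K) →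
      ChOK F c r Kv ⌊w * J⌋₊ ⌊w * J⌋₊ e g' A G H →
      (∀ ω, A ω → |F.x ω (c r) - eval (bt F ω) (G (ptr F J ω) r)| ≤ 2 ^ sg / 2 ^ g' r) →
      (∀ ω, A ω → ∀ b : Option (Fin m) → ℝ, NBx c (G (ptr F J ω)) g' ⌊w * J⌋₊ (F.t ω) r b →
        |eval b (G (ptr F J ω) r) - eval b (H (slam F ⌊w * J⌋₊ ω) r)| ≤ 2 ^ sg / 2 ^ g' r) →
      (∀ ω, A ω → ∀ b : Option (Fin m) → ℝ, NBx c (G (ptr F J ω)) g' ⌊w * J⌋₊ (F.t ω) r b →
        ∀ l < r, |eval b (pderiv (some (c l)) (G (ptr F J ω) r))| ≤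
          2 ^ sg * 2 ^ (e + nlp g' l r)) →
      ∃ (g₂ g'' : ℕ → ℕ) (B : F.Ω → Prop) (L : ℝ) (V : Type) (z : PtT F → V) (z' : LnT F → V)
        (P : V → ℕ → PN) (Q : V → PN) (T : V → ℝ) (k : V → ℕ),
        (∀ l < r, g'' l = g' l) ∧ g'' r ≤ g' r ∧ (∀ l < r, g₂ l = g' l - sh) ∧
        (∀ l < r, sh ≤ g' l) ∧ g₂ r + sh₂ = g'' r ∧ (g r - δ) * J ≤ g₂ r ∧ g'' r ≤ J ∧
        (∀ ω, B ω → A ω) ∧ Pe F.p A ≤ 4 * (K' * 5 ^ (m + 1)) * Pe F.p B ∧ 0 ≤ L ∧
        Real.log (1 + L) ≤ δ * J ∧ NLabW F c r ⌊w * J⌋₊ sg g₂ K' L B z z' P ∧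
        ∀ ω, B ω → Nr K' S₀ (gg ⌊w * J⌋₊ g'') (P (z (ptr F J ω)))
            (sy c (r + 1) ((F.T1 ⌊w * J⌋₊ ω : ℝ) / 2 ^ ⌊w * J⌋₊) (Gw sg r (G (ptr F J ω))))
            (r + 2) ∧
          (k (z (ptr F J ω)) : ℝ) ≤ δ * J ∧
          Jet r D (wid ⌊w * J⌋₊ g₂) (P (z (ptr F J ω))) (Q (z (ptr F J ω)))
            (2 ^ k (z (ptr F J ω)) / 2 ^ g₂ r) (T (z (ptr F J ω))) ∧
          JetP c r D (Gw sg r (G (ptr F J ω))) g' ⌊w * J⌋₊ (F.t ω) (bk c (Q (z (ptr F J ω))))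
            (2 ^ k (z (ptr F J ω)) / 2 ^ g₂ r) (4 / 3 * T (z (ptr F J ω))) E) := by
  classical
  obtain ⟨D, hD⟩ := m3f_cls r
  refine ⟨D, fun K => ?_⟩
  obtain ⟨sh, sh₂, K', S₀, E, hsh₂, hK', hS₀, hE, hcls⟩ := hD K
  refine ⟨sh, sh₂, K', S₀, E, hsh₂, hK', hS₀, hE, ?_⟩
  intro m S hmem c w g γ hc hw hγ hwg hγg hsort hgap hwgap hgr hex δ hδ
  have hcr : Inj c r := fun l hl l' hl' e => hc l (by omega) l' (by omega) e
  obtain ⟨φ, hφ, τ, hτ, J₀, hmain⟩ := hcls (exS S (c r)) (by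
      intro τ J F' A' h
      cases h with
      | mk F sg A h =>
        obtain ⟨h1, h2, h3, h4⟩ := hmem τ J F A h
        exact ⟨h1, exF_Tm (c r) sg h2, exF_Rb (c r) sg h3, h4⟩)
    (cx' c r) w g γ (cx'_inj hcr) hw hγ hwg hγg hsort hgap hwgap hgr (by
      intro ρ hρ
      obtain ⟨τe, hτe, Je, hexe⟩ := hex ρ hρ
      refine ⟨τe, hτe, Je, ?_⟩
      intro J hJ F' A' h
      cases h with
      | mk F sg A h =>
        intro V z z' hz
        have h1 := hexe J hJ F A h V (fun ξ => z (eP F (c r) sg ξ)) (fun s => z' (eL F (c r) sg s))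
          (fun ω hω => by
            have h2 := hz ω hω
            rw [exF_ptr, exF_slam] at h2
            exact h2)
        have h3 : (fun (ω : F.Ω) (i : Fin r) => F.X J ω (c i)) =
            fun ω (i : Fin r) => (exF F (c r) sg).X J ω (cx' c r i) := by
          funext ω i
          rw [exF_X, cx'_lt i.2, sn_cs]
        beta_reduce at h1
        rw [h3] at h1
        exact h1) δ hδ
  refine ⟨φ, hφ, τ, hτ, J₀, ?_⟩
  intro J hJ F A hS e sg g' Kv G H hg' he hKv hCh hpos hagr hlip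
  obtain ⟨g₂, g'', B, L, V, z, z', P, Q, T, k, h1, h2, h3, h4, h5, h6, h7, h8, h9, h10, h11, hN,
    hB⟩ := hmain J hJ (exF F (c r) sg) A (ExSt.mk F sg A hS) e g' Kv _ _ hg' he hKv
      (ch_ext hCh hpos hagr hlip)
  have hz : ∀ ω : F.Ω, z (ptr (exF F (c r) sg) J ω) = z (eP F (c r) sg (ptr F J ω)) := by
    intro ω
    rw [exF_ptr]
  have hrP : ∀ ω : F.Ω, rP F (c r) sg (ptr (exF F (c r) sg) J ω) = ptr F J ω := by
    intro ω
    rw [exF_ptr, rP_eP]
  refine ⟨g₂, g'', B, L, V, fun ξ => z (eP F (c r) sg ξ), fun s => z' (eL F (c r) sg s), P, Q, T,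
    k, h1, h2, h3, h4, h5, h6, h7, h8, h9, h10, h11, ?_, ?_⟩
  · refine ⟨hN.deg, hN.tri, fun ω hω => ?_, fun ω hω => ?_, fun ω hω i hi => ?_,
      fun ω hω => ?_, fun ω hω b hb => ?_⟩
    · have := hN.cls ω hω
      rw [hz ω] at this
      exact this
    · have := hN.zero ω hω
      rw [hz ω] at this
      exact this
    · have h12 := hN.pos ω hω i hi.le
      rw [hz ω, exF_ptr, px_ext _ (by omega)] at h12
      have h13 : eval (px (cx' c r) (eP F (c r) sg (ptr F J ω)))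
          (P (z (eP F (c r) sg (ptr F J ω))) (i + 1)) = eval (px c (ptr F J ω))
          (P (z (eP F (c r) sg (ptr F J ω))) (i + 1)) :=
        eval_cg (hN.tri _ (i + 1)) fun j hj => px_ext _ (by omega)
      rw [h13] at h12
      exact h12
    · have h12 := hN.pos ω hω r le_rfl
      rw [hz ω, exF_ptr] at h12
      have h13 : eval (px (cx' c r) (eP F (c r) sg (ptr F J ω)))
          (P (z (eP F (c r) sg (ptr F J ω))) (r + 1)) = eval (px c (ptr F J ω))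
          (P (z (eP F (c r) sg (ptr F J ω))) (r + 1)) :=
        eval_cg (hN.tri _ (r + 1)) fun j hj => px_ext _ hj
      rw [h13] at h12
      have h14 := px_ext_r (c := c) (r := r) (sg := sg) (ptr F J ω)
      rw [abs_le] at h12 h14 ⊢
      constructor <;> linarith [h12.1, h12.2, h14.1, h14.2]
    · have := hN.grad ω hω b
      rw [hz ω] at this
      exact this hb
  · intro ω hω
    obtain ⟨h12, h13, h14, h15⟩ := hB ω hω
    have h16 : Gs (cx' c r) (r + 1) ⌊w * J⌋₊ (fun y => Gx sg r (G (rP F (c r) sg y)))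
        (ptr (exF F (c r) sg) J ω) = sy c (r + 1) ((F.T1 ⌊w * J⌋₊ ω : ℝ) / 2 ^ ⌊w * J⌋₊)
        (Gw sg r (G (ptr F J ω))) := by
      unfold Gs
      simp only
      rw [hrP ω, sy_Gx]
      rfl
    rw [h16, hz ω] at h12
    rw [hrP ω, hz ω] at h15
    rw [hz ω] at h13 h14
    exact ⟨h12, h13, h14, jetp_Gx hc (hCh.depG _) h14.vars h14.deg h15⟩

end Pool.M3F
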