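import Pool.Agent.H5.M3F.M3c

/-!
# Jets for several levels at once

`m3f_all`: from chains of two-sided labels on a large event of a class to closed labels on natural
boxes, together with jets of all the levels in a given set, all for the same closed labels.
-/

set_option autoImplicit false

namespace Pool.M3F

open Finset Real MvPolynomial
open Pool.Agent.H49.Ent Pool.Agent.H32.Dense Pool.STK Pool.KA Pool.KSAT Pool.K2S Pool.KS3 Pool.PB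
  Pool.STAT Pool.STAT.CLO Pool.GEN Pool.S6C

variable {m J : ℕ}

/-- A point of a box of a shorter system extends to a point of the box. -/
theorem bxr_ext {g : ℕ → ℕ} {Φ : ℕ → PN} (hΦ : TriN Φ) {ρ : ℝ} (hρ : 0 ≤ ρ) {n : ℕ} {b : ℕ → ℝ}
    (hb : Bxr ρ g Φ n b) (n' : ℕ) : ∃ b' : ℕ → ℝ, (∀ j < n, b' j = b j) ∧ Bxr ρ g Φ n' b' := by
  obtain ⟨y, hy⟩ : ∃ y : ℕ → ℝ, y = fun j => if j < n then nc g Φ b j else 0 := ⟨_, rfl⟩
  refine ⟨fun j => eval y (nuc g Φ j), fun j hj => ?_, box_nuc hΦ g y fun j _ => ?_⟩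
  · have h1 : eval y (nuc g Φ j) = eval (nc g Φ b) (nuc g Φ j) := by
      refine eval_cg (AdxRow.nuc_vars hΦ g j) fun i hi => ?_
      rw [hy]
      exact if_pos (by omega)
    show eval y (nuc g Φ j) = b j
    rw [h1]
    exact AdxRow.nuc_eval hΦ g b j
  · rw [hy]
    by_cases hj : j < n
    · simp only [if_pos hj]
      exact nc_le.2 (hb j hj)
    · simp only [if_neg hj, abs_zero]
      exact hρ

/-- The labels of a shorter chain. -/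
theorem NLab.short {F : Fam m J} {c : ℕ → Fin m} {r W : ℕ} {g g₂ : ℕ → ℕ} {K : ℕ} {L : ℝ}
    {B B' : F.Ω → Prop} {V : Type} {z : PtT F → V} {z' : LnT F → V} {P : V → ℕ → PN}
    (h : NLab F c r W g K L B z z' P) {i : ℕ} (hi : i ≤ r) (hg : ∀ l < i, g₂ l = g l)
    (hr : g₂ i ≤ g i) (hB : ∀ ω, B' ω → B ω) : NLab F c i W g₂ K L B' z z' P := by
  have hw : ∀ j < i + 1, wid W g₂ j = wid W g j := by
    intro j hj
    unfold wid
    by_cases h0 : j = 0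
    · rw [if_pos h0, if_pos h0]
    · rw [if_neg h0, if_neg h0, hg (j - 1) (by omega)]
  refine ⟨h.deg, h.tri, fun ω hω => h.cls ω (hB ω hω), fun ω hω => h.zero ω (hB ω hω), ?_, ?_⟩
  · intro ω hω l hl
    refine (h.pos ω (hB ω hω) l (by omega)).trans ?_
    refine one_div_le_one_div_of_le (by positivity) (pow_le_pow_right₀ (by norm_num) ?_)
    rcases Nat.lt_or_ge l i with h1 | h1
    · rw [hg l h1]
    · have h2 : l = i := by omega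
      rw [h2]
      exact hr
  · intro ω hω b hb j hj l hl
    have hb1 : Bxr 4 (wid W g) (P (z (ptr F J ω))) (i + 1) b := fun j hj => by
      rw [← hw j hj]
      exact hb j hj
    obtain ⟨b', hb'1, hb'2⟩ := bxr_ext (h.tri _) (by norm_num) hb1 (r + 1)
    have h1 := h.grad ω (hB ω hω) b' hb'2 j (by omega) l hl
    have h2 : eval b' (pderiv l (P (z (ptr F J ω)) j)) =
        eval b (pderiv l (P (z (ptr F J ω)) j)) :=
      eval_cg ((NEAR.vars_pd _ _).trans (h.tri _ j)) fun k hk => hb'1 k (by omega)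
    rw [← h2]
    exact h1

theorem Jet.congr {r D : ℕ} {wd wd' : ℕ → ℕ} {P : ℕ → PN} {Q : PN} {ρ S : ℝ}
    (h : Jet r D wd P Q ρ S) (hw : ∀ j < r + 1, wd j = wd' j) : Jet r D wd' P Q ρ S := by
  have h1 : ∀ b, Bxr 2 wd P (r + 1) b ↔ Bxr 2 wd' P (r + 1) b := by
    intro b
    constructor
    · intro hb j hj
      rw [← hw j hj]
      exact hb j hj
    · intro hb j hj
      rw [hw j hj]
      exact hb j hj
  obtain ⟨b, hb, hbS⟩ := h.att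
  exact ⟨h.deg, h.vars, h.pos, ⟨b, (h1 b).1 hb, hbS⟩, fun b hb => h.jet b ((h1 b).2 hb)⟩

theorem Jet.deg_mono {r D D' : ℕ} {wd : ℕ → ℕ} {P : ℕ → PN} {Q : PN} {ρ S : ℝ}
    (h : Jet r D wd P Q ρ S) (hD : D ≤ D') : Jet r D' wd P Q ρ S :=
  ⟨h.deg.trans hD, h.vars, h.pos, h.att, h.jet⟩

theorem JetP.mono {c : ℕ → Fin m} {r D D' : ℕ} {G : ℕ → MvPolynomial (Option (Fin m)) ℝ}
    {g : ℕ → ℕ} {a : ℕ} {t : ℝ} {Q : MvPolynomial (Option (Fin m)) ℝ} {ρ S E E' : ℝ}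
    (h : JetP c r D G g a t Q ρ S E) (hD : D ≤ D') (hE : E ≤ E') :
    JetP c r D' G g a t Q ρ S E' := by
  obtain ⟨b, hb, hbS⟩ := h.att
  exact ⟨h.deg.trans hD, h.dep, h.pos, ⟨b, hb, hbS.trans
    (mul_le_mul_of_nonneg_right hE (abs_nonneg _))⟩, h.jet⟩

theorem sy_short {c : ℕ → Fin m} {G : ℕ → MvPolynomial (Option (Fin m)) ℝ} {t : ℝ} {n n' j : ℕ}
    (hn : n ≤ n') (hj : j ≤ n) : sy c n t G j = sy c n' t G j := by
  unfold sy
  by_cases h0 : j = 0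
  · rw [if_pos h0, if_pos h0]
  · rw [if_neg h0, if_neg h0, if_pos hj, if_pos (hj.trans hn)]

theorem nr_short {c : ℕ → Fin m} {G : ℕ → MvPolynomial (Option (Fin m)) ℝ} {t : ℝ} {K : ℕ}
    {S : ℝ} {g : ℕ → ℕ} {P : ℕ → PN} {r i : ℕ} (hi : i ≤ r)
    (h : Nr K S g P (sy c (r + 1) t G) (r + 2)) : Nr K S g P (sy c (i + 1) t G) (i + 2) := by
  refine ⟨?_, fun j h1 h2 ρ hρ b hb => ?_⟩
  · rw [sy_short (n' := r + 1) (by omega) (Nat.zero_le _)]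
    exact h.1
  · rw [sy_short (n' := r + 1) (by omega) (by omega)]
    refine h.2 j h1 (by omega) ρ hρ b fun l hl => ?_
    rw [← sy_short (n := i + 1) (by omega) (by omega)]
    exact hb l hl

/-- The output of `m3f_nlab` for one level. -/
def T1P (c : ℕ → Fin m) (w : ℝ) (g : ℕ → ℝ) (D K : ℕ) (γ δ : ℝ) (i : ℕ) (φ : ℝ) : Stat m :=
  fun J F A => ∀ (g' : ℕ → ℕ) (L : ℝ) (V : Type) (z : PtT F → V) (z' : LnT F → V)
    (P : V → ℕ → PN),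
    (∀ l < i, (g l - φ) * J ≤ g' l) → (∀ l < i, (g' l : ℝ) + γ * J ≤ g' i) →
    (w + γ) * J ≤ g' i → g' i ≤ J → 0 ≤ L → Real.log (1 + L) ≤ φ * J →
    NLab F c i ⌊w * J⌋₊ g' K L A z z' P →
    ∃ ω, A ω ∧ 0 < F.p ω ∧ ∃ (Q : PN) (S : ℝ) (k : ℕ), (k : ℝ) ≤ δ * J ∧
      Jet i D (wid ⌊w * J⌋₊ g') (P (z (ptr F J ω))) Q (2 ^ k / 2 ^ g' i) S

theorem T1P.mono {c : ℕ → Fin m} {w : ℝ} {g : ℕ → ℝ} {D K : ℕ} {γ δ : ℝ} {i : ℕ} {φ φ' : ℝ}
    {J : ℕ} {F : Fam m J} {A : F.Ω → Prop} (h : T1P c w g D K γ δ i φ J F A) (hφ : φ' ≤ φ) :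
    T1P c w g D K γ δ i φ' J F A := by
  intro g' L V z z' P h1 h2 h3 h4 h5 h6 h7
  have h8 : φ' * J ≤ φ * J := mul_le_mul_of_nonneg_right hφ (Nat.cast_nonneg J)
  exact h g' L V z z' P (fun l hl => by
    have := h1 l hl
    linarith) h2 h3 h4 h5 (h6.trans h8) h7

/-- All the levels of a finite set at once. -/
theorem T1P.all {S : PCl m} {c : ℕ → Fin m} {w : ℝ} {g : ℕ → ℝ} {D : ℕ → ℕ} {K : ℕ} {γ δ : ℝ}
    (I : Finset ℕ) (h : ∀ i ∈ I, ∃ φ : ℝ, 0 < φ ∧ Bas S (T1P c w g (D i) K γ δ i φ)) :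
    ∃ φ : ℝ, 0 < φ ∧ Bas S (fun J F A => ∀ i ∈ I, T1P c w g (D i) K γ δ i φ J F A) := by
  classical
  induction I using Finset.induction_on with
  | empty => exact ⟨1, one_pos, 1, one_pos, 0, fun J _ F A _ i hi => absurd hi (notMem_empty i)⟩
  | insert a I ha ih =>
    obtain ⟨φ₁, h₁, b₁⟩ := h a (mem_insert_self a I)
    obtain ⟨φ₂, h₂, b₂⟩ := ih fun i hi => h i (mem_insert_of_mem hi)
    obtain ⟨τ, hτ, J₀, hJ⟩ := b₁.and b₂
    refine ⟨min φ₁ φ₂, lt_min h₁ h₂, τ, hτ, J₀, fun J hJ0 F A hS i hi => ?_⟩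
    obtain ⟨c₁, c₂⟩ := hJ J hJ0 F A hS
    rcases mem_insert.1 hi with rfl | hi'
    · exact c₁.mono (min_le_left _ _)
    · exact (c₂ i hi').mono (min_le_right _ _)

/-- **Jets for several levels at once.** -/
theorem m3f_all (r : ℕ) : ∃ D : ℕ, ∀ K : ℕ, ∃ (sh K' : ℕ) (S₀ E : ℝ), 1 ≤ K' ∧ 1 ≤ S₀ ∧
    1 ≤ E ∧ ∀ {m : ℕ} (S : PCl m),
    (∀ (τ : ℝ) (J : ℕ) (F : Fam m J) (A : F.Ω → Prop), S.St τ J F A →
      F.Tr ∧ F.Tm (τ * J) ∧ F.Rb (τ * J) ∧ Real.exp (-(τ * J)) ≤ Pe F.p A) →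
    ∀ (c : ℕ → Fin m) (w : ℝ) (g : ℕ → ℝ) (γ : ℝ) (I : Finset ℕ), Inj c (r + 1) → 0 ≤ w →
    0 < γ → w + γ ≤ 1 → (∀ l ≤ r, w ≤ g l) → (∀ l ≤ r, γ ≤ g l) →
    (∀ l l', l ≤ l' → l' ≤ r → g l ≤ g l') → (∀ l < r, g l + γ ≤ 1) → g r ≤ 1 →
    (∀ i ∈ I, i ≤ r ∧ w + 2 * γ ≤ g i ∧ ∀ l < i, g l + 2 * γ ≤ g i) →
    (∀ ρ : ℝ, 0 < ρ → ExvY S w (fun J F ω (i : Fin r) => F.X J ω (c i))
      ((∑ l ∈ range r, (1 - g l)) - ρ)) →
    (∀ i ∈ I, ∀ ρ : ℝ, 0 < ρ → ExvY S w (fun J F ω (l : Fin i) => F.X J ω (c l))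
      ((∑ l ∈ range i, (1 - g l)) - ρ)) →
    ∀ δ : ℝ, 0 < δ → ∃ φ : ℝ, 0 < φ ∧ Bas S (fun J F A => ∀ (e : ℕ) (g' Kv : ℕ → ℕ)
      (G : PtT F → ℕ → MvPolynomial (Option (Fin m)) ℝ)
      (H : LnT F → ℕ → MvPolynomial (Option (Fin m)) ℝ),
      (∀ l ≤ r, |(g' l : ℝ) - g l * J| ≤ φ * J) → (e : ℝ) ≤ φ * J → (∀ i < r + 1, Kv i ≤ K) →
      ChOK F c (r + 1) Kv ⌊w * J⌋₊ ⌊w * J⌋₊ e g' A G H →
      ∃ (g'' : ℕ → ℕ) (B : F.Ω → Prop) (L : ℝ) (V : Type) (z : PtT F → V) (z' : LnT F → V)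
        (P : V → ℕ → PN) (Q : ℕ → V → PN) (T : ℕ → V → ℝ) (k : ℕ → V → ℕ),
        (∀ l < r, g'' l = g' l) ∧ g'' r ≤ g' r ∧ (g r - δ) * J ≤ g'' r ∧ g'' r ≤ J ∧
        (∀ l ≤ r, sh ≤ g'' l) ∧ (∀ ω, B ω → A ω) ∧ Pe F.p A ≤ 4 * (K' * 5 ^ m) * Pe F.p B ∧
        0 ≤ L ∧ Real.log (1 + L) ≤ δ * J ∧
        NLab F c r ⌊w * J⌋₊ (fun l => g'' l - sh) K' L B z z' P ∧
        ∀ ω, B ω → Nr K' S₀ (gg ⌊w * J⌋₊ g'') (P (z (ptr F J ω)))
            (Gs c (r + 1) ⌊w * J⌋₊ G (ptr F J ω)) (r + 2) ∧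
          ∀ i ∈ I, (k i (z (ptr F J ω)) : ℝ) ≤ δ * J ∧
            Jet i D (wid ⌊w * J⌋₊ (fun l => g'' l - sh)) (P (z (ptr F J ω)))
              (Q i (z (ptr F J ω))) (2 ^ k i (z (ptr F J ω)) / 2 ^ g'' i)
              (T i (z (ptr F J ω))) ∧
            JetP c i D (G (ptr F J ω)) g' ⌊w * J⌋₊ (F.t ω) (bk c (Q i (z (ptr F J ω))))
              (2 ^ k i (z (ptr F J ω)) / 2 ^ g'' i) (4 / 3 * T i (z (ptr F J ω))) E) := by
  classical
  -- the degrees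
  obtain ⟨Di, hDi⟩ : ∃ Di : ℕ → ℕ, ∀ i, ∀ {m : ℕ} (S : PCl m),
      (∀ (τ : ℝ) (J : ℕ) (F : Fam m J) (A : F.Ω → Prop), S.St τ J F A →
        F.Tr ∧ F.Tm (τ * J) ∧ F.Rb (τ * J) ∧ Real.exp (-(τ * J)) ≤ Pe F.p A) →
      ∀ (c : ℕ → Fin m) (w : ℝ) (g : ℕ → ℝ), 0 ≤ w → w ≤ 1 → (∀ l < i, w ≤ g l) →
      (∀ ρ : ℝ, 0 < ρ → ExvY S w (fun J F ω (l : Fin i) => F.X J ω (c l))
        ((∑ l ∈ range i, (1 - g l)) - ρ)) →
      ∀ (K : ℕ) (γ δ : ℝ), 0 < γ → 0 < δ → ∃ φ : ℝ, 0 < φ ∧ Bas S (T1P c w g (Di i) K γ δ i φ) := by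
    choose Di hDi using m3f_nlab
    exact ⟨Di, fun i => @hDi i⟩
  obtain ⟨D, hD⟩ : ∃ D, ∀ i ≤ r, Di i ≤ D :=
    ⟨(range (r + 1)).sup Di, fun i hi => Finset.le_sup (mem_range.2 (by omega))⟩
  refine ⟨D, fun K => ?_⟩
  obtain ⟨sh, K', S₀, hK', hS₀, hsh, hT2⟩ := nlab_class r K
  -- the point side
  obtain ⟨shi, Ei, hshi, hEi, hJPi⟩ : ∃ (shi : ℕ → ℕ) (Ei : ℕ → ℝ), (∀ i, sh ≤ shi i) ∧
      (∀ i, 1 ≤ Ei i) ∧ ∀ i, ∀ {m J : ℕ} (F : Fam m J) (c : ℕ → Fin m) (W : ℕ) (g g₂ : ℕ → ℕ)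
      (G : ℕ → MvPolynomial (Option (Fin m)) ℝ) (P : ℕ → PN) (ω : F.Ω) (Q : PN) (ρ S : ℝ),
      W ≤ J → Inj c (i + 1) → (∀ l < i + 1, (G l).totalDegree ≤ K) → (∀ l, DepC c l (G l)) →
      (∀ l < i, sh ≤ g l) → shi i ≤ g i → (∀ l < i, g₂ l = g l - sh) →
      Nr K' S₀ (gg W g) P (sy c (i + 1) ((F.T1 W ω : ℝ) / 2 ^ W) G) (i + 2) →
      1 / 2 ^ (g i - shi i) ≤ ρ → Jet i (Di i) (wid W g₂) P Q ρ S →
      JetP c i (Di i) G g W (F.t ω) (bk c Q) ρ (4 / 3 * S) (Ei i) := by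
    choose shi Ei h1 h2 h3 using fun i => jetp_of i (Di i) K K' sh S₀ hK' hS₀ hsh
    exact ⟨shi, Ei, h1, h2, fun i => @h3 i⟩
  obtain ⟨shm, hshm⟩ : ∃ shm, ∀ i ≤ r, shi i ≤ shm :=
    ⟨(range (r + 1)).sup shi, fun i hi => Finset.le_sup (mem_range.2 (by omega))⟩
  have hE0 : 0 ≤ ∑ i ∈ range (r + 1), Ei i :=
    Finset.sum_nonneg fun i _ => zero_le_one.trans (hEi i)
  obtain ⟨E, hE, hE1⟩ : ∃ E, (∀ i ≤ r, Ei i ≤ E) ∧ 1 ≤ E := by
    have h1 : ∀ i ≤ r, Ei i ≤ ∑ i ∈ range (r + 1), Ei i := fun i hi =>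
      Finset.single_le_sum (f := Ei) (fun j _ => zero_le_one.trans (hEi j))
        (mem_range.2 (by omega))
    exact ⟨_, h1, (hEi 0).trans (h1 0 (Nat.zero_le r))⟩
  refine ⟨sh, K', S₀, E, hK', hS₀, hE1, ?_⟩
  intro m S hmem c w g γ I hc hw hγ hwγ hwg hγg hsort hg1 hgr hI hex hexI δ hδ
  have hw1 : w ≤ 1 := by linarith
  obtain ⟨φ₁, hφ₁, τ₁, hτ₁, J₁, h1⟩ := T1P.all (S := S) (c := c) (w := w) (g := g) (D := Di)
    (K := K') (γ := γ) (δ := δ / 2) I (fun i hi => hDi i S hmem c w g hw hw1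
      (fun l hl => hwg l (by have := (hI i hi).1; omega)) (hexI i hi) K' γ (δ / 2) hγ
      (by positivity))
  obtain ⟨ψ, hψ⟩ : ∃ ψ : ℝ, ψ = min (φ₁ / 2) (min (δ / 2) (γ / 4)) := ⟨_, rfl⟩
  have hψ0 : 0 < ψ := by
    rw [hψ]
    exact lt_min (by positivity) (lt_min (by positivity) (by positivity))
  have hψ1 : ψ ≤ φ₁ / 2 := by
    rw [hψ]
    exact min_le_left _ _
  have hψ2 : ψ ≤ δ / 2 := by
    rw [hψ]
    exact (min_le_right _ _).trans (min_le_left _ _)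
  have hψ3 : ψ ≤ γ / 4 := by
    rw [hψ]
    exact (min_le_right _ _).trans (min_le_right _ _)
  obtain ⟨φ₂, hφ₂, τ₂, hτ₂, J₂, h2⟩ := hT2 S hmem c w g γ hc hw hγ hwγ hwg hγg hsort hg1 hgr
    hex ψ hψ0
  obtain ⟨φ, hφ⟩ : ∃ φ : ℝ, φ = min φ₂ ψ := ⟨_, rfl⟩
  have hφ0 : 0 < φ := by
    rw [hφ]
    exact lt_min hφ₂ hψ0
  have hφ1 : φ ≤ φ₂ := by
    rw [hφ]
    exact min_le_left _ _
  have hφψ : φ ≤ ψ := by
    rw [hφ]
    exact min_le_right _ _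
  obtain ⟨τ, hτ⟩ : ∃ τ : ℝ, τ = min τ₂ (τ₁ / 2) := ⟨_, rfl⟩
  have hτ0 : 0 < τ := by
    rw [hτ]
    exact lt_min hτ₂ (by positivity)
  have hτ1 : τ ≤ τ₂ := by
    rw [hτ]
    exact min_le_left _ _
  have hτ2 : τ + τ ≤ τ₁ := by
    have : τ ≤ τ₁ / 2 := by
      rw [hτ]
      exact min_le_right _ _
    linarith
  obtain ⟨C₃, hC₃⟩ : ∃ C₃ : ℝ, C₃ = 4 * (r + 1) * (K' * 5 ^ m) := ⟨_, rfl⟩
  obtain ⟨J₃, hJ₃⟩ := exists_nat_gt (Real.log C₃ / τ)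
  obtain ⟨J₄, hJ₄⟩ := exists_nat_gt ((shm : ℝ) / ψ)
  refine ⟨φ, hφ0, τ, hτ0, max (max J₁ J₂) (max J₃ (max J₄ 1)), ?_⟩
  intro J hJ F A hS e g' Kv G H hg' he hKv hCh
  have hJ1 : J₁ ≤ J := (le_max_left _ _).trans ((le_max_left _ _).trans hJ)
  have hJ2 : J₂ ≤ J := (le_max_right _ _).trans ((le_max_left _ _).trans hJ)
  have hJ3 : (J₃ : ℝ) ≤ J := by
    exact_mod_cast (le_max_left J₃ _).trans ((le_max_right _ _).trans hJ)
  have hJ4 : (J₄ : ℝ) ≤ J := by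
    exact_mod_cast (le_max_left J₄ 1).trans ((le_max_right J₃ _).trans
      ((le_max_right _ _).trans hJ))
  have hJ5 : (1 : ℝ) ≤ J := by
    exact_mod_cast (le_max_right J₄ 1).trans ((le_max_right J₃ _).trans
      ((le_max_right _ _).trans hJ))
  have hJp : (0 : ℝ) < J := by linarith
  have hshmJ : (shm : ℝ) ≤ ψ * J := by
    have h3 : (shm : ℝ) / ψ < J := hJ₄.trans_le hJ4
    rw [div_lt_iff₀ hψ0] at h3
    linarith
  have hsh0 : (0 : ℝ) ≤ sh := Nat.cast_nonneg _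
  have hshJ : ∀ i ≤ r, (shi i : ℝ) ≤ ψ * J := fun i hi => by
    have : (shi i : ℝ) ≤ shm := by exact_mod_cast hshm i hi
    linarith
  have hshJ' : (sh : ℝ) ≤ ψ * J := by
    have h3 : (sh : ℝ) ≤ shi 0 := by exact_mod_cast hshi 0
    have := hshJ 0 (Nat.zero_le r)
    linarith
  have hφJ : φ * J ≤ φ₂ * J := mul_le_mul_of_nonneg_right hφ1 hJp.le
  have hφψJ : φ * J ≤ ψ * J := mul_le_mul_of_nonneg_right hφψ hJp.le
  have hψγJ : ψ * J ≤ γ / 4 * J := mul_le_mul_of_nonneg_right hψ3 hJp.le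
  have hψφJ : ψ * J ≤ φ₁ / 2 * J := mul_le_mul_of_nonneg_right hψ1 hJp.le
  have hψδJ : ψ * J ≤ δ / 2 * J := mul_le_mul_of_nonneg_right hψ2 hJp.le
  obtain ⟨g'', B₁, L, V, z, z', P, hg1', hg2, hg3, hg4, hg5, hBA, hBp, hL, hLJ, hN, hNr⟩ :=
    h2 J hJ2 F A (S.mono hτ1 hS) e g' Kv G H (fun l hl => (hg' l hl).trans hφJ) (he.trans hφJ)
      hKv hCh
  -- bounds for the precisions
  have hlo : ∀ i ≤ r, (g i - ψ) * J ≤ g'' i := by
    intro i hi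
    rcases Nat.lt_or_ge i r with h3 | h3
    · rw [hg1' i h3]
      have h4 := (abs_le.1 (hg' i hi)).1
      linarith
    · have h4 : i = r := by omega
      rw [h4]
      exact hg3
  have hup : ∀ i ≤ r, (g'' i : ℝ) ≤ (g i + φ) * J := by
    intro i hi
    have h4 := (abs_le.1 (hg' i hi)).2
    rcases Nat.lt_or_ge i r with h3 | h3
    · rw [hg1' i h3]
      linarith
    · have h5 : i = r := by omega
      subst h5
      have h6 : (g'' i : ℝ) ≤ g' i := by exact_mod_cast hg2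
      linarith
  have hshg : ∀ i ≤ r, shi i ≤ g'' i := by
    intro i hi
    have h3 := hlo i hi
    have h4 : γ * J ≤ g i * J := mul_le_mul_of_nonneg_right (hγg i hi) hJp.le
    have h5 := hshJ i hi
    have h6 : (shi i : ℝ) ≤ g'' i := by
      have : 0 ≤ γ * J := by positivity
      linarith
    exact_mod_cast h6
  -- the precisions for one level
  obtain ⟨gi, hgi⟩ : ∃ gi : ℕ → ℕ → ℕ, gi = fun i l => if l = i then g'' i - shi i else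
      g'' l - sh := ⟨_, rfl⟩
  have hgii : ∀ i, gi i i = g'' i - shi i := fun i => by
    rw [hgi]
    exact if_pos rfl
  have hgil : ∀ i, ∀ l < i, gi i l = g'' l - sh := fun i l hl => by
    rw [hgi]
    exact if_neg hl.ne
  have hgiiR : ∀ i ≤ r, (gi i i : ℝ) = g'' i - shi i := fun i hi => by
    rw [hgii, Nat.cast_sub (hshg i hi)]
  have hgilR : ∀ i ≤ r, ∀ l < i, (gi i l : ℝ) = g'' l - sh := fun i hi l hl => by
    rw [hgil i l hl, Nat.cast_sub (hg4 l (by omega))]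
  -- the good labels
  obtain ⟨Gd, hGd⟩ : ∃ Gd : ℕ → V → Prop, Gd = fun i v => ∃ (Q : PN) (T : ℝ) (k : ℕ),
      (k : ℝ) ≤ δ / 2 * J ∧ Jet i (Di i) (wid ⌊w * J⌋₊ (gi i)) (P v) Q (2 ^ k / 2 ^ gi i i) T :=
    ⟨_, rfl⟩
  have hKc : (1 : ℝ) ≤ K' * 5 ^ m := by
    have h3 : (1 : ℝ) ≤ K' := by exact_mod_cast hK'
    have h4 : (1 : ℝ) ≤ 5 ^ m := one_le_pow₀ (by norm_num)
    nlinarith
  have hr1 : (1 : ℝ) ≤ r + 1 := by
    have : (0 : ℝ) ≤ r := Nat.cast_nonneg r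
    linarith
  have hC₃1 : 1 ≤ C₃ := by
    rw [hC₃]
    nlinarith
  have hA0 : 0 < Pe F.p A := lt_of_lt_of_le (Real.exp_pos _) (hmem τ J F A hS).2.2.2
  have hbad : ∀ i ∈ I, Pe F.p (fun ω => B₁ ω ∧ ¬ Gd i (z (ptr F J ω))) ≤
      1 / (2 * (r + 1)) * Pe F.p B₁ := by
    intro i hi
    obtain ⟨hir, hwi, hli⟩ := hI i hi
    by_contra hcon
    push Not at hcon
    have h3 : Pe F.p A ≤ C₃ * Pe F.p (fun ω => B₁ ω ∧ ¬ Gd i (z (ptr F J ω))) := by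
      refine hBp.trans ?_
      have h4 : Pe F.p B₁ ≤ 2 * (r + 1) * Pe F.p (fun ω => B₁ ω ∧ ¬ Gd i (z (ptr F J ω))) := by
        rw [one_div, ← div_eq_inv_mul, div_lt_iff₀ (by positivity)] at hcon
        linarith
      have h5 : (0 : ℝ) ≤ 2 * (K' * 5 ^ m) := by linarith
      have := mul_le_mul_of_nonneg_left h4 h5
      rw [hC₃]
      linarith
    have h4 : C₃ ≤ Real.exp (τ * J) := by
      have h5 : Real.log C₃ / τ < J := hJ₃.trans_le hJ3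
      rw [div_lt_iff₀ hτ0] at h5
      rw [← Real.log_le_iff_le_exp (by linarith)]
      linarith
    have h5 : 0 ≤ Pe F.p (fun ω => B₁ ω ∧ ¬ Gd i (z (ptr F J ω))) := Pe_nonneg F.isLaw _
    have hSC : S.St (τ + τ) J F (fun ω => B₁ ω ∧ ¬ Gd i (z (ptr F J ω))) := by
      refine S.res hτ0.le hS (fun ω hω => hBA ω hω.1) ?_
      calc Real.exp (-(τ * J)) * Pe F.p A ≤ Real.exp (-(τ * J)) *
            (Real.exp (τ * J) * Pe F.p (fun ω => B₁ ω ∧ ¬ Gd i (z (ptr F J ω)))) :=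
            mul_le_mul_of_nonneg_left (h3.trans (mul_le_mul_of_nonneg_right h4 h5))
              (Real.exp_pos _).le
        _ = Pe F.p (fun ω => B₁ ω ∧ ¬ Gd i (z (ptr F J ω))) := by
          rw [← mul_assoc, ← Real.exp_add, neg_add_cancel, Real.exp_zero, one_mul]
    have hloi := hlo i hir
    have hshii := hshJ i hir
    obtain ⟨ω, hω, hpω, Q, T, k, hk, hjet⟩ := h1 J hJ1 F _ (S.mono hτ2 hSC) i hi (gi i) L V z z' P
      (fun l hl => by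
        rw [hgilR i hir l hl]
        have h6 := hlo l (by omega)
        linarith)
      (fun l hl => by
        rw [hgilR i hir l hl, hgiiR i hir]
        have h6 := hup l (by omega)
        have h7 : (g l + 2 * γ) * J ≤ g i * J := mul_le_mul_of_nonneg_right (hli l hl) hJp.le
        linarith)
      (by
        rw [hgiiR i hir]
        have h7 : (w + 2 * γ) * J ≤ g i * J := mul_le_mul_of_nonneg_right hwi hJp.le
        linarith)
      (by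
        have h6 := hup i hir
        have h7 : (gi i i : ℝ) ≤ g'' i := by
          rw [hgiiR i hir]
          have : (0 : ℝ) ≤ shi i := Nat.cast_nonneg _
          linarith
        rcases Nat.lt_or_ge i r with h8 | h8
        · have h9 : (g i + γ) * J ≤ 1 * J := mul_le_mul_of_nonneg_right (hg1 i h8) hJp.le
          have h10 : (gi i i : ℝ) ≤ J := by linarith
          exact_mod_cast h10
        · have h9 : i = r := by omega
          rw [hgii, h9]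
          omega) hL (by linarith)
      (hN.short hir (fun l hl => hgil i l hl) (by
        show gi i i ≤ g'' i - sh
        rw [hgii]
        have := hshi i
        omega) fun ω hω => hω.1)
    refine hω.2 ?_
    rw [hGd]
    exact ⟨Q, T, k, hk, hjet⟩
  -- the union bound
  have hunion : Pe F.p (fun ω => B₁ ω ∧ ¬ ∀ i ∈ I, Gd i (z (ptr F J ω))) ≤
      1 / 2 * Pe F.p B₁ := by
    have h3 := Pe_union F.isLaw.nonneg (r + 1)
      (fun i ω => i ∈ I ∧ B₁ ω ∧ ¬ Gd i (z (ptr F J ω)))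
      (fun ω => B₁ ω ∧ ¬ ∀ i ∈ I, Gd i (z (ptr F J ω))) (fun ω hω => by
        obtain ⟨h4, h5⟩ := hω
        push Not at h5
        obtain ⟨i, hi, h6⟩ := h5
        exact ⟨i, by have := (hI i hi).1; omega, hi, h4, h6⟩)
    have h4 : ∀ i ∈ range (r + 1), Pe F.p (fun ω => i ∈ I ∧ B₁ ω ∧ ¬ Gd i (z (ptr F J ω))) ≤
        1 / (2 * (r + 1)) * Pe F.p B₁ := by
      intro i _
      by_cases hi : i ∈ I
      · refine le_trans (le_of_eq ?_) (hbad i hi)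
        congr 1
        funext ω
        simp [hi]
      · have h5 : Pe F.p (fun ω => i ∈ I ∧ B₁ ω ∧ ¬ Gd i (z (ptr F J ω))) = 0 := by
          rw [Pe_eq]
          exact Finset.sum_eq_zero fun ω _ => if_neg fun h => hi h.1
        rw [h5]
        have := Pe_nonneg F.isLaw B₁
        positivity
    refine h3.trans ((Finset.sum_le_sum h4).trans (le_of_eq ?_))
    rw [Finset.sum_const, card_range, nsmul_eq_mul]
    push_cast
    field_simp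
  -- the functions
  obtain ⟨Q, hQ⟩ : ∃ Q : ℕ → V → PN, ∀ i v, Gd i v → ∃ (T : ℝ) (k : ℕ), (k : ℝ) ≤ δ / 2 * J ∧
      Jet i (Di i) (wid ⌊w * J⌋₊ (gi i)) (P v) (Q i v) (2 ^ k / 2 ^ gi i i) T := by
    have h3 : ∀ i v, ∃ Q : PN, Gd i v → ∃ (T : ℝ) (k : ℕ), (k : ℝ) ≤ δ / 2 * J ∧
      Jet i (Di i) (wid ⌊w * J⌋₊ (gi i)) (P v) Q (2 ^ k / 2 ^ gi i i) T := by
      intro i v
      by_cases hv : Gd i v
      · have hv' := hv
        rw [hGd] at hv'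
        obtain ⟨Q, T, k, h4⟩ := hv'
        exact ⟨Q, fun _ => ⟨T, k, h4⟩⟩
      · exact ⟨0, fun h => absurd h hv⟩
    choose Q hQ using h3
    exact ⟨Q, hQ⟩
  obtain ⟨T, hT⟩ : ∃ T : ℕ → V → ℝ, ∀ i v, Gd i v → ∃ (k : ℕ), (k : ℝ) ≤ δ / 2 * J ∧
      Jet i (Di i) (wid ⌊w * J⌋₊ (gi i)) (P v) (Q i v) (2 ^ k / 2 ^ gi i i) (T i v) := by
    have h3 : ∀ i v, ∃ T : ℝ, Gd i v → ∃ (k : ℕ), (k : ℝ) ≤ δ / 2 * J ∧
      Jet i (Di i) (wid ⌊w * J⌋₊ (gi i)) (P v) (Q i v) (2 ^ k / 2 ^ gi i i) T := by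
      intro i v
      by_cases hv : Gd i v
      · obtain ⟨T, h4⟩ := hQ i v hv
        exact ⟨T, fun _ => h4⟩
      · exact ⟨0, fun h => absurd h hv⟩
    choose T hT using h3
    exact ⟨T, hT⟩
  obtain ⟨k, hk⟩ : ∃ k : ℕ → V → ℕ, ∀ i v, Gd i v → (k i v : ℝ) ≤ δ / 2 * J ∧
      Jet i (Di i) (wid ⌊w * J⌋₊ (gi i)) (P v) (Q i v) (2 ^ k i v / 2 ^ gi i i) (T i v) := by
    have h3 : ∀ i v, ∃ k : ℕ, Gd i v → (k : ℝ) ≤ δ / 2 * J ∧
      Jet i (Di i) (wid ⌊w * J⌋₊ (gi i)) (P v) (Q i v) (2 ^ k / 2 ^ gi i i) (T i v) := by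
      intro i v
      by_cases hv : Gd i v
      · obtain ⟨k, h4⟩ := hT i v hv
        exact ⟨k, fun _ => h4⟩
      · exact ⟨0, fun h => absurd h hv⟩
    choose k hk using h3
    exact ⟨k, hk⟩
  have hWJ : ⌊w * J⌋₊ ≤ J := by
    have h3 : ((⌊w * J⌋₊ : ℕ) : ℝ) ≤ w * J := Nat.floor_le (by positivity)
    have h4 : ((⌊w * J⌋₊ : ℕ) : ℝ) ≤ J := h3.trans (by nlinarith)
    exact_mod_cast h4
  refine ⟨g'', fun ω => B₁ ω ∧ ∀ i ∈ I, Gd i (z (ptr F J ω)), L, V, z, z', P, Q, T,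
    fun i v => k i v + shi i, hg1', hg2, ?_, hg5, hg4, fun ω hω => hBA ω hω.1, ?_, hL,
    by linarith, ?_, ?_⟩
  · refine le_trans ?_ hg3
    exact mul_le_mul_of_nonneg_right (by linarith) hJp.le
  · have h3 := Pe_spl F.p B₁ (fun ω => ∀ i ∈ I, Gd i (z (ptr F J ω)))
    have h4 : Pe F.p B₁ ≤ 2 * Pe F.p (fun ω => B₁ ω ∧ ∀ i ∈ I, Gd i (z (ptr F J ω))) := by
      linarith
    have h5 : (0 : ℝ) ≤ 2 * (K' * 5 ^ m) := by linarith
    have := mul_le_mul_of_nonneg_left h4 h5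
    linarith
  · exact hN.short le_rfl (fun _ _ => rfl) le_rfl fun ω hω => hω.1
  · intro ω hω
    refine ⟨hNr ω hω.1, fun i hi => ?_⟩
    obtain ⟨hir, -, -⟩ := hI i hi
    obtain ⟨hk1, hk2⟩ := hk i _ (hω.2 i hi)
    have hρ : (2 : ℝ) ^ k i (z (ptr F J ω)) / 2 ^ gi i i =
        2 ^ (k i (z (ptr F J ω)) + shi i) / 2 ^ g'' i := by
      have h3 : (2 : ℝ) ^ g'' i = 2 ^ gi i i * 2 ^ shi i := by
        rw [hgii, ← pow_add, Nat.sub_add_cancel (hshg i hir)]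
      rw [h3, pow_add]
      field_simp
    refine ⟨?_, ?_, ?_⟩
    · push_cast
      have := hshJ i hir
      linarith
    · rw [hρ] at hk2
      exact (hk2.congr fun j hj => by
        unfold wid
        by_cases h0 : j = 0
        · rw [if_pos h0, if_pos h0]
        · rw [if_neg h0, if_neg h0, hgil i (j - 1) (by omega)]).deg_mono (hD i hir)
    · have h3 := hJPi i F c ⌊w * J⌋₊ g'' (gi i) (G (ptr F J ω)) (P (z (ptr F J ω))) ω
        (Q i (z (ptr F J ω))) (2 ^ k i (z (ptr F J ω)) / 2 ^ gi i i) (T i (z (ptr F J ω))) hWJ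
        (fun l hl l' hl' e => hc l (by omega) l' (by omega) e)
        (fun l hl => (hCh.degG _ l).trans (hKv l (by omega))) (hCh.depG _)
        (fun l hl => hg4 l (by omega)) (hshg i hir) (fun l hl => hgil i l hl)
        (nr_short hir (hNr ω hω.1)) (by
          rw [← hgii]
          exact div_le_div_of_nonneg_right (one_le_pow₀ (by norm_num)) (by positivity)) hk2
      rw [hρ] at h3
      exact (h3.congr fun l hl => hg1' l (by omega)).mono (hD i hir) (hE i hir)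

end Pool.M3F
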