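import Pool.Agent.H5.M3F.Nlb
import Pool.Agent.H90.STAT.Ful

/-!
# The natural digits are full

If the digits of the base coordinates are full given a variable which determines the closed label,
then so are the natural digits.
-/

set_option autoImplicit false

namespace Pool.M3F

open Finset Real MvPolynomial
open Pool.Agent.H49.Ent Pool.Agent.H32.Dense Pool.STK Pool.KA Pool.KSAT Pool.K2S Pool.PB Pool.STAT
  Pool.GEN

variable {m J : ℕ}

theorem px_zero {F : Fam m J} (c : ℕ → Fin m) (ω : F.Ω) : px c (ptr F J ω) 0 = F.t ω := if_pos rfl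

theorem px_succ {F : Fam m J} (c : ℕ → Fin m) (ξ : PtT F) (i : ℕ) :
    px c ξ (i + 1) = (ξ.1 (c i) : ℝ) / 2 ^ J := if_neg (Nat.succ_ne_zero i)

/-- The values of a polynomial at records with the same coordinates. -/
theorem eval_px {F : Fam m J} {c : ℕ → Fin m} {ξ ξ' : PtT F} {P : PN} {i : ℕ}
    (hP : P.vars ⊆ range (i + 1)) (hT : ξ.2.1 = ξ'.2.1) (h : ∀ j < i, ξ.1 (c j) = ξ'.1 (c j)) :
    eval (px c ξ) P = eval (px c ξ') P := by
  refine eval₂Hom_congr' rfl (fun j hj _ => ?_) rfl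
  have h1 := mem_range.1 (hP hj)
  rcases Nat.eq_zero_or_pos j with rfl | h2
  · unfold px
    rw [if_pos rfl, if_pos rfl, hT]
  · obtain ⟨j, rfl⟩ : ∃ j', j = j' + 1 := ⟨j - 1, by omega⟩
    rw [px_succ, px_succ, h j (by omega)]

theorem near_of_floor {x y a : ℝ} {D J : ℕ} (hD : D ≤ J)
    (h : ⌊(2 : ℝ) ^ D * (x / 2 ^ J - a)⌋ = ⌊(2 : ℝ) ^ D * (y / 2 ^ J - a)⌋) :
    |x - y| ≤ 2 ^ (J - D) := by
  have h1 := Ful.fl_eq h
  have hJ : (2 : ℝ) ^ J = 2 ^ (J - D) * 2 ^ D := by rw [← pow_add, Nat.sub_add_cancel hD]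
  have p1 : (0 : ℝ) < 2 ^ (J - D) := by positivity
  have p2 : (0 : ℝ) < 2 ^ D := by positivity
  have h2 : (2 : ℝ) ^ D * (x / 2 ^ J - a) - 2 ^ D * (y / 2 ^ J - a) = (x - y) / 2 ^ (J - D) := by
    rw [hJ]
    field_simp
    ring
  rw [h2, abs_div, abs_of_pos p1, div_le_one p1] at h1
  exact h1

theorem log_three (D J : ℕ) :
    Real.log (2 * 2 ^ (J - D) + 1) ≤ ((J - D : ℕ) : ℝ) * Real.log 2 + Real.log 3 := by
  have p1 : (1 : ℝ) ≤ 2 ^ (J - D) := one_le_pow₀ (by norm_num)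
  rw [← Real.log_pow, ← Real.log_mul (by positivity) (by norm_num)]
  refine Real.log_le_log (by positivity) ?_
  linarith

/-- **The natural digits are full**, if the times and the coordinates of the base are full. The
depths `D i` may depend on the coordinate. -/
theorem nd_ge {F : Fam m J} {E Γ V : Type} [Fintype E] {q : E → ℝ} (hq : IsLaw q) (c : ℕ → Fin m)
    {r W : ℕ} (pr : E → F.Ω) (Z : E → Γ) (G : V → ℕ → PN) (v : E → V) (D : ℕ → ℕ)
    (hD : ∀ i ≤ r, D i ≤ J) (hvZ : ∀ e e', 0 < q e → 0 < q e' → Z e = Z e' → v e = v e')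
    (htri : ∀ v, TriN (G v)) {e₁ E₀ : ℝ}
    (hT : ((J - W : ℕ) : ℝ) * Real.log 2 - e₁ ≤ CH q (fun e => F.T (pr e)) Z)
    (hY : E₀ ≤ CH q (fun e (i : Fin r) => F.X J (pr e) (c i)) (fun e => (Z e, F.W (pr e)))) :
    ((J - W : ℕ) : ℝ) * Real.log 2 - e₁ + E₀ -
        ∑ i ∈ range (r + 1), (((J - D i : ℕ) : ℝ) * Real.log 2 + Real.log 3) ≤
      CH q (fun e (i : Fin (r + 1)) =>
        ⌊(2 : ℝ) ^ D i * (px c (ptr F J (pr e)) i - eval (px c (ptr F J (pr e))) (G (v e) i))⌋) Z := by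
  have hq0 := hq.nonneg
  obtain ⟨nd, hnd⟩ : ∃ nd : E → ℕ → ℤ, nd = fun e i =>
    ⌊(2 : ℝ) ^ D i * (px c (ptr F J (pr e)) i - eval (px c (ptr F J (pr e))) (G (v e) i))⌋ :=
    ⟨_, rfl⟩
  have hnd' : ∀ e i, nd e i = ⌊(2 : ℝ) ^ D i * (px c (ptr F J (pr e)) i -
      eval (px c (ptr F J (pr e))) (G (v e) i))⌋ := fun e i => by rw [hnd]
  have e0 : (fun e (i : Fin (r + 1)) =>
      ⌊(2 : ℝ) ^ D i * (px c (ptr F J (pr e)) i - eval (px c (ptr F J (pr e))) (G (v e) i))⌋) =
      fun e (i : Fin (r + 1)) => nd e i := by rw [hnd]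
  rw [e0]
  -- the time
  have hG0 : ∀ v, ∀ b b' : ℕ → ℝ, eval b (G v 0) = eval b' (G v 0) := by
    intro v b b'
    have h1 : (G v 0).vars ⊆ range 0 := htri v 0
    exact eval₂Hom_congr' rfl (fun j hj _ => absurd (mem_range.1 (h1 hj)) (Nat.not_lt_zero j)) rfl
  have ht : ∀ e, px c (ptr F J (pr e)) 0 = (F.T (pr e) : ℝ) / 2 ^ J := fun e => px_zero c (pr e)
  have s1 : CH q (fun e => F.T (pr e)) Z ≤ CH q (fun e => nd e 0) Z +
      (((J - D 0 : ℕ) : ℝ) * Real.log 2 + Real.log 3) := by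
    have h1 := CH_le_add hq0 (fun e => F.T (pr e)) (fun e => nd e 0) Z
    have h2 : CH q (fun e => F.T (pr e)) (fun e => (nd e 0, Z e)) ≤
        CH q (fun e => (F.T (pr e) : ℤ)) (fun e => (nd e 0, Z e)) :=
      CH_mono_left hq0 fun e e' _ _ h => by
        have h3 := (Prod.ext_iff.1 h).1
        simp only [Nat.cast_inj] at h3
        exact h3
    have h3 := CH_le_int hq0 hq.sum_one (fun e => (F.T (pr e) : ℤ)) (fun e => (nd e 0, Z e))
      (fun _ => 2 ^ (J - D 0)) (fun e e' he he' h => by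
        simp only [Prod.mk.injEq] at h
        have h4 := h.1
        rw [hnd', hnd', ht, ht, hvZ e e' he he' h.2, hG0 (v e') _ (px c (ptr F J (pr e')))] at h4
        have h5 := near_of_floor (hD 0 (Nat.zero_le r)) h4
        push_cast
        exact h5)
    rw [Ex_const hq.sum_one] at h3
    have h4 := log_three (D 0) J
    linarith
  -- the coordinates
  obtain ⟨ndY, hndY⟩ : ∃ ndY : E → Fin r → ℤ, ndY = fun e (i : Fin r) => nd e ((i : ℕ) + 1) :=
    ⟨_, rfl⟩
  have s2 : CH q (fun e (i : Fin r) => F.X J (pr e) (c i)) (fun e => (Z e, F.W (pr e))) ≤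
      CH q ndY (fun e => (Z e, F.W (pr e))) +
        ∑ i ∈ range r, (((J - D (i + 1) : ℕ) : ℝ) * Real.log 2 + Real.log 3) := by
    have h1 := CH_le_add hq0 (fun e (i : Fin r) => F.X J (pr e) (c i)) ndY
      (fun e => (Z e, F.W (pr e)))
    have h2 := Ful.ch_vec hq (fun e (i : Fin r) => F.X J (pr e) (c i))
      (fun e => (ndY e, (Z e, F.W (pr e)))) (fun i => 2 ^ (J - D (i + 1))) (by
        intro i e e' he he' h hj
        simp only [Prod.mk.injEq] at h
        obtain ⟨h3, h4, h5⟩ := h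
        have h6 : nd e (i + 1) = nd e' (i + 1) := by
          have := congrFun h3 i
          rw [hndY] at this
          exact this
        rw [hnd', hnd', px_succ, px_succ, hvZ e e' he he' h4] at h6
        have h7 : eval (px c (ptr F J (pr e))) (G (v e') (i + 1)) =
            eval (px c (ptr F J (pr e'))) (G (v e') (i + 1)) := by
          refine eval_px (htri _ _) ?_ fun j hj' => ?_
          · exact (Prod.ext_iff.1 h5).1
          · exact hj ⟨j, by have := i.2; omega⟩ (by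
              rw [Fin.lt_def]
              exact hj')
        rw [h7] at h6
        have h8 := near_of_floor (hD (i + 1) (by have := i.2; omega)) h6
        push_cast
        exact h8)
    have h3 : ∑ i ∈ range r, Real.log (2 * 2 ^ (J - D (i + 1)) + 1) ≤
        ∑ i ∈ range r, (((J - D (i + 1) : ℕ) : ℝ) * Real.log 2 + Real.log 3) :=
      Finset.sum_le_sum fun i _ => log_three _ _
    linarith
  -- the chain rule
  have s3 : CH q (fun e => (ndY e, nd e 0)) Z ≤ CH q (fun e (i : Fin (r + 1)) => nd e i) Z := by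
    refine CH_mono_left hq0 fun e e' _ _ h => ?_
    have h1 := (Prod.ext_iff.1 h).1
    refine Prod.ext ?_ ?_
    · rw [hndY]
      funext i
      exact congrFun h1 ⟨i + 1, by have := i.2; omega⟩
    · exact congrFun h1 ⟨0, by omega⟩
  rw [CH_chain hq0] at s3
  have s4 : CH q ndY (fun e => (Z e, F.W (pr e))) ≤ CH q ndY (fun e => (nd e 0, Z e)) := by
    refine CH_mono_cond hq0 fun e e' he he' h => ?_
    simp only [Prod.mk.injEq] at h
    refine Prod.ext ?_ h.1
    have h1 : F.T (pr e) = F.T (pr e') := (Prod.ext_iff.1 h.2).1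
    show nd e 0 = nd e' 0
    rw [hnd', hnd', ht, ht, hvZ e e' he he' h.1, h1, hG0 (v e') _ (px c (ptr F J (pr e')))]
  have s5 : ∑ i ∈ range (r + 1), (((J - D i : ℕ) : ℝ) * Real.log 2 + Real.log 3) =
      ∑ i ∈ range r, (((J - D (i + 1) : ℕ) : ℝ) * Real.log 2 + Real.log 3) +
      (((J - D 0 : ℕ) : ℝ) * Real.log 2 + Real.log 3) := Finset.sum_range_succ' _ _
  rw [s5]
  linarith

end Pool.M3F
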