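import Pool.Agent.H90.STAT.CloN

/-!
# Derivatives on natural boxes

`pd_nat`: the derivative in the direction `l` of a polynomial which is at most `S` on the natural
box, on the dilated box. `pd_time`: the derivatives in the time of the polynomials of the system, if
they are near constants on the natural box.
-/

set_option autoImplicit false

namespace Pool.M3F

open Finset Real MvPolynomial
open Pool.STAT Pool.STAT.CLO

/-- The chain rule for a curve. -/
theorem curve {x : ℝ → ℕ → ℝ} {x' : ℕ → ℝ} {s₀ : ℝ}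
    (hx : ∀ j, HasDerivAt (fun s => x s j) (x' j) s₀) (F : PN) :
    HasDerivAt (fun s => eval (x s) F) (eval (x s₀) (lieN (fun j => C (x' j)) F)) s₀ := by
  induction F using MvPolynomial.induction_on with
  | C a =>
    have h1 : lieN (fun j => C (x' j)) (C a : PN) = 0 := (lieN fun j => C (x' j)).map_algebraMap a
    rw [h1, map_zero]
    simp only [eval_C]
    exact hasDerivAt_const s₀ a
  | add p q hp hq =>
    simp only [map_add]
    exact hp.add hq
  | mul_X p i hp =>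
    have h1 : lieN (fun j => C (x' j)) (p * X i : PN) =
        p * C (x' i) + X i * lieN (fun j => C (x' j)) p := by
      rw [Derivation.leibniz, smul_eq_mul, smul_eq_mul]
      congr 2
      unfold lieN
      exact mkDerivation_X _ _ _
    rw [h1]
    simp only [map_add, map_mul, eval_X, eval_C]
    refine (hp.mul (hx i)).congr_deriv ?_
    ring

theorem curve_sum {x : ℝ → ℕ → ℝ} {x' : ℕ → ℝ} {s₀ : ℝ}
    (hx : ∀ j, HasDerivAt (fun s => x s j) (x' j) s₀) {F : PN} {i : ℕ} (hF : F.vars ⊆ range i) :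
    HasDerivAt (fun s => eval (x s) F)
      (∑ j ∈ range i, x' j * eval (x s₀) (pderiv j F)) s₀ := by
  refine (curve hx F).congr_deriv ?_
  rw [FLB.lieN_eq _ hF, map_sum]
  refine Finset.sum_congr rfl fun j _ => ?_
  rw [map_mul, eval_C, mul_comm]

/-- The coordinate curve. -/
theorem curve_upd (b : ℕ → ℝ) (l : ℕ) (F : PN) :
    HasDerivAt (fun s => eval (Function.update b l s) F) (eval b (pderiv l F)) (b l) := by
  classical
  have h1 : ∀ j, HasDerivAt (fun s => Function.update b l s j) (if j = l then 1 else 0) (b l) := by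
    intro j
    by_cases hj : j = l
    · subst hj
      simp only [Function.update_self, if_true]
      exact hasDerivAt_id _
    · simp only [Function.update_of_ne hj, if_neg hj]
      exact hasDerivAt_const _ _
  have h2 := curve_sum h1 (F := F) (i := max (F.vars.sup id + 1) (l + 1)) (fun j hj => by
    rw [mem_range]
    have := Finset.le_sup (f := id) hj
    simp only [id] at this
    omega)
  rw [Function.update_eq_self] at h2
  refine h2.congr_deriv ?_
  rw [Finset.sum_eq_single l]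
  · rw [if_pos rfl, one_mul]
  · intro j _ hj
    rw [if_neg hj, zero_mul]
  · intro h
    exact absurd (mem_range.2 (by omega)) h

/-- **Derivatives on dilated natural boxes.** -/
theorem pd_nat (n K : ℕ) : ∃ C₀ : ℝ, 1 ≤ C₀ ∧ ∀ (Φ : ℕ → PN) (g : ℕ → ℕ) (F : PN) (i : ℕ)
    (S L ρ : ℝ) (N l : ℕ) (b : ℕ → ℝ), TriN Φ → (∀ j, (Φ j).totalDegree ≤ K) → i ≤ n →
    F.vars ⊆ range i → F.totalDegree ≤ K → (∀ b, Bxr 1 g Φ i b → |eval b F| ≤ S) → 1 ≤ ρ →
    Bxr ρ g Φ i b → 0 ≤ L → (∀ j, l < j → j < i → |eval b (pderiv l (Φ j))| ≤ L) →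
    (∀ j, l ≤ j → j < i → g j ≤ N) →
    |eval b (pderiv l F)| ≤ C₀ * S * ρ ^ (K * (K + 1) ^ (n + 1)) * 2 ^ N * (1 + L) := by
  classical
  obtain ⟨C, hC, hn⟩ := n1_of_box n K
  obtain ⟨K₁, hK₁⟩ : ∃ K₁, K₁ = K * (K + 1) ^ (n + 1) := ⟨_, rfl⟩
  refine ⟨n * (K₁ * C) + 1, by
    have : 0 ≤ n * (K₁ * C) := by positivity
    linarith, ?_⟩
  rw [← hK₁]
  intro Φ g F i S L ρ N l b hΦ hK hi hv hF hS hρ hb hL hl hg
  obtain ⟨h2, h3⟩ := nat_deg hΦ hK g hi hv hF
  rw [← hK₁] at h3
  have hnS := hn Φ g F i S hΦ hK hi hv hF hS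
  have hS0 : 0 ≤ S := (abs_nonneg _).trans (hS _ (box_nuc hΦ g (fun _ => (0 : ℝ))
    (ρ := 1) fun j _ => by
      rw [abs_zero]
      exact zero_le_one))
  -- the curve in natural coordinates
  have hy : ∀ j, HasDerivAt (fun s => nc g Φ (Function.update b l s) j)
      ((2 : ℝ) ^ g j * ((if j = l then 1 else 0) - eval b (pderiv l (Φ j)))) (b l) := by
    intro j
    unfold nc
    refine HasDerivAt.const_mul _ (HasDerivAt.sub ?_ (curve_upd b l (Φ j)))
    by_cases hj : j = l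
    · subst hj
      simp only [Function.update_self, if_true]
      exact hasDerivAt_id _
    · simp only [Function.update_of_ne hj, if_neg hj]
      exact hasDerivAt_const _ _
  have h4 := curve_sum hy h2
  have h5 : (fun s => eval (nc g Φ (Function.update b l s)) (bind₁ (nuc g Φ) F)) =
      fun s => eval (Function.update b l s) F := by
    funext s
    rw [← eval_nat hΦ g _ F]
  rw [h5] at h4
  have h6 := h4.unique (curve_upd b l F)
  rw [← h6]
  rw [Function.update_eq_self]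
  refine (Finset.abs_sum_le_sum_abs _ _).trans ?_
  have h7 : ∀ j ∈ range i, |(2 : ℝ) ^ g j * ((if j = l then 1 else 0) - eval b (pderiv l (Φ j))) *
      eval (nc g Φ b) (pderiv j (bind₁ (nuc g Φ) F))| ≤
      2 ^ N * (1 + L) * (K₁ * (C * S) * ρ ^ K₁) := by
    intro j hj
    have hj' := mem_range.1 hj
    have h8 : |eval (nc g Φ b) (pderiv j (bind₁ (nuc g Φ) F))| ≤ K₁ * (C * S) * ρ ^ K₁ := by
      refine (NEAR.pd_le hρ h2 h3 (fun j' hj' => nc_le.2 (hb j' hj')) j).trans ?_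
      refine mul_le_mul_of_nonneg_right (mul_le_mul_of_nonneg_left hnS (Nat.cast_nonneg _))
        (by positivity)
    rw [abs_mul]
    refine mul_le_mul ?_ h8 (abs_nonneg _) (by positivity)
    rw [abs_mul, abs_of_pos (by positivity : (0 : ℝ) < 2 ^ g j)]
    rcases lt_trichotomy j l with h9 | h9 | h9
    · have h10 : pderiv l (Φ j) = 0 := by
        refine pderiv_eq_zero_of_notMem_vars fun hcon => ?_
        have := mem_range.1 (hΦ j hcon)
        omega
      rw [if_neg h9.ne, h10, map_zero, sub_zero, abs_zero, mul_zero]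
      positivity
    · subst h9
      have h10 : pderiv j (Φ j) = 0 := by
        refine pderiv_eq_zero_of_notMem_vars fun hcon => ?_
        have := mem_range.1 (hΦ j hcon)
        omega
      rw [if_pos rfl, h10, map_zero, sub_zero, abs_one, mul_one]
      calc (2 : ℝ) ^ g j ≤ 2 ^ N := pow_le_pow_right₀ (by norm_num) (hg j le_rfl hj')
        _ = 2 ^ N * 1 := (mul_one _).symm
        _ ≤ 2 ^ N * (1 + L) := mul_le_mul_of_nonneg_left (by linarith) (by positivity)
    · rw [if_neg h9.ne', zero_sub, abs_neg]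
      refine mul_le_mul (pow_le_pow_right₀ (by norm_num) (hg j h9.le hj')) ?_ (abs_nonneg _)
        (by positivity)
      have := hl j h9 hj'
      linarith
  refine (Finset.sum_le_sum h7).trans ?_
  rw [Finset.sum_const, card_range, nsmul_eq_mul]
  have h8 : (i : ℝ) ≤ n := by exact_mod_cast hi
  have h9 : (0 : ℝ) ≤ 2 ^ N * (1 + L) * (K₁ * (C * S) * ρ ^ K₁) := by positivity
  have h10 : (0 : ℝ) ≤ S * ρ ^ K₁ * 2 ^ N * (1 + L) := by positivity
  calc (i : ℝ) * (2 ^ N * (1 + L) * (K₁ * (C * S) * ρ ^ K₁)) ≤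
      n * (2 ^ N * (1 + L) * (K₁ * (C * S) * ρ ^ K₁)) := mul_le_mul_of_nonneg_right h8 h9
    _ = n * (K₁ * C) * (S * ρ ^ K₁ * 2 ^ N * (1 + L)) := by ring
    _ ≤ (n * (K₁ * C) + 1) * (S * ρ ^ K₁ * 2 ^ N * (1 + L)) :=
        mul_le_mul_of_nonneg_right (by linarith) h10
    _ = (n * (K₁ * C) + 1) * S * ρ ^ K₁ * 2 ^ N * (1 + L) := by ring

/-- **Derivatives in the time.** The polynomials of the system are within `S / 2 ^ W` of constants
on the natural box, `W` is the exponent of the time. -/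
theorem pd_time (n K : ℕ) : ∃ C₀ : ℝ, 1 ≤ C₀ ∧ ∀ (Φ : ℕ → PN) (g : ℕ → ℕ) (W : ℕ) (q : ℕ → ℝ)
    (S L ρ : ℝ) (b : ℕ → ℝ), TriN Φ → (∀ j, (Φ j).totalDegree ≤ K) → g 0 = W →
    (∀ i, 1 ≤ i → i ≤ n → ∀ b, Bxr 1 g Φ i b → |eval b (Φ i) - q i| ≤ S / 2 ^ W) → 1 ≤ ρ →
    0 ≤ S → Bxr ρ g Φ n b → 0 ≤ L →
    (∀ j ≤ n, ∀ l, 1 ≤ l → l < j → |eval b (pderiv l (Φ j))| ≤ L) →
    ∀ i ≤ n, |eval b (pderiv 0 (Φ i))| ≤
      C₀ * S * ρ ^ (K * (K + 1) ^ (n + 1)) * (1 + L) := by
  classical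
  obtain ⟨C, hC, hn⟩ := n1_of_box n K
  obtain ⟨K₁, hK₁⟩ : ∃ K₁, K₁ = K * (K + 1) ^ (n + 1) := ⟨_, rfl⟩
  refine ⟨(1 + n) * (K₁ * C) + 1, by
    have : 0 ≤ (1 + n) * (K₁ * C) := by positivity
    linarith, ?_⟩
  rw [← hK₁]
  intro Φ g W q S L ρ b hΦ hK hW hS hρ hS0 hb hL hl i hi
  obtain ⟨y, hy⟩ : ∃ y, y = nc g Φ b := ⟨_, rfl⟩
  have hyρ : ∀ j < n, |y j| ≤ ρ := fun j hj => by
    rw [hy]
    exact nc_le.2 (hb j hj)
  obtain ⟨T, hT⟩ : ∃ T, T = K₁ * (C * (S / 2 ^ W)) * ρ ^ K₁ := ⟨_, rfl⟩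
  have hT0 : 0 ≤ T := by
    rw [hT]
    positivity
  -- the flow of the time at fixed natural coordinates
  obtain ⟨x, hx⟩ : ∃ x : ℝ → ℕ → ℝ, x = fun s j => eval (Function.update y 0 s) (nuc g Φ j) :=
    ⟨_, rfl⟩
  have hx0 : x (y 0) = b := by
    rw [hx]
    funext j
    simp only [Function.update_eq_self]
    rw [hy]
    exact AdxRow.nuc_eval hΦ g b j
  have hxd : ∀ j, HasDerivAt (fun s => x s j) (eval y (pderiv 0 (nuc g Φ j))) (y 0) := by
    intro j
    rw [hx]
    exact curve_upd y 0 _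
  obtain ⟨D, hD⟩ : ∃ D : ℕ → ℝ, D = fun j => eval y (pderiv 0 (nuc g Φ j)) := ⟨_, rfl⟩
  have hxd' : ∀ j, HasDerivAt (fun s => x s j) (D j) (y 0) := fun j => by
    rw [hD]
    exact hxd j
  have hD' : ∀ j, D j = eval y (pderiv 0 (bind₁ (nuc g Φ) (Φ j))) +
      (if j = 0 then 1 / 2 ^ W else 0) := by
    intro j
    rw [hD]
    simp only
    conv_lhs => rw [AdxRow.nuc_eq hΦ g j]
    rw [map_add, map_add, Derivation.leibniz, pderiv_C, smul_zero, add_zero, smul_eq_mul]
    by_cases hj : j = 0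
    · subst hj
      rw [if_pos rfl, pderiv_X_self, mul_one, eval_C, hW]
    · rw [if_neg hj, pderiv_X_of_ne hj, mul_zero, map_zero]
  -- the derivative of the values
  have hval : ∀ j ≤ n, |eval y (pderiv 0 (bind₁ (nuc g Φ) (Φ j)))| ≤ T := by
    intro j hj
    rcases Nat.eq_zero_or_pos j with rfl | hj0
    · have h1 : (bind₁ (nuc g Φ) (Φ 0)).vars ⊆ range 0 := AdxRow.vars_bnd (hΦ 0) fun k hk => by
        exact absurd hk (Nat.not_lt_zero k)
      have h2 : pderiv 0 (bind₁ (nuc g Φ) (Φ 0)) = 0 := by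
        refine pderiv_eq_zero_of_notMem_vars fun hcon => ?_
        exact absurd (mem_range.1 (h1 hcon)) (Nat.not_lt_zero _)
      rw [h2, map_zero, abs_zero]
      exact hT0
    · have hv : (Φ j - MvPolynomial.C (q j)).vars ⊆ range j :=
        AdxRow.vars_sub_le (hΦ j) (by
          rw [vars_C]
          exact Finset.empty_subset _)
      have hd : (Φ j - MvPolynomial.C (q j)).totalDegree ≤ K := by
        refine (totalDegree_sub _ _).trans (max_le (hK j) ?_)
        rw [totalDegree_C]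
        exact Nat.zero_le _
      obtain ⟨h2, h3⟩ := nat_deg hΦ hK g hj hv hd
      rw [← hK₁] at h3
      have h4 := hn Φ g (Φ j - MvPolynomial.C (q j)) j (S / 2 ^ W) hΦ hK hj hv hd fun b hb => by
        rw [map_sub, eval_C]
        exact hS j hj0 hj b hb
      have h5 := NEAR.pd_le (y := y) hρ h2 h3 (fun j' hj' => hyρ j' (by omega)) 0
      have h6 : pderiv 0 (bind₁ (nuc g Φ) (Φ j - MvPolynomial.C (q j))) =
          pderiv 0 (bind₁ (nuc g Φ) (Φ j)) := by
        rw [map_sub, map_sub, bind₁_C_right, pderiv_C, sub_zero]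
      rw [h6] at h5
      refine h5.trans ?_
      rw [hT]
      exact mul_le_mul_of_nonneg_right (mul_le_mul_of_nonneg_left h4 (Nat.cast_nonneg _))
        (by positivity)
  rcases Nat.eq_zero_or_pos i with rfl | hi0
  · have h2 : pderiv 0 (Φ 0) = 0 := by
      refine pderiv_eq_zero_of_notMem_vars fun hcon => ?_
      exact absurd (mem_range.1 (hΦ 0 hcon)) (Nat.not_lt_zero _)
    rw [h2, map_zero, abs_zero]
    positivity
  -- two expressions of the derivative
  have h1 := curve_sum hxd' (hΦ i)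
  rw [hx0] at h1
  have h2 : HasDerivAt (fun s => eval (x s) (Φ i))
      (eval y (pderiv 0 (bind₁ (nuc g Φ) (Φ i)))) (y 0) := by
    have h3 := curve_upd y 0 (bind₁ (nuc g Φ) (Φ i))
    refine h3.congr_of_eventuallyEq ?_
    filter_upwards with s
    rw [hx]
    rw [Pool.SYS35.eval_bind]
  have h3 := h1.unique h2
  obtain ⟨i, rfl⟩ : ∃ i', i = i' + 1 := ⟨i - 1, by omega⟩
  rw [Finset.sum_range_succ'] at h3
  have hD0 : D 0 = 1 / 2 ^ W := by
    rw [hD' 0, if_pos rfl]
    have h1 : (bind₁ (nuc g Φ) (Φ 0)).vars ⊆ range 0 := AdxRow.vars_bnd (hΦ 0) fun k hk => by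
      exact absurd hk (Nat.not_lt_zero k)
    have h2 : pderiv 0 (bind₁ (nuc g Φ) (Φ 0)) = 0 := by
      refine pderiv_eq_zero_of_notMem_vars fun hcon => ?_
      exact absurd (mem_range.1 (h1 hcon)) (Nat.not_lt_zero _)
    rw [h2, map_zero, zero_add]
  have h4 : |∑ j ∈ range i, D (j + 1) * eval b (pderiv (j + 1) (Φ (i + 1)))| ≤ n * (T * L) := by
    refine (Finset.abs_sum_le_sum_abs _ _).trans ?_
    refine (Finset.sum_le_sum (g := fun _ => T * L) fun j hj => ?_).trans ?_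
    · have hj' := mem_range.1 hj
      rw [abs_mul]
      refine mul_le_mul ?_ (hl (i + 1) hi (j + 1) (by omega) (by omega)) (abs_nonneg _) hT0
      rw [hD' (j + 1), if_neg (Nat.succ_ne_zero j), add_zero]
      exact hval (j + 1) (by omega)
    · rw [Finset.sum_const, card_range, nsmul_eq_mul]
      have : (i : ℝ) ≤ n := by exact_mod_cast (by omega : i ≤ n)
      exact mul_le_mul_of_nonneg_right this (by positivity)
  have p2 : (0 : ℝ) < 2 ^ W := by positivity
  have h5 : eval b (pderiv 0 (Φ (i + 1))) = 2 ^ W *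
      (eval y (pderiv 0 (bind₁ (nuc g Φ) (Φ (i + 1)))) -
        ∑ j ∈ range i, D (j + 1) * eval b (pderiv (j + 1) (Φ (i + 1)))) := by
    rw [← h3, hD0]
    field_simp
    ring
  rw [h5, abs_mul, abs_of_pos p2]
  have h6 : |eval y (pderiv 0 (bind₁ (nuc g Φ) (Φ (i + 1)))) -
      ∑ j ∈ range i, D (j + 1) * eval b (pderiv (j + 1) (Φ (i + 1)))| ≤ T + n * (T * L) :=
    (abs_sub _ _).trans (add_le_add (hval (i + 1) hi) h4)
  refine (mul_le_mul_of_nonneg_left h6 p2.le).trans ?_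
  have h7 : (2 : ℝ) ^ W * (T + n * (T * L)) = K₁ * C * (S * ρ ^ K₁) * (1 + n * L) := by
    rw [hT]
    field_simp
  rw [h7]
  have h8 : 1 + n * L ≤ (1 + n) * (1 + L) := by nlinarith [Nat.cast_nonneg (α := ℝ) n]
  have h9 : 0 ≤ S * ρ ^ K₁ := by positivity
  have h10 : 0 ≤ S * ρ ^ K₁ * (1 + L) := by positivity
  calc K₁ * C * (S * ρ ^ K₁) * (1 + n * L) ≤ K₁ * C * (S * ρ ^ K₁) * ((1 + n) * (1 + L)) :=
        mul_le_mul_of_nonneg_left h8 (by positivity)
    _ = (1 + n) * (K₁ * C) * (S * ρ ^ K₁ * (1 + L)) := by ring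
    _ ≤ ((1 + n) * (K₁ * C) + 1) * (S * ρ ^ K₁ * (1 + L)) :=
        mul_le_mul_of_nonneg_right (by linarith) h10
    _ = ((1 + n) * (K₁ * C) + 1) * S * ρ ^ K₁ * (1 + L) := by ring

end Pool.M3F
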