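import Pool.Agent.H5.M3F.Gr2
import Pool.Agent.H5.M3F.Fu

/-!
# Closed labels with the ball of the point

`ball_cell`: the cell of side `2 ^ (-W)` of the point is a closed function on an event of
probability at least a constant. `PLab`: closed labels, with bounds for the derivatives in the
directions of the coordinates, which contain the cell of the point. `plab_of`: from chains of
two-sided labels.
-/

set_option autoImplicit false

namespace Pool.M3F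

open Finset Real MvPolynomial
open Pool.Agent.H49.Ent Pool.Agent.H32.Dense Pool.STK Pool.KA Pool.KSAT Pool.K2S Pool.PB Pool.GEN
open Pool.STAT Pool.STAT.CLO

variable {m J : ℕ}

/-- The cell of the point, as a function of the record. -/
def bcl {F : Fam m J} (W : ℕ) (ξ : PtT F) (i : Fin m) : ℤ := ξ.1 i / 2 ^ (J - W)

theorem bcl_le {F : Fam m J} {W : ℕ} (hW : W ≤ J) (ξ : PtT F) (i : Fin m) :
    ((bcl W ξ i : ℤ) : ℝ) / 2 ^ W ≤ (ξ.1 i : ℝ) / 2 ^ J ∧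
      ((ξ.1 i : ℝ) + 1) / 2 ^ J ≤ ((bcl W ξ i : ℤ) + 1 : ℝ) / 2 ^ W := by
  have hJ : (2 : ℝ) ^ J = 2 ^ (J - W) * 2 ^ W := by rw [← pow_add, Nat.sub_add_cancel hW]
  have p1 : (0 : ℝ) < 2 ^ (J - W) := by positivity
  have p2 : (0 : ℝ) < 2 ^ W := by positivity
  have h0 : (0 : ℤ) < 2 ^ (J - W) := by positivity
  have h1 : bcl W ξ i * 2 ^ (J - W) ≤ ξ.1 i := Int.ediv_mul_le _ h0.ne'
  have h2 : ξ.1 i + 1 ≤ (bcl W ξ i + 1) * 2 ^ (J - W) := by
    have := Int.lt_ediv_add_one_mul_self (ξ.1 i) h0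
    exact this
  have h1' : ((bcl W ξ i : ℤ) : ℝ) * 2 ^ (J - W) ≤ (ξ.1 i : ℝ) := by exact_mod_cast h1
  have h2' : ((ξ.1 i : ℝ) + 1) ≤ ((bcl W ξ i : ℤ) + 1 : ℝ) * 2 ^ (J - W) := by exact_mod_cast h2
  rw [hJ]
  constructor
  · rw [div_le_div_iff₀ p2 (by positivity)]
    nlinarith
  · rw [div_le_div_iff₀ (by positivity) p2]
    nlinarith

/-- The point at the beginning of the window. -/
noncomputable def x1s {F : Fam m J} (W : ℕ) (s : LnT F) (i : Fin m) : ℝ :=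
  s.1.1 i + (s.2.2 : ℝ) / 2 ^ W * s.1.2 i

theorem x1s_near {F : Fam m J} {W : ℕ} (hW : W ≤ J) (ω : F.Ω) (i : Fin m) :
    |F.x ω i - x1s W (slam F W ω) i| ≤ 1 / 2 ^ W := by
  have h1 : F.x ω i - x1s W (slam F W ω) i = (F.t ω - (F.T1 W ω : ℝ) / 2 ^ W) * F.d ω i := by
    show F.x ω i - (F.u ω i + (F.T1 W ω : ℝ) / 2 ^ W * F.d ω i) = _
    unfold Fam.x
    ring
  rw [h1, abs_mul]
  calc |F.t ω - (F.T1 W ω : ℝ) / 2 ^ W| * |F.d ω i| ≤ 1 / 2 ^ W * 1 :=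
        mul_le_mul (t_cell F hW ω) (F.dir ω i) (abs_nonneg _) (by positivity)
    _ = 1 / 2 ^ W := mul_one _

/-- **The cell of the point is closed**, on an event of probability at least a constant. -/
theorem ball_cell (F : Fam m J) {W : ℕ} (hW : W ≤ J) (A : F.Ω → Prop) :
    ∃ (v : Fin m → ℤ) (B : F.Ω → Prop), (∀ ω, B ω → A ω) ∧ Pe F.p A ≤ 5 ^ m * Pe F.p B ∧
      ∀ ω, B ω → ∀ i, bcl W (ptr F J ω) i = ⌊(2 : ℝ) ^ W * x1s W (slam F W ω) i⌋ + v i := by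
  classical
  obtain ⟨S, hS⟩ : ∃ S : Finset (Fin m → ℤ), S = Fintype.piFinset fun _ =>
    Finset.Icc (-2 : ℤ) 2 := ⟨_, rfl⟩
  have hcard : S.card = 5 ^ m := by
    rw [hS, Fintype.card_piFinset]
    simp
  have hne : S.Nonempty := by
    rw [← Finset.card_pos, hcard]
    positivity
  obtain ⟨v, -, hv⟩ := Pool.FLF.pigeon F.isLaw (A := A)
    (fun ω (i : Fin m) => bcl W (ptr F J ω) i - ⌊(2 : ℝ) ^ W * x1s W (slam F W ω) i⌋) S hne (by
      intro ω hω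
      rw [hS, Fintype.mem_piFinset]
      intro i
      have p2 : (0 : ℝ) < 2 ^ W := by positivity
      have pJ : (0 : ℝ) < 2 ^ J := by positivity
      obtain ⟨h1, h2⟩ := bcl_le hW (ptr F J ω) i
      have e1 : ((ptr F J ω).1 i : ℝ) = (⌊(2 : ℝ) ^ J * F.x ω i⌋ : ℤ) := rfl
      rw [e1] at h1 h2
      have f1 := Int.floor_le ((2 : ℝ) ^ J * F.x ω i)
      have f2 := Int.lt_floor_add_one ((2 : ℝ) ^ J * F.x ω i)
      have h3 : ((bcl W (ptr F J ω) i : ℤ) : ℝ) ≤ 2 ^ W * F.x ω i := by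
        have h4 : ((⌊(2 : ℝ) ^ J * F.x ω i⌋ : ℤ) : ℝ) / 2 ^ J ≤ F.x ω i := by
          rw [div_le_iff₀ pJ]
          linarith
        have h5 := h1.trans h4
        rw [div_le_iff₀ p2] at h5
        linarith
      have h3' : (2 : ℝ) ^ W * F.x ω i ≤ ((bcl W (ptr F J ω) i : ℤ) : ℝ) + 1 := by
        have h4 : F.x ω i ≤ (((⌊(2 : ℝ) ^ J * F.x ω i⌋ : ℤ) : ℝ) + 1) / 2 ^ J := by
          rw [le_div_iff₀ pJ]
          linarith
        have h5 := h4.trans h2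
        rw [le_div_iff₀ p2] at h5
        linarith
      have h6 := x1s_near hW ω i
      have h7 : |(2 : ℝ) ^ W * F.x ω i - 2 ^ W * x1s W (slam F W ω) i| ≤ 1 := by
        rw [← mul_sub, abs_mul, abs_of_pos p2]
        calc (2 : ℝ) ^ W * |F.x ω i - x1s W (slam F W ω) i| ≤ 2 ^ W * (1 / 2 ^ W) :=
              mul_le_mul_of_nonneg_left h6 p2.le
          _ = 1 := by field_simp
      have g1 := Int.floor_le ((2 : ℝ) ^ W * x1s W (slam F W ω) i)
      have g2 := Int.lt_floor_add_one ((2 : ℝ) ^ W * x1s W (slam F W ω) i)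
      rw [abs_le] at h7
      have u1 : ((bcl W (ptr F J ω) i : ℤ) : ℝ) -
          ((⌊(2 : ℝ) ^ W * x1s W (slam F W ω) i⌋ : ℤ) : ℝ) < 3 := by linarith [h7.2]
      have u2 : -3 < ((bcl W (ptr F J ω) i : ℤ) : ℝ) -
          ((⌊(2 : ℝ) ^ W * x1s W (slam F W ω) i⌋ : ℤ) : ℝ) := by linarith [h7.1]
      have u3 : bcl W (ptr F J ω) i - ⌊(2 : ℝ) ^ W * x1s W (slam F W ω) i⌋ < 3 := by
        exact_mod_cast u1
      have u4 : -3 < bcl W (ptr F J ω) i - ⌊(2 : ℝ) ^ W * x1s W (slam F W ω) i⌋ := by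
        exact_mod_cast u2
      rw [Finset.mem_Icc]
      omega)
  refine ⟨v, fun ω => A ω ∧ (fun (i : Fin m) => bcl W (ptr F J ω) i -
    ⌊(2 : ℝ) ^ W * x1s W (slam F W ω) i⌋) = v, fun ω hω => hω.1, ?_, fun ω hω i => ?_⟩
  · rw [hcard] at hv
    have h5 : (0 : ℝ) < ((5 ^ m : ℕ) : ℝ) := by positivity
    rw [div_le_iff₀ h5] at hv
    push_cast at hv
    linarith
  · have h1 : bcl W (ptr F J ω) i - ⌊(2 : ℝ) ^ W * x1s W (slam F W ω) i⌋ = v i :=
      congrFun hω.2 i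
    omega

/-- **Closed labels with the ball of the point.** -/
structure PLab (F : Fam m J) (c : ℕ → Fin m) (r W : ℕ) (g : ℕ → ℕ) (K : ℕ) (L : ℝ)
    (B : F.Ω → Prop) {V : Type} (z : PtT F → V) (z' : LnT F → V) (P : V → ℕ → PN)
    (q : V → ℕ → ℝ) : Prop where
  deg : ∀ v i, (P v i).totalDegree ≤ K
  tri : ∀ v, TriN (P v)
  cls : ∀ ω, B ω → z (ptr F J ω) = z' (slam F W ω)
  zero : ∀ ω, B ω → P (z (ptr F J ω)) 0 = MvPolynomial.C ((F.T1 W ω : ℝ) / 2 ^ W)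
  pos : ∀ ω, B ω → ∀ i ≤ r, |px c (ptr F J ω) (i + 1) -
    eval (px c (ptr F J ω)) (P (z (ptr F J ω)) (i + 1))| ≤ 1 / 2 ^ g i
  ball : ∀ ω, B ω → ∀ i, |px c (ptr F J ω) (i + 1) - q (z (ptr F J ω)) (i + 1)| ≤ 1 / 2 ^ W
  gradv : ∀ ω, B ω → ∀ b : ℕ → ℝ, CLO.Bxr 4 (wid W g) (P (z (ptr F J ω))) (r + 1) b →
    ∀ i ≤ r + 1, ∀ l, 1 ≤ l → l < i → |eval b (pderiv l (P (z (ptr F J ω)) i))| ≤ L

theorem gg_eq_wid (W : ℕ) (g : ℕ → ℕ) : gg W g = wid W g := rfl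

/-- **From chains of two-sided labels to closed labels with the ball.** -/
theorem plab_of (r K : ℕ) : ∃ (sh K' s₁ : ℕ) (C₀ S₀ : ℝ), 1 ≤ K' ∧ 1 ≤ C₀ ∧ 1 ≤ S₀ ∧
    1 + (K' * S₀ * 2) ^ K' ≤ 2 * 2 ^ sh ∧ ∀ (m J : ℕ) (F : Fam m J) (c : ℕ → Fin m)
    (W e v : ℕ) (g : ℕ → ℕ) (Kv : ℕ → ℕ) (A : F.Ω → Prop)
    (G : PtT F → ℕ → MvPolynomial (Option (Fin m)) ℝ)
    (H : LnT F → ℕ → MvPolynomial (Option (Fin m)) ℝ), W ≤ J → Inj c (r + 1) →
    (∀ i < r + 1, Kv i ≤ K) → (∀ i < r + 1, sh ≤ g i) →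
    (∀ l i, l ≤ i → i < r + 1 → g l ≤ g i + v) → (∀ i < r + 1, g i + (e + v) + s₁ ≤ J) →
    ChOK F c (r + 1) Kv W W e g A G H →
    ∃ (B : F.Ω → Prop) (V : Type) (z : PtT F → V) (z' : LnT F → V) (P : V → ℕ → PN)
      (q : V → ℕ → ℝ), (∀ ω, B ω → A ω) ∧ Pe F.p A ≤ K' * 5 ^ m * Pe F.p B ∧
      PLab F c r W (fun i => g i - sh) K' (C₀ * 2 ^ (e + 2 * v)) B z z' P q ∧
      ∀ ω, B ω → Nr K' S₀ (gg W g) (P (z (ptr F J ω))) (Gs c (r + 1) W G (ptr F J ω)) (r + 2) := by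
  classical
  obtain ⟨sh, K', s₀, C₁, -, hK', hclo⟩ := clo_fam (r + 1) K
  obtain ⟨L, s₁, hL, hnear⟩ := near_pt (r + 1) K sh K' s₀ hK'
  obtain ⟨s₂, hs₂'⟩ := pow_unbounded_of_one_lt (max (2 + L) (1 + (K' * 2 ^ s₀ * 2) ^ K'))
    (one_lt_two (α := ℝ))
  have hs₂ : 2 + L < 2 ^ s₂ := (le_max_left _ _).trans_lt hs₂'
  have hs₃ : 1 + ((K' : ℝ) * 2 ^ s₀ * 2) ^ K' < 2 ^ s₂ := (le_max_right _ _).trans_lt hs₂'
  obtain ⟨C₀, hC₀, hgv⟩ := grad_v (r + 1) K K' s₀ hK' (4 * 2 ^ (sh + s₂)) (by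
    have : (1 : ℝ) ≤ 2 ^ (sh + s₂) := one_le_pow₀ (by norm_num)
    linarith)
  refine ⟨sh + s₂, K', s₁, C₀ + 2 ^ s₀, 2 ^ s₀, hK', by
    have : (0 : ℝ) < 2 ^ s₀ := by positivity
    linarith, one_le_pow₀ (by norm_num), by
    have h1 : (1 : ℝ) ≤ 2 ^ sh := one_le_pow₀ (by norm_num)
    have h2 : (0 : ℝ) < 2 ^ s₂ := by positivity
    rw [pow_add]
    nlinarith, ?_⟩
  intro m J F c W e v g Kv A G H hW hc hKv hsh hsort hJ h
  obtain ⟨C, B₁, hB₁, hPe₁, hC, -, -, hNr⟩ := hclo m J 0 W 1 F c (fun _ => Kv) (fun _ => e)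
    (fun _ => g) A (fun _ => G) (fun _ => H) le_rfl (by omega) hc (fun _ _ => hKv)
    (fun _ _ i hi => by have := hsh i hi; omega) (fun k hk => by
      have hk0 : k = 0 := by omega
      subst hk0
      rw [zero_mul, add_zero]
      exact h)
  obtain ⟨v₀, B, hB, hPe, hball⟩ := ball_cell F hW B₁
  have hW0 : W + 0 * 1 = W := by omega
  -- the label
  obtain ⟨z, hz⟩ : ∃ z : PtT F → C.V 0 × ℕ × (Fin m → ℤ), z = fun ξ =>
    (C.pt 0 ξ, ξ.2.1 / 2 ^ (J - W), bcl W ξ) := ⟨_, rfl⟩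
  obtain ⟨z', hz'⟩ : ∃ z' : LnT F → C.V 0 × ℕ × (Fin m → ℤ), z' = fun s =>
    (C.li 0 s, s.2.2, fun i => ⌊(2 : ℝ) ^ W * x1s W s i⌋ + v₀ i) := ⟨_, rfl⟩
  obtain ⟨P, hP⟩ : ∃ P : C.V 0 × ℕ × (Fin m → ℤ) → ℕ → PN, P = fun x i =>
    if i = 0 then MvPolynomial.C ((x.2.1 : ℝ) / 2 ^ W) else if i ≤ r + 1 then C.G 0 x.1 i else 0 :=
    ⟨_, rfl⟩
  have hP0 : ∀ x, P x 0 = MvPolynomial.C ((x.2.1 : ℝ) / 2 ^ W) := fun x => by
    rw [hP]
    exact if_pos rfl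
  have hP1 : ∀ x i, 1 ≤ i → i ≤ r + 1 → P x i = C.G 0 x.1 i := fun x i h1 h2 => by
    rw [hP]
    show (if i = 0 then _ else if i ≤ r + 1 then C.G 0 x.1 i else 0) = C.G 0 x.1 i
    rw [if_neg (by omega), if_pos h2]
  have hPdeg : ∀ x i, (P x i).totalDegree ≤ K' := by
    intro x i
    rw [hP]
    show (if i = 0 then MvPolynomial.C ((x.2.1 : ℝ) / 2 ^ W) else
      if i ≤ r + 1 then C.G 0 x.1 i else 0).totalDegree ≤ K'
    split_ifs with h1 h2
    · rw [totalDegree_C]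
      exact Nat.zero_le _
    · exact hC.deg 0 le_rfl _ i (by omega) h2
    · rw [totalDegree_zero]
      exact Nat.zero_le _
  have hPtri : ∀ x i, (P x i).vars ⊆ range i := by
    intro x i
    rw [hP]
    show (if i = 0 then MvPolynomial.C ((x.2.1 : ℝ) / 2 ^ W) else
      if i ≤ r + 1 then C.G 0 x.1 i else 0).vars ⊆ range i
    split_ifs with h1 h2
    · rw [vars_C]
      exact Finset.empty_subset _
    · exact hC.tri 0 le_rfl _ i (by omega) h2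
    · rw [vars_0]
      exact Finset.empty_subset _
  have hcls : ∀ ω, B ω → z (ptr F J ω) = z' (slam F W ω) := by
    intro ω hω
    rw [hz, hz']
    have h1 := hC.cls 0 le_rfl ω (hB ω hω)
    rw [hW0] at h1
    refine Prod.ext h1 (Prod.ext rfl ?_)
    funext i
    exact hball ω hω i
  -- the closed system
  have hPh : ∀ ω, B ω → ∀ i ≤ r + 1, C.Ph W 1 0 ω i = P (z (ptr F J ω)) i := by
    intro ω hω i hi
    have h1 := hC.cls 0 le_rfl ω (hB ω hω)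
    rcases Nat.eq_zero_or_pos i with rfl | h2
    · rw [hP0]
      have h3 : C.Ph W 1 0 ω 0 = MvPolynomial.C ((F.T1 (W + 0 * 1) ω : ℝ) / 2 ^ (W + 0 * 1)) :=
        if_pos rfl
      rw [h3, hW0, hz]
      rfl
    · rw [hP1 _ i h2 hi]
      have h3 : C.Ph W 1 0 ω i = C.G 0 (C.li 0 (slam F (W + 0 * 1) ω)) i := if_neg (by omega)
      rw [h3, ← h1, hz]
  have hNr' : ∀ ω, B ω → Nr K' (2 ^ s₀) (gg W g) (P (z (ptr F J ω)))
      (sy c (r + 1) ((F.T1 W ω : ℝ) / 2 ^ W) (G (ptr F J ω))) (r + 1 + 1) := by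
    intro ω hω
    have h1 := hNr 0 le_rfl ω (hB ω hω)
    rw [hW0] at h1
    refine ⟨?_, fun j h2 h3 ρ h4 b hb => ?_⟩
    · rw [← hPh ω hω 0 (Nat.zero_le _)]
      exact h1.1
    · rw [← hPh ω hω j (by omega)]
      exact h1.2 j h2 h3 ρ h4 b hb
  have hlip : ∀ ω, B ω → ∀ i < r + 1, ∀ b : Option (Fin m) → ℝ,
      NBx c (G (ptr F J ω)) g W (F.t ω) i b → ∀ l < i,
      |eval b (pderiv (some (c l)) (G (ptr F J ω) i))| ≤ 2 ^ (e + v) := by
    intro ω hω i hi b hb l hl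
    refine (h.lip ω (hB₁ ω (hB ω hω)) i hi b hb l hl).trans ?_
    refine pow_le_pow_right₀ (by norm_num) (Nat.add_le_add_left ?_ e)
    unfold nlp
    have h1 : (Finset.Icc l i).sup g ≤ g i + v := Finset.sup_le fun j hj =>
      hsort j i (Finset.mem_Icc.1 hj).2 hi
    omega
  have pJW : (1 : ℝ) / 2 ^ J ≤ 1 / 2 ^ W :=
    one_div_le_one_div_of_le (by positivity) (pow_le_pow_right₀ (by norm_num) hW)
  refine ⟨B, C.V 0 × ℕ × (Fin m → ℤ), z, z', P, fun x i =>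
    if i = 0 then 0 else (x.2.2 (c (i - 1)) : ℝ) / 2 ^ W, fun ω hω => hB₁ ω (hB ω hω), ?_,
    ⟨hPdeg, hPtri, hcls, ?_, ?_, ?_, ?_⟩, ?_⟩
  · have h1 : (K' : ℝ) ^ (0 + 1) = K' := by norm_num
    have h2 : Pe F.p A ≤ K' * Pe F.p B₁ := by
      rw [h1] at hPe₁
      exact hPe₁
    calc Pe F.p A ≤ K' * Pe F.p B₁ := h2
      _ ≤ K' * (5 ^ m * Pe F.p B) := mul_le_mul_of_nonneg_left hPe (Nat.cast_nonneg _)
      _ = K' * 5 ^ m * Pe F.p B := by ring
  · intro ω hω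
    rw [hP0, hz]
    rfl
  · -- the positions
    intro ω hω i hi
    obtain ⟨x, hx⟩ : ∃ x, x = cx F (fun i => c (i - 1)) ω := ⟨_, rfl⟩
    have hxp : ∀ j, |px c (ptr F J ω) (j + 1) - x (j + 1)| ≤ 1 / 2 ^ J := by
      intro j
      have pJ : (0 : ℝ) < 2 ^ J := by positivity
      have e1 : px c (ptr F J ω) (j + 1) = ((⌊(2 : ℝ) ^ J * F.x ω (c j)⌋ : ℤ) : ℝ) / 2 ^ J :=
        px_succ c _ j
      have e2 : x (j + 1) = F.x ω (c j) := by
        rw [hx]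
        exact if_neg (by omega)
      have f1 := Int.floor_le ((2 : ℝ) ^ J * F.x ω (c j))
      have f2 := Int.lt_floor_add_one ((2 : ℝ) ^ J * F.x ω (c j))
      rw [e1, e2]
      have e3 : ((⌊(2 : ℝ) ^ J * F.x ω (c j)⌋ : ℤ) : ℝ) / 2 ^ J - F.x ω (c j) =
          (((⌊(2 : ℝ) ^ J * F.x ω (c j)⌋ : ℤ) : ℝ) - 2 ^ J * F.x ω (c j)) / 2 ^ J := by
        field_simp
      rw [e3, abs_div, abs_of_pos pJ]
      refine div_le_div_of_nonneg_right ?_ pJ.le
      rw [abs_le]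
      constructor <;> linarith
    have h1 : |x (i + 1) - eval x (P (z (ptr F J ω)) (i + 1))| ≤ 1 / 2 ^ (g i - sh) := by
      have h2 := hC.pos 0 le_rfl ω (hB ω hω) (i + 1) (by omega) (by omega)
      rw [hPh ω hω (i + 1) (by omega)] at h2
      have e2 : x (i + 1) = F.x ω (c i) := by
        rw [hx]
        exact if_neg (by omega)
      rw [e2, hx]
      exact h2
    have h2 := hnear m J F c W g (fun _ => e + v) 0 (G (ptr F J ω)) (P (z (ptr F J ω))) ω hW hc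
      (fun i hi => (h.degG _ i).trans (hKv i hi)) (h.depG _) (hlip ω hω)
      (fun j _ _ => hPtri _ j) (fun j _ _ => hPdeg _ j) (by
        rw [hP0, hz]
        rfl) (hNr' ω hω) (fun j hj1 hj2 => by
        obtain ⟨j, rfl⟩ : ∃ j', j = j' + 1 := ⟨j - 1, by omega⟩
        have h3 := hC.pos 0 le_rfl ω (hB ω hω) (j + 1) (by omega) (by omega)
        rw [hPh ω hω (j + 1) (by omega)] at h3
        have e2 : cx F (fun i => c (i - 1)) ω (j + 1) = F.x ω (c j) := if_neg (by omega)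
        rw [e2]
        exact h3) (fun i hi => by have := hsh i hi; omega) (fun i hi => by
        have := hJ i hi
        omega) (px c (ptr F J ω)) (px_zero c ω) (i + 1) (by omega) (by omega) (fun j hj1 _ => by
        obtain ⟨j, rfl⟩ : ∃ j', j = j' + 1 := ⟨j - 1, by omega⟩
        have h3 := hxp j
        rw [hx] at h3
        exact h3)
    rw [← hx] at h2
    simp only [Nat.add_sub_cancel, Nat.add_zero] at h2
    have h3 := hxp i
    have h4 : |px c (ptr F J ω) (i + 1) - eval (px c (ptr F J ω)) (P (z (ptr F J ω)) (i + 1))| ≤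
        1 / 2 ^ J + 1 / 2 ^ (g i - sh) + L / 2 ^ (g i - sh) := by
      rw [abs_le] at h1 h2 h3 ⊢
      constructor <;> linarith [h1.1, h1.2, h2.1, h2.2, h3.1, h3.2]
    refine h4.trans ?_
    have h5 : (1 : ℝ) / 2 ^ J ≤ 1 / 2 ^ (g i - sh) := by
      refine one_div_le_one_div_of_le (by positivity) (pow_le_pow_right₀ (by norm_num) ?_)
      have := hJ i (by omega)
      omega
    have h6 : (1 : ℝ) / 2 ^ (g i - sh) + 1 / 2 ^ (g i - sh) + L / 2 ^ (g i - sh) =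
        (2 + L) / 2 ^ (g i - sh) := by ring
    have h7 : (2 + L) / 2 ^ (g i - sh) ≤ 1 / 2 ^ (g i - (sh + s₂)) := by
      have h8 : (2 : ℝ) ^ (g i - sh) = 2 ^ (g i - (sh + s₂)) * 2 ^ s₂ := by
        rw [← pow_add]
        congr 1
        have := hsh i (by omega)
        omega
      rw [h8, div_le_div_iff₀ (by positivity) (by positivity)]
      have : (0 : ℝ) < 2 ^ (g i - (sh + s₂)) := by positivity
      nlinarith
    linarith
  · -- the ball
    intro ω hω i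
    have h1 := bcl_le hW (ptr F J ω) (c i)
    have e1 : px c (ptr F J ω) (i + 1) = ((ptr F J ω).1 (c i) : ℝ) / 2 ^ J := px_succ c _ i
    rw [e1, hz]
    show |((ptr F J ω).1 (c i) : ℝ) / 2 ^ J -
      (if i + 1 = 0 then 0 else ((bcl W (ptr F J ω) (c (i + 1 - 1)) : ℤ) : ℝ) / 2 ^ W)| ≤ _
    rw [if_neg (Nat.succ_ne_zero i), Nat.add_sub_cancel]
    have h2 : ((ptr F J ω).1 (c i) : ℝ) / 2 ^ J ≤ (((ptr F J ω).1 (c i) : ℝ) + 1) / 2 ^ J :=
      div_le_div_of_nonneg_right (by linarith) (by positivity)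
    have h3 : (((bcl W (ptr F J ω) (c i) : ℤ) : ℝ) + 1) / 2 ^ W =
        ((bcl W (ptr F J ω) (c i) : ℤ) : ℝ) / 2 ^ W + 1 / 2 ^ W := by ring
    rw [abs_le]
    constructor
    · have : (0 : ℝ) < 1 / 2 ^ W := by positivity
      linarith [h1.1]
    · linarith [h1.2]
  · -- the derivatives
    intro ω hω b hb i hi l hl1 hl
    have h1 : Bxr (4 * 2 ^ (sh + s₂)) (gg W g) (P (z (ptr F J ω))) (r + 1) b := by
      intro j hj
      have h2 := hb j hj
      refine h2.trans ?_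
      rcases Nat.eq_zero_or_pos j with rfl | hj0
      · have e1 : wid W (fun i => g i - (sh + s₂)) 0 = W := if_pos rfl
        have e2 : gg W g 0 = W := if_pos rfl
        rw [e1, e2]
        refine div_le_div_of_nonneg_right ?_ (by positivity)
        have : (1 : ℝ) ≤ 2 ^ (sh + s₂) := one_le_pow₀ (by norm_num)
        linarith
      · have e1 : wid W (fun i => g i - (sh + s₂)) j = g (j - 1) - (sh + s₂) := if_neg (by omega)
        have e2 : gg W g j = g (j - 1) := if_neg (by omega)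
        rw [e1, e2]
        have h3 := hsh (j - 1) (by omega)
        have h4 : (2 : ℝ) ^ g (j - 1) = 2 ^ (g (j - 1) - (sh + s₂)) * 2 ^ (sh + s₂) := by
          rw [← pow_add, Nat.sub_add_cancel h3]
        rw [h4]
        refine le_of_eq ?_
        field_simp
    have h2 := hgv m J F c W g (e + v) v (G (ptr F J ω)) (P (z (ptr F J ω))) ω hW hc
      (fun i hi => (h.degG _ i).trans (hKv i hi)) (h.depG _) (hlip ω hω) (hPtri _) (hPdeg _)
      (hNr' ω hω) hsort b h1 i hi l hl1 hl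
    refine h2.trans ?_
    have e1 : e + v + v = e + 2 * v := by ring
    rw [e1]
    refine mul_le_mul_of_nonneg_right ?_ (by positivity)
    have : (0 : ℝ) < 2 ^ s₀ := by positivity
    linarith
  · -- the point side
    intro ω hω
    have h1 := hNr' ω hω
    refine ⟨?_, fun j h2 h3 ρ h4 b hb => ?_⟩
    · have h5 := h1.1
      rw [h5]
      rfl
    · exact h1.2 j h2 h3 ρ h4 b hb

end Pool.M3F
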