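import Pool.Agent.H5.M3F.Ltr
import Pool.Agent.H5.M3F.Cel

/-!
# Jets on the point side

`JetP`: a polynomial of bounded degree which is small on the leaf of the point side of a chain, with
all its derivatives in the direction of the last coordinate. `jetp_of`: from jets on the leaf of the
closed polynomials.
-/

set_option autoImplicit false

namespace Pool.M3F

open Finset Real MvPolynomial
open Pool.Agent.H49.Ent Pool.Agent.H32.Dense Pool.STK Pool.KA Pool.KSAT Pool.K2S Pool.PB Pool.GEN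
open Pool.STAT Pool.STAT.CLO

variable {m : ℕ}

/-- The point of the leaf of the coordinate `c r` over `b`. -/
noncomputable def lfo (c : ℕ → Fin m) (r : ℕ) (G : ℕ → MvPolynomial (Option (Fin m)) ℝ)
    (b : Option (Fin m) → ℝ) : Option (Fin m) → ℝ :=
  Function.update b (some (c r)) (eval b (G r))

/-- **Jets on the point side**: the leaf is the graph of `G r` over the natural box of the time and
of the coordinates `c l`, `l < r`. The polynomial `Q` of degree at most `D` is at most `ρ S` on the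
leaf, where `S` is comparable to the maximum of its derivative in the direction of `c r`, and the
higher derivatives are at most `ρ ^ (1 - k) S`. -/
structure JetP (c : ℕ → Fin m) (r D : ℕ) (G : ℕ → MvPolynomial (Option (Fin m)) ℝ) (g : ℕ → ℕ)
    (a : ℕ) (t : ℝ) (Q : MvPolynomial (Option (Fin m)) ℝ) (ρ S E : ℝ) : Prop where
  deg : Q.totalDegree ≤ D
  dep : DepC c (r + 1) Q
  pos : 0 < S
  att : ∃ b, NBx c G g a t r b ∧ S ≤ E * |eval (lfo c r G b) (pderiv (some (c r)) Q)|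
  jet : ∀ b, NBx c G g a t r b → ∀ k : ℕ, ρ ^ k * |eval (lfo c r G b)
    ((fun R : MvPolynomial (Option (Fin m)) ℝ => pderiv (some (c r)) R)^[k] Q)| ≤ ρ * S

theorem JetP.congr {c : ℕ → Fin m} {r D : ℕ} {G : ℕ → MvPolynomial (Option (Fin m)) ℝ}
    {g g' : ℕ → ℕ} {a : ℕ} {t : ℝ} {Q : MvPolynomial (Option (Fin m)) ℝ} {ρ S E : ℝ}
    (h : JetP c r D G g a t Q ρ S E) (hg : ∀ l < r, g l = g' l) :
    JetP c r D G g' a t Q ρ S E := by
  have h1 : ∀ b, NBx c G g a t r b ↔ NBx c G g' a t r b := by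
    intro b
    constructor
    · rintro ⟨h1, h2⟩
      exact ⟨h1, fun l hl => by rw [← hg l hl]; exact h2 l hl⟩
    · rintro ⟨h1, h2⟩
      exact ⟨h1, fun l hl => by rw [hg l hl]; exact h2 l hl⟩
  obtain ⟨b, hb, hbS⟩ := h.att
  exact ⟨h.deg, h.dep, h.pos, ⟨b, (h1 b).1 hb, hbS⟩, fun b hb => h.jet b ((h1 b).2 hb)⟩

/-! ### Translation back -/

/-- The polynomial in the original variables. -/
noncomputable def bk (c : ℕ → Fin m) (Q : PN) : MvPolynomial (Option (Fin m)) ℝ :=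
  rename (fun i => if i = 0 then none else some (c (i - 1))) Q

theorem bk_deg (c : ℕ → Fin m) (Q : PN) : (bk c Q).totalDegree ≤ Q.totalDegree :=
  totalDegree_rename_le _ _

theorem eval_bk (c : ℕ → Fin m) (Q : PN) (b : Option (Fin m) → ℝ) :
    eval b (bk c Q) = eval (fun i : ℕ => if i = 0 then b none else b (some (c (i - 1)))) Q := by
  unfold bk
  rw [eval_rename]
  congr 2
  funext i
  show b (if i = 0 then none else some (c (i - 1))) = _
  split_ifs <;> rfl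

theorem bk_dep {c : ℕ → Fin m} {r : ℕ} {Q : PN} (hQ : Q.vars ⊆ range (r + 2)) :
    DepC c (r + 1) (bk c Q) := by
  intro b b' h0 h
  rw [eval_bk, eval_bk]
  refine eval_cg hQ fun j hj => ?_
  rcases Nat.eq_zero_or_pos j with rfl | h1
  · rw [if_pos rfl, if_pos rfl, h0]
  · rw [if_neg (by omega), if_neg (by omega), h (j - 1) (by omega)]

theorem tr_bk {c : ℕ → Fin m} {r : ℕ} (hc : Inj c (r + 1)) {Q : PN}
    (hQ : Q.vars ⊆ range (r + 2)) : tr c (r + 1) (bk c Q) = Q := by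
  unfold tr bk
  rw [bind₁_rename]
  have h1 : Q = bind₁ X Q := by
    rw [bind₁_X_left]
    rfl
  conv_rhs => rw [h1]
  refine eval₂Hom_congr' rfl (fun j hj _ => ?_) rfl
  have hj' := mem_range.1 (hQ hj)
  show vr c (r + 1) (if j = 0 then none else some (c (j - 1))) = X j
  rcases Nat.eq_zero_or_pos j with rfl | h2
  · rw [if_pos rfl]
    rfl
  · rw [if_neg (by omega), vr_some hc le_rfl (by omega)]
    congr 1
    omega

theorem tr_iter {c : ℕ → Fin m} {r : ℕ} (hc : Inj c (r + 1)) (k : ℕ) :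
    ∀ Q : MvPolynomial (Option (Fin m)) ℝ,
    tr c (r + 1) ((fun R : MvPolynomial (Option (Fin m)) ℝ => pderiv (some (c r)) R)^[k] Q) =
      (fun R : PN => pderiv (r + 1) R)^[k] (tr c (r + 1) Q) := by
  induction k with
  | zero => exact fun _ => rfl
  | succ k ih =>
    intro Q
    rw [Function.iterate_succ_apply, Function.iterate_succ_apply, ih, pd_tr hc le_rfl
      (Nat.lt_succ_self r)]

theorem dep_iter {c : ℕ → Fin m} {r : ℕ} (k : ℕ) : ∀ Q : MvPolynomial (Option (Fin m)) ℝ,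
    DepC c (r + 1) Q → DepC c (r + 1)
      ((fun R : MvPolynomial (Option (Fin m)) ℝ => pderiv (some (c r)) R)^[k] Q) := by
  induction k with
  | zero => exact fun _ h => h
  | succ k ih =>
    intro Q hQ
    rw [Function.iterate_succ_apply]
    exact ih _ (DepC.pderiv hQ r)

/-- The leaves. -/
theorem eval_lfo {c : ℕ → Fin m} {r : ℕ} (hc : Inj c (r + 1))
    {G : ℕ → MvPolynomial (Option (Fin m)) ℝ} (hG : ∀ i, DepC c i (G i)) {t : ℝ} {b : ℕ → ℝ}
    {B : Option (Fin m) → ℝ} (h0 : B none = b 0) (h : ∀ l < r, B (some (c l)) = b (l + 1))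
    {Q : MvPolynomial (Option (Fin m)) ℝ} (hQ : DepC c (r + 1) Q) :
    eval (lfo c r G B) Q = eval (lfpt r (sy c (r + 1) t G) b) (tr c (r + 1) Q) := by
  symm
  refine eval_tr hc le_rfl hQ ?_ fun l hl => ?_
  · unfold lfo lfpt
    rw [Function.update_of_ne (by simp), Function.update_of_ne (by omega), h0]
  · unfold lfo lfpt
    rcases Nat.lt_or_ge l r with h1 | h1
    · have h2 : (some (c l) : Option (Fin m)) ≠ some (c r) := fun h3 => by
        have := hc l (by omega) r (by omega) (Option.some.inj h3)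
        omega
      rw [Function.update_of_ne h2, Function.update_of_ne (by omega), h l h1]
    · have h2 : l = r := by omega
      subst h2
      rw [Function.update_self, Function.update_self, sy_succ (by omega)]
      exact (eval_tr hc (Nat.le_succ l) (hG l) h0 h).symm

theorem bxr_of_nbx {c : ℕ → Fin m} {r : ℕ} (hc : Inj c (r + 1))
    {G : ℕ → MvPolynomial (Option (Fin m)) ℝ} (hG : ∀ i, DepC c i (G i)) {a : ℕ} {g : ℕ → ℕ}
    {t : ℝ} {b : Option (Fin m) → ℝ} (hb : NBx c G g a t r b) :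
    Bxr 1 (gg a g) (sy c (r + 1) t G) (r + 1)
      (fun i : ℕ => if i = 0 then b none else b (some (c (i - 1)))) := by
  intro j hj
  rcases Nat.eq_zero_or_pos j with rfl | h1
  · have h2 := hb.1
    rw [sy_zero, eval_C]
    exact h2
  · obtain ⟨j, rfl⟩ : ∃ j', j = j' + 1 := ⟨j - 1, by omega⟩
    have h2 := hb.2 j (by omega)
    rw [sy_succ (by omega)]
    have h3 : eval (fun i : ℕ => if i = 0 then b none else b (some (c (i - 1)))) (tr c j (G j)) =
        eval b (G j) := eval_tr hc (by omega) (hG j) rfl fun l _ => rfl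
    rw [h3]
    exact h2

/-- **From jets on the leaf of the closed polynomials to jets on the point side.** -/
theorem jetp_of (r D K K' sh : ℕ) (S₀ : ℝ) (hK' : 1 ≤ K') (hS₀ : 1 ≤ S₀)
    (hsh : 1 + ((K' : ℝ) * S₀ * 2) ^ K' ≤ 2 * 2 ^ sh) : ∃ (sh₂ : ℕ) (E : ℝ), sh ≤ sh₂ ∧ 1 ≤ E ∧
    ∀ {m J : ℕ} (F : Fam m J) (c : ℕ → Fin m) (W : ℕ) (g g₂ : ℕ → ℕ)
      (G : ℕ → MvPolynomial (Option (Fin m)) ℝ) (P : ℕ → PN) (ω : F.Ω) (Q : PN) (ρ S : ℝ),
      W ≤ J → Inj c (r + 1) → (∀ i < r + 1, (G i).totalDegree ≤ K) → (∀ i, DepC c i (G i)) →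
      (∀ i < r, sh ≤ g i) → sh₂ ≤ g r → (∀ i < r, g₂ i = g i - sh) →
      Nr K' S₀ (gg W g) P (sy c (r + 1) ((F.T1 W ω : ℝ) / 2 ^ W) G) (r + 2) →
      1 / 2 ^ (g r - sh₂) ≤ ρ → Jet r D (wid W g₂) P Q ρ S →
      JetP c r D G g W (F.t ω) (bk c Q) ρ (4 / 3 * S) E := by
  have hK1 : (1 : ℝ) ≤ K' := by exact_mod_cast hK'
  obtain ⟨M, hM⟩ := cc_le K' (r + 1)
  obtain ⟨Θ, hΘ⟩ : ∃ Θ : ℝ, Θ = 2 * K' * S₀ * (2 * 2 ^ sh) := ⟨_, rfl⟩
  have hp : (1 : ℝ) ≤ 2 ^ sh := one_le_pow₀ (by norm_num)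
  have hΘ1 : 1 ≤ Θ := by
    rw [hΘ]
    have h1 : (1 : ℝ) ≤ 2 * K' := by linarith
    have h2 : (1 : ℝ) ≤ 2 * K' * S₀ := by nlinarith
    nlinarith
  obtain ⟨ρ₂, hρ₂⟩ : ∃ ρ₂ : ℝ, ρ₂ = Θ ^ M := ⟨_, rfl⟩
  have hρ₂1 : 1 ≤ ρ₂ := by
    rw [hρ₂]
    exact one_le_pow₀ hΘ1
  obtain ⟨sh₁, hsh₁⟩ := pow_unbounded_of_one_lt (4 * ((K' : ℝ) * S₀ * ρ₂) ^ K')
    (one_lt_two (α := ℝ))
  obtain ⟨E, hE, hdil⟩ := leaf_dil r D K (ρ₂ + 1) (by linarith)
  refine ⟨sh₁ + sh, 4 / 3 * E, by omega, by linarith, ?_⟩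
  intro m J F c W g g₂ G P ω Q ρ S hW hc hGK hG hshg hsh₂ hg₂ hNr hρ hJ
  obtain ⟨Ψ, hΨ⟩ : ∃ Ψ, Ψ = sy c (r + 1) ((F.T1 W ω : ℝ) / 2 ^ W) G := ⟨_, rfl⟩
  obtain ⟨Ψt, hΨt⟩ : ∃ Ψt, Ψt = sy c (r + 1) (F.t ω) G := ⟨_, rfl⟩
  rw [← hΨ] at hNr
  have hsame : ∀ j, Ψ (j + 1) = Ψt (j + 1) := by
    intro j
    rw [hΨ, hΨt]
    unfold sy
    rw [if_neg (Nat.succ_ne_zero j), if_neg (Nat.succ_ne_zero j)]
  have hΨ0 : Ψ 0 = C ((F.T1 W ω : ℝ) / 2 ^ W) := by
    rw [hΨ]
    exact sy_zero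
  have hΨt0 : Ψt 0 = C (F.t ω) := by
    rw [hΨt]
    exact sy_zero
  have hg0 : gg W g 0 = W := if_pos rfl
  have hgs : ∀ j, gg W g (j + 1) = g j := fun j => if_neg (Nat.succ_ne_zero j)
  have hw0 : wid W g₂ 0 = W := if_pos rfl
  have hws : ∀ j, wid W g₂ (j + 1) = g₂ j := fun j => if_neg (Nat.succ_ne_zero j)
  have pρ : 0 < ρ := lt_of_lt_of_le (by positivity) hρ
  have htc := t_cell F hW ω
  have hexp : ∀ j < r, (2 : ℝ) ^ g j = 2 ^ g₂ j * 2 ^ sh := by
    intro j hj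
    rw [hg₂ j hj, ← pow_add, Nat.sub_add_cancel (hshg j hj)]
  -- from the box of the point side to the box of the closed polynomials
  have boxA : ∀ b, Bxr 1 (gg W g) Ψt (r + 1) b → Bxr 2 (wid W g₂) P (r + 1) b := by
    intro b hb
    have hb' : Bxr 2 (gg W g) Ψ (r + 1) b := by
      intro j hj
      have h1 := hb j hj
      rcases Nat.eq_zero_or_pos j with rfl | h2
      · rw [hΨt0, eval_C, hg0] at h1
        rw [hΨ0, eval_C, hg0]
        have h5 : (2 : ℝ) / 2 ^ W = 1 / 2 ^ W + 1 / 2 ^ W := by ring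
        rw [h5]
        rw [abs_le] at h1 htc ⊢
        constructor <;> linarith [h1.1, h1.2, htc.1, htc.2]
      · obtain ⟨j, rfl⟩ : ∃ j', j = j' + 1 := ⟨j - 1, by omega⟩
        rw [hsame]
        exact h1.trans (div_le_div_of_nonneg_right (by norm_num) (by positivity))
    intro j hj
    rcases Nat.eq_zero_or_pos j with rfl | h2
    · have h1 := hb' 0 (by omega)
      rw [hg0] at h1
      rw [hNr.1, hw0]
      exact h1
    · obtain ⟨j, rfl⟩ : ∃ j', j = j' + 1 := ⟨j - 1, by omega⟩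
      have h1 := hb (j + 1) hj
      rw [← hsame, hgs] at h1
      have h3 := hNr.2 (j + 1) (by omega) (by omega) 2 (by norm_num) b
        (hb'.mono le_rfl (by omega))
      rw [hgs] at h3
      rw [hws]
      have h4 : |b (j + 1) - eval b (P (j + 1))| ≤ 1 / 2 ^ g j + (K' * S₀ * 2) ^ K' / 2 ^ g j := by
        rw [abs_le] at h1 h3 ⊢
        constructor <;> linarith [h1.1, h1.2, h3.1, h3.2]
      refine h4.trans ?_
      rw [← add_div, div_le_div_iff₀ (by positivity) (by positivity), hexp j (by omega)]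
      have h5 : (0 : ℝ) < 2 ^ g₂ j := by positivity
      nlinarith
  -- from the box of the closed polynomials to a dilated box of the point side
  have boxB : ∀ b, Bxr 2 (wid W g₂) P (r + 1) b → Bxr ρ₂ (gg W g) Ψ (r + 1) b := by
    intro b hb
    have h1 : Bxr (2 * 2 ^ sh) (gg W g) P (r + 1) b := by
      intro j hj
      have h2 := hb j hj
      rcases Nat.eq_zero_or_pos j with rfl | h3
      · rw [hw0] at h2
        rw [hg0]
        exact h2.trans (div_le_div_of_nonneg_right (by linarith) (by positivity))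
      · obtain ⟨j, rfl⟩ : ∃ j', j = j' + 1 := ⟨j - 1, by omega⟩
        rw [hws] at h2
        rw [hgs, hexp j (by omega)]
        refine h2.trans (le_of_eq ?_)
        field_simp
    have h2 := Nr.box hK' hS₀ (hNr.mono (show r + 1 ≤ r + 2 by omega)) (by linarith) h1
      (r + 1) le_rfl
    refine h2.mono ?_ le_rfl
    rw [hρ₂, hΘ]
    rw [hΘ] at hΘ1
    exact pow_le_pow_right₀ hΘ1 (hM (r + 1) le_rfl)
  have boxB' : ∀ b, Bxr 2 (wid W g₂) P (r + 1) b → Bxr (ρ₂ + 1) (gg W g) Ψt (r + 1) b := by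
    intro b hb j hj
    have h1 := boxB b hb j hj
    rcases Nat.eq_zero_or_pos j with rfl | h2
    · rw [hΨ0, eval_C, hg0] at h1
      rw [hΨt0, eval_C, hg0]
      have h5 : (ρ₂ + 1) / 2 ^ W = ρ₂ / 2 ^ W + 1 / 2 ^ W := by ring
      rw [h5]
      rw [abs_le] at h1 htc ⊢
      constructor <;> linarith [h1.1, h1.2, htc.1, htc.2]
    · obtain ⟨j, rfl⟩ : ∃ j', j = j' + 1 := ⟨j - 1, by omega⟩
      rw [← hsame]
      exact h1.trans (div_le_div_of_nonneg_right (by linarith) (by positivity))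
  have hnear : ∀ b, Bxr 2 (wid W g₂) P (r + 1) b →
      |eval b (Ψt (r + 1)) - eval b (P (r + 1))| ≤ ρ / 4 := by
    intro b hb
    have h1 := hNr.2 (r + 1) (by omega) (by omega) ρ₂ hρ₂1 b (boxB b hb)
    rw [hgs, abs_sub_comm, hsame] at h1
    refine h1.trans ?_
    have h2 : (2 : ℝ) ^ g r = 2 ^ (g r - (sh₁ + sh)) * (2 ^ sh₁ * 2 ^ sh) := by
      rw [← pow_add, ← pow_add, Nat.sub_add_cancel hsh₂]
    have h3 : ((K' : ℝ) * S₀ * ρ₂) ^ K' / 2 ^ g r ≤ 1 / 4 * (1 / 2 ^ (g r - (sh₁ + sh))) := by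
      rw [h2, div_le_iff₀ (by positivity)]
      have h4 : (1 : ℝ) / 4 * (1 / 2 ^ (g r - (sh₁ + sh))) *
          (2 ^ (g r - (sh₁ + sh)) * (2 ^ sh₁ * 2 ^ sh)) = 2 ^ sh₁ * 2 ^ sh / 4 := by
        field_simp
      rw [h4]
      have h5 : (0 : ℝ) < 2 ^ sh₁ := by positivity
      nlinarith
    linarith
  obtain ⟨hup, b₀, hb₀, hb₀S⟩ := leaf_tr hJ pρ hnear
  have htQ := tr_bk hc hJ.vars
  have hdep := bk_dep (c := c) hJ.vars
  refine ⟨(bk_deg c Q).trans hJ.deg, hdep, by have := hJ.pos; positivity, ?_, ?_⟩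
  · obtain ⟨b, hb, hbS⟩ := hdil Ψt (gg W g) (pderiv (r + 1) Q) S (by rw [hΨt]; exact sy_tri)
      (fun j => by rw [hΨt]; exact sy_deg hGK j) (iter_deg_le (r + 1) 1 Q hJ.deg)
      ((NEAR.vars_pd _ _).trans hJ.vars) hJ.pos ⟨b₀, boxB' b₀ hb₀, hb₀S⟩
    rw [hΨt] at hb hbS
    refine ⟨fun o => eval b (vr c r o), nbx_of_bxr hc hG (Nat.lt_succ_self r) hb, ?_⟩
    have h1 : eval (lfo c r G fun o => eval b (vr c r o)) (pderiv (some (c r)) (bk c Q)) =
        eval (lfpt r (sy c (r + 1) (F.t ω) G) b) (pderiv (r + 1) Q) := by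
      rw [eval_lfo hc hG (t := F.t ω) (b := b) (by
        show eval b (X 0) = _
        rw [eval_X]) (fun l hl => by
        show eval b (vr c r (some (c l))) = _
        rw [vr_some hc (Nat.le_succ r) hl, eval_X]) (DepC.pderiv hdep r),
        ← pd_tr hc le_rfl (Nat.lt_succ_self r), htQ]
    rw [h1]
    linarith
  · intro b hb k
    have h1 := bxr_of_nbx hc hG hb
    rw [← hΨt] at h1
    have h2 := hup _ (boxA _ h1) k
    rw [hΨt] at h2
    rw [eval_lfo hc hG (t := F.t ω)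
      (b := fun i : ℕ => if i = 0 then b none else b (some (c (i - 1)))) rfl
      (fun l _ => rfl) (dep_iter k _ hdep), tr_iter hc, htQ]
    refine h2.trans (le_of_eq ?_)
    ring

end Pool.M3F
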