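import Pool.Agent.H5.M3F.Ker
import Pool.Agent.H60.ZCL.BTail

/-!
# Kernel labels in a class (LEMMA KER)

If a variable `Y` of the point has entropy at least `c J` given every function which is closed at
the window `w`, on all large events of a class, then it has this entropy given every kernel of the
line and the window whose information about the line, given the point, is small.
-/

set_option autoImplicit false

namespace Pool.M3F

open Finset Real MvPolynomial
open Pool.Agent.H49.Ent Pool.Agent.H32.Dense Pool.STK Pool.KA Pool.KSAT Pool.K2S Pool.KS3 Pool.PB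
open Pool.GEN Pool.KM7 Pool.S6C

variable {m : ℕ}

/-- **Exactness** of the variable `Y` at the window `w`, on the large events of the class. -/
def ExvY (S : PCl m) (w : ℝ) {β : Type} (Y : ∀ (J : ℕ) (F : Fam m J), F.Ω → β) (c : ℝ) : Prop :=
  Bas S (fun J F A => ∀ (V : Type) (z : PtT F → V) (z' : LnT F → V),
    (∀ ω, A ω → z (ptr F J ω) = z' (slam F ⌊w * J⌋₊ ω)) →
    c * Real.log 2 * J ≤ CH (Pool.Agent.H49.Ent.cond F.p A True) (Y J F)
      (fun ω => (z' (slam F ⌊w * J⌋₊ ω), F.W ω)))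

theorem ker_class {S : PCl m}
    (hpos : ∀ (τ : ℝ) (J : ℕ) (F : Fam m J) (A : F.Ω → Prop), S.St τ J F A → 0 < Pe F.p A)
    {w : ℝ} {β : Type} {Y : ∀ (J : ℕ) (F : Fam m J), F.Ω → β}
    (hY : ∀ (J : ℕ) (F : Fam m J) (ω ω' : F.Ω), Fam.pt F ω = Fam.pt F ω' →
      slam F ⌊w * J⌋₊ ω = slam F ⌊w * J⌋₊ ω' → Y J F ω = Y J F ω') {c ρ : ℝ} (hρ : 0 < ρ)
    (hex : ExvY S w Y c) :
    ∃ ε : ℝ, 0 < ε ∧ ∃ τ₀ : ℝ, 0 < τ₀ ∧ ∃ J₀ : ℕ, ∀ J ≥ J₀, ∀ (F : Fam m J) (A : F.Ω → Prop),
      S.St τ₀ J F A → ∀ (hl : IsLaw (Pool.Agent.H49.Ent.cond F.p A True)) (E α : Type)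
      (_ : Fintype E) (q : E → ℝ) (pr : E → F.Ω) (K : E → α),
      Ker (F.res A True hl) ⌊w * J⌋₊ q pr K →
      CH q K (fun e => Fam.pt F (pr e)) - CH q K (fun e => slam F ⌊w * J⌋₊ (pr e)) ≤ ε * J →
      (c - ρ) * Real.log 2 * J ≤ CH q (fun e => Y J F (pr e)) (fun e => (K e, F.W (pr e))) := by
  classical
  obtain ⟨τe, hτe, J₁, hex⟩ := hex
  have hl2 : 0 < Real.log 2 := Real.log_pos one_lt_two
  rcases le_or_gt (c - ρ) 0 with hc0 | hc0
  · refine ⟨1, one_pos, 1, one_pos, 0, fun J _ F A _ hl E α _ q pr K hK _ => ?_⟩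
    refine le_trans ?_ (CH_nonneg hK.isLaw.nonneg _ _)
    exact mul_nonpos_of_nonpos_of_nonneg (mul_nonpos_of_nonpos_of_nonneg hc0 hl2.le)
      (Nat.cast_nonneg J)
  obtain ⟨p1, hp1⟩ : ∃ p1, p1 = (ρ / 2) / (c - ρ / 2) := ⟨_, rfl⟩
  have hcp : 0 < c - ρ / 2 := by linarith
  have hp10 : 0 < p1 := by
    rw [hp1]
    positivity
  obtain ⟨θ, hθ⟩ : ∃ θ, θ = τe / 4 := ⟨_, rfl⟩
  have hθ0 : 0 < θ := by
    rw [hθ]
    positivity
  obtain ⟨J₂, hJ₂⟩ := exists_nat_gt (4 / (θ * p1))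
  obtain ⟨J₃, hJ₃⟩ := exists_nat_gt ((8 / p1) / θ)
  refine ⟨θ * p1 / 4, by positivity, τe / 2, by positivity, max (max J₁ J₂) (max J₃ 1), ?_⟩
  intro J hJ F A hS hl E α _ q pr K hK hinf
  have hJ1 : J₁ ≤ J := (le_max_left _ _).trans ((le_max_left _ _).trans hJ)
  have hJ2 : (J₂ : ℝ) ≤ J := by
    exact_mod_cast (le_max_right J₁ J₂).trans ((le_max_left _ _).trans hJ)
  have hJ3 : (J₃ : ℝ) ≤ J := by
    exact_mod_cast (le_max_left J₃ 1).trans ((le_max_right _ _).trans hJ)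
  have hJ4 : (1 : ℝ) ≤ J := by
    exact_mod_cast (le_max_right J₃ 1).trans ((le_max_right _ _).trans hJ)
  have hJ0 : (0 : ℝ) < J := by linarith
  have hq := hK.isLaw
  have hq0 := hq.nonneg
  by_contra hcon
  push Not at hcon
  obtain ⟨h, hh⟩ : ∃ h, h = (c - ρ) * Real.log 2 * J := ⟨_, rfl⟩
  obtain ⟨δ, hδ⟩ : ∃ δ, δ = ρ / 2 * Real.log 2 * J := ⟨_, rfl⟩
  have hh0 : 0 ≤ h := by
    rw [hh]
    positivity
  have hδ0 : 0 < δ := by
    rw [hδ]
    positivity
  have hhδ : h + δ = (c - ρ / 2) * Real.log 2 * J := by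
    rw [hh, hδ]
    ring
  rw [← hh] at hcon
  -- few values
  have e1 : CH q (fun e => Y J F (pr e)) (fun e => (F.W (pr e), K e)) =
      CH q (fun e => Y J F (pr e)) (fun e => (K e, F.W (pr e))) := by
    refine CH_congr hq0 (fun _ _ _ _ h => (Prod.ext_iff.1 h).1)
      (fun _ _ _ _ h => (Prod.ext_iff.1 h).1) ?_ ?_ <;>
    · intro ω ω' _ _ h
      have := Prod.ext_iff.1 h
      exact Prod.ext this.2 this.1
  obtain ⟨B, hB, S', hS', hBS⟩ := low_count hq (fun e => Y J F (pr e))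
    (fun e => (F.W (pr e), K e)) hδ0 hh0 (e1.le.trans hcon.le)
  have hB1 : p1 ≤ Pe q B := by
    refine le_trans (le_of_eq ?_) hB
    rw [hhδ, hδ, hp1]
    field_simp
  -- the density
  have hθJ : 0 < θ * J := mul_pos hθ0 hJ0
  have hd := dens hq hK.ci hθJ
  obtain ⟨B', hB'⟩ : ∃ B' : E → Prop, B' = fun e => B e ∧
    Dn (F.res A True hl) ⌊w * J⌋₊ q pr K (θ * J) e := ⟨_, rfl⟩
  have hPB' : p1 / 2 ≤ Pe q B' := by
    have h1 : Pe q B ≤ Pe q B' + Pe q (fun e => Real.exp (θ * J) *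
        law (Pool.Agent.H49.Ent.cond q (fun e => Fam.pt (F.res A True hl) (pr e))
          (Fam.pt (F.res A True hl) (pr e))) K (K e) <
        law (Pool.Agent.H49.Ent.cond q (fun e => slam (F.res A True hl) ⌊w * J⌋₊ (pr e))
          (slam (F.res A True hl) ⌊w * J⌋₊ (pr e))) K (K e)) := by
      rw [K2S.Pe_eq, K2S.Pe_eq, K2S.Pe_eq, ← Finset.sum_add_distrib]
      refine Finset.sum_le_sum fun e _ => ?_
      have he := hq0 e
      by_cases h2 : B e
      · rw [if_pos h2]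
        by_cases h3 : B' e
        · rw [if_pos h3]
          split_ifs <;> linarith
        · rw [if_neg h3, if_pos, zero_add]
          rw [hB'] at h3
          by_contra h4
          exact h3 ⟨h2, not_lt.1 h4⟩
      · rw [if_neg h2]
        split_ifs <;> linarith
    have h2 : (CH q K (fun e => Fam.pt (F.res A True hl) (pr e)) -
        CH q K (fun e => slam (F.res A True hl) ⌊w * J⌋₊ (pr e)) + 1) / (θ * J) ≤ p1 / 2 := by
      rw [div_le_iff₀ hθJ]
      have h3 : CH q K (fun e => Fam.pt (F.res A True hl) (pr e)) -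
        CH q K (fun e => slam (F.res A True hl) ⌊w * J⌋₊ (pr e)) ≤ θ * p1 / 4 * J := hinf
      have h4 : 1 ≤ θ * p1 / 4 * J := by
        have h5 : 4 / (θ * p1) < J := hJ₂.trans_le hJ2
        rw [div_lt_iff₀ (by positivity)] at h5
        linarith
      linarith
    linarith
  -- the closed function
  obtain ⟨f, g, C, hC1, hC2, hC3⟩ := hK.ent hθJ.le (Y := Y J F) (U := F.W)
    (fun ω ω' h1 h2 => hY J F ω ω' h1 h2) (fun ω ω' h1 _ => (Prod.ext_iff.1 h1).2)
    (B := B') (fun e _ he => by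
      rw [hB'] at he
      exact he.2) (S' := S') (fun e he he' => by
      rw [hB'] at he'
      exact hBS e he he'.1)
  obtain ⟨C', hC'⟩ : ∃ C' : F.Ω → Prop, C' = fun ω => A ω ∧ C ω := ⟨_, rfl⟩
  have hA := hpos _ J F A hS
  have hPC : Real.exp (-(τe / 2 * J)) * Pe F.p A ≤ Pe F.p C' := by
    have h0 : ∀ D : F.Ω → Prop, Pe (Pool.Agent.H49.Ent.cond F.p A True) D =
      Pe F.p (fun ω => A ω ∧ D ω) / Pe F.p A := fun D => Pool.K2S.Pe_cond D
    have h1 : Pe (F.res A True hl).p C = Pe F.p C' / Pe F.p A := by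
      rw [hC']
      exact h0 C
    rw [h1] at hC3
    rw [le_div_iff₀ hA] at hC3
    refine le_trans (mul_le_mul_of_nonneg_right ?_ hA.le) hC3
    have h5 : 8 / p1 < θ * J := by
      have h6 : 8 / p1 / θ < J := hJ₃.trans_le hJ3
      rw [div_lt_iff₀ hθ0] at h6
      linarith
    have h6 : 8 / p1 ≤ Real.exp (θ * J) := by
      have := Real.add_one_le_exp (θ * J)
      linarith
    have h7 : 8 ≤ Real.exp (θ * J) * p1 := by
      rw [div_le_iff₀ hp10] at h6
      exact h6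
    have h8 : Real.exp (-(τe / 2 * J)) = Real.exp (-(θ * J)) * Real.exp (-(θ * J)) := by
      rw [← Real.exp_add, hθ]
      congr 1
      ring
    rw [h8, mul_div_assoc]
    refine mul_le_mul_of_nonneg_left ?_ (Real.exp_pos _).le
    have h9 : Real.exp (-(θ * J)) * 8 ≤ p1 := by
      calc Real.exp (-(θ * J)) * 8 ≤ Real.exp (-(θ * J)) * (Real.exp (θ * J) * p1) :=
            mul_le_mul_of_nonneg_left h7 (Real.exp_pos _).le
        _ = p1 := by rw [← mul_assoc, ← Real.exp_add, neg_add_cancel, Real.exp_zero, one_mul]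
    linarith
  have hSC := S.res (by positivity : 0 ≤ τe / 2) hS (B := C') (fun ω hω => by
    rw [hC'] at hω
    exact hω.1) hPC
  rw [show τe / 2 + τe / 2 = τe by ring] at hSC
  have hC0 := hpos _ J F C' hSC
  have hlC := isLaw_cond F.isLaw hC0
  have h1 := hex J hJ1 F C' hSC α f g (fun ω hω => by
    rw [hC'] at hω
    exact hC1 ω hω.2)
  have h2 : CH (Pool.Agent.H49.Ent.cond F.p C' True) (Y J F)
      (fun ω => (g (slam F ⌊w * J⌋₊ ω), F.W ω)) ≤ h + δ := by
    have h3 := CH_le_card hlC.nonneg hlC.sum_one (Y J F)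
      (fun ω => (g (slam F ⌊w * J⌋₊ ω), F.W ω)) (fun v => S' (v.2, v.1)) (fun ω hω => by
        have h4 : C' ω := of_eq_true (((cond_pos_iff F.isLaw.nonneg C' True ω).1 hω).2)
        rw [hC'] at h4
        exact hC2 ω h4.2)
    refine h3.trans ?_
    refine (Ex_mono hlC.nonneg (g := fun _ => h + δ) fun ω hω => ?_).trans
      (le_of_eq (Ex_const hlC.sum_one _))
    rcases Nat.eq_zero_or_pos (S' (F.W ω, g (slam F ⌊w * J⌋₊ ω))).card with h5 | h5
    · simp only [h5, Nat.cast_zero, Real.log_zero]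
      linarith
    · rw [Real.log_le_iff_le_exp (by exact_mod_cast h5)]
      exact hS' _
  rw [hhδ] at h2
  have h3 : (c - ρ / 2) * Real.log 2 * J < c * Real.log 2 * J := by
    have : 0 < ρ / 2 * (Real.log 2 * J) := by positivity
    linarith
  linarith

end Pool.M3F
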