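import Pool.Agent.H63.STAT.CloF

/-!
# Closed labels of a family on natural boxes, and the natural digits of a point

`NLab`: closed labels at the window `2 ^ (-W)` with polynomials for the coordinates `c 0, …, c r`,
with a bound for all the derivatives (also in the time) on the dilated natural box.
`px`: the rounded position of a record. `ndp`: the natural digits.
-/

set_option autoImplicit false

namespace Pool.M3F

open Finset Real MvPolynomial
open Pool.Agent.H49.Ent Pool.Agent.H32.Dense Pool.STK Pool.KA Pool.KSAT Pool.K2S Pool.PB Pool.STAT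
  Pool.GEN

variable {m J : ℕ}

/-- The precisions: the time has the precision of the window. -/
def wid (W : ℕ) (g : ℕ → ℕ) (i : ℕ) : ℕ := if i = 0 then W else g (i - 1)

/-- The rounded position of a record. -/
noncomputable def px {F : Fam m J} (c : ℕ → Fin m) (ξ : PtT F) (i : ℕ) : ℝ :=
  if i = 0 then (ξ.2.1 : ℝ) / 2 ^ J else (ξ.1 (c (i - 1)) : ℝ) / 2 ^ J

/-- **Closed labels on natural boxes.** The variable `0` is the time, the variable `i + 1` is the
coordinate `c i`; `i ≤ r`. -/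
structure NLab (F : Fam m J) (c : ℕ → Fin m) (r W : ℕ) (g : ℕ → ℕ) (K : ℕ) (L : ℝ)
    (B : F.Ω → Prop) {V : Type} (z : PtT F → V) (z' : LnT F → V) (P : V → ℕ → PN) : Prop where
  deg : ∀ v i, (P v i).totalDegree ≤ K
  tri : ∀ v, TriN (P v)
  cls : ∀ ω, B ω → z (ptr F J ω) = z' (slam F W ω)
  zero : ∀ ω, B ω → P (z (ptr F J ω)) 0 = MvPolynomial.C ((F.T1 W ω : ℝ) / 2 ^ W)
  pos : ∀ ω, B ω → ∀ i ≤ r, |px c (ptr F J ω) (i + 1) -
    eval (px c (ptr F J ω)) (P (z (ptr F J ω)) (i + 1))| ≤ 1 / 2 ^ g i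
  grad : ∀ ω, B ω → ∀ b : ℕ → ℝ, CLO.Bxr 4 (wid W g) (P (z (ptr F J ω))) (r + 1) b →
    ∀ i ≤ r + 1, ∀ l < i, |eval b (pderiv l (P (z (ptr F J ω)) i))| ≤ L

/-- The natural digits of a record, to the precision `2 ^ (-P₀)`. -/
noncomputable def ndp {F : Fam m J} (c : ℕ → Fin m) (P₀ : ℕ) (G : ℕ → PN) (ξ : PtT F) (i : ℕ) : ℤ :=
  ⌊(2 : ℝ) ^ P₀ * (px c ξ i - eval (px c ξ) (G i))⌋

end Pool.M3F
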