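import Pool.Agent.H5.M3F.All
import Pool.Agent.H5.M3F.Wgt

/-!
# Jets for several levels at once, with a weight for the last coordinate
-/

set_option autoImplicit false

namespace Pool.M3F

open Finset Real MvPolynomial
open Pool.Agent.H49.Ent Pool.Agent.H32.Dense Pool.STK Pool.KA Pool.KSAT Pool.K2S Pool.KS3 Pool.PB
  Pool.STAT Pool.STAT.CLO Pool.GEN Pool.S6C

variable {m J : ℕ}

theorem sy_Gx' {sg r n : ℕ} (hn : n ≤ r + 1) {c : ℕ → Fin m}
    {G : ℕ → MvPolynomial (Option (Fin m)) ℝ} (t : ℝ) :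
    sy (cx' c r) n t (Gx sg r G) = sy c n t (Gw sg r G) := by
  have h := sy_Gx (sg := sg) (r := r) (c := c) (G := G) t
  funext i
  by_cases hi : i ≤ n
  · rw [sy_short hn hi, sy_short hn hi, h]
  · unfold sy
    rw [if_neg (by omega), if_neg hi, if_neg (by omega), if_neg hi]

/-- Jets of a level in the extended family and in the family. -/
theorem jetp_Gx' {sg r D i : ℕ} (hi : i ≤ r) {c : ℕ → Fin m} (hc : Inj c (r + 1))
    {G : ℕ → MvPolynomial (Option (Fin m)) ℝ} (hG : ∀ i, DepC c i (G i)) {g : ℕ → ℕ} {a : ℕ}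
    {t : ℝ} {Q : PN} {ρ S E : ℝ} (hv : Q.vars ⊆ range (i + 2)) (hd : Q.totalDegree ≤ D)
    (h : JetP (cx' c r) i D (Gx sg r G) g a t (bk (cx' c r) Q) ρ S E) :
    JetP c i D (Gw sg r G) g a t (bk c Q) ρ S E := by
  have hc' : Inj (cx' c r) (r + 1) := cx'_inj fun l hl l' hl' e => hc l (by omega) l' (by omega) e
  have hci' : Inj (cx' c r) (i + 1) := fun l hl l' hl' e => hc' l (by omega) l' (by omega) e
  have hci : Inj c (i + 1) := fun l hl l' hl' e => hc l (by omega) l' (by omega) e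
  have hGx : ∀ i, DepC (cx' c r) i (Gx sg r G i) := fun i => Gx_dep (hG i)
  have hGw : ∀ i, DepC c i (Gw sg r G i) := fun i => Gw_dep (hG i)
  have hval : ∀ (B : Option (Fin (m + 1)) → ℝ) (k : ℕ), eval (lfo (cx' c r) i (Gx sg r G) B)
      ((fun R : MvPolynomial (Option (Fin (m + 1))) ℝ => pderiv (some (cx' c r i)) R)^[k]
        (bk (cx' c r) Q)) = eval (lfo c i (Gw sg r G) (B ∘ vx m))
      ((fun R : MvPolynomial (Option (Fin m)) ℝ => pderiv (some (c i)) R)^[k] (bk c Q)) := by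
    intro B k
    rw [jetp_val hci' hGx t (b := fun j : ℕ => if j = 0 then B none else
        (B ∘ vx m) (some (c (j - 1)))) rfl (fun l hl => by
        rw [cx'_lt (by omega), if_neg (Nat.succ_ne_zero l)]
        rfl) hv k,
      jetp_val hci hGw t (b := fun j : ℕ => if j = 0 then B none else
        (B ∘ vx m) (some (c (j - 1)))) rfl (fun l hl => by
        rw [if_neg (Nat.succ_ne_zero l)]
        rfl) hv k, sy_Gx' (by omega)]
  refine ⟨(bk_deg c Q).trans hd, bk_dep hv, h.pos, ?_, ?_⟩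
  · obtain ⟨b, hb, hbS⟩ := h.att
    refine ⟨b ∘ vx m, (nbx_Gw hi).2 ((nbx_Gx hi).1 hb), ?_⟩
    have h1 := hval b 1
    simp only [Function.iterate_one] at h1
    rw [← h1]
    exact hbS
  · intro b hb k
    obtain ⟨B, hB⟩ : ∃ B : Option (Fin (m + 1)) → ℝ, B = fun o =>
      o.elim (b none) (fun i => sn (fun j => b (some j)) 0 i) := ⟨_, rfl⟩
    have hBb : B ∘ vx m = b := by
      funext o
      rw [hB]
      rcases o with _ | j
      · rfl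
      · exact sn_cs (fun j => b (some j)) 0 j
    have h1 := h.jet B ((nbx_Gx hi).2 (by rw [hBb]; exact (nbx_Gw hi).1 hb)) k
    rw [hval B k, hBb] at h1
    exact h1

/-- **Jets for several levels at once, with a steep label for the last coordinate.** The weight
`2 ^ (-sg)` is arbitrary; `2 ^ (-g' r)` is the precision of `2 ^ (-sg) x_(c r)`. -/
theorem m3f_allw (r : ℕ) : ∃ D : ℕ, ∀ K : ℕ, ∃ (sh K' : ℕ) (S₀ E : ℝ), 1 ≤ K' ∧ 1 ≤ S₀ ∧
    1 ≤ E ∧ ∀ {m : ℕ} (S : PCl m),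
    (∀ (τ : ℝ) (J : ℕ) (F : Fam m J) (A : F.Ω → Prop), S.St τ J F A →
      F.Tr ∧ F.Tm (τ * J) ∧ F.Rb (τ * J) ∧ Real.exp (-(τ * J)) ≤ Pe F.p A) →
    ∀ (c : ℕ → Fin m) (w : ℝ) (g : ℕ → ℝ) (γ : ℝ) (I : Finset ℕ), Inj c (r + 1) → 0 ≤ w →
    0 < γ → w + γ ≤ 1 → (∀ l ≤ r, w ≤ g l) → (∀ l ≤ r, γ ≤ g l) →
    (∀ l l', l ≤ l' → l' ≤ r → g l ≤ g l') → (∀ l < r, g l + γ ≤ 1) → g r ≤ 1 →
    (∀ i ∈ I, i ≤ r ∧ w + 2 * γ ≤ g i ∧ ∀ l < i, g l + 2 * γ ≤ g i) →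
    (∀ ρ : ℝ, 0 < ρ → ExvY S w (fun J F ω (i : Fin r) => F.X J ω (c i))
      ((∑ l ∈ range r, (1 - g l)) - ρ)) →
    (∀ i ∈ I, ∀ ρ : ℝ, 0 < ρ → ExvY S w (fun J F ω (l : Fin i) => F.X J ω (c l))
      ((∑ l ∈ range i, (1 - g l)) - ρ)) →
    ∀ δ : ℝ, 0 < δ → ∃ φ : ℝ, 0 < φ ∧ Bas S (fun J F A => ∀ (e sg : ℕ) (g' Kv : ℕ → ℕ)
      (G : PtT F → ℕ → MvPolynomial (Option (Fin m)) ℝ)
      (H : LnT F → ℕ → MvPolynomial (Option (Fin m)) ℝ),
      (∀ l ≤ r, |(g' l : ℝ) - g l * J| ≤ φ * J) → (e : ℝ) ≤ φ * J → (∀ i < r + 1, Kv i ≤ K) →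
      ChOK F c r Kv ⌊w * J⌋₊ ⌊w * J⌋₊ e g' A G H →
      (∀ ω, A ω → |F.x ω (c r) - eval (bt F ω) (G (ptr F J ω) r)| ≤ 2 ^ sg / 2 ^ g' r) →
      (∀ ω, A ω → ∀ b : Option (Fin m) → ℝ, NBx c (G (ptr F J ω)) g' ⌊w * J⌋₊ (F.t ω) r b →
        |eval b (G (ptr F J ω) r) - eval b (H (slam F ⌊w * J⌋₊ ω) r)| ≤ 2 ^ sg / 2 ^ g' r) →
      (∀ ω, A ω → ∀ b : Option (Fin m) → ℝ, NBx c (G (ptr F J ω)) g' ⌊w * J⌋₊ (F.t ω) r b →
        ∀ l < r, |eval b (pderiv (some (c l)) (G (ptr F J ω) r))| ≤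
          2 ^ sg * 2 ^ (e + nlp g' l r)) →
      ∃ (g'' : ℕ → ℕ) (B : F.Ω → Prop) (L : ℝ) (V : Type) (z : PtT F → V) (z' : LnT F → V)
        (P : V → ℕ → PN) (Q : ℕ → V → PN) (T : ℕ → V → ℝ) (k : ℕ → V → ℕ),
        (∀ l < r, g'' l = g' l) ∧ g'' r ≤ g' r ∧ (g r - δ) * J ≤ g'' r ∧ g'' r ≤ J ∧
        (∀ l ≤ r, sh ≤ g'' l) ∧ (∀ ω, B ω → A ω) ∧
        Pe F.p A ≤ 4 * (K' * 5 ^ (m + 1)) * Pe F.p B ∧
        0 ≤ L ∧ Real.log (1 + L) ≤ δ * J ∧
        NLabW F c r ⌊w * J⌋₊ sg (fun l => g'' l - sh) K' L B z z' P ∧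
        ∀ ω, B ω → Nr K' S₀ (gg ⌊w * J⌋₊ g'') (P (z (ptr F J ω)))
            (sy c (r + 1) ((F.T1 ⌊w * J⌋₊ ω : ℝ) / 2 ^ ⌊w * J⌋₊) (Gw sg r (G (ptr F J ω))))
            (r + 2) ∧
          ∀ i ∈ I, (k i (z (ptr F J ω)) : ℝ) ≤ δ * J ∧
            Jet i D (wid ⌊w * J⌋₊ (fun l => g'' l - sh)) (P (z (ptr F J ω)))
              (Q i (z (ptr F J ω))) (2 ^ k i (z (ptr F J ω)) / 2 ^ g'' i)
              (T i (z (ptr F J ω))) ∧
            JetP c i D (Gw sg r (G (ptr F J ω))) g' ⌊w * J⌋₊ (F.t ω)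
              (bk c (Q i (z (ptr F J ω))))
              (2 ^ k i (z (ptr F J ω)) / 2 ^ g'' i) (4 / 3 * T i (z (ptr F J ω))) E) := by
  classical
  obtain ⟨D, hD⟩ := m3f_all r
  refine ⟨D, fun K => ?_⟩
  obtain ⟨sh, K', S₀, E, hK', hS₀, hE, hcls⟩ := hD K
  refine ⟨sh, K', S₀, E, hK', hS₀, hE, ?_⟩
  intro m S hmem c w g γ I hc hw hγ hwγ hwg hγg hsort hg1 hgr hI hex hexI δ hδ
  have hcr : Inj c r := fun l hl l' hl' e => hc l (by omega) l' (by omega) e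
  have hexv : ∀ i ≤ r, ∀ a : ℝ, ExvY S w (fun J F ω (l : Fin i) => F.X J ω (c l)) a →
      ExvY (exS S (c r)) w (fun J F ω (l : Fin i) => F.X J ω (cx' c r l)) a := by
    intro i hi a hex
    obtain ⟨τe, hτe, Je, hexe⟩ := hex
    refine ⟨τe, hτe, Je, ?_⟩
    intro J hJ F' A' h
    cases h with
    | mk F sg A h =>
      intro V z z' hz
      have h1 := hexe J hJ F A h V (fun ξ => z (eP F (c r) sg ξ)) (fun s => z' (eL F (c r) sg s))
        (fun ω hω => by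
          have h2 := hz ω hω
          rw [exF_ptr, exF_slam] at h2
          exact h2)
      have h3 : (fun (ω : F.Ω) (l : Fin i) => F.X J ω (c l)) =
          fun ω (l : Fin i) => (exF F (c r) sg).X J ω (cx' c r l) := by
        funext ω l
        rw [exF_X, cx'_lt (by omega), sn_cs]
      beta_reduce at h1
      rw [h3] at h1
      exact h1
  obtain ⟨φ, hφ, τ, hτ, J₀, hmain⟩ := hcls (exS S (c r)) (by
      intro τ J F' A' h
      cases h with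
      | mk F sg A h =>
        obtain ⟨h1, h2, h3, h4⟩ := hmem τ J F A h
        exact ⟨h1, exF_Tm (c r) sg h2, exF_Rb (c r) sg h3, h4⟩)
    (cx' c r) w g γ I (cx'_inj hcr) hw hγ hwγ hwg hγg hsort hg1 hgr hI
    (fun ρ hρ => hexv r le_rfl _ (hex ρ hρ))
    (fun i hi ρ hρ => hexv i (hI i hi).1 _ (hexI i hi ρ hρ)) δ hδ
  refine ⟨φ, hφ, τ, hτ, J₀, ?_⟩
  intro J hJ F A hS e sg g' Kv G H hg' he hKv hCh hpos hagr hlip
  obtain ⟨g'', B, L, V, z, z', P, Q, T, k, h1, h2, h3, h4, h5, h6, h7, h8, h9, hN, hB⟩ :=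
    hmain J hJ (exF F (c r) sg) A (ExSt.mk F sg A hS) e g' Kv _ _ hg' he hKv
      (ch_ext hCh hpos hagr hlip)
  have hz : ∀ ω : F.Ω, z (ptr (exF F (c r) sg) J ω) = z (eP F (c r) sg (ptr F J ω)) := by
    intro ω
    rw [exF_ptr]
  have hrP : ∀ ω : F.Ω, rP F (c r) sg (ptr (exF F (c r) sg) J ω) = ptr F J ω := by
    intro ω
    rw [exF_ptr, rP_eP]
  refine ⟨g'', B, L, V, fun ξ => z (eP F (c r) sg ξ), fun s => z' (eL F (c r) sg s), P, Q, T,
    k, h1, h2, h3, h4, h5, h6, h7, h8, h9, ?_, ?_⟩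
  · refine ⟨hN.deg, hN.tri, fun ω hω => ?_, fun ω hω => ?_, fun ω hω i hi => ?_,
      fun ω hω => ?_, fun ω hω b hb => ?_⟩
    · have := hN.cls ω hω
      rw [hz ω] at this
      exact this
    · have := hN.zero ω hω
      rw [hz ω] at this
      exact this
    · have h12 := hN.pos ω hω i hi.le
      rw [hz ω, exF_ptr, px_ext _ (by omega)] at h12
      have h13 : eval (px (cx' c r) (eP F (c r) sg (ptr F J ω)))
          (P (z (eP F (c r) sg (ptr F J ω))) (i + 1)) = eval (px c (ptr F J ω))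
          (P (z (eP F (c r) sg (ptr F J ω))) (i + 1)) :=
        eval_cg (hN.tri _ (i + 1)) fun j hj => px_ext _ (by omega)
      rw [h13] at h12
      exact h12
    · have h12 := hN.pos ω hω r le_rfl
      rw [hz ω, exF_ptr] at h12
      have h13 : eval (px (cx' c r) (eP F (c r) sg (ptr F J ω)))
          (P (z (eP F (c r) sg (ptr F J ω))) (r + 1)) = eval (px c (ptr F J ω))
          (P (z (eP F (c r) sg (ptr F J ω))) (r + 1)) :=
        eval_cg (hN.tri _ (r + 1)) fun j hj => px_ext _ hj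
      rw [h13] at h12
      have h14 := px_ext_r (c := c) (r := r) (sg := sg) (ptr F J ω)
      rw [abs_le] at h12 h14 ⊢
      constructor <;> linarith [h12.1, h12.2, h14.1, h14.2]
    · have := hN.grad ω hω b
      rw [hz ω] at this
      exact this hb
  · intro ω hω
    obtain ⟨h12, h13⟩ := hB ω hω
    have h16 : Gs (cx' c r) (r + 1) ⌊w * J⌋₊ (fun y => Gx sg r (G (rP F (c r) sg y)))
        (ptr (exF F (c r) sg) J ω) = sy c (r + 1) ((F.T1 ⌊w * J⌋₊ ω : ℝ) / 2 ^ ⌊w * J⌋₊)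
        (Gw sg r (G (ptr F J ω))) := by
      unfold Gs
      simp only
      rw [hrP ω, sy_Gx]
      rfl
    rw [h16, hz ω] at h12
    refine ⟨h12, fun i hi => ?_⟩
    obtain ⟨h14, h15, h17⟩ := h13 i hi
    rw [hrP ω, hz ω] at h17
    rw [hz ω] at h14 h15
    exact ⟨h14, h15, jetp_Gx' (hI i hi).1 hc (hCh.depG _) h15.vars h15.deg h17⟩

end Pool.M3F
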