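import Pool.Agent.H37.S3.CHN

/-!
# Chains with all subchains, and good lengths

`ChainAll`: a chain in which all parts are chains. `chn_good`: there is a chain (of bounded length)
such that the first point has little information about the last line, given the last point, and the
last point has little information about the first line, given the first point.
-/

set_option autoImplicit false

namespace Pool.M3F

open Finset Real
open Pool.Agent.H49.Ent Pool.Agent.H32.Dense Pool.STK Pool.KAF Pool.KAL Pool.KS3

/-- A chain, with the independence properties of all its parts. -/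
structure ChainAll {Ω Λ Ξ W : Type} [Fintype Ω] [Fintype W] (p : Ω → ℝ) (lam : Ω → Λ) (x : Ω → Ξ)
    (N : ℕ) (q : W → ℝ) (o o' : ℕ → W → Ω) (l : ℕ → W → Λ) (y : ℕ → W → Ξ) : Prop where
  isLaw : IsLaw q
  marg : ∀ i < N, Marg q p (o i)
  marg' : ∀ i < N, Marg q p (o' i)
  line : ∀ w, 0 < q w → ∀ i < N, lam (o i w) = l i w
  line' : ∀ w, 0 < q w → ∀ i < N, lam (o' i w) = l i w
  start : ∀ w, 0 < q w → ∀ i < N, x (o i w) = y i w
  stop : ∀ w, 0 < q w → ∀ i < N, x (o' i w) = y (i + 1) w
  cell : ∀ i ≤ N, ∀ z, law q (y i) z = law p x z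
  c1 : ∀ s i, s ≤ i → i < N → CI q (y s) (l i) (y i)
  c2 : ∀ s i k, s ≤ i → i < k → k ≤ N → CI q (y s) (fun w => (y (i + 1) w, y k w)) (l i)
  c3 : ∀ i k, i < k → k ≤ N → CI q (y k) (y i) (l i)
  c4 : ∀ i k, i < k → k ≤ N → CI q (y k) (l i) (y (i + 1))

theorem chn_all {Ω Λ Ξ : Type} [Fintype Ω] (p : Ω → ℝ) (lam : Ω → Λ) (x : Ω → Ξ) (hp : IsLaw p)
    (N : ℕ) : ∃ (W : Type) (_ : Fintype W) (q : W → ℝ) (o o' : ℕ → W → Ω) (l : ℕ → W → Λ)
      (y : ℕ → W → Ξ), ChainAll p lam x N q o o' l y := by
  classical
  induction N with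
  | zero =>
    exact ⟨Ω, inferInstance, p, fun _ w => w, fun _ w => w, fun _ w => lam w, fun _ w => x w,
      { isLaw := hp
        marg := fun i hi => absurd hi (Nat.not_lt_zero i)
        marg' := fun i hi => absurd hi (Nat.not_lt_zero i)
        line := fun _ _ i hi => absurd hi (Nat.not_lt_zero i)
        line' := fun _ _ i hi => absurd hi (Nat.not_lt_zero i)
        start := fun _ _ i hi => absurd hi (Nat.not_lt_zero i)
        stop := fun _ _ i hi => absurd hi (Nat.not_lt_zero i)
        cell := fun _ _ _ => rfl
        c1 := fun s i _ hi => absurd hi (Nat.not_lt_zero i)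
        c2 := fun s i k _ hi hk => absurd (hi.trans_le hk) (Nat.not_lt_zero i)
        c3 := fun i k hi hk => absurd (hi.trans_le hk) (Nat.not_lt_zero i)
        c4 := fun i k hi hk => absurd (hi.trans_le hk) (Nat.not_lt_zero i) }⟩
  | succ N ih =>
    obtain ⟨W, instW, q, o, o', l, y, hw⟩ := ih
    have hq0 := hw.isLaw.nonneg
    have hs0 := dbl_nonneg (b := lam) hp.nonneg
    set s : Ω × Ω → ℝ := dbl p lam with hs
    have hZ : ∀ z, law q (y N) z = law s (fun v => x v.1) z := by
      intro z
      rw [hw.cell N le_rfl, (dbl_fst (b := lam) hp.nonneg).law x z]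
    set Q := glue q s (y N) (fun v => x v.1) with hQ
    have hQ0 : ∀ w, 0 ≤ Q w := glue_nonneg hq0 hs0
    have m1 : Marg Q q (fun w => w.1) := marg_fst hq0 hZ
    have m2 : Marg Q s (fun w => w.2) := marg_snd hs0 hZ
    have hQl : IsLaw Q := ⟨hQ0, by rw [m1.sum]; exact hw.isLaw.sum_one⟩
    have hpos : ∀ w, 0 < Q w → 0 < q w.1 ∧ 0 < s w.2 ∧ y N w.1 = x w.2.1 :=
      fun w hw' => (glue_pos_iff hq0 hs0 w).mp hw'
    -- the new variables
    set O : ℕ → W × (Ω × Ω) → Ω := fun i w => if i < N then o i w.1 else w.2.1 with hO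
    set O' : ℕ → W × (Ω × Ω) → Ω := fun i w => if i < N then o' i w.1 else w.2.2 with hO'
    set L : ℕ → W × (Ω × Ω) → Λ := fun i w => if i < N then l i w.1 else lam w.2.1 with hL
    set Y : ℕ → W × (Ω × Ω) → Ξ := fun i w => if i ≤ N then y i w.1 else x w.2.2 with hY
    have eO : ∀ i < N, O i = fun w => o i w.1 := by
      intro i hi
      funext w
      simp only [hO, if_pos hi]
    have eO' : ∀ i < N, O' i = fun w => o' i w.1 := by
      intro i hi
      funext w
      simp only [hO', if_pos hi]
    have eL : ∀ i < N, L i = fun w => l i w.1 := by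
      intro i hi
      funext w
      simp only [hL, if_pos hi]
    have eY : ∀ i ≤ N, Y i = fun w => y i w.1 := by
      intro i hi
      funext w
      simp only [hY, if_pos hi]
    have eON : O N = fun w => w.2.1 := by
      funext w
      simp only [hO, lt_irrefl, if_false]
    have eON' : O' N = fun w => w.2.2 := by
      funext w
      simp only [hO', lt_irrefl, if_false]
    have eLN : L N = fun w => lam w.2.1 := by
      funext w
      simp only [hL, lt_irrefl, if_false]
    have eYN : Y (N + 1) = fun w => x w.2.2 := by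
      funext w
      simp only [hY, Nat.succ_le_iff, lt_irrefl, if_false]
    -- independence of the two parts
    have g : ∀ (S T : Type) (A : W → S) (B : Ω × Ω → T),
        CI Q (fun w => A w.1) (fun w => B w.2) (fun w => y N w.1) :=
      fun S T A B => CI_glue hq0 hs0 hZ A B
    -- the new point given the new line
    have hnew : ∀ (S : Type) (A : W → S),
        CI Q (fun w => x w.2.2) (fun w => (A w.1, w.2.1)) (fun w => lam w.2.1) := by
      intro S A
      have e1 : CH Q (fun w => x w.2.2) (fun w => (w.2.1, A w.1)) =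
          CH s (fun v => x v.2) (fun v => v.1) :=
        CH_glue_snd hq0 hs0 hZ (fun v => x v.2) (Y := fun v => v.1) A
          (fun _ _ _ _ h => congrArg x h)
      have e2 : CH s (fun v => x v.2) (fun v => v.1) = CH p x lam := by
        rw [← CH_dbl_2 (b := lam) hp.nonneg x (fun w => w)]
        refine CH_congr hs0 (fun _ _ _ _ h => (Prod.ext_iff.mp h).1)
          (fun _ _ _ _ h => (Prod.ext_iff.mp h).1) ?_ ?_
        · intro v v' a b e
          have e' : v.1 = v'.1 := e
          have a1 := dbl_eq hp.nonneg a
          have a2 := dbl_eq hp.nonneg b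
          refine Prod.ext ?_ e'
          change lam v.2 = lam v'.2
          rw [← a1, ← a2, e']
        · intro v v' _ _ e
          exact (Prod.ext_iff.mp e).2
      have e3 : CH Q (fun w => x w.2.2) (fun w => lam w.2.1) = CH p x lam := by
        rw [m2.CH (fun v => x v.2) (fun v => lam v.1)]
        rw [← (dbl_snd (b := lam) hp.nonneg).CH x lam]
        refine CH_congr hs0 (fun _ _ _ _ h => (Prod.ext_iff.mp h).1)
          (fun _ _ _ _ h => (Prod.ext_iff.mp h).1) ?_ ?_
        · intro v v' a b e
          have a1 := dbl_eq hp.nonneg a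
          have a2 := dbl_eq hp.nonneg b
          have e' : lam v.1 = lam v'.1 := e
          change lam v.2 = lam v'.2
          rw [← a1, ← a2, e']
        · intro v v' a b e
          have a1 := dbl_eq hp.nonneg a
          have a2 := dbl_eq hp.nonneg b
          have e' : lam v.2 = lam v'.2 := e
          change lam v.1 = lam v'.1
          rw [a1, a2, e']
      refine CI_of_le hQ0 ?_
      rw [e3, ← e2, ← e1]
      refine CH_mono_cond hQ0 ?_
      intro w w' _ _ h
      simp only [Prod.mk.injEq] at h ⊢
      refine ⟨⟨h.2, h.1⟩, congrArg lam h.1⟩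
    refine ⟨W × (Ω × Ω), inferInstance, Q, O, O', L, Y, hQl, ?_, ?_, ?_, ?_, ?_, ?_, ?_, ?_, ?_,
      ?_, ?_⟩
    · -- marg
      intro i hi
      rcases Nat.lt_succ_iff_lt_or_eq.mp hi with h | h
      · rw [eO i h]
        exact m1.comp (hw.marg i h)
      · subst h
        rw [eON]
        exact m2.comp (dbl_fst hp.nonneg)
    · intro i hi
      rcases Nat.lt_succ_iff_lt_or_eq.mp hi with h | h
      · rw [eO' i h]
        exact m1.comp (hw.marg' i h)
      · subst h
        rw [eON']
        exact m2.comp (dbl_snd hp.nonneg)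
    · intro w hw' i hi
      rcases Nat.lt_succ_iff_lt_or_eq.mp hi with h | h
      · rw [eO i h, eL i h]
        exact hw.line w.1 (hpos w hw').1 i h
      · subst h
        rw [eON, eLN]
    · intro w hw' i hi
      rcases Nat.lt_succ_iff_lt_or_eq.mp hi with h | h
      · rw [eO' i h, eL i h]
        exact hw.line' w.1 (hpos w hw').1 i h
      · subst h
        rw [eON', eLN]
        exact (dbl_eq hp.nonneg (hpos w hw').2.1).symm
    · intro w hw' i hi
      rcases Nat.lt_succ_iff_lt_or_eq.mp hi with h | h
      · rw [eO i h, eY i h.le]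
        exact hw.start w.1 (hpos w hw').1 i h
      · subst h
        rw [eON, eY i le_rfl]
        exact (hpos w hw').2.2.symm
    · intro w hw' i hi
      rcases Nat.lt_succ_iff_lt_or_eq.mp hi with h | h
      · rw [eO' i h, eY (i + 1) h]
        exact hw.stop w.1 (hpos w hw').1 i h
      · subst h
        rw [eON', eYN]
    · intro i hi z
      rcases Nat.le_or_eq_of_le_succ hi with h | h
      · rw [eY i h, ← hw.cell i h z]
        exact m1.law (y i) z
      · subst h
        rw [eYN]
        rw [(m2.comp (dbl_snd (b := lam) hp.nonneg)).law x z]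
    · -- c1
      intro t i hti hi
      rcases Nat.lt_succ_iff_lt_or_eq.mp hi with h | h
      · rw [eY t (hti.trans h.le), eY i h.le, eL i h]
        exact (hw.c1 t i hti h).marg m1
      · subst h
        rw [eY t hti, eY i le_rfl, eLN]
        exact g Ξ Λ (y t) (fun v => lam v.1)
    · -- c2
      intro t i k hti hik hk
      rcases Nat.le_or_eq_of_le_succ hk with h | h
      · rw [eY t (by omega), eY (i + 1) (by omega), eY k h, eL i (by omega)]
        exact (hw.c2 t i k hti hik h).marg m1
      · subst h
        rw [eYN]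
        rcases Nat.lt_succ_iff_lt_or_eq.mp hik with h | h
        · rw [eY t (by omega), eY (i + 1) (by omega), eL i h]
          have h1 : CI q (y t) (fun w => (y (i + 1) w, y N w)) (l i) := hw.c2 t i N hti h le_rfl
          have h2 : CI Q (fun w => y t w.1) (fun w => (y (i + 1) w.1, y N w.1))
              (fun w => l i w.1) := h1.marg m1
          have h3 : CI Q (fun w => x w.2.2) (fun w => (y t w.1, (y (i + 1) w.1, l i w.1)))
              (fun w => y N w.1) :=
            (g _ _ (fun w => (y t w, (y (i + 1) w, l i w))) (fun v => x v.2)).symm hQ0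
          have h4 : CI Q (fun w => y t w.1) (fun w => x w.2.2)
              (fun w => ((y (i + 1) w.1, y N w.1), l i w.1)) := by
            have h5 : CI Q (fun w => x w.2.2) (fun w => ((y (i + 1) w.1, l i w.1), y t w.1))
                (fun w => y N w.1) := h3.mono_right hQ0 (by
              intro ω ω' _ _ h
              simp only [Prod.mk.injEq] at h ⊢
              tauto)
            have h6 := (h5.weak hQ0).symm hQ0
            refine h6.congr hQ0 ?_ ?_ <;>
            · intro ω ω' _ _ h
              simp only [Prod.mk.injEq] at h ⊢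
              tauto
          exact (h2.chain hQ0 h4).mono_right hQ0 (B' := fun w => (y (i + 1) w.1, x w.2.2)) (by
            intro ω ω' _ _ h
            simp only [Prod.mk.injEq] at h ⊢
            tauto)
        · subst h
          rw [eY t (by omega), eYN, eLN]
          have h1 := ((hnew Ξ (y t)).mono_right hQ0 (B' := fun w => y t w.1) (by
            intro ω ω' _ _ h
            simp only [Prod.mk.injEq] at h ⊢
            tauto)).symm hQ0
          exact h1.mono_right hQ0 (B' := fun w => (x w.2.2, x w.2.2)) (by
            intro ω ω' _ _ h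
            simp only [Prod.mk.injEq] at h ⊢
            tauto)
    · -- c3
      intro i k hik hk
      rcases Nat.le_or_eq_of_le_succ hk with h | h
      · rw [eY i (by omega), eY k h, eL i (by omega)]
        exact (hw.c3 i k hik h).marg m1
      · subst h
        rw [eYN]
        rcases Nat.lt_succ_iff_lt_or_eq.mp hik with h | h
        · rw [eY i h.le, eL i h]
          have h1 : CI q (y N) (y i) (l i) := hw.c3 i N h le_rfl
          have h2 : CI Q (fun w => y i w.1) (fun w => y N w.1) (fun w => l i w.1) :=
            (h1.marg m1).symm hQ0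
          have h3 : CI Q (fun w => y i w.1) (fun w => x w.2.2)
              (fun w => (y N w.1, l i w.1)) := by
            have h5 := ((g _ _ (fun w => (l i w, y i w)) (fun v => x v.2)).symm hQ0).weak hQ0
            refine (h5.symm hQ0).congr hQ0 ?_ ?_ <;>
            · intro ω ω' _ _ h
              simp only [Prod.mk.injEq] at h ⊢
              tauto
          exact ((h2.chain hQ0 h3).mono_right hQ0 (B' := fun w => x w.2.2) (by
            intro ω ω' _ _ h
            simp only [Prod.mk.injEq] at h ⊢
            tauto)).symm hQ0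
        · subst h
          rw [eY i le_rfl, eLN]
          exact (hnew Ξ (y i)).mono_right hQ0 (B' := fun w => y i w.1) (by
            intro ω ω' _ _ h
            simp only [Prod.mk.injEq] at h ⊢
            tauto)
    · -- c4
      intro i k hik hk
      rcases Nat.le_or_eq_of_le_succ hk with h | h
      · rw [eY (i + 1) (by omega), eY k h, eL i (by omega)]
        exact (hw.c4 i k hik h).marg m1
      · subst h
        rw [eYN]
        rcases Nat.lt_succ_iff_lt_or_eq.mp hik with h | h
        · rw [eY (i + 1) (by omega), eL i h]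
          have h1 : CI q (y N) (l i) (y (i + 1)) := hw.c4 i N h le_rfl
          have h2 : CI Q (fun w => l i w.1) (fun w => y N w.1) (fun w => y (i + 1) w.1) :=
            (h1.marg m1).symm hQ0
          have h3 : CI Q (fun w => l i w.1) (fun w => x w.2.2)
              (fun w => (y N w.1, y (i + 1) w.1)) := by
            have h5 := ((g _ _ (fun w => (y (i + 1) w, l i w)) (fun v => x v.2)).symm hQ0).weak hQ0
            refine (h5.symm hQ0).congr hQ0 ?_ ?_ <;>
            · intro ω ω' _ _ h
              simp only [Prod.mk.injEq] at h ⊢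
              tauto
          exact ((h2.chain hQ0 h3).mono_right hQ0 (B' := fun w => x w.2.2) (by
            intro ω ω' _ _ h
            simp only [Prod.mk.injEq] at h ⊢
            tauto)).symm hQ0
        · subst h
          rw [eYN]
          refine CI_of_le hQ0 ?_
          rw [CH_eq_zero hQ0 (fun _ _ _ _ h => h)]
          exact CH_nonneg hQ0 _ _

section

variable {Ω Λ Ξ W : Type} [Fintype Ω] [Fintype W] {p : Ω → ℝ} {lam : Ω → Λ} {x : Ω → Ξ}
  {N : ℕ} {q : W → ℝ} {o o' : ℕ → W → Ω} {l : ℕ → W → Λ} {y : ℕ → W → Ξ}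

/-- Parts of chains are chains. -/
theorem ChainAll.sub (h : ChainAll p lam x N q o o' l y) {s k : ℕ} (hk : s + k ≤ N) :
    IsChain p lam x k q (fun i => o (s + i)) (fun i => o' (s + i)) (fun i => l (s + i))
      (fun i => y (s + i)) := by
  have hq0 := h.isLaw.nonneg
  refine ⟨h.isLaw, fun i hi => h.marg _ (by omega), fun i hi => h.marg' _ (by omega),
    fun w hw i hi => h.line w hw _ (by omega), fun w hw i hi => h.line' w hw _ (by omega),
    fun w hw i hi => h.start w hw _ (by omega), fun w hw i hi => h.stop w hw _ (by omega),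
    fun i hi z => h.cell _ (by omega) z, fun i hi => ?_, fun i hi => ?_, fun i hi => ?_,
    fun i hi => ?_⟩
  · have h1 := h.c1 s (s + i) (by omega) (by omega)
    unfold CI at h1
    simp only [Nat.add_zero]
    rw [← h1]
    refine CH_congr hq0 (fun _ _ _ _ h => (Prod.ext_iff.mp h).1)
      (fun _ _ _ _ h => (Prod.ext_iff.mp h).1) ?_ ?_ <;>
    · intro ω ω' _ _ h
      simp only [Prod.mk.injEq] at h ⊢
      tauto
  · have h1 := h.c2 s (s + i) (s + k) (by omega) (by omega) hk
    unfold CI at h1
    simp only [Nat.add_zero]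
    rw [← h1]
    refine CH_congr hq0 (fun _ _ _ _ h => (Prod.ext_iff.mp h).1)
      (fun _ _ _ _ h => (Prod.ext_iff.mp h).1) ?_ ?_ <;>
    · intro ω ω' _ _ h
      simp only [Prod.mk.injEq, ← Nat.add_assoc] at h ⊢
      tauto
  · exact h.c3 (s + i) (s + k) (by omega) hk
  · have h1 := h.c4 (s + i) (s + k) (by omega) hk
    unfold CI at h1
    refine Eq.trans ?_ (h1.trans ?_)
    · refine CH_congr hq0 (fun _ _ _ _ h => (Prod.ext_iff.mp h).1)
        (fun _ _ _ _ h => (Prod.ext_iff.mp h).1) ?_ ?_ <;>
      · intro ω ω' _ _ h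
        simp only [Prod.mk.injEq, ← Nat.add_assoc] at h ⊢
        tauto
    · rfl

/-- Variables which are functions of the line and of the point are constant along the chain. -/
theorem ChainAll.const (h : ChainAll p lam x N q o o' l y) {β : Type} {bx : Ξ → β} {bl : Λ → β}
    (hb : ∀ ω, 0 < p ω → bx (x ω) = bl (lam ω)) {w : W} (hw : 0 < q w) :
    ∀ i ≤ N, bx (y i w) = bx (y 0 w) := by
  have hq0 := h.isLaw.nonneg
  intro i
  induction i with
  | zero => exact fun _ => rfl
  | succ i ih =>
    intro hi
    rw [← ih (by omega)]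
    have h1 := h.start w hw i (by omega)
    have h2 := h.line w hw i (by omega)
    have h3 := h.line' w hw i (by omega)
    have h4 := h.stop w hw i (by omega)
    have h5 : 0 < p (o i w) := (h.marg i (by omega)).pos hq0 hw
    have h6 : 0 < p (o' i w) := (h.marg' i (by omega)).pos hq0 hw
    rw [← h4, ← h1, hb _ h6, hb _ h5, h2, h3]

/-- **Good lengths**: among the parts of a chain of length `N` there is one for which the first
point has little information about the last line given the last point, and conversely. -/
theorem ChainAll.good (h : ChainAll p lam x N q o o' l y) (hN : 0 < N) {H₀ : ℝ} (hH0 : 0 ≤ H₀)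
    (hH : ∀ s ≤ N, ∀ k ≤ N, CH q (y s) (y k) ≤ H₀) :
    ∃ s k, s < k ∧ k ≤ N ∧
      (CH q (y s) (y k) - CH q (y s) (l (k - 1))) + (CH q (y k) (y s) - CH q (y k) (l s)) ≤
        4 * H₀ / N := by
  classical
  have hq0 := h.isLaw.nonneg
  have hNr : (0 : ℝ) < N := by exact_mod_cast hN
  -- the four inequalities
  have a1 : ∀ s k, s < k → k ≤ N → CH q (y s) (y (k - 1)) ≤ CH q (y s) (l (k - 1)) := by
    intro s k hsk hk
    have h1 := h.c1 s (k - 1) (by omega) (by omega)
    unfold CI at h1
    rw [← h1]
    exact CH_mono_cond hq0 fun _ _ _ _ h => (Prod.ext_iff.mp h).1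
  have a2 : ∀ s k, s < k → k ≤ N → CH q (y (k)) (y (s + 1)) ≤ CH q (y k) (l s) := by
    intro s k hsk hk
    have h1 := h.c4 s k hsk hk
    unfold CI at h1
    rw [← h1]
    exact CH_mono_cond hq0 fun _ _ _ _ h => (Prod.ext_iff.mp h).1
  have hself : ∀ k, CH q (y k) (y k) = 0 := fun k => CH_eq_zero hq0 fun _ _ _ _ h => h
  obtain ⟨δ₁, hδ₁⟩ : ∃ δ₁ : ℕ → ℕ → ℝ, δ₁ = fun s k =>
    if s < k then CH q (y s) (y k) - CH q (y s) (l (k - 1)) else 0 := ⟨_, rfl⟩
  obtain ⟨δ₂, hδ₂⟩ : ∃ δ₂ : ℕ → ℕ → ℝ, δ₂ = fun s k =>
    if s < k then CH q (y k) (y s) - CH q (y k) (l s) else 0 := ⟨_, rfl⟩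
  have D1 : ∀ s, ∀ n ≤ N, ∑ k ∈ Finset.range (n + 1), δ₁ s k ≤
      if s < n then CH q (y s) (y n) else 0 := by
    intro s n
    induction n with
    | zero =>
      intro _
      rw [Finset.sum_range_one, hδ₁]
      simp
    | succ n ih =>
      intro hn
      rw [Finset.sum_range_succ]
      have h1 := ih (by omega)
      rw [hδ₁] at h1 ⊢
      simp only at h1 ⊢
      by_cases h2 : s < n + 1
      · rw [if_pos h2, if_pos h2, Nat.add_sub_cancel]
        have h3 := a1 s (n + 1) h2 hn
        rw [Nat.add_sub_cancel] at h3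
        by_cases h4 : s < n
        · rw [if_pos h4] at h1
          linarith
        · rw [if_neg h4] at h1
          have h5 := CH_nonneg hq0 (y s) (l n)
          linarith
      · rw [if_neg h2, if_neg h2]
        rw [if_neg (by omega)] at h1
        linarith
  have D2 : ∀ k, 0 < k → k ≤ N → ∀ n, ∑ s ∈ Finset.range n, δ₂ s k ≤
      CH q (y k) (y 0) - if n < k then CH q (y k) (y n) else 0 := by
    intro k hk0 hk n
    induction n with
    | zero =>
      rw [Finset.sum_range_zero, if_pos hk0, sub_self]
    | succ n ih =>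
      rw [Finset.sum_range_succ]
      rw [hδ₂] at ih ⊢
      simp only at ih ⊢
      by_cases h2 : n < k
      · rw [if_pos h2] at ih ⊢
        have h3 := a2 n k h2 hk
        by_cases h4 : n + 1 < k
        · rw [if_pos h4]
          linarith
        · rw [if_neg h4]
          have h5 := CH_nonneg hq0 (y k) (l n)
          linarith
      · rw [if_neg h2] at ih ⊢
        rw [if_neg (by omega)]
        linarith
  by_contra hcon
  push Not at hcon
  have b1 : ∑ s ∈ Finset.range (N + 1), ∑ k ∈ Finset.range (N + 1), δ₁ s k ≤ (N + 1) * H₀ := by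
    calc _ ≤ ∑ _s ∈ Finset.range (N + 1), H₀ := by
          refine Finset.sum_le_sum fun s hs => (D1 s N le_rfl).trans ?_
          rw [Finset.mem_range] at hs
          split_ifs
          · exact hH s (by omega) N le_rfl
          · exact hH0
      _ = _ := by
          rw [Finset.sum_const, Finset.card_range, nsmul_eq_mul]
          push_cast
          ring
  have b2 : ∑ k ∈ Finset.range (N + 1), ∑ s ∈ Finset.range (N + 1), δ₂ s k ≤ (N + 1) * H₀ := by
    calc _ ≤ ∑ _s ∈ Finset.range (N + 1), H₀ := by
          refine Finset.sum_le_sum fun k hk => ?_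
          rw [Finset.mem_range] at hk
          rcases Nat.eq_zero_or_pos k with h0 | h0
          · subst h0
            rw [hδ₂]
            simp only [Nat.not_lt_zero, if_false, Finset.sum_const_zero]
            exact hH0
          · have h1 := D2 k h0 (by omega) (N + 1)
            rw [if_neg (by omega)] at h1
            have h2 := hH k (by omega) 0 (by omega)
            linarith
      _ = _ := by
          rw [Finset.sum_const, Finset.card_range, nsmul_eq_mul]
          push_cast
          ring
  have b3 : ∑ k ∈ Finset.range (N + 1), ∑ s ∈ Finset.range (N + 1),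
      (if s < k then 4 * H₀ / N else 0) ≤ ∑ k ∈ Finset.range (N + 1),
        ∑ s ∈ Finset.range (N + 1), (δ₁ s k + δ₂ s k) := by
    refine Finset.sum_le_sum fun k hk => Finset.sum_le_sum fun s _ => ?_
    rw [Finset.mem_range] at hk
    rw [hδ₁, hδ₂]
    simp only
    by_cases h2 : s < k
    · rw [if_pos h2, if_pos h2, if_pos h2]
      exact (hcon s k h2 (by omega)).le
    · rw [if_neg h2, if_neg h2, if_neg h2, add_zero]
  have b4 : ∑ k ∈ Finset.range (N + 1), ∑ s ∈ Finset.range (N + 1),
      (if s < k then 4 * H₀ / (N : ℝ) else 0) = ((N + 1) * N / 2) * (4 * H₀ / N) := by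
    have e1 : ∀ k ∈ Finset.range (N + 1), ∑ s ∈ Finset.range (N + 1),
        (if s < k then 4 * H₀ / (N : ℝ) else 0) = k * (4 * H₀ / N) := by
      intro k hk
      rw [Finset.mem_range] at hk
      rw [← Finset.sum_filter]
      have e2 : (Finset.range (N + 1)).filter (fun s => s < k) = Finset.range k := by
        ext s
        simp only [Finset.mem_filter, Finset.mem_range]
        omega
      rw [e2, Finset.sum_const, Finset.card_range, nsmul_eq_mul]
    rw [Finset.sum_congr rfl e1, ← Finset.sum_mul]
    congr 1
    have e3 := Finset.sum_range_id_mul_two (N + 1)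
    have e4 : ((∑ i ∈ Finset.range (N + 1), i : ℕ) : ℝ) * 2 = (N + 1) * N := by
      have : (((∑ i ∈ Finset.range (N + 1), i) * 2 : ℕ) : ℝ) = (((N + 1) * (N + 1 - 1) : ℕ) : ℝ) := by
        rw [e3]
      rw [Nat.add_sub_cancel] at this
      push_cast at this
      push_cast
      exact this
    push_cast at e4
    linarith
  have b5 : ∑ k ∈ Finset.range (N + 1), ∑ s ∈ Finset.range (N + 1), (δ₁ s k + δ₂ s k) =
      ∑ s ∈ Finset.range (N + 1), ∑ k ∈ Finset.range (N + 1), δ₁ s k +
        ∑ k ∈ Finset.range (N + 1), ∑ s ∈ Finset.range (N + 1), δ₂ s k := by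
    simp only [Finset.sum_add_distrib]
    rw [Finset.sum_comm]
  rw [b4, b5] at b3
  have b6 : ((N + 1) * N / 2) * (4 * H₀ / N) = 2 * ((N + 1) * H₀) := by
    field_simp
    ring
  rw [b6] at b3
  -- equality everywhere is impossible
  have c0 := hcon 0 1 one_pos (by omega)
  have b7 : ∑ k ∈ Finset.range (N + 1), ∑ s ∈ Finset.range (N + 1),
      (if s < k then 4 * H₀ / N else 0) < ∑ k ∈ Finset.range (N + 1),
        ∑ s ∈ Finset.range (N + 1), (δ₁ s k + δ₂ s k) := by
    have hle : ∀ k ∈ Finset.range (N + 1), ∀ s, (if s < k then 4 * H₀ / N else 0) ≤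
        δ₁ s k + δ₂ s k := by
      intro k hk s
      rw [Finset.mem_range] at hk
      rw [hδ₁, hδ₂]
      simp only
      by_cases h2 : s < k
      · rw [if_pos h2, if_pos h2, if_pos h2]
        exact (hcon s k h2 (by omega)).le
      · rw [if_neg h2, if_neg h2, if_neg h2, add_zero]
    refine Finset.sum_lt_sum (fun k hk => Finset.sum_le_sum fun s _ => hle k hk s) ⟨1, ?_, ?_⟩
    · rw [Finset.mem_range]
      omega
    · refine Finset.sum_lt_sum (fun s _ => hle 1 (by rw [Finset.mem_range]; omega) s) ⟨0, ?_, ?_⟩
      · rw [Finset.mem_range]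
        omega
      · rw [hδ₁, hδ₂]
        simp only [zero_lt_one, if_true]
        exact c0
  rw [b4, b5, b6] at b7
  linarith

end

end Pool.M3F
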