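import Pool.Agent.H5.M3F.Pop
import Pool.Agent.H45.KAL.CIL

/-!
# Correlated sampling

`crs`: two families of laws `P l` and `Q x` on a finite set can be sampled by functions `g l` and
`f x` which agree as often as the minimum of the two laws, up to the factor `1 / 4`.

`ker_ev`: a variable `A` which is independent of `X` given `L`, and whose density (law given `L`
against law given `X`) is at most `exp c` on an event, can be replaced by a function of `X` which is
a function of `L`; the price is `exp (-c) / 4`.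

`dens`: the density is at most `exp c` outside an event of probability `(I (A; L | X) + 1) / c`.
-/

set_option autoImplicit false

namespace Pool.M3F

open Finset Real
open Pool.Agent.H49.Ent Pool.Agent.H32.Dense Pool.STK Pool.KA Pool.KSAT Pool.K2S Pool.KS3

section Order

variable {τ : Type} {N : ℕ}

/-- `s` is the first element of `U`. -/
def Fst (σ : τ ≃ Fin N) (U : Finset τ) (s : τ) : Prop := s ∈ U ∧ ∀ u ∈ U, σ s ≤ σ u

theorem Fst.uniq {σ : τ ≃ Fin N} {U : Finset τ} {s s' : τ} (h : Fst σ U s) (h' : Fst σ U s') :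
    s = s' :=
  σ.injective (le_antisymm (h.2 s' h'.1) (h'.2 s h.1))

theorem fst_exists (σ : τ ≃ Fin N) {U : Finset τ} (h : U.Nonempty) : ∃ s, Fst σ U s := by
  obtain ⟨s, hs, h1⟩ := Finset.exists_min_image U σ h
  exact ⟨s, hs, h1⟩

theorem Fst.sub {σ : τ ≃ Fin N} {U U' : Finset τ} {s : τ} (h : Fst σ U s) (hU : U' ⊆ U)
    (hs : s ∈ U') : Fst σ U' s :=
  ⟨hs, fun u hu => h.2 u (hU hu)⟩

open Classical in
/-- The first element of `U`. -/
noncomputable def pick (t₀ : τ) (σ : τ ≃ Fin N) (U : Finset τ) : τ :=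
  if h : ∃ s, Fst σ U s then h.choose else t₀

theorem Fst.pick_eq {t₀ : τ} {σ : τ ≃ Fin N} {U : Finset τ} {s : τ} (h : Fst σ U s) :
    pick t₀ σ U = s := by
  have h1 : ∃ s, Fst σ U s := ⟨s, h⟩
  unfold pick
  rw [dif_pos h1]
  exact h1.choose_spec.uniq h

open Classical in
theorem fst_card_le [Fintype (τ ≃ Fin N)] {U : Finset τ} {s s' : τ} (hs : s ∈ U) (hs' : s' ∈ U) :
    (univ.filter fun σ : τ ≃ Fin N => Fst σ U s).card ≤
      (univ.filter fun σ : τ ≃ Fin N => Fst σ U s').card := by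
  refine Finset.card_le_card_of_injOn (fun σ => (Equiv.swap s s').trans σ) ?_ ?_
  · intro σ hσ
    simp only [Finset.coe_filter, Finset.mem_univ, true_and, Set.mem_ofPred_eq] at hσ ⊢
    refine ⟨hs', fun u hu => ?_⟩
    simp only [Equiv.trans_apply, Equiv.swap_apply_right]
    refine hσ.2 _ ?_
    by_cases h1 : u = s
    · rw [h1, Equiv.swap_apply_left]
      exact hs'
    · by_cases h2 : u = s'
      · rw [h2, Equiv.swap_apply_right]
        exact hs
      · rw [Equiv.swap_apply_of_ne_of_ne h1 h2]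
        exact hu
  · intro σ _ σ' _ h
    have h1 : (Equiv.swap s s').trans ((Equiv.swap s s').trans σ) =
        (Equiv.swap s s').trans ((Equiv.swap s s').trans σ') := by
      simp only at h
      rw [h]
    have h2 : ∀ σ : τ ≃ Fin N, (Equiv.swap s s').trans ((Equiv.swap s s').trans σ) = σ := by
      intro σ
      ext u
      simp
    rwa [h2, h2] at h1

open Classical in
/-- All elements of `U` are equally often the first one. -/
theorem fst_count [Fintype (τ ≃ Fin N)] {U : Finset τ} {s : τ} (hs : s ∈ U) :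
    Fintype.card (τ ≃ Fin N) ≤ U.card * (univ.filter fun σ : τ ≃ Fin N => Fst σ U s).card := by
  have h1 : (univ : Finset (τ ≃ Fin N)) ⊆ U.biUnion fun s' => univ.filter fun σ => Fst σ U s' := by
    intro σ _
    obtain ⟨s', h⟩ := fst_exists σ ⟨s, hs⟩
    rw [Finset.mem_biUnion]
    exact ⟨s', h.1, by simpa using h⟩
  calc Fintype.card (τ ≃ Fin N) = (univ : Finset (τ ≃ Fin N)).card := rfl
    _ ≤ (U.biUnion fun s' => univ.filter fun σ : τ ≃ Fin N => Fst σ U s').card :=
        Finset.card_le_card h1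
    _ ≤ ∑ s' ∈ U, (univ.filter fun σ : τ ≃ Fin N => Fst σ U s').card := Finset.card_biUnion_le
    _ ≤ ∑ _s' ∈ U, (univ.filter fun σ : τ ≃ Fin N => Fst σ U s).card :=
        Finset.sum_le_sum fun s' hs' => fst_card_le hs' hs
    _ = _ := by rw [Finset.sum_const, smul_eq_mul]

/-- The first elements of two sets agree often. -/
theorem fst_agree [Fintype (τ ≃ Fin N)] [DecidableEq τ] (t₀ : τ) {U U' : Finset τ} {M : ℕ}
    (h1 : U.card ≤ M) (h2 : U'.card ≤ M) (T : Finset τ) (hT : T ⊆ U ∩ U')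
    (g : (τ ≃ Fin N) → ℝ) (hg0 : ∀ σ, 0 ≤ g σ)
    (hg : ∀ σ, pick t₀ σ U = pick t₀ σ U' → pick t₀ σ U ∈ T → 1 ≤ g σ) :
    (T.card : ℝ) * Fintype.card (τ ≃ Fin N) ≤ 2 * M * ∑ σ, g σ := by
  classical
  have hU : (U ∪ U').card ≤ 2 * M := by
    have := Finset.card_union_le U U'
    omega
  have h3 : ∀ s ∈ T, Fintype.card (τ ≃ Fin N) ≤
      2 * M * (univ.filter fun σ : τ ≃ Fin N => Fst σ (U ∪ U') s).card := by
    intro s hs
    have h4 := fst_count (N := N) (U := U ∪ U') (s := s)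
      (Finset.mem_union_left _ (Finset.mem_of_mem_inter_left (hT hs)))
    refine h4.trans ((Nat.mul_le_mul_right _ hU).trans (le_of_eq ?_))
    congr!
  have h5 : ((T.biUnion fun s => univ.filter fun σ : τ ≃ Fin N => Fst σ (U ∪ U') s).card : ℝ) ≤
      ∑ σ, g σ := by
    have e1 : ((T.biUnion fun s => univ.filter fun σ : τ ≃ Fin N => Fst σ (U ∪ U') s).card : ℝ) =
        ∑ _σ ∈ (T.biUnion fun s => univ.filter fun σ : τ ≃ Fin N => Fst σ (U ∪ U') s),
          (1 : ℝ) := by simp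
    rw [e1]
    refine le_trans (Finset.sum_le_sum fun σ hσ => ?_)
      (Finset.sum_le_sum_of_subset_of_nonneg (Finset.subset_univ _) fun σ _ _ => hg0 σ)
    rw [Finset.mem_biUnion] at hσ
    obtain ⟨s, hs, h6⟩ := hσ
    simp only [Finset.mem_filter, Finset.mem_univ, true_and] at h6
    have h7 := (h6.sub Finset.subset_union_left
      (Finset.mem_of_mem_inter_left (hT hs))).pick_eq (t₀ := t₀)
    have h8 := (h6.sub Finset.subset_union_right
      (Finset.mem_of_mem_inter_right (hT hs))).pick_eq (t₀ := t₀)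
    exact hg σ (h7.trans h8.symm) (by rw [h7]; exact hs)
  have h6 : (T.biUnion fun s => univ.filter fun σ : τ ≃ Fin N => Fst σ (U ∪ U') s).card =
      ∑ s ∈ T, (univ.filter fun σ : τ ≃ Fin N => Fst σ (U ∪ U') s).card := by
    refine Finset.card_biUnion fun s _ s' _ hne => ?_
    refine Finset.disjoint_left.2 ?_
    intro σ h7 h8
    simp only [Finset.mem_filter, Finset.mem_univ, true_and] at h7 h8
    exact hne (h7.uniq h8)
  have h7 : T.card * Fintype.card (τ ≃ Fin N) ≤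
      2 * M * (T.biUnion fun s => univ.filter fun σ : τ ≃ Fin N => Fst σ (U ∪ U') s).card := by
    calc T.card * Fintype.card (τ ≃ Fin N) = ∑ _s ∈ T, Fintype.card (τ ≃ Fin N) := by
          rw [Finset.sum_const, smul_eq_mul]
      _ ≤ ∑ s ∈ T, 2 * M * (univ.filter fun σ : τ ≃ Fin N => Fst σ (U ∪ U') s).card :=
          Finset.sum_le_sum h3
      _ = _ := by rw [← Finset.mul_sum, h6]
  calc (T.card : ℝ) * Fintype.card (τ ≃ Fin N) ≤ 2 * M *
        (T.biUnion fun s => univ.filter fun σ : τ ≃ Fin N => Fst σ (U ∪ U') s).card := by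
        exact_mod_cast h7
    _ ≤ _ := mul_le_mul_of_nonneg_left h5 (by positivity)

end Order

section Tickets

variable {α : Type} [Fintype α] {M : ℕ}

open Classical in
/-- The tickets of a law. -/
noncomputable def tic (M : ℕ) (P : α → ℝ) : Finset (α × Fin M) :=
  univ.filter fun s => (s.2 : ℕ) < ⌊M * P s.1⌋₊

theorem card_lt (M k : ℕ) : (univ.filter fun u : Fin M => (u : ℕ) < k).card = min k M := by
  have h : (univ.filter fun u : Fin M => (u : ℕ) < k).card = ((Finset.range M).filter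
      fun u => u < k).card := by
    refine Finset.card_bij (fun u _ => (u : ℕ)) ?_ ?_ ?_
    · intro u hu
      simp only [Finset.mem_filter, Finset.mem_univ, true_and, Finset.mem_range] at hu ⊢
      exact ⟨u.isLt, hu⟩
    · intro u _ u' _ h
      exact Fin.ext h
    · intro u hu
      simp only [Finset.mem_filter, Finset.mem_range] at hu
      exact ⟨⟨u, hu.1⟩, by simpa using hu.2, rfl⟩
  rw [h]
  have h2 : ((Finset.range M).filter fun u => u < k) = Finset.range (min k M) := by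
    ext u
    simp only [Finset.mem_filter, Finset.mem_range]
    omega
  rw [h2, Finset.card_range]

open Classical in
theorem card_tic_filter (R : α → Prop) (n : α → ℕ) :
    (univ.filter fun s : α × Fin M => (s.2 : ℕ) < n s.1 ∧ R s.1).card =
      ∑ a, if R a then min (n a) M else 0 := by
  rw [Finset.card_filter, Fintype.sum_prod_type]
  refine Finset.sum_congr rfl fun a _ => ?_
  by_cases h : R a
  · rw [if_pos h, ← card_lt M (n a), Finset.card_filter]
    refine Finset.sum_congr rfl fun u _ => ?_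
    by_cases h1 : (u : ℕ) < n a
    · rw [if_pos ⟨h1, h⟩, if_pos h1]
    · rw [if_neg (fun h2 => h1 h2.1), if_neg h1]
  · rw [if_neg h]
    exact Finset.sum_eq_zero fun u _ => if_neg fun h2 => h h2.2

theorem card_tic_le {P : α → ℝ} (hP0 : ∀ a, 0 ≤ P a) (hP : ∑ a, P a ≤ 1) :
    (tic M P).card ≤ M := by
  classical
  have h1 : (tic M P).card = ∑ a, if True then min ⌊M * P a⌋₊ M else 0 := by
    have h2 := card_tic_filter (M := M) (fun _ : α => True) (fun a => ⌊M * P a⌋₊)
    refine Eq.trans ?_ (h2.trans ?_)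
    · congr 1
      ext s
      simp [tic]
    · refine Finset.sum_congr rfl fun a _ => ?_
      rw [if_pos trivial, if_pos trivial]
  have h2 : ((tic M P).card : ℝ) ≤ M := by
    rw [h1]
    push_cast
    calc (∑ a, if True then min (⌊M * P a⌋₊ : ℝ) (M : ℝ) else 0) ≤ ∑ a, M * P a := by
          refine Finset.sum_le_sum fun a _ => ?_
          rw [if_pos trivial]
          exact (min_le_left _ _).trans
            (Nat.floor_le (mul_nonneg (Nat.cast_nonneg _) (hP0 a)))
      _ = M * ∑ a, P a := by rw [Finset.mul_sum]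
      _ ≤ M * 1 := mul_le_mul_of_nonneg_left hP (Nat.cast_nonneg _)
      _ = M := mul_one _
  exact_mod_cast h2

open Classical in
theorem card_tic_inter {P Q : α → ℝ} (hP0 : ∀ a, 0 ≤ P a) (hP : ∑ a, P a ≤ 1)
    (R : α → Prop) :
    M * (∑ a, if R a then min (P a) (Q a) else 0) - Fintype.card α ≤
      (((tic M P ∩ tic M Q).filter fun s => R s.1).card : ℝ) := by
  have h1 : ((tic M P ∩ tic M Q).filter fun s => R s.1).card =
      ∑ a, if R a then min (min ⌊M * P a⌋₊ ⌊M * Q a⌋₊) M else 0 := by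
    rw [← card_tic_filter]
    congr 1
    ext s
    simp only [tic, Finset.mem_filter, Finset.mem_inter, Finset.mem_univ, true_and, lt_min_iff]
  have hP1 : ∀ a, P a ≤ 1 := fun a =>
    (Finset.single_le_sum (f := P) (fun a _ => hP0 a) (Finset.mem_univ a)).trans hP
  rw [h1]
  push_cast
  have hM : (0 : ℝ) ≤ M := Nat.cast_nonneg M
  have h2 : (Fintype.card α : ℝ) = ∑ _a : α, (1 : ℝ) := by simp
  rw [h2, Finset.mul_sum, ← Finset.sum_sub_distrib]
  refine Finset.sum_le_sum fun a _ => ?_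
  by_cases h : R a
  · rw [if_pos h, if_pos h]
    have e1 : (M : ℝ) * P a < ⌊M * P a⌋₊ + 1 := Nat.lt_floor_add_one _
    have e2 : (M : ℝ) * Q a < ⌊M * Q a⌋₊ + 1 := Nat.lt_floor_add_one _
    have e3 : (M : ℝ) * min (P a) (Q a) ≤ M * P a := mul_le_mul_of_nonneg_left (min_le_left _ _) hM
    have e4 : (M : ℝ) * min (P a) (Q a) ≤ M * Q a := mul_le_mul_of_nonneg_left (min_le_right _ _) hM
    have e5 : (M : ℝ) * P a ≤ M * 1 := mul_le_mul_of_nonneg_left (hP1 a) hM
    refine le_min (le_min ?_ ?_) ?_ <;> linarith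
  · rw [if_neg h, if_neg h]
    linarith

end Tickets

open Classical in
/-- **Correlated sampling.** -/
theorem crs {Ω ξ Λ α : Type} [Fintype Ω] [Fintype α] [Nonempty α] {p : Ω → ℝ}
    (hp : ∀ ω, 0 ≤ p ω) (X : Ω → ξ) (L : Ω → Λ) (P : Λ → α → ℝ) (Q : ξ → α → ℝ)
    (hP0 : ∀ l a, 0 ≤ P l a) (hP : ∀ l, ∑ a, P l a ≤ 1) (hQ0 : ∀ x a, 0 ≤ Q x a)
    (hQ : ∀ x, ∑ a, Q x a ≤ 1) (R : Ω → α → Prop) :
    ∃ (f : ξ → α) (g : Λ → α),
      (∑ ω, p ω * ∑ a, if R ω a then min (P (L ω) a) (Q (X ω) a) else 0) / 4 ≤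
        Pe p (fun ω => f (X ω) = g (L ω) ∧ R ω (f (X ω))) := by
  obtain ⟨a₀⟩ := ‹Nonempty α›
  obtain ⟨S, hS⟩ : ∃ S, S = ∑ ω, p ω * ∑ a, if R ω a then min (P (L ω) a) (Q (X ω) a) else 0 :=
    ⟨_, rfl⟩
  rw [← hS]
  rcases le_or_gt S 0 with h0 | h0
  · refine ⟨fun _ => a₀, fun _ => a₀, ?_⟩
    refine le_trans (by linarith : S / 4 ≤ 0) ?_
    rw [Pe_eq]
    refine Finset.sum_nonneg fun ω _ => ?_
    split_ifs
    · exact hp ω
    · exact le_rfl
  obtain ⟨s, hs⟩ : ∃ s, s = ∑ ω, p ω := ⟨_, rfl⟩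
  have hs0 : 0 ≤ s := by
    rw [hs]
    exact Finset.sum_nonneg fun ω _ => hp ω
  obtain ⟨M, hM⟩ := exists_nat_gt (2 * (Fintype.card α * s) / S)
  have hM0 : (0 : ℝ) < M := lt_of_le_of_lt (by positivity) hM
  have hM1 : 0 < M := by exact_mod_cast hM0
  rw [div_lt_iff₀ h0] at hM
  obtain ⟨N, hN⟩ : ∃ N, N = Fintype.card (α × Fin M) := ⟨_, rfl⟩
  have hne : Nonempty ((α × Fin M) ≃ Fin N) := by
    rw [hN]
    exact ⟨Fintype.equivFin _⟩
  obtain ⟨t₀, ht₀⟩ : ∃ t₀ : α × Fin M, t₀ = (a₀, ⟨0, hM1⟩) := ⟨_, rfl⟩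
  obtain ⟨fs, hfs⟩ : ∃ fs : ((α × Fin M) ≃ Fin N) → ξ → α,
      fs = fun σ x => (pick t₀ σ (tic M (Q x))).1 := ⟨_, rfl⟩
  obtain ⟨gs, hgs⟩ : ∃ gs : ((α × Fin M) ≃ Fin N) → Λ → α,
      gs = fun σ l => (pick t₀ σ (tic M (P l))).1 := ⟨_, rfl⟩
  -- the mean over the orders
  have key : ∀ ω, (M * (∑ a, if R ω a then min (P (L ω) a) (Q (X ω) a) else 0) -
      Fintype.card α) * Fintype.card ((α × Fin M) ≃ Fin N) ≤
      2 * M * ∑ σ : (α × Fin M) ≃ Fin N,
        (if fs σ (X ω) = gs σ (L ω) ∧ R ω (fs σ (X ω)) then (1 : ℝ) else 0) := by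
    intro ω
    have h1 := card_tic_inter (M := M) (Q := Q (X ω)) (hP0 (L ω)) (hP (L ω)) (R ω)
    have h2 := fst_agree (N := N) t₀ (card_tic_le (M := M) (hQ0 (X ω)) (hQ (X ω)))
      (card_tic_le (M := M) (hP0 (L ω)) (hP (L ω)))
      ((tic M (P (L ω)) ∩ tic M (Q (X ω))).filter fun s => R ω s.1)
      (by
        intro s hs
        simp only [Finset.mem_filter, Finset.mem_inter] at hs ⊢
        exact ⟨hs.1.2, hs.1.1⟩)
      (fun σ => if fs σ (X ω) = gs σ (L ω) ∧ R ω (fs σ (X ω)) then (1 : ℝ) else 0)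
      (fun σ => by split_ifs <;> norm_num)
      (fun σ h3 h4 => by
        rw [if_pos]
        rw [hfs, hgs]
        exact ⟨congrArg Prod.fst h3, (Finset.mem_filter.1 h4).2⟩)
    refine le_trans (mul_le_mul_of_nonneg_right ?_ (Nat.cast_nonneg _)) h2
    refine h1.trans (le_of_eq ?_)
    congr!
  have h1 : (M * S - Fintype.card α * s) * Fintype.card ((α × Fin M) ≃ Fin N) ≤
      2 * M * ∑ σ : (α × Fin M) ≃ Fin N,
        Pe p (fun ω => fs σ (X ω) = gs σ (L ω) ∧ R ω (fs σ (X ω))) := by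
    have e1 : (M * S - Fintype.card α * s) * Fintype.card ((α × Fin M) ≃ Fin N) =
        ∑ ω, p ω * ((M * (∑ a, if R ω a then min (P (L ω) a) (Q (X ω) a) else 0) -
          Fintype.card α) * Fintype.card ((α × Fin M) ≃ Fin N)) := by
      rw [hS, hs, Finset.mul_sum, Finset.mul_sum, ← Finset.sum_sub_distrib, Finset.sum_mul]
      refine Finset.sum_congr rfl fun ω _ => ?_
      ring
    have e2 : ∑ σ : (α × Fin M) ≃ Fin N,
        Pe p (fun ω => fs σ (X ω) = gs σ (L ω) ∧ R ω (fs σ (X ω))) =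
        ∑ ω, p ω * ∑ σ : (α × Fin M) ≃ Fin N,
          (if fs σ (X ω) = gs σ (L ω) ∧ R ω (fs σ (X ω)) then (1 : ℝ) else 0) := by
      simp only [Pe_eq, Finset.mul_sum]
      rw [Finset.sum_comm]
      refine Finset.sum_congr rfl fun ω _ => Finset.sum_congr rfl fun σ _ => ?_
      split_ifs <;> simp
    rw [e1, e2, Finset.mul_sum]
    refine Finset.sum_le_sum fun ω _ => ?_
    have := mul_le_mul_of_nonneg_left (key ω) (hp ω)
    linarith
  by_contra hcon
  push Not at hcon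
  have h2 : ∀ σ : (α × Fin M) ≃ Fin N,
      Pe p (fun ω => fs σ (X ω) = gs σ (L ω) ∧ R ω (fs σ (X ω))) < S / 4 := fun σ =>
    hcon (fs σ) (gs σ)
  have h3 : ∑ σ : (α × Fin M) ≃ Fin N,
        Pe p (fun ω => fs σ (X ω) = gs σ (L ω) ∧ R ω (fs σ (X ω))) <
      Fintype.card ((α × Fin M) ≃ Fin N) * (S / 4) := by
    calc _ < ∑ _σ : (α × Fin M) ≃ Fin N, S / 4 :=
          Finset.sum_lt_sum_of_nonempty Finset.univ_nonempty fun σ _ => h2 σ
      _ = _ := by
          rw [Finset.sum_const, nsmul_eq_mul]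
          rfl
  have h4 : (0 : ℝ) < Fintype.card ((α × Fin M) ≃ Fin N) := by
    exact_mod_cast Fintype.card_pos
  have h5 : 2 * M * ∑ σ : (α × Fin M) ≃ Fin N,
        Pe p (fun ω => fs σ (X ω) = gs σ (L ω) ∧ R ω (fs σ (X ω))) <
      2 * M * (Fintype.card ((α × Fin M) ≃ Fin N) * (S / 4)) :=
    mul_lt_mul_of_pos_left h3 (by positivity)
  have h6 : (M * S - Fintype.card α * s) * Fintype.card ((α × Fin M) ≃ Fin N) <
      (M * S / 2) * Fintype.card ((α × Fin M) ≃ Fin N) := by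
    calc _ ≤ _ := h1
      _ < _ := h5
      _ = _ := by ring
  have h7 := lt_of_mul_lt_mul_right h6 h4.le
  linarith

section Ker

variable {Ω ξ Λ α : Type} [Fintype Ω] {p : Ω → ℝ} {X : Ω → ξ} {L : Ω → Λ} {A : Ω → α}

/-- A variable with values in the sample space, which is equivalent to `A`. -/
noncomputable def rep (A : Ω → α) (ω : Ω) : Ω :=
  (⟨ω, rfl⟩ : ∃ ω', A ω' = A ω).choose

omit [Fintype Ω] in
theorem rep_A (A : Ω → α) (ω : Ω) : A (rep A ω) = A ω :=
  (⟨ω, rfl⟩ : ∃ ω', A ω' = A ω).choose_spec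

omit [Fintype Ω] in
theorem rep_iff (A : Ω → α) (ω ω' : Ω) : rep A ω = rep A ω' ↔ A ω = A ω' := by
  constructor
  · intro h
    rw [← rep_A A ω, ← rep_A A ω', h]
  · intro h
    unfold rep
    simp only [h]

theorem law_rep (κ : Ω → ℝ) (A : Ω → α) (ω : Ω) : law κ (rep A) (rep A ω) = law κ A (A ω) := by
  unfold law
  refine Finset.sum_congr rfl fun ω' _ => ?_
  by_cases h : A ω' = A ω
  · rw [if_pos h, if_pos ((rep_iff A ω' ω).2 h)]
  · rw [if_neg h, if_neg fun h1 => h ((rep_iff A ω' ω).1 h1)]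

open Classical in
/-- Resampling of `A` given `L`: upper bound for means of functions of `X`, `L`, `A`. -/
theorem ci_le [Fintype α] (hp : IsLaw p) (hci : CI p A X L) (φ : ξ → Λ → α → ℝ)
    (hφ : ∀ x l a, 0 ≤ φ x l a) :
    ∑ ω, p ω * φ (X ω) (L ω) (A ω) ≤
      ∑ ω, p ω * ∑ a, law (Pool.Agent.H49.Ent.cond p L (L ω)) A a * φ (X ω) (L ω) a := by
  have hp0 := hp.nonneg
  have e1 : ∑ ω, p ω * φ (X ω) (L ω) (A ω) =
      ∑ s ∈ univ.image (fun ω => (A ω, (X ω, L ω))),
        law p (fun ω => (A ω, (X ω, L ω))) s * φ s.2.1 s.2.2 s.1 :=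
    sum_mul_eq_sum_image p (fun ω => (A ω, (X ω, L ω))) (fun s => φ s.2.1 s.2.2 s.1)
  have e2 : ∑ ω, p ω * ∑ a, law (Pool.Agent.H49.Ent.cond p L (L ω)) A a * φ (X ω) (L ω) a =
      ∑ s ∈ univ.image (fun ω => (X ω, L ω)), law p (fun ω => (X ω, L ω)) s *
        ∑ a, law (Pool.Agent.H49.Ent.cond p L s.2) A a * φ s.1 s.2 a :=
    sum_mul_eq_sum_image p (fun ω => (X ω, L ω))
      (fun s => ∑ a, law (Pool.Agent.H49.Ent.cond p L s.2) A a * φ s.1 s.2 a)
  rw [e1, e2]
  have e3 : ∑ s ∈ univ.image (fun ω => (X ω, L ω)), law p (fun ω => (X ω, L ω)) s *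
        ∑ a, law (Pool.Agent.H49.Ent.cond p L s.2) A a * φ s.1 s.2 a =
      ∑ s ∈ univ ×ˢ univ.image (fun ω => (X ω, L ω)), law p (fun ω => (X ω, L ω)) s.2 *
        (law (Pool.Agent.H49.Ent.cond p L s.2.2) A s.1 * φ s.2.1 s.2.2 s.1) := by
    rw [Finset.sum_product_right]
    refine Finset.sum_congr rfl fun s _ => ?_
    rw [Finset.mul_sum]
  rw [e3]
  refine le_trans (Finset.sum_le_sum fun s hs => ?_)
    (Finset.sum_le_sum_of_subset_of_nonneg (s := univ.image (fun ω => (A ω, (X ω, L ω)))) ?_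
      fun s _ _ => ?_)
  · rw [← mul_assoc]
    refine mul_le_mul_of_nonneg_right ?_ (hφ _ _ _)
    obtain ⟨a, x, l⟩ := s
    simp only
    have h1 := hci.law_le hp a x l
    rw [law_cond]
    rcases (law_nonneg hp0 L l).eq_or_lt with h0 | h0
    · have h2 : law p (fun ω => (A ω, (X ω, L ω))) (a, (x, l)) ≤ law p L l := by
        unfold law
        refine Finset.sum_le_sum fun ω _ => ?_
        by_cases h3 : (A ω, (X ω, L ω)) = (a, (x, l))
        · rw [if_pos h3, if_pos (Prod.ext_iff.mp (Prod.ext_iff.mp h3).2).2]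
        · rw [if_neg h3]
          split_ifs
          · exact hp0 ω
          · exact le_rfl
      rw [← h0] at h2
      rw [← h0, div_zero, mul_zero]
      exact h2
    · rw [mul_div_assoc', le_div_iff₀ h0]
      linarith
  · intro s hs
    rw [Finset.mem_image] at hs
    obtain ⟨ω, _, rfl⟩ := hs
    rw [Finset.mem_product]
    exact ⟨Finset.mem_univ _, Finset.mem_image_of_mem _ (Finset.mem_univ ω)⟩
  · exact mul_nonneg (law_nonneg hp0 _ _) (mul_nonneg
      (law_nonneg (cond_nonneg hp0 _ _) _ _) (hφ _ _ _))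

theorem CI.rep (hp0 : ∀ ω, 0 ≤ p ω) (hci : CI p A X L) : CI p (rep A) X L := by
  unfold CI at hci ⊢
  have h1 : ∀ (U : Type) (Z : Ω → U), CH p (M3F.rep A) Z = CH p A Z := fun U Z => by
    refine CH_congr hp0 ?_ ?_ (fun _ _ _ _ h => h) (fun _ _ _ _ h => h)
    · intro ω ω' _ _ h
      have h1 := Prod.ext_iff.mp h
      exact (rep_iff A ω ω').1 h1.1
    · intro ω ω' _ _ h
      have h1 := Prod.ext_iff.mp h
      exact (rep_iff A ω ω').2 h1.1
  rw [h1, h1, hci]

/-- **A kernel of `L` with bounded density against `X` is, on an event, a function of `X` which is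
a function of `L`.** -/
theorem ker_ev (hp : IsLaw p) (hci : CI p A X L) {c : ℝ} (hc : 0 ≤ c) (B : Ω → Prop) {ρ : ℝ}
    (h : ρ ≤ Pe p (fun ω => B ω ∧ law (Pool.Agent.H49.Ent.cond p L (L ω)) A (A ω) ≤
      Real.exp c * law (Pool.Agent.H49.Ent.cond p X (X ω)) A (A ω))) :
    ∃ (f : ξ → α) (g : Λ → α), Real.exp (-c) * ρ / 4 ≤ Pe p (fun ω => f (X ω) = g (L ω) ∧
      ∃ ω', 0 < p ω' ∧ B ω' ∧ X ω' = X ω ∧ L ω' = L ω ∧ A ω' = f (X ω)) := by
  classical
  have hp0 := hp.nonneg
  have hne : Nonempty Ω := by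
    by_contra h0
    rw [not_nonempty_iff] at h0
    have := hp.sum_one
    simp at this
  obtain ⟨P, hP⟩ : ∃ P : Λ → Ω → ℝ, P = fun l => law (Pool.Agent.H49.Ent.cond p L l) (rep A) :=
    ⟨_, rfl⟩
  obtain ⟨Q, hQ⟩ : ∃ Q : ξ → Ω → ℝ, Q = fun x => law (Pool.Agent.H49.Ent.cond p X x) (rep A) :=
    ⟨_, rfl⟩
  have P0 : ∀ l a, 0 ≤ P l a := fun l a => by
    rw [hP]
    exact law_nonneg (cond_nonneg hp0 L l) _ a
  have Q0 : ∀ x a, 0 ≤ Q x a := fun x a => by
    rw [hQ]
    exact law_nonneg (cond_nonneg hp0 X x) _ a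
  have P1 : ∀ l, ∑ a, P l a ≤ 1 := fun l => by
    rw [hP]
    simp only
    rw [sum_law_le]
    exact cond_sum_le L l
  have Q1 : ∀ x, ∑ a, Q x a ≤ 1 := fun x => by
    rw [hQ]
    simp only
    rw [sum_law_le]
    exact cond_sum_le X x
  obtain ⟨R, hR⟩ : ∃ R : ξ → Λ → Ω → Prop, R = fun x l a => P l a ≤ Real.exp c * Q x a ∧
      ∃ ω', 0 < p ω' ∧ B ω' ∧ X ω' = x ∧ L ω' = l ∧ rep A ω' = a := ⟨_, rfl⟩
  obtain ⟨f, g, hfg⟩ := crs hp0 X L P Q P0 P1 Q0 Q1 (fun ω a => R (X ω) (L ω) a)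
  refine ⟨fun x => A (f x), fun l => A (g l), ?_⟩
  have h1 : Pe p (fun ω => f (X ω) = g (L ω) ∧ R (X ω) (L ω) (f (X ω))) ≤
      Pe p (fun ω => A (f (X ω)) = A (g (L ω)) ∧
      ∃ ω', 0 < p ω' ∧ B ω' ∧ X ω' = X ω ∧ L ω' = L ω ∧ A ω' = A (f (X ω))) := by
    refine Pe_mono hp fun ω hω => ?_
    rw [hR] at hω
    obtain ⟨h2, _, ω', h3, h4, h5, h6, h7⟩ := hω
    refine ⟨congrArg A h2, ω', h3, h4, h5, h6, ?_⟩
    rw [← h7]
    exact (rep_A A ω').symm
  refine le_trans ?_ h1
  refine le_trans ?_ hfg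
  have h2 : Pe p (fun ω => B ω ∧ law (Pool.Agent.H49.Ent.cond p L (L ω)) A (A ω) ≤
      Real.exp c * law (Pool.Agent.H49.Ent.cond p X (X ω)) A (A ω)) ≤
      ∑ ω, p ω * (if R (X ω) (L ω) (rep A ω) then 1 else 0) := by
    rw [Pe_eq]
    refine Finset.sum_le_sum fun ω _ => ?_
    split_ifs with h3 h4 h4
    · rw [mul_one]
    · rcases (hp0 ω).eq_or_lt with h5 | h5
      · rw [← h5, zero_mul]
      · exfalso
        apply h4
        rw [hR]
        refine ⟨?_, ω, h5, h3.1, rfl, rfl, rfl⟩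
        rw [hP, hQ]
        simp only
        rw [law_rep, law_rep]
        exact h3.2
    · rw [mul_one]
      exact hp0 ω
    · rw [mul_zero]
  have h3 := ci_le hp (CI.rep hp0 hci) (fun x l a => if R x l a then 1 else 0)
    (fun x l a => by split_ifs <;> norm_num)
  have h4 : ∑ ω, p ω * ∑ a, law (Pool.Agent.H49.Ent.cond p L (L ω)) (rep A) a *
        (if R (X ω) (L ω) a then 1 else 0) ≤
      Real.exp c * ∑ ω, p ω * ∑ a, if R (X ω) (L ω) a then min (P (L ω) a) (Q (X ω) a) else 0 := by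
    rw [Finset.mul_sum]
    refine Finset.sum_le_sum fun ω _ => ?_
    rw [← mul_assoc, mul_comm (Real.exp c) (p ω), mul_assoc]
    refine mul_le_mul_of_nonneg_left ?_ (hp0 ω)
    rw [Finset.mul_sum]
    refine Finset.sum_le_sum fun a _ => ?_
    by_cases h5 : R (X ω) (L ω) a
    · rw [if_pos h5, if_pos h5, mul_one]
      have h6 : P (L ω) a ≤ Real.exp c * Q (X ω) a := by
        rw [hR] at h5
        exact h5.1
      have h7 : law (Pool.Agent.H49.Ent.cond p L (L ω)) (rep A) a = P (L ω) a := by rw [hP]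
      rw [h7, mul_min_of_nonneg _ _ (Real.exp_pos c).le]
      refine le_min ?_ h6
      have h8 : 1 ≤ Real.exp c := Real.one_le_exp hc
      nlinarith [P0 (L ω) a]
    · rw [if_neg h5, if_neg h5, mul_zero, mul_zero]
  have h5 := h.trans (h2.trans (h3.trans h4))
  have h6 : Real.exp (-c) * ρ ≤
      ∑ ω, p ω * ∑ a, if R (X ω) (L ω) a then min (P (L ω) a) (Q (X ω) a) else 0 := by
    calc Real.exp (-c) * ρ ≤ Real.exp (-c) * (Real.exp c *
          ∑ ω, p ω * ∑ a, if R (X ω) (L ω) a then min (P (L ω) a) (Q (X ω) a) else 0) :=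
          mul_le_mul_of_nonneg_left h5 (Real.exp_pos _).le
      _ = _ := by rw [← mul_assoc, ← Real.exp_add, neg_add_cancel, Real.exp_zero, one_mul]
  linarith

/-- **The density is bounded on a large event.** -/
theorem dens (hp : IsLaw p) (hci : CI p A X L) {c : ℝ} (hc : 0 < c) :
    Pe p (fun ω => Real.exp c * law (Pool.Agent.H49.Ent.cond p X (X ω)) A (A ω) <
      law (Pool.Agent.H49.Ent.cond p L (L ω)) A (A ω)) ≤ (CH p A X - CH p A L + 1) / c := by
  classical
  have hp0 := hp.nonneg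
  obtain ⟨k, hk⟩ : ∃ k : Ω → ℝ, k = fun ω => law (Pool.Agent.H49.Ent.cond p L (L ω)) A (A ω) :=
    ⟨_, rfl⟩
  obtain ⟨k', hk'⟩ : ∃ k' : Ω → ℝ, k' = fun ω => law (Pool.Agent.H49.Ent.cond p X (X ω)) A (A ω) :=
    ⟨_, rfl⟩
  have kpos : ∀ ω, 0 < p ω → 0 < k ω := fun ω hω => by
    rw [hk]
    simp only
    rw [law_cond]
    exact div_pos (law_pos hp0 (fun ω => (A ω, L ω)) hω) (law_pos hp0 L hω)
  have kpos' : ∀ ω, 0 < p ω → 0 < k' ω := fun ω hω => by
    rw [hk']
    simp only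
    rw [law_cond]
    exact div_pos (law_pos hp0 (fun ω => (A ω, X ω)) hω) (law_pos hp0 X hω)
  have e1 : CH p A L = Ex p (fun ω => -Real.log (k ω)) := by
    rw [CH_eq_neg_sum hp0 A L, hk]
    simp only [law_cond]
  have e2 : CH p A X = Ex p (fun ω => -Real.log (k' ω)) := by
    rw [CH_eq_neg_sum hp0 A X, hk']
    simp only [law_cond]
  -- the mean of the inverse density
  have e3 : Ex p (fun ω => k' ω / k ω) ≤ 1 := by
    have h1 := ci_le hp (CI.rep hp0 hci)
      (fun x l a => law (Pool.Agent.H49.Ent.cond p X x) (rep A) a /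
        law (Pool.Agent.H49.Ent.cond p L l) (rep A) a)
      (fun x l a => div_nonneg (law_nonneg (cond_nonneg hp0 _ _) _ _)
        (law_nonneg (cond_nonneg hp0 _ _) _ _))
    have h2 : ∑ ω, p ω * ∑ a, law (Pool.Agent.H49.Ent.cond p L (L ω)) (rep A) a *
        (law (Pool.Agent.H49.Ent.cond p X (X ω)) (rep A) a /
          law (Pool.Agent.H49.Ent.cond p L (L ω)) (rep A) a) ≤ ∑ ω, p ω * 1 := by
      refine Finset.sum_le_sum fun ω _ => mul_le_mul_of_nonneg_left ?_ (hp0 ω)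
      have h3 : ∑ a, law (Pool.Agent.H49.Ent.cond p X (X ω)) (rep A) a ≤ 1 := by
        rw [sum_law_le]
        exact cond_sum_le X _
      refine le_trans (Finset.sum_le_sum fun a _ => ?_) h3
      have h4 := law_nonneg (cond_nonneg hp0 L (L ω)) (rep A) a
      have h5 := law_nonneg (cond_nonneg hp0 X (X ω)) (rep A) a
      rcases h4.eq_or_lt with h6 | h6
      · rw [← h6, zero_mul]
        exact h5
      · rw [mul_div_cancel₀ _ h6.ne']
    have h3 : Ex p (fun ω => k' ω / k ω) = ∑ ω, p ω *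
        (law (Pool.Agent.H49.Ent.cond p X (X ω)) (rep A) (rep A ω) /
          law (Pool.Agent.H49.Ent.cond p L (L ω)) (rep A) (rep A ω)) := by
      unfold Ex
      refine Finset.sum_congr rfl fun ω _ => ?_
      rw [law_rep, law_rep, hk, hk']
    rw [h3]
    refine h1.trans (h2.trans ?_)
    simp only [mul_one]
    exact hp.sum_one.le
  -- Markov
  have e4 : c * Pe p (fun ω => Real.exp c * k' ω < k ω) ≤
      Ex p (fun ω => Real.log (k ω) - Real.log (k' ω) + k' ω / k ω) := by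
    rw [Pe_eq, Finset.mul_sum]
    unfold Ex
    refine Finset.sum_le_sum fun ω _ => ?_
    rcases (hp0 ω).eq_or_lt with h5 | h5
    · rw [← h5]
      simp
    · have h1 := kpos ω h5
      have h2 := kpos' ω h5
      have h3 : Real.log (k' ω / k ω) ≤ k' ω / k ω - 1 :=
        Real.log_le_sub_one_of_pos (div_pos h2 h1)
      rw [Real.log_div h2.ne' h1.ne'] at h3
      split_ifs with h6
      · have h7 : Real.log (Real.exp c * k' ω) ≤ Real.log (k ω) :=
          Real.log_le_log (by positivity) h6.le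
        rw [Real.log_mul (Real.exp_pos c).ne' h2.ne', Real.log_exp] at h7
        have h8 : 0 < k' ω / k ω := div_pos h2 h1
        rw [mul_comm]
        exact mul_le_mul_of_nonneg_left (by linarith) h5.le
      · rw [mul_zero]
        exact mul_nonneg h5.le (by linarith)
  have e5 : Ex p (fun ω => Real.log (k ω) - Real.log (k' ω) + k' ω / k ω) =
      CH p A X - CH p A L + Ex p (fun ω => k' ω / k ω) := by
    rw [e1, e2]
    unfold Ex
    rw [← Finset.sum_sub_distrib, ← Finset.sum_add_distrib]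
    refine Finset.sum_congr rfl fun ω _ => ?_
    ring
  rw [le_div_iff₀ hc]
  have e6 : Pe p (fun ω => Real.exp c * law (Pool.Agent.H49.Ent.cond p X (X ω)) A (A ω) <
      law (Pool.Agent.H49.Ent.cond p L (L ω)) A (A ω)) =
      Pe p (fun ω => Real.exp c * k' ω < k ω) := by rw [hk, hk']
  rw [e6]
  linarith

end Ker

end Pool.M3F
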