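import Pool.Agent.H5.M3F.KerC
import Pool.Agent.H5.M3F.Chn2

/-!
# Mixing of chains in a class (MIX)

If a variable `Y` of the point has entropy at least `c J` given every function which is closed at
the window `w`, on all large events of a class, then there are chains (of bounded length) of points
and (line, window) for which `Y` at the last point has this entropy given the first point, and
conversely.
-/

set_option autoImplicit false

namespace Pool.M3F

open Finset Real MvPolynomial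
open Pool.Agent.H49.Ent Pool.Agent.H32.Dense Pool.STK Pool.KA Pool.KSAT Pool.K2S Pool.KS3 Pool.PB
open Pool.GEN Pool.KM7 Pool.S6C

variable {m J : ℕ}

/-- Points on one line. -/
theorem X_step (F : Fam m J) {ω ω' : F.Ω} (h : F.l ω = F.l ω') (i : Fin m) :
    |((F.X J ω i - F.X J ω' i : ℤ) : ℝ)| ≤ 2 ^ J + 1 := by
  have p0 : (0 : ℝ) < 2 ^ J := by positivity
  have h1 : F.u ω = F.u ω' := (Prod.ext_iff.1 h).1
  have h2 : F.d ω = F.d ω' := (Prod.ext_iff.1 h).2
  have ht : ∀ ω, 0 ≤ F.t ω ∧ F.t ω ≤ 1 := fun ω => by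
    unfold Fam.t
    refine ⟨by positivity, ?_⟩
    rw [div_le_one p0]
    have := F.tim ω
    exact_mod_cast this.le
  have h3 : |F.x ω i - F.x ω' i| ≤ 1 := by
    have e1 : F.x ω i - F.x ω' i = (F.t ω - F.t ω') * F.d ω' i := by
      unfold Fam.x
      rw [h1, h2]
      ring
    rw [e1, abs_mul]
    have a1 : |F.t ω - F.t ω'| ≤ 1 := by
      rw [abs_le]
      constructor <;> linarith [(ht ω).1, (ht ω).2, (ht ω').1, (ht ω').2]
    have a2 := F.dir ω' i
    calc |F.t ω - F.t ω'| * |F.d ω' i| ≤ 1 * 1 :=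
          mul_le_mul a1 a2 (abs_nonneg _) zero_le_one
      _ = 1 := one_mul 1
  have e1 : F.X J ω i = ⌊(2 : ℝ) ^ J * F.x ω i⌋ := rfl
  have e2 : F.X J ω' i = ⌊(2 : ℝ) ^ J * F.x ω' i⌋ := rfl
  rw [e1, e2]
  push_cast
  have b1 := Int.floor_le ((2 : ℝ) ^ J * F.x ω i)
  have b2 := Int.lt_floor_add_one ((2 : ℝ) ^ J * F.x ω i)
  have b3 := Int.floor_le ((2 : ℝ) ^ J * F.x ω' i)
  have b4 := Int.lt_floor_add_one ((2 : ℝ) ^ J * F.x ω' i)
  have h4 : |(2 : ℝ) ^ J * F.x ω i - 2 ^ J * F.x ω' i| ≤ 2 ^ J := by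
    rw [← mul_sub, abs_mul, abs_of_pos p0]
    calc (2 : ℝ) ^ J * |F.x ω i - F.x ω' i| ≤ 2 ^ J * 1 := mul_le_mul_of_nonneg_left h3 p0.le
      _ = 2 ^ J := mul_one _
  rw [abs_le] at h4 ⊢
  constructor <;> linarith [h4.1, h4.2]

section

variable {F : Fam m J} {r : ℕ} {N : ℕ} {V : Type} [Fintype V] {p : F.Ω → ℝ} {q : V → ℝ}
  {o o' : ℕ → V → F.Ω} {l : ℕ → V → LnT F} {y : ℕ → V → PtT F}

/-- Points of the chain are close to the first point. -/
theorem chain_near (h : ChainAll p (slam F r) (Fam.pt F) N q o o' l y) {v : V} (hv : 0 < q v)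
    (j : Fin m) : ∀ i ≤ N, |(((y i v).1 j - (y 0 v).1 j : ℤ) : ℝ)| ≤ i * (2 ^ J + 1) := by
  intro i
  induction i with
  | zero =>
    intro _
    simp
  | succ i ih =>
    intro hi
    have h1 := h.start v hv i (by omega)
    have h2 := h.line v hv i (by omega)
    have h3 := h.line' v hv i (by omega)
    have h4 := h.stop v hv i (by omega)
    have h5 : F.l (o' i v) = F.l (o i v) := by
      have h6 : slam F r (o' i v) = slam F r (o i v) := h3.trans h2.symm
      exact (Prod.ext_iff.1 h6).1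
    have h6 := X_step F h5 j
    have e1 : (y (i + 1) v).1 = F.X J (o' i v) := by
      rw [← h4]
      rfl
    have e2 : (y i v).1 = F.X J (o i v) := by
      rw [← h1]
      rfl
    have h7 := ih (by omega)
    have e3 : (((y (i + 1) v).1 j - (y 0 v).1 j : ℤ) : ℝ) =
        ((F.X J (o' i v) j - F.X J (o i v) j : ℤ) : ℝ) + (((y i v).1 j - (y 0 v).1 j : ℤ) : ℝ) := by
      rw [e1, e2]
      push_cast
      ring
    have e4 : (((i + 1 : ℕ)) : ℝ) = i + 1 := by push_cast; ring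
    rw [e3, e4]
    refine (abs_add_le _ _).trans ?_
    have e5 : ((i : ℝ) + 1) * (2 ^ J + 1) = (2 ^ J + 1) + i * (2 ^ J + 1) := by ring
    rw [e5]
    exact add_le_add h6 h7

/-- The entropy of a point of the chain given another one. -/
theorem chain_ent (h : ChainAll p (slam F r) (Fam.pt F) N q o o' l y) :
    ∀ s ≤ N, ∀ k ≤ N, CH q (y s) (y k) ≤
      m * Real.log (16 * N + 1) + (m + 1) * (J * Real.log 2) := by
  intro s hs k hk
  have hq := h.isLaw
  have hq0 := hq.nonneg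
  have hZ : ∀ v, 0 < q v → ∀ i ≤ N, (y i v).2.2 = (y 0 v).2.2 := fun v hv i hi =>
    h.const (bx := fun x : PtT F => x.2.2) (bl := fun s : LnT F => s.2.1) (fun ω _ => rfl) hv i hi
  have a1 := CH_le_add hq0 (y s) (fun v => (y s v).2.1) (y k)
  have a2 : CH q (fun v => (y s v).2.1) (y k) ≤ J * Real.log 2 := by
    have h1 := CH_le_card hq0 hq.sum_one (fun v => (y s v).2.1) (y k)
      (fun _ => Finset.range (2 ^ J)) (by
        intro v hv
        rw [Finset.mem_range]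
        have h2 : law q (y s) (y s v) ≠ 0 := (law_pos hq0 (y s) hv).ne'
        rw [h.cell s hs] at h2
        have h3 : ∃ ω, Fam.pt F ω = y s v := by
          by_contra hcon
          push Not at hcon
          apply h2
          unfold law
          exact Finset.sum_eq_zero fun ω _ => if_neg (hcon ω)
        obtain ⟨ω, hω⟩ := h3
        rw [← hω]
        exact F.tim ω)
    rw [Finset.card_range, Ex_const hq.sum_one] at h1
    push_cast at h1
    rwa [Real.log_pow] at h1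
  have a3 : CH q (y s) (fun v => ((y s v).2.1, y k v)) ≤ CH q (fun v => (y s v).1) (y k) := by
    have h1 : CH q (y s) (fun v => ((y s v).2.1, y k v)) =
        CH q (fun v => (y s v).1) (fun v => ((y s v).2.1, y k v)) := by
      refine CH_congr hq0 ?_ ?_ (fun _ _ _ _ e => e) (fun _ _ _ _ e => e)
      · intro v v' _ _ e
        exact congrArg (fun x : PtT F => x.1) (Prod.ext_iff.1 e).1
      · intro v v' hv hv' e
        have e1 := Prod.ext_iff.1 e
        have e2 := Prod.ext_iff.1 e1.2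
        have e3 : (y s v).1 = (y s v').1 := e1.1
        have e4 : (y s v).2.1 = (y s v').2.1 := e2.1
        have e5 : y k v = y k v' := e2.2
        have e6 : (y s v).2.2 = (y s v').2.2 := by
          rw [hZ v hv s hs, hZ v' hv' s hs, ← hZ v hv k hk, ← hZ v' hv' k hk, e5]
        exact Prod.ext e3 (Prod.ext e4 e6)
    rw [h1]
    exact CH_mono_cond hq0 fun _ _ _ _ e => (Prod.ext_iff.1 e).2
  have hnear : ∀ v, 0 < q v → ∀ i ≤ N, ∀ j : Fin m,
      |(((y i v).1 j - (y 0 v).1 j : ℤ) : ℝ)| ≤ N * (2 ^ J + 1) := by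
    intro v hv i hi j
    refine (chain_near h hv j i hi).trans ?_
    have : (i : ℝ) ≤ N := by exact_mod_cast hi
    exact mul_le_mul_of_nonneg_right this (by positivity)
  have a4 := CH_le_vec hq0 hq.sum_one (fun v => (y s v).1) (y k)
    (fun _ => 4 * (N * ((2 : ℝ) ^ J + 1))) (by
      intro v v' hv hv' e j
      have b1 := hnear v hv s hs j
      have b2 := hnear v hv k hk j
      have b3 := hnear v' hv' s hs j
      have b4 := hnear v' hv' k hk j
      have b5 : (y k v).1 j = (y k v').1 j := by rw [e]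
      have b6 : ((((y s v).1 j - (y s v').1 j : ℤ)) : ℝ) =
          (((y s v).1 j - (y 0 v).1 j : ℤ) : ℝ) - (((y k v).1 j - (y 0 v).1 j : ℤ) : ℝ) +
          ((((y k v').1 j - (y 0 v').1 j : ℤ) : ℝ) - (((y s v').1 j - (y 0 v').1 j : ℤ) : ℝ)) := by
        rw [b5]
        push_cast
        ring
      rw [b6]
      rw [abs_le] at b1 b2 b3 b4 ⊢
      constructor <;> linarith [b1.1, b1.2, b2.1, b2.2, b3.1, b3.2, b4.1, b4.2])
  rw [Ex_const hq.sum_one] at a4
  have a5 : Real.log (2 * (4 * (N * ((2 : ℝ) ^ J + 1))) + 1) ≤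
      Real.log (16 * N + 1) + J * Real.log 2 := by
    rw [← Real.log_pow, ← Real.log_mul (by positivity) (by positivity)]
    refine Real.log_le_log (by positivity) ?_
    have p1 : (1 : ℝ) ≤ 2 ^ J := one_le_pow₀ one_le_two
    have p2 : (0 : ℝ) ≤ N := Nat.cast_nonneg N
    nlinarith
  have a6 : (m : ℝ) * Real.log (2 * (4 * (N * ((2 : ℝ) ^ J + 1))) + 1) ≤
      m * (Real.log (16 * N + 1) + J * Real.log 2) :=
    mul_le_mul_of_nonneg_left a5 (Nat.cast_nonneg m)
  have a7 : (m : ℝ) * (Real.log (16 * N + 1) + J * Real.log 2) =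
      m * Real.log (16 * N + 1) + m * (J * Real.log 2) := by ring
  have a8 : ((m : ℝ) + 1) * (J * Real.log 2) = m * (J * Real.log 2) + J * Real.log 2 := by ring
  rw [a8]
  linarith

end

theorem psh_of_marg {Ω E : Type} [Fintype Ω] [Fintype E] {p' : E → ℝ} {p : Ω → ℝ} {pr : E → Ω}
    (h : Marg p' p pr) : Psh p' pr p := by
  intro ω
  unfold law
  rw [← h ω]

/-- **MIX.** -/
theorem mix_class {S : PCl m}
    (hpos : ∀ (τ : ℝ) (J : ℕ) (F : Fam m J) (A : F.Ω → Prop), S.St τ J F A → 0 < Pe F.p A)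
    {w : ℝ} {β : Type} {Y : ∀ (J : ℕ) (F : Fam m J), F.Ω → β}
    (hY : ∀ (J : ℕ) (F : Fam m J) (ω ω' : F.Ω), Fam.pt F ω = Fam.pt F ω' →
      slam F ⌊w * J⌋₊ ω = slam F ⌊w * J⌋₊ ω' → Y J F ω = Y J F ω') {c ρ : ℝ} (hρ : 0 < ρ)
    (hex : ExvY S w Y c) :
    ∃ N₀ : ℕ, ∃ τ₀ : ℝ, 0 < τ₀ ∧ ∃ J₀ : ℕ, ∀ J ≥ J₀, ∀ (F : Fam m J) (A : F.Ω → Prop),
      S.St τ₀ J F A → IsLaw (Pool.Agent.H49.Ent.cond F.p A True) →
      ∃ N : ℕ, 1 ≤ N ∧ N ≤ N₀ ∧ ∃ (V : Type) (_ : Fintype V) (q : V → ℝ)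
        (o o' : ℕ → V → F.Ω) (l : ℕ → V → LnT F) (y : ℕ → V → PtT F),
        IsChain (Pool.Agent.H49.Ent.cond F.p A True) (slam F ⌊w * J⌋₊) (Fam.pt F) N q o o' l y ∧
        (c - ρ) * Real.log 2 * J ≤ CH q (fun v => Y J F (o' (N - 1) v))
          (fun v => (y 0 v, F.W (o' (N - 1) v))) ∧
        (c - ρ) * Real.log 2 * J ≤ CH q (fun v => Y J F (o 0 v))
          (fun v => (y N v, F.W (o 0 v))) := by
  classical
  obtain ⟨ε, hε, τ₀, hτ₀, J₀, hker⟩ := ker_class hpos hY hρ hex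
  have hl2 : 0 < Real.log 2 := Real.log_pos one_lt_two
  obtain ⟨N₀, hN₀⟩ := exists_nat_gt (8 * ((m + 1) * Real.log 2) / ε)
  have hN0 : (0 : ℝ) < N₀ := lt_of_le_of_lt (by positivity) hN₀
  have hN0' : 0 < N₀ := by exact_mod_cast hN0
  obtain ⟨J₁, hJ₁⟩ := exists_nat_gt (8 * (m * Real.log (16 * N₀ + 1)) / (N₀ * ε))
  refine ⟨N₀, τ₀, hτ₀, max J₀ J₁, fun J hJ F A hS hl => ?_⟩
  have hJ0 : J₀ ≤ J := (le_max_left _ _).trans hJ
  have hJ1 : (J₁ : ℝ) ≤ J := by exact_mod_cast (le_max_right J₀ J₁).trans hJ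
  obtain ⟨V, hV, q, o, o', l, y, hc⟩ := chn_all (Pool.Agent.H49.Ent.cond F.p A True)
    (slam F ⌊w * J⌋₊) (Fam.pt F) hl N₀
  have hq := hc.isLaw
  have hq0 := hq.nonneg
  obtain ⟨H₀, hH₀⟩ : ∃ H₀, H₀ = m * Real.log (16 * (N₀ : ℝ) + 1) +
    (m + 1) * (J * Real.log 2) := ⟨_, rfl⟩
  have hlog : 0 ≤ Real.log (16 * (N₀ : ℝ) + 1) := Real.log_nonneg (by linarith)
  have hH0 : 0 ≤ H₀ := by
    rw [hH₀]
    positivity
  obtain ⟨s, k, hsk, hk, hgood⟩ := hc.good hN0' hH0 (by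
    rw [hH₀]
    exact chain_ent hc)
  have hε' : 4 * H₀ / N₀ ≤ ε * J := by
    rw [div_le_iff₀ hN0, hH₀]
    rw [div_lt_iff₀ hε] at hN₀
    have h1 : 8 * (m * Real.log (16 * (N₀ : ℝ) + 1)) / (N₀ * ε) < J := hJ₁.trans_le hJ1
    rw [div_lt_iff₀ (by positivity)] at h1
    have h2 : 8 * (((m : ℝ) + 1) * Real.log 2) * J ≤ N₀ * ε * J :=
      mul_le_mul_of_nonneg_right hN₀.le (Nat.cast_nonneg J)
    nlinarith
  -- both terms are nonnegative
  have n1 : CH q (y s) (l (k - 1)) ≤ CH q (y s) (y k) := by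
    have h1 := hc.c2 s (k - 1) k (by omega) (by omega) hk
    unfold CI at h1
    rw [← h1]
    refine CH_mono_cond hq0 fun _ _ _ _ e => ?_
    exact (Prod.ext_iff.1 (Prod.ext_iff.1 e).1).2
  have n2 : CH q (y k) (l s) ≤ CH q (y k) (y s) := by
    have h1 := hc.c3 s k hsk hk
    unfold CI at h1
    rw [← h1]
    exact CH_mono_cond hq0 fun _ _ _ _ e => (Prod.ext_iff.1 e).1
  have hk1 : k - 1 + 1 = k := by omega
  have hst : ∀ v, 0 < q v → Fam.pt F (o' (k - 1) v) = y k v := fun v hv => by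
    have := hc.stop v hv (k - 1) (by omega)
    rwa [hk1] at this
  have hli : ∀ v, 0 < q v → slam F ⌊w * J⌋₊ (o' (k - 1) v) = l (k - 1) v := fun v hv =>
    hc.line' v hv (k - 1) (by omega)
  have hst2 : ∀ v, 0 < q v → Fam.pt F (o s v) = y s v := fun v hv =>
    hc.start v hv s (by omega)
  have hli2 : ∀ v, 0 < q v → slam F ⌊w * J⌋₊ (o s v) = l s v := fun v hv =>
    hc.line v hv s (by omega)
  -- the two kernels
  have k1 : Ker (F.res A True hl) ⌊w * J⌋₊ q (o' (k - 1)) (y s) := by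
    refine ⟨hq, psh_of_marg (hc.marg' (k - 1) (by omega)), ?_⟩
    have h1 := hc.c2 s (k - 1) k (by omega) (by omega) hk
    have h2 : CI q (y s) (y k) (l (k - 1)) := h1.mono_right hq0 (by
      intro v v' _ _ e
      exact (Prod.ext_iff.1 (Prod.ext_iff.1 e).1).2)
    exact h2.replace hq0 (fun _ _ => rfl) (fun v hv => (hst v hv).symm)
      (fun v hv => (hli v hv).symm)
  have k2 : Ker (F.res A True hl) ⌊w * J⌋₊ q (o s) (y k) := by
    refine ⟨hq, psh_of_marg (hc.marg s (by omega)), ?_⟩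
    have h2 : CI q (y k) (y s) (l s) := hc.c3 s k hsk hk
    exact h2.replace hq0 (fun _ _ => rfl) (fun v hv => (hst2 v hv).symm)
      (fun v hv => (hli2 v hv).symm)
  have c1 : ∀ {T : Type} (K : V → T) {β : Type} {X X' : V → β}, (∀ v, 0 < q v → X v = X' v) →
      CH q K X = CH q K X' := by
    intro T K β X X' hX
    refine CH_congr hq0 (fun _ _ _ _ e => (Prod.ext_iff.1 e).1)
      (fun _ _ _ _ e => (Prod.ext_iff.1 e).1) ?_ ?_
    · intro v v' hv hv' e
      rw [← hX v hv, ← hX v' hv']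
      exact e
    · intro v v' hv hv' e
      rw [hX v hv, hX v' hv']
      exact e
  have r1 := hker J hJ0 F A hS hl V (PtT F) hV q (o' (k - 1)) (y s) k1 (by
    rw [c1 (y s) (X := fun e => Fam.pt F (o' (k - 1) e)) hst,
      c1 (y s) (X := fun e => slam F ⌊w * J⌋₊ (o' (k - 1) e)) hli]
    linarith)
  have r2 := hker J hJ0 F A hS hl V (PtT F) hV q (o s) (y k) k2 (by
    rw [c1 (y k) (X := fun e => Fam.pt F (o s e)) hst2,
      c1 (y k) (X := fun e => slam F ⌊w * J⌋₊ (o s e)) hli2]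
    linarith)
  have hsub := hc.sub (s := s) (k := k - s) (by omega)
  refine ⟨k - s, by omega, by omega, V, hV, q, fun i => o (s + i), fun i => o' (s + i),
    fun i => l (s + i), fun i => y (s + i), hsub, ?_, ?_⟩
  · have e1 : s + (k - s - 1) = k - 1 := by omega
    simp only [e1, Nat.add_zero]
    exact r1
  · have e1 : s + (k - s) = k := by omega
    simp only [e1, Nat.add_zero]
    exact r2

/-- **MIX**, exactness up to a small loss. -/
theorem mix_class_s {S : PCl m}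
    (hpos : ∀ (τ : ℝ) (J : ℕ) (F : Fam m J) (A : F.Ω → Prop), S.St τ J F A → 0 < Pe F.p A)
    {w : ℝ} {β : Type} {Y : ∀ (J : ℕ) (F : Fam m J), F.Ω → β}
    (hY : ∀ (J : ℕ) (F : Fam m J) (ω ω' : F.Ω), Fam.pt F ω = Fam.pt F ω' →
      slam F ⌊w * J⌋₊ ω = slam F ⌊w * J⌋₊ ω' → Y J F ω = Y J F ω') {c ρ : ℝ} (hρ : 0 < ρ)
    (hex : ∀ ρ' : ℝ, 0 < ρ' → ExvY S w Y (c - ρ')) :
    ∃ N₀ : ℕ, ∃ τ₀ : ℝ, 0 < τ₀ ∧ ∃ J₀ : ℕ, ∀ J ≥ J₀, ∀ (F : Fam m J) (A : F.Ω → Prop),
      S.St τ₀ J F A → IsLaw (Pool.Agent.H49.Ent.cond F.p A True) →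
      ∃ N : ℕ, 1 ≤ N ∧ N ≤ N₀ ∧ ∃ (V : Type) (_ : Fintype V) (q : V → ℝ)
        (o o' : ℕ → V → F.Ω) (l : ℕ → V → LnT F) (y : ℕ → V → PtT F),
        IsChain (Pool.Agent.H49.Ent.cond F.p A True) (slam F ⌊w * J⌋₊) (Fam.pt F) N q o o' l y ∧
        (c - ρ) * Real.log 2 * J ≤ CH q (fun v => Y J F (o' (N - 1) v))
          (fun v => (y 0 v, F.W (o' (N - 1) v))) ∧
        (c - ρ) * Real.log 2 * J ≤ CH q (fun v => Y J F (o 0 v))
          (fun v => (y N v, F.W (o 0 v))) := by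
  have h1 := mix_class hpos hY (half_pos hρ) (hex (ρ / 2) (half_pos hρ))
  have e1 : c - ρ / 2 - ρ / 2 = c - ρ := by ring
  rw [e1] at h1
  exact h1

end Pool.M3F
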