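import Pool.Agent.H5.M3F.Tim
import Pool.Agent.H5.M3F.MixC
import Pool.Agent.H90.STAT.FulF
import Pool.Agent.H37.STPA.Reg2

/-!
# Entropies of the natural digits along chains

Upper and lower bounds for the entropy of the natural digits of a point, given its label, given the
other end of a chain; the entropy of the digits of the time given the line.
-/

set_option autoImplicit false

namespace Pool.M3F

open Finset Real MvPolynomial
open Pool.Agent.H49.Ent Pool.Agent.H32.Dense Pool.STK Pool.KA Pool.KSAT Pool.K2S Pool.KS3 Pool.PB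
  Pool.STAT Pool.GEN Pool.STAT.Ful
open Pool.FLF (Fam.sub)

variable {m J : ℕ}

theorem log_five (n : ℕ) : Real.log (2 * (2 * 2 ^ n) + 1) ≤ (n : ℝ) * Real.log 2 + Real.log 5 := by
  have p1 : (1 : ℝ) ≤ 2 ^ n := one_le_pow₀ (by norm_num)
  rw [← Real.log_pow, ← Real.log_mul (by positivity) (by norm_num)]
  refine Real.log_le_log (by positivity) ?_
  linarith

theorem floor_pm {x : ℝ} {n : ℕ} (h : |x| ≤ 2 ^ n) : |((⌊x⌋ : ℤ) : ℝ)| ≤ 2 ^ n := by
  rw [abs_le] at h ⊢
  constructor
  · have h1 : (-(2 ^ n : ℤ)) ≤ ⌊x⌋ := by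
      rw [Int.le_floor]
      push_cast
      exact h.1
    exact_mod_cast h1
  · exact (Int.floor_le x).trans h.2

/-- **The natural digits: upper bound.** -/
theorem nd_le {F : Fam m J} {E Γ V : Type} [Fintype E] {q : E → ℝ} (hq : IsLaw q) (c : ℕ → Fin m)
    {r : ℕ} (pr : E → F.Ω) (Z : E → Γ) (G : V → ℕ → PN) (v : E → V) (D wd : ℕ → ℕ)
    (hD : ∀ i ≤ r, wd i ≤ D i)
    (hb : ∀ e, 0 < q e → ∀ i ≤ r, |px c (ptr F J (pr e)) i -
      eval (px c (ptr F J (pr e))) (G (v e) i)| ≤ 1 / 2 ^ wd i) :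
    CH q (fun e (i : Fin (r + 1)) =>
        ⌊(2 : ℝ) ^ D i * (px c (ptr F J (pr e)) i - eval (px c (ptr F J (pr e))) (G (v e) i))⌋) Z ≤
      ∑ i ∈ range (r + 1), (((D i - wd i : ℕ) : ℝ) * Real.log 2 + Real.log 5) := by
  have h0 : ∀ e, 0 < q e → ∀ i : Fin (r + 1), |((⌊(2 : ℝ) ^ D i * (px c (ptr F J (pr e)) i -
      eval (px c (ptr F J (pr e))) (G (v e) i))⌋ : ℤ) : ℝ)| ≤ 2 ^ (D i - wd i) := by
    intro e he i
    refine floor_pm ?_
    have hi : (i : ℕ) ≤ r := by have := i.2; omega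
    have h1 := hb e he i hi
    have p1 : (0 : ℝ) < 2 ^ D i := by positivity
    rw [abs_mul, abs_of_pos p1]
    calc (2 : ℝ) ^ D i * |px c (ptr F J (pr e)) i - eval (px c (ptr F J (pr e))) (G (v e) i)| ≤
          2 ^ D i * (1 / 2 ^ wd i) := mul_le_mul_of_nonneg_left h1 p1.le
      _ = 2 ^ (D i - wd i) := by
        have h2 : (2 : ℝ) ^ D i = 2 ^ (D i - wd i) * 2 ^ wd i := by
          rw [← pow_add, Nat.sub_add_cancel (hD i hi)]
        rw [h2]
        field_simp
  have h1 := Ful.ch_vec hq (fun e (i : Fin (r + 1)) =>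
    ⌊(2 : ℝ) ^ D i * (px c (ptr F J (pr e)) i - eval (px c (ptr F J (pr e))) (G (v e) i))⌋) Z
    (fun i => 2 * 2 ^ (D i - wd i)) (by
      intro i e e' he he' _ _
      have h2 := h0 e he i
      have h3 := h0 e' he' i
      push_cast
      rw [abs_le] at h2 h3 ⊢
      constructor <;> linarith [h2.1, h2.2, h3.1, h3.2])
  exact h1.trans (Finset.sum_le_sum fun i _ => log_five _)

section chain

variable {F : Fam m J} {W N : ℕ} {V : Type} [Fintype V] {p : F.Ω → ℝ} {q : V → ℝ}
  {o o' : ℕ → V → F.Ω} {l : ℕ → V → LnT F} {y : ℕ → V → PtT F}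

/-- Functions of the last point, given the first one. -/
theorem chain_fn (h : IsChain p (slam F W) (Fam.pt F) N q o o' l y) (hN : 1 ≤ N) {S : Type}
    (f : PtT F → S) : CH p (fun ω => f (Fam.pt F ω)) (slam F W) ≤
      CH q (fun v => f (Fam.pt F (o' (N - 1) v))) (y 0) := by
  have hq0 := h.isLaw.nonneg
  have hN1 : N - 1 + 1 = N := by omega
  have h1 : CI q (y 0) (y N) (l (N - 1)) := by
    have h2 := h.ci2 (N - 1) (by omega)
    rw [hN1] at h2
    unfold CI
    rw [← h2]
    refine CH_congr hq0 (fun _ _ _ _ h => (Prod.ext_iff.mp h).1)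
      (fun _ _ _ _ h => (Prod.ext_iff.mp h).1) ?_ ?_ <;>
    · intro ω ω' _ _ h
      simp only [Prod.mk.injEq] at h ⊢
      tauto
  have h2 : CI q (y 0) (fun v => f (Fam.pt F (o' (N - 1) v)))
      (fun v => slam F W (o' (N - 1) v)) := by
    have h3 : CI q (y 0) (fun v => f (y N v)) (l (N - 1)) :=
      h1.mono_right hq0 fun ω ω' _ _ e => congrArg f (Prod.ext_iff.1 e).1
    refine h3.replace hq0 (fun _ _ => rfl) (fun v hv => ?_) (fun v hv => ?_)
    · have := h.stop v hv (N - 1) (by omega)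
      rw [hN1] at this
      rw [this]
    · exact (h.line' v hv (N - 1) (by omega)).symm
  have h3 := h2.symm hq0
  unfold CI at h3
  have h4 : CH q (fun v => f (Fam.pt F (o' (N - 1) v))) (fun v => slam F W (o' (N - 1) v)) =
      CH p (fun ω => f (Fam.pt F ω)) (slam F W) :=
    (h.marg' (N - 1) (by omega)).CH (fun ω => f (Fam.pt F ω)) (slam F W)
  rw [← h4, ← h3]
  exact CH_mono_cond hq0 fun _ _ _ _ e => (Prod.ext_iff.1 e).1

/-- Functions of the first point, given the last one. -/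
theorem chain_fn' (h : IsChain p (slam F W) (Fam.pt F) N q o o' l y) (hN : 1 ≤ N) {S : Type}
    (f : PtT F → S) : CH p (fun ω => f (Fam.pt F ω)) (slam F W) ≤
      CH q (fun v => f (Fam.pt F (o 0 v))) (y N) := by
  have hq0 := h.isLaw.nonneg
  have h1 : CI q (y N) (y 0) (l 0) := h.ci3 0 (by omega)
  have h2 : CI q (y N) (fun v => f (Fam.pt F (o 0 v))) (fun v => slam F W (o 0 v)) := by
    have h3 : CI q (y N) (fun v => f (y 0 v)) (l 0) :=
      h1.mono_right hq0 fun ω ω' _ _ e => congrArg f (Prod.ext_iff.1 e).1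
    refine h3.replace hq0 (fun _ _ => rfl) (fun v hv => ?_) (fun v hv => ?_)
    · have := h.start v hv 0 (by omega)
      rw [this]
    · exact (h.line v hv 0 (by omega)).symm
  have h3 := h2.symm hq0
  unfold CI at h3
  have h4 : CH q (fun v => f (Fam.pt F (o 0 v))) (fun v => slam F W (o 0 v)) =
      CH p (fun ω => f (Fam.pt F ω)) (slam F W) :=
    (h.marg 0 (by omega)).CH (fun ω => f (Fam.pt F ω)) (slam F W)
  rw [← h4, ← h3]
  exact CH_mono_cond hq0 fun _ _ _ _ e => (Prod.ext_iff.1 e).1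

/-- Closed functions are constant along a chain. -/
theorem chain_const (h : IsChain p (slam F W) (Fam.pt F) N q o o' l y) {β : Type} {bx : PtT F → β}
    {bl : LnT F → β} (hb : ∀ ω, 0 < p ω → bx (Fam.pt F ω) = bl (slam F W ω)) {v : V}
    (hv : 0 < q v) : ∀ i ≤ N, bx (y i v) = bx (y 0 v) := by
  have hq0 := h.isLaw.nonneg
  intro i
  induction i with
  | zero => exact fun _ => rfl
  | succ i ih =>
    intro hi
    rw [← ih (by omega)]
    have h1 := h.start v hv i (by omega)
    have h2 := h.line v hv i (by omega)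
    have h3 := h.line' v hv i (by omega)
    have h4 := h.stop v hv i (by omega)
    have h5 : 0 < p (o i v) := (h.marg i (by omega)).pos hq0 hv
    have h6 : 0 < p (o' i v) := (h.marg' i (by omega)).pos hq0 hv
    rw [← h4, ← h1, hb _ h6, hb _ h5, h2, h3]

end chain

end Pool.M3F
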