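import Pool.Agent.H5.M3F.Gr

/-!
# Derivatives of closed polynomials in the directions of the coordinates

`grad_v`: the closed polynomials `P` are near the point side of a chain; the derivatives of the
point side on the natural box are bounded. Then so are the derivatives of `P` on dilated boxes.
-/

set_option autoImplicit false

namespace Pool.M3F

open Finset Real MvPolynomial
open Pool.Agent.H49.Ent Pool.Agent.H32.Dense Pool.STK Pool.KA Pool.KSAT Pool.K2S Pool.PB Pool.GEN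
open Pool.STAT Pool.STAT.CLO

/-- **The derivatives of the closed polynomials** in the directions of the coordinates. -/
theorem grad_v (n K K' s₀ : ℕ) (hK' : 1 ≤ K') (ρ : ℝ) (hρ : 1 ≤ ρ) : ∃ C₀ : ℝ, 1 ≤ C₀ ∧
    ∀ (m J : ℕ) (F : Fam m J) (c : ℕ → Fin m) (a : ℕ) (g : ℕ → ℕ) (E v : ℕ)
    (G : ℕ → MvPolynomial (Option (Fin m)) ℝ) (P : ℕ → PN) (ω : F.Ω), a ≤ J → Inj c n →
    (∀ i < n, (G i).totalDegree ≤ K) → (∀ i, DepC c i (G i)) →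
    (∀ i < n, ∀ b : Option (Fin m) → ℝ, NBx c G g a (F.t ω) i b → ∀ l < i,
      |eval b (pderiv (some (c l)) (G i))| ≤ 2 ^ E) →
    (∀ i, (P i).vars ⊆ range i) → (∀ i, (P i).totalDegree ≤ K') →
    Nr K' (2 ^ s₀) (gg a g) P (sy c n ((F.T1 a ω : ℝ) / 2 ^ a) G) (n + 1) →
    (∀ l i, l ≤ i → i < n → g l ≤ g i + v) →
    ∀ b : ℕ → ℝ, Bxr ρ (gg a g) P n b → ∀ i ≤ n, ∀ l, 1 ≤ l → l < i →
    |eval b (pderiv l (P i))| ≤ C₀ * 2 ^ (E + v) := by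
  obtain ⟨K₂, hK₂⟩ : ∃ K₂, K₂ = max K K' := ⟨_, rfl⟩
  obtain ⟨C₁, hC₁, hdil⟩ := dil n K₂
  obtain ⟨C₂, hC₂, hpd⟩ := pd_nat n K₂
  obtain ⟨K₁, hK₁⟩ : ∃ K₁, K₁ = K₂ * (K₂ + 1) ^ (n + 1) := ⟨_, rfl⟩
  rw [← hK₁] at hdil hpd
  obtain ⟨M, hM⟩ := cc_le K' n
  have hK1 : (1 : ℝ) ≤ K' := by exact_mod_cast hK'
  have hs1 : (1 : ℝ) ≤ 2 ^ s₀ := one_le_pow₀ (by norm_num)
  obtain ⟨Θ, hΘ⟩ : ∃ Θ : ℝ, Θ = 2 * K' * 2 ^ s₀ * ρ := ⟨_, rfl⟩
  have hΘ1 : 1 ≤ Θ := by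
    rw [hΘ]
    have h1 : (1 : ℝ) ≤ 2 * K' := by linarith
    have h2 : (1 : ℝ) ≤ 2 * K' * 2 ^ s₀ := by nlinarith
    nlinarith
  obtain ⟨ρ₁, hρ₁⟩ : ∃ ρ₁ : ℝ, ρ₁ = Θ ^ M := ⟨_, rfl⟩
  have hρ₁1 : 1 ≤ ρ₁ := by
    rw [hρ₁]
    exact one_le_pow₀ hΘ1
  obtain ⟨S, hS⟩ : ∃ S : ℝ, S = (K' * 2 ^ s₀ * 1) ^ K' := ⟨_, rfl⟩
  have hS0 : 0 ≤ S := by
    rw [hS]
    positivity
  obtain ⟨L₁, hL₁⟩ : ∃ L₁ : ℝ, L₁ = C₁ * (ρ₁ + 1) ^ K₁ := ⟨_, rfl⟩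
  have hL₁0 : 0 ≤ L₁ := by
    rw [hL₁]
    positivity
  refine ⟨L₁ + C₂ * S * ρ₁ ^ K₁ * (1 + L₁) + 1, by
    have : 0 ≤ C₂ * S * ρ₁ ^ K₁ * (1 + L₁) := by positivity
    linarith, ?_⟩
  intro m J F c a g E v G P ω ha hc hGK hdep hlip hPv hPd hNr hsort b hb i hi l hl1 hl
  obtain ⟨Ψ, hΨ⟩ : ∃ Ψ, Ψ = sy c n ((F.T1 a ω : ℝ) / 2 ^ a) G := ⟨_, rfl⟩
  rw [← hΨ] at hNr
  have hΨt : TriN Ψ := by
    rw [hΨ]
    exact sy_tri
  have hΨd : ∀ j, (Ψ j).totalDegree ≤ K₂ := fun j => by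
    rw [hΨ]
    exact (sy_deg hGK j).trans (by rw [hK₂]; exact le_max_left _ _)
  -- the boxes
  have box1 : ∀ j ≤ n, Bxr ρ₁ (gg a g) Ψ j b := by
    intro j hj
    have h1 := Nr.box hK' hs1 (hNr.mono (show n ≤ n + 1 by omega)) hρ hb j hj
    refine h1.mono ?_ le_rfl
    rw [hρ₁, hΘ]
    rw [hΘ] at hΘ1
    exact pow_le_pow_right₀ hΘ1 (hM j hj)
  have box2 : ∀ j ≤ n, Bxr (ρ₁ + 1) (gg a g) (sy c n (F.t ω) G) j b := by
    intro j hj l' hl'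
    have h1 := box1 j hj l' hl'
    rcases Nat.eq_zero_or_pos l' with rfl | hl0
    · rw [hΨ, sy_zero, eval_C] at h1
      rw [sy_zero, eval_C]
      have h3 : gg a g 0 = a := if_pos rfl
      rw [h3] at h1 ⊢
      have h2 := t_cell F ha ω
      have h5 : (ρ₁ + 1) / 2 ^ a = ρ₁ / 2 ^ a + 1 / 2 ^ a := by ring
      rw [h5]
      rw [abs_le] at h1 h2 ⊢
      constructor <;> linarith [h1.1, h1.2, h2.1, h2.2]
    · obtain ⟨l', rfl⟩ : ∃ j', l' = j' + 1 := ⟨l' - 1, by omega⟩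
      rw [hΨ, sy_succ (by omega)] at h1
      rw [sy_succ (by omega)]
      exact h1.trans (div_le_div_of_nonneg_right (by linarith) (by positivity))
  -- the derivatives of the point side
  have hpt : ∀ j ≤ n, ∀ l, 1 ≤ l → l < j → |eval b (pderiv l (Ψ j))| ≤ L₁ * 2 ^ E := by
    intro j hj l hl1 hl
    obtain ⟨j, rfl⟩ : ∃ j', j = j' + 1 := ⟨j - 1, by omega⟩
    obtain ⟨l, rfl⟩ : ∃ l', l = l' + 1 := ⟨l - 1, by omega⟩
    have h3 : Ψ (j + 1) = tr c j (G j) := by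
      rw [hΨ]
      exact sy_succ (by omega)
    have h4 : ∀ b : ℕ → ℝ, Bxr 1 (gg a g) (sy c n (F.t ω) G) (j + 1) b →
        |eval b (pderiv (l + 1) (tr c j (G j)))| ≤ 2 ^ E := by
      intro b hb
      have h5 := nbx_of_bxr hc hdep (by omega) hb
      have h6 := hlip j (by omega) _ h5 l (by omega)
      rw [pd_tr hc (by omega) (by omega)]
      unfold tr
      rw [AdxRow.evl_bnd]
      exact h6
    rw [h3]
    refine (hdil (sy c n (F.t ω) G) (gg a g) (pderiv (l + 1) (tr c j (G j))) (j + 1) (2 ^ E)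
      (ρ₁ + 1) sy_tri (fun i => (sy_deg hGK i).trans (by rw [hK₂]; exact le_max_left _ _)) hj
      ((NEAR.vars_pd _ _).trans (tr_vars _ _ _))
      (NEAR.deg_pd ((tr_deg _ _ _).trans ((hGK j (by omega)).trans
        (by rw [hK₂]; exact le_max_left _ _))) _) (by linarith) h4 b
        (box2 (j + 1) hj)).trans (le_of_eq ?_)
    rw [hL₁]
    ring
  -- the difference
  obtain ⟨i, rfl⟩ : ∃ i', i = i' + 1 := ⟨i - 1, by omega⟩
  have hF : ∀ b : ℕ → ℝ, Bxr 1 (gg a g) Ψ (i + 1) b →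
      |eval b (P (i + 1) - Ψ (i + 1))| ≤ S / 2 ^ g i := by
    intro b hb
    have h3 := hNr.2 (i + 1) (by omega) (by omega) 1 le_rfl b hb
    have h4 : gg a g (i + 1) = g i := if_neg (by omega)
    rw [h4, ← hS] at h3
    rw [map_sub]
    exact h3
  have h5 := hpd Ψ (gg a g) (P (i + 1) - Ψ (i + 1)) (i + 1) (S / 2 ^ g i) (L₁ * 2 ^ E) ρ₁
    (g i + v) l b hΨt hΨd hi (AdxRow.vars_sub_le (hPv _) (hΨt _))
    ((totalDegree_sub _ _).trans (max_le ((hPd _).trans (by rw [hK₂]; exact le_max_right _ _))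
      (hΨd _))) hF hρ₁1 (box1 (i + 1) hi) (by positivity)
    (fun j h1 h2 => hpt j (by omega) l hl1 h1) (fun j h1 h2 => by
      have h4 : gg a g j = g (j - 1) := if_neg (by omega)
      rw [h4]
      exact hsort (j - 1) i (by omega) (by omega))
  have h6 := hpt (i + 1) hi l hl1 hl
  have h7 : |eval b (pderiv l (P (i + 1)))| ≤ |eval b (pderiv l (Ψ (i + 1)))| +
      |eval b (pderiv l (P (i + 1) - Ψ (i + 1)))| := by
    have h8 : eval b (pderiv l (P (i + 1))) = eval b (pderiv l (Ψ (i + 1))) +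
        eval b (pderiv l (P (i + 1) - Ψ (i + 1))) := by
      rw [map_sub, map_sub]
      ring
    rw [h8]
    exact abs_add_le _ _
  refine h7.trans ((add_le_add h6 h5).trans ?_)
  have p1 : (0 : ℝ) < 2 ^ g i := by positivity
  have pE : (1 : ℝ) ≤ 2 ^ E := one_le_pow₀ (by norm_num)
  have pv : (1 : ℝ) ≤ 2 ^ v := one_le_pow₀ (by norm_num)
  have h9 : C₂ * (S / 2 ^ g i) * ρ₁ ^ K₁ * 2 ^ (g i + v) * (1 + L₁ * 2 ^ E) =
      C₂ * S * ρ₁ ^ K₁ * 2 ^ v * (1 + L₁ * 2 ^ E) := by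
    rw [pow_add]
    field_simp
  rw [h9]
  have h10 : L₁ * 2 ^ E ≤ L₁ * 2 ^ (E + v) := by
    refine mul_le_mul_of_nonneg_left ?_ hL₁0
    exact pow_le_pow_right₀ (by norm_num) (Nat.le_add_right _ _)
  have h11 : 1 + L₁ * 2 ^ E ≤ (1 + L₁) * 2 ^ E := by nlinarith
  have h12 : C₂ * S * ρ₁ ^ K₁ * 2 ^ v * (1 + L₁ * 2 ^ E) ≤
      C₂ * S * ρ₁ ^ K₁ * 2 ^ v * ((1 + L₁) * 2 ^ E) :=
    mul_le_mul_of_nonneg_left h11 (by positivity)
  have h13 : C₂ * S * ρ₁ ^ K₁ * 2 ^ v * ((1 + L₁) * 2 ^ E) =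
      C₂ * S * ρ₁ ^ K₁ * (1 + L₁) * 2 ^ (E + v) := by
    rw [pow_add]
    ring
  have h14 : (0 : ℝ) ≤ 2 ^ (E + v) := by positivity
  linarith

end Pool.M3F
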