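import Pool.Agent.H37.M3F.Fam

/-!
# Jets on a leaf
-/

set_option autoImplicit false

namespace Pool.M3F

open Finset Real MvPolynomial
open Pool.STAT

/-- **Jets of a polynomial on a leaf**: the variables are `0, …, r + 1`; the leaf is the graph of
`P (r + 1)` over the natural box of the variables `0, …, r`. The polynomial `Q` has degree at most
`D`, it is at most `ρ S` on the leaf, where `S` is the maximum of its derivative in the direction of
the last variable, and the higher derivatives are at most `ρ ^ (1 - k) S`. -/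
structure Jet (r D : ℕ) (wd : ℕ → ℕ) (P : ℕ → PN) (Q : PN) (ρ S : ℝ) : Prop where
  deg : Q.totalDegree ≤ D
  vars : Q.vars ⊆ range (r + 2)
  pos : 0 < S
  att : ∃ b : ℕ → ℝ, CLO.Bxr 2 wd P (r + 1) b ∧
    |eval (lfpt r P b) (pderiv (r + 1) Q)| = S
  jet : ∀ b : ℕ → ℝ, CLO.Bxr 2 wd P (r + 1) b → ∀ k : ℕ,
    ρ ^ k * |eval (lfpt r P b) ((fun R : PN => pderiv (r + 1) R)^[k] Q)| ≤ ρ * S

end Pool.M3F
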