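import Pool.Agent.H5.M3F.Crs
import Pool.Agent.H54.GN.Lb
import Pool.Agent.H15.KM7.Ops
import Pool.Agent.H99.FLF.SUP

/-!
# Kernel labels of a family

A kernel of a family is a random variable `A` on a copy of the family, which is independent of the
point given the line. If the density of its law given the line against its law given the point is at
most `exp c` on an event `B`, then everything which the family with the side information `A` has on
`B`, the family itself has on an event of probability `exp (-c) * P(B) / 4`: labels (`Ker.lb`),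
labels of any kind (`Ker.gen`), entropies (`Ker.ent`).
-/

set_option autoImplicit false

namespace Pool.M3F

open Finset Real MvPolynomial
open Pool.Agent.H49.Ent Pool.Agent.H32.Dense Pool.STK Pool.KA Pool.KSAT Pool.K2S Pool.KS3 Pool.PB
open Pool.GEN Pool.KM7

variable {m J : ℕ}

/-- **A kernel of a family**: a variable `A` on a copy, independent of the point given the line
and the window of length `2 ^ (-w)`. -/
structure Ker (F : Fam m J) (w : ℕ) {E α : Type} [Fintype E] (q : E → ℝ) (pr : E → F.Ω)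
    (A : E → α) : Prop where
  isLaw : IsLaw q
  psh : Psh q pr F.p
  ci : CI q A (fun e => Fam.pt F (pr e)) (fun e => slam F w (pr e))

/-- The density of `A` given the line against `A` given the point is at most `exp c`. -/
def Dn (F : Fam m J) (w : ℕ) {E α : Type} [Fintype E] (q : E → ℝ) (pr : E → F.Ω) (A : E → α)
    (c : ℝ) (e : E) : Prop :=
  law (Pool.Agent.H49.Ent.cond q (fun e => slam F w (pr e)) (slam F w (pr e))) A (A e) ≤
    Real.exp c * law (Pool.Agent.H49.Ent.cond q (fun e => Fam.pt F (pr e)) (Fam.pt F (pr e))) A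
      (A e)

/-- **A selection**: a function `f` of the point and a function `g` of the line and of the window
which agree on `C`, and the samples in `C` are in `B` with this value of the kernel. -/
structure Sel (F : Fam m J) (w : ℕ) {E α : Type} (q : E → ℝ) (pr : E → F.Ω) (A : E → α)
    (B : E → Prop) (f : PtT F → α) (g : LnT F → α) (C : F.Ω → Prop) : Prop where
  eq : ∀ ω, C ω → f (Fam.pt F ω) = g (slam F w ω)
  ex : ∀ ω, C ω → ∃ e, 0 < q e ∧ B e ∧ Fam.pt F (pr e) = Fam.pt F ω ∧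
    slam F w (pr e) = slam F w ω ∧ A e = f (Fam.pt F ω)

theorem psh_Pe {Ω E : Type} [Fintype Ω] [Fintype E] {p : Ω → ℝ} {q : E → ℝ} {pr : E → Ω}
    (h : Psh q pr p) (C : Ω → Prop) : Pe q (fun e => C (pr e)) = Pe p C := by
  classical
  have h1 := h.Ex_eq (fun ω => if C ω then (1 : ℝ) else 0)
  unfold Ex at h1
  rw [K2S.Pe_eq, K2S.Pe_eq]
  refine Eq.trans (Finset.sum_congr rfl fun e _ => ?_) (h1.trans (Finset.sum_congr rfl
    fun ω _ => ?_)) <;>
  · simp only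
    split_ifs <;> simp

section

variable {F : Fam m J} {w : ℕ} {E α : Type} [Fintype E] {q : E → ℝ} {pr : E → F.Ω} {A : E → α}

/-- **Selections exist.** -/
theorem Ker.sel (h : Ker F w q pr A) {c : ℝ} (hc : 0 ≤ c) (B : E → Prop)
    (hB : ∀ e, 0 < q e → B e → Dn F w q pr A c e) :
    ∃ (f : PtT F → α) (g : LnT F → α) (C : F.Ω → Prop),
      Sel F w q pr A B f g C ∧ Real.exp (-c) * Pe q B / 4 ≤ Pe F.p C := by
  classical
  obtain ⟨f, g, hfg⟩ := ker_ev h.isLaw h.ci hc B (ρ := Pe q B) (by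
    rw [K2S.Pe_eq, K2S.Pe_eq]
    refine Finset.sum_le_sum fun e _ => ?_
    by_cases h1 : B e
    · rw [if_pos h1]
      rcases (h.isLaw.nonneg e).eq_or_lt with h0 | h0
      · rw [← h0, ite_self]
      · rw [if_pos ⟨h1, hB e h0 h1⟩]
    · rw [if_neg h1]
      split_ifs
      · exact h.isLaw.nonneg e
      · exact le_rfl)
  refine ⟨f, g, fun ω => f (Fam.pt F ω) = g (slam F w ω) ∧ ∃ e, 0 < q e ∧ B e ∧
    Fam.pt F (pr e) = Fam.pt F ω ∧ slam F w (pr e) = slam F w ω ∧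
    A e = f (Fam.pt F ω), ⟨fun ω hω => hω.1, fun ω hω => hω.2⟩, ?_⟩
  refine hfg.trans (le_of_eq ?_)
  exact psh_Pe h.psh (fun ω => f (Fam.pt F ω) = g (slam F w ω) ∧ ∃ e, 0 < q e ∧ B e ∧
    Fam.pt F (pr e) = Fam.pt F ω ∧ slam F w (pr e) = slam F w ω ∧
    A e = f (Fam.pt F ω))

omit [Fintype E] in
theorem pt_eq {ω ω' : F.Ω} (h : Fam.pt F ω = Fam.pt F ω') :
    F.X J ω = F.X J ω' ∧ F.T ω = F.T ω' ∧ F.Z ω = F.Z ω' := by
  have h1 := Prod.ext_iff.1 h
  have h2 := Prod.ext_iff.1 h1.2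
  exact ⟨h1.1, h2.1, h2.2⟩

omit [Fintype E] in
/-- Everything is a function of the point and of the line. -/
theorem ptl_eq {ω ω' : F.Ω} (h : Fam.pt F ω = Fam.pt F ω') (hl : F.l ω = F.l ω') :
    F.x ω = F.x ω' ∧ F.t ω = F.t ω' ∧ F.d ω = F.d ω' ∧ bt F ω = bt F ω' ∧ bd F ω = bd F ω' ∧
      ∀ w, slam F w ω = slam F w ω' := by
  obtain ⟨h1, h2, h3⟩ := pt_eq h
  have h4 : F.u ω = F.u ω' := (Prod.ext_iff.1 hl).1
  have h5 : F.d ω = F.d ω' := (Prod.ext_iff.1 hl).2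
  have h6 : F.t ω = F.t ω' := by
    unfold Fam.t
    rw [h2]
  have h7 : F.x ω = F.x ω' := by
    funext i
    unfold Fam.x
    rw [h4, h5, h6]
  refine ⟨h7, h6, h5, ?_, ?_, fun w => ?_⟩
  · funext o
    cases o with
    | none => exact h6
    | some j => exact congrFun h7 j
  · funext o
    cases o with
    | none => rfl
    | some j => exact congrFun h5 j
  · unfold slam Fam.T1
    rw [hl, h3, h2]

omit [Fintype E] in
/-- **Transfer of labels of any kind.** -/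
theorem Sel.gen {B : E → Prop} {f : PtT F → α} {g : LnT F → α}
    {C : F.Ω → Prop} (h : Sel F w q pr A B f g C) {γ δ : Type} {w' : ℕ}
    {Ψ : PtT F → LnT F → γ → δ → Prop} {G : PtT F → α → γ} {H : LnT F → α → δ}
    (h1 : ∀ e, 0 < q e → B e → Ψ (Fam.pt F (pr e)) (slam F w' (pr e)) (G (Fam.pt F (pr e)) (A e))
      (H (slam F w' (pr e)) (A e))) : ∀ ω, C ω →
    Ψ (Fam.pt F ω) (slam F w' ω) (G (Fam.pt F ω) (f (Fam.pt F ω)))
      (H (slam F w' ω) (g (slam F w ω))) := by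
  intro ω hω
  obtain ⟨e, h2, h3, h4, h5, h6⟩ := h.ex ω hω
  have h7 := h1 e h2 h3
  obtain ⟨_, _, _, _, _, h8⟩ := ptl_eq h4 (Prod.ext_iff.1 h5).1
  rw [h8 w', h4, h6] at h7
  rw [← h.eq ω hω]
  exact h7

/-- **Transfer of labels of one coordinate.** -/
theorem Sel.lb {B : E → Prop} {f : PtT F → α} {g : LnT F → α}
    {C : F.Ω → Prop} (h : Sel F w q pr A B f g C) (hq : IsLaw q) {I : Finset (Fin m)} {k : Fin m}
    {K e₁ w' ρ P : ℕ} (hw : w ≤ w') (hw' : w' ≤ J)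
    (h1 : Lb ((F.ext q hq pr).cnd A) I k K e₁ J w' ρ P (fun e => 0 < q e ∧ B e)) :
    Lb F I k K e₁ J w' ρ P C := by
  obtain ⟨V, z, z', G, h1⟩ := h1
  obtain ⟨g', hg'⟩ : ∃ g' : LnT F → α, g' = fun s => g (s.1, s.2.1, s.2.2 / 2 ^ (w' - w)) :=
    ⟨_, rfl⟩
  have hg : ∀ ω, g' (slam F w' ω) = g (slam F w ω) := fun ω => by
    rw [hg', slam_coarse F hw hw' ω]
  refine ⟨V, fun x => z (x.1, (x.2.1, (f x, x.2.2))),
    fun s => z' (s.1, ((g' s, s.2.1), s.2.2)), G, ?_⟩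
  have key : ∀ ω, C ω → ∃ e, (0 < q e ∧ B e) ∧ F.x (pr e) = F.x ω ∧ F.d (pr e) = F.d ω ∧
      bt F (pr e) = bt F ω ∧ bd F (pr e) = bd F ω ∧ F.X J (pr e) = F.X J ω ∧
      F.T (pr e) = F.T ω ∧ F.Z (pr e) = F.Z ω ∧ F.l (pr e) = F.l ω ∧
      F.T1 w' (pr e) = F.T1 w' ω ∧ A e = f (Fam.pt F ω) ∧ A e = g' (slam F w' ω) := by
    intro ω hω
    obtain ⟨e, h2, h3, h4, h5, h6⟩ := h.ex ω hω
    have h50 : F.l (pr e) = F.l ω := (Prod.ext_iff.1 h5).1
    obtain ⟨a1, a2, a3, a4, a5, a6⟩ := ptl_eq h4 h50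
    obtain ⟨b1, b2, b3⟩ := pt_eq h4
    exact ⟨e, ⟨h2, h3⟩, a1, a3, a4, a5, b1, b2, b3, h50,
      (Prod.ext_iff.1 (Prod.ext_iff.1 (a6 w')).2).2, h6, h6.trans ((h.eq ω hω).trans (hg ω).symm)⟩
  refine ⟨h1.deg, h1.dep, fun ω hω => ?_, fun ω hω => ?_, fun ω hω => ?_,
    fun ω hω b hb o => ?_⟩
  · obtain ⟨e, he, _, _, _, _, c1, c2, c3, c4, c5, c6, c7⟩ := key ω hω
    have h9 : z (F.X J (pr e), (F.T (pr e), (A e, F.Z (pr e)))) =
      z' (F.l (pr e), ((A e, F.Z (pr e)), F.T1 w' (pr e))) := h1.cls e he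
    rw [c1, c2, c3, c4, c5] at h9
    change z (F.X J ω, (F.T ω, (f (Fam.pt F ω), F.Z ω))) =
      z' (F.l ω, ((g' (slam F w' ω), F.Z ω), F.T1 w' ω))
    rw [← c6, ← c7]
    exact h9
  · obtain ⟨e, he, a1, a2, a3, a4, c1, c2, c3, c4, c5, c6, c7⟩ := key ω hω
    have h9 : |F.x (pr e) k - eval (bt F (pr e))
      (G (z' (F.l (pr e), ((A e, F.Z (pr e)), F.T1 w' (pr e)))))| ≤ 1 / 2 ^ P := h1.pos e he
    rw [a1, a3, c3, c4, c5] at h9
    change |F.x ω k - eval (bt F ω)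
      (G (z' (F.l ω, ((g' (slam F w' ω), F.Z ω), F.T1 w' ω))))| ≤ 1 / 2 ^ P
    rw [← c7]
    exact h9
  · obtain ⟨e, he, a1, a2, a3, a4, c1, c2, c3, c4, c5, c6, c7⟩ := key ω hω
    have h9 : |F.d (pr e) k - ∑ o, bd F (pr e) o * eval (bt F (pr e))
      (pderiv o (G (z' (F.l (pr e), ((A e, F.Z (pr e)), F.T1 w' (pr e))))))| ≤ 2 ^ w' / 2 ^ P :=
      h1.vel e he
    rw [a2, a3, a4, c3, c4, c5] at h9
    change |F.d ω k - ∑ o, bd F ω o * eval (bt F ω)
      (pderiv o (G (z' (F.l ω, ((g' (slam F w' ω), F.Z ω), F.T1 w' ω)))))| ≤ 2 ^ w' / 2 ^ P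
    rw [← c7]
    exact h9
  · obtain ⟨e, he, a1, a2, a3, a4, c1, c2, c3, c4, c5, c6, c7⟩ := key ω hω
    have h8 : ∀ o, |b o - bt F (pr e) o| ≤ 1 / 2 ^ ρ := fun o => by
      rw [a3]
      exact hb o
    have h9 : |eval b (pderiv o (G (z' (F.l (pr e), ((A e, F.Z (pr e)), F.T1 w' (pr e))))))| ≤
      2 ^ e₁ := h1.lip e he b h8 o
    rw [c3, c4, c5] at h9
    change |eval b (pderiv o (G (z' (F.l ω, ((g' (slam F w' ω), F.Z ω), F.T1 w' ω)))))| ≤ 2 ^ e₁
    rw [← c7]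
    exact h9

omit [Fintype E] in
/-- **Transfer of functions of the point.** -/
theorem Sel.fn {B : E → Prop} {f : PtT F → α} {g : LnT F → α}
    {C : F.Ω → Prop} (h : Sel F w q pr A B f g C) {v : F.Ω → ℝ} {ε : ℝ}
    (hv : ∀ ω ω', Fam.pt F ω = Fam.pt F ω' → F.l ω = F.l ω' → v ω = v ω') (φ : PtT F → α → ℝ)
    (h1 : ∀ e, 0 < q e → B e → |v (pr e) - φ (Fam.pt F (pr e)) (A e)| ≤ ε) :
    ∀ ω, C ω → |v ω - φ (Fam.pt F ω) (f (Fam.pt F ω))| ≤ ε := by
  intro ω hω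
  obtain ⟨e, h2, h3, h4, h5, h6⟩ := h.ex ω hω
  have h7 := h1 e h2 h3
  rw [hv _ _ h4 (Prod.ext_iff.1 h5).1, h4, h6] at h7
  exact h7

/-- **Transfer of numbers of values.** If, on `B`, the variable `Y` is in a finite set which is a
function of `(U, A)`, then on an event it is in this set with a closed function instead of `A`. -/
theorem Ker.ent (h : Ker F w q pr A) {c : ℝ} (hc : 0 ≤ c) {S T : Type} {Y : F.Ω → S}
    {U : F.Ω → T} (hY : ∀ ω ω', Fam.pt F ω = Fam.pt F ω' → slam F w ω = slam F w ω' → Y ω = Y ω')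
    (hU : ∀ ω ω', Fam.pt F ω = Fam.pt F ω' → slam F w ω = slam F w ω' → U ω = U ω')
    {B : E → Prop} (hB : ∀ e, 0 < q e → B e → Dn F w q pr A c e) {S' : T × α → Finset S}
    (hBS : ∀ e, 0 < q e → B e → Y (pr e) ∈ S' (U (pr e), A e)) :
    ∃ (f : PtT F → α) (g : LnT F → α) (C : F.Ω → Prop),
      (∀ ω, C ω → f (Fam.pt F ω) = g (slam F w ω)) ∧
      (∀ ω, C ω → Y ω ∈ S' (U ω, g (slam F w ω))) ∧
      Real.exp (-c) * Pe q B / 4 ≤ Pe F.p C := by
  obtain ⟨f, g, C, h1, h2⟩ := h.sel hc B hB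
  refine ⟨f, g, C, h1.eq, fun ω hω => ?_, h2⟩
  obtain ⟨e, h3, h4, h5, h6, h7⟩ := h1.ex ω hω
  have h8 := hBS e h3 h4
  rw [hY _ _ h5 h6, hU _ _ h5 h6, h7, h1.eq ω hω] at h8
  exact h8

end

/-! ### Entropies -/

/-- Values with large conditional probability are few. -/
theorem low_count {Ω S T : Type} [Fintype Ω] {p : Ω → ℝ} (hp : IsLaw p) (Y : Ω → S) (W : Ω → T)
    {h δ : ℝ} (hδ : 0 < δ) (h0 : 0 ≤ h) (hH : CH p Y W ≤ h) :
    ∃ B : Ω → Prop, δ / (h + δ) ≤ Pe p B ∧ ∃ S' : T → Finset S,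
      (∀ w, ((S' w).card : ℝ) ≤ Real.exp (h + δ)) ∧ ∀ ω, 0 < p ω → B ω → Y ω ∈ S' (W ω) := by
  classical
  have hp0 := hp.nonneg
  obtain ⟨k, hk⟩ : ∃ k : Ω → ℝ, k = fun ω => law p (fun ω => (Y ω, W ω)) (Y ω, W ω) /
    law p W (W ω) := ⟨_, rfl⟩
  have kpos : ∀ ω, 0 < p ω → 0 < k ω := fun ω hω => by
    rw [hk]
    exact div_pos (law_pos hp0 (fun ω => (Y ω, W ω)) hω) (law_pos hp0 W hω)
  have kle : ∀ ω, 0 < p ω → k ω ≤ 1 := fun ω hω => by
    rw [hk]
    simp only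
    rw [div_le_one (law_pos hp0 W hω)]
    exact law_mono_of_det hp0 (X := fun ω => (Y ω, W ω)) (Y := W)
      (fun _ _ _ _ e => (Prod.ext_iff.1 e).2) hω
  have e1 : CH p Y W = Ex p (fun ω => -Real.log (k ω)) := by
    rw [CH_eq_neg_sum hp0 Y W, hk]
  obtain ⟨B, hB⟩ : ∃ B : Ω → Prop, B = fun ω => Real.exp (-(h + δ)) ≤ k ω := ⟨_, rfl⟩
  obtain ⟨S', hS'⟩ : ∃ S' : T → Finset S, S' = fun w =>
    (univ.filter fun ω => (0 < p ω ∧ B ω) ∧ W ω = w).image Y := ⟨_, rfl⟩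
  refine ⟨B, ?_, S', fun w => ?_, fun ω hω hBω => ?_⟩
  · have e2 : (h + δ) * Pe p (fun ω => ¬ B ω) ≤ Ex p (fun ω => -Real.log (k ω)) := by
      rw [K2S.Pe_eq, Finset.mul_sum]
      unfold Ex
      refine Finset.sum_le_sum fun ω _ => ?_
      rcases (hp0 ω).eq_or_lt with h5 | h5
      · rw [← h5]
        simp
      · have h1 := kpos ω h5
        have h2 := Real.log_nonpos h1.le (kle ω h5)
        by_cases h6 : B ω
        · rw [if_neg (not_not.2 h6), mul_zero]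
          exact mul_nonneg h5.le (by linarith)
        · rw [if_pos h6]
          rw [hB, not_le] at h6
          have h7 := Real.log_le_log h1 h6.le
          rw [Real.log_exp] at h7
          rw [mul_comm]
          exact mul_le_mul_of_nonneg_left (by linarith) h5.le
    have e3 : Pe p B + Pe p (fun ω => ¬ B ω) = 1 := by
      rw [K2S.Pe_eq, K2S.Pe_eq, ← Finset.sum_add_distrib, ← hp.sum_one]
      refine Finset.sum_congr rfl fun ω _ => ?_
      by_cases h6 : B ω <;> simp [h6]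
    rw [← e1] at e2
    have e4 : 0 < h + δ := by linarith
    rw [div_le_iff₀ e4]
    have e5 : Pe p B = 1 - Pe p (fun ω => ¬ B ω) := by linarith
    rw [e5]
    nlinarith
  · rcases (law_nonneg hp0 W w).eq_or_lt with h1 | h1
    · have h2 : S' w = ∅ := by
        rw [hS']
        simp only [Finset.image_eq_empty, Finset.filter_eq_empty_iff, Finset.mem_univ, true_imp_iff]
        rintro ω ⟨⟨h3, _⟩, h4⟩
        have h5 := law_pos hp0 W h3
        rw [h4, ← h1] at h5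
        exact lt_irrefl _ h5
      rw [h2, Finset.card_empty, Nat.cast_zero]
      exact (Real.exp_pos _).le
    · have h2 : ∀ s ∈ S' w, Real.exp (-(h + δ)) * law p W w ≤ law p (fun ω => (Y ω, W ω)) (s, w) := by
        intro s hs
        rw [hS'] at hs
        simp only [Finset.mem_image, Finset.mem_filter, Finset.mem_univ, true_and] at hs
        obtain ⟨ω, ⟨⟨h3, h4⟩, h5⟩, rfl⟩ := hs
        rw [hB, hk] at h4
        simp only at h4
        rw [h5, le_div_iff₀ h1] at h4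
        exact h4
      have h3 := sum_law_pair_le hp0 Y W (S' w) w
      have h4 : ((S' w).card : ℝ) * (Real.exp (-(h + δ)) * law p W w) ≤ law p W w := by
        refine le_trans ?_ h3
        rw [← nsmul_eq_mul, ← Finset.sum_const]
        exact Finset.sum_le_sum h2
      have h5 : ((S' w).card : ℝ) * Real.exp (-(h + δ)) ≤ 1 := by
        by_contra hcon
        push Not at hcon
        nlinarith
      calc ((S' w).card : ℝ) = ((S' w).card : ℝ) * Real.exp (-(h + δ)) * Real.exp (h + δ) := by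
            rw [mul_assoc, ← Real.exp_add, neg_add_cancel, Real.exp_zero, mul_one]
        _ ≤ 1 * Real.exp (h + δ) := mul_le_mul_of_nonneg_right h5 (Real.exp_pos _).le
        _ = _ := one_mul _
  · rw [hS']
    simp only [Finset.mem_image, Finset.mem_filter, Finset.mem_univ, true_and]
    exact ⟨ω, ⟨⟨hω, hBω⟩, rfl⟩, rfl⟩

end Pool.M3F
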