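import Pool.Agent.H5.M3F.Jet
import Pool.Agent.H90.STAT.CloN

/-!
# Transfer of jets between near leaves

`tay_upd`: Taylor's formula in the direction of one variable. `leaf_tr`: jets on the leaf of `P`
give jets on a near leaf. `leaf_dil`: large values on a dilated box give large values on the box.
-/

set_option autoImplicit false

namespace Pool.M3F

open Finset Real MvPolynomial
open Pool.STAT Pool.STAT.CLO

/-! ### Slices -/

section slc

variable {σ : Type} [DecidableEq σ]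

/-- The slice of a polynomial in the direction of one variable. -/
noncomputable def slx (x : σ) (b : σ → ℝ) (Q : MvPolynomial σ ℝ) : Polynomial ℝ :=
  MvPolynomial.aeval (fun o => if o = x then Polynomial.X else Polynomial.C (b o)) Q

theorem slx_eval (x : σ) (b : σ → ℝ) (Q : MvPolynomial σ ℝ) (y : ℝ) :
    (slx x b Q).eval y = eval (Function.update b x y) Q := by
  unfold slx
  induction Q using MvPolynomial.induction_on with
  | C a =>
    rw [MvPolynomial.algHom_C, eval_C]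
    exact Polynomial.eval_C
  | add p q hp hq => rw [map_add, Polynomial.eval_add, hp, hq, map_add]
  | mul_X p o hp =>
    rw [map_mul, Polynomial.eval_mul, hp, map_mul, aeval_X, eval_X]
    congr 1
    by_cases ho : o = x
    · subst ho
      rw [if_pos rfl, Polynomial.eval_X, Function.update_self]
    · rw [if_neg ho, Polynomial.eval_C, Function.update_of_ne ho]

theorem slx_der (x : σ) (b : σ → ℝ) (Q : MvPolynomial σ ℝ) :
    Polynomial.derivative (slx x b Q) = slx x b (pderiv x Q) := by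
  unfold slx
  induction Q using MvPolynomial.induction_on with
  | C a =>
    rw [MvPolynomial.algHom_C, pderiv_C, map_zero]
    exact Polynomial.derivative_C
  | add p q hp hq => rw [map_add, Polynomial.derivative_add, hp, hq, map_add, map_add]
  | mul_X p o hp =>
    rw [map_mul, Polynomial.derivative_mul, hp, Derivation.leibniz, map_add, aeval_X, pderiv_X]
    by_cases ho : o = x
    · subst ho
      simp only [if_true, Polynomial.derivative_X, smul_eq_mul, map_mul, aeval_X, Pi.single_eq_same,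
        map_one]
      ring
    · simp only [if_neg ho, Polynomial.derivative_C, smul_eq_mul, map_mul, aeval_X,
        Pi.single_eq_of_ne ho, map_zero]
      ring

theorem slx_iter (x : σ) (b : σ → ℝ) (k : ℕ) : ∀ Q : MvPolynomial σ ℝ,
    Polynomial.derivative^[k] (slx x b Q) = slx x b ((fun R => pderiv x R)^[k] Q) := by
  induction k with
  | zero => exact fun _ => rfl
  | succ k ih =>
    intro Q
    rw [Function.iterate_succ_apply, Function.iterate_succ_apply, slx_der, ih]

omit [DecidableEq σ] in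
theorem pderiv_iter_zero (x : σ) {Q : MvPolynomial σ ℝ} {D : ℕ} (hQ : Q.totalDegree ≤ D) :
    (fun R : MvPolynomial σ ℝ => pderiv x R)^[D + 1] Q = 0 := by
  classical
  have h1 : ∀ (k : ℕ) (Q : MvPolynomial σ ℝ), Q.totalDegree < k →
      (fun R : MvPolynomial σ ℝ => pderiv x R)^[k] Q = 0 := by
    intro k
    induction k with
    | zero => exact fun Q h => absurd h (Nat.not_lt_zero _)
    | succ k ih =>
      intro Q hQ
      rw [Function.iterate_succ_apply]
      by_cases h0 : Q.totalDegree = 0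
      · have h2 : Q = C (coeff 0 Q) := totalDegree_eq_zero_iff_eq_C.1 h0
        have h3 : pderiv x Q = 0 := by
          rw [h2, pderiv_C]
        rw [h3]
        clear ih hQ
        induction k with
        | zero => rfl
        | succ k ih => rw [Function.iterate_succ_apply, map_zero, ih]
      · refine ih _ ?_
        have h2 : (pderiv x Q).totalDegree ≤ Q.totalDegree - 1 := by
          rw [totalDegree, Finset.sup_le_iff]
          intro d hd
          rw [mem_support_iff, coeff_pderiv] at hd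
          have h3 : coeff (d + Finsupp.single x 1) Q ≠ 0 := fun h => by
            rw [h, zero_mul] at hd
            exact hd rfl
          have h4 := le_totalDegree (mem_support_iff.2 h3)
          rw [Finsupp.sum_add_index' (fun _ => rfl) (fun _ _ _ => rfl),
            Finsupp.sum_single_index rfl] at h4
          omega
        omega
  exact h1 (D + 1) Q (by omega)

/-- **Taylor's formula** in the direction of one variable. -/
theorem tay_upd (x : σ) (b : σ → ℝ) (a s : ℝ) {D : ℕ} {Q : MvPolynomial σ ℝ}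
    (hQ : Q.totalDegree ≤ D) : eval (Function.update b x (a + s)) Q = ∑ i ∈ range (D + 1),
      s ^ i / (i.factorial : ℝ) * eval (Function.update b x a) ((fun R => pderiv x R)^[i] Q) := by
  obtain ⟨u, hu⟩ : ∃ u, u = slx x b Q := ⟨_, rfl⟩
  have hd : ∀ i, ((i.factorial : ℝ)) * (Polynomial.taylor a u).coeff i =
      eval (Function.update b x a) ((fun R => pderiv x R)^[i] Q) := by
    intro i
    rw [← slx_eval, ← slx_iter, ← hu, Polynomial.taylor_coeff]
    have h1 := congrFun (Polynomial.factorial_smul_hasseDeriv (R := ℝ) i) u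
    rw [← h1]
    rw [LinearMap.smul_apply, Polynomial.eval_smul, nsmul_eq_mul]
  have hdeg : (Polynomial.taylor a u).natDegree < D + 1 := by
    rw [Nat.lt_succ_iff, Polynomial.natDegree_le_iff_coeff_eq_zero]
    intro N hN
    have h1 := hd N
    obtain ⟨N, rfl⟩ : ∃ N', N = N' + (D + 1) := ⟨N - (D + 1), by omega⟩
    have h2 : (fun R : MvPolynomial σ ℝ => pderiv x R)^[N + (D + 1)] Q = 0 := by
      rw [Function.iterate_add_apply, pderiv_iter_zero x hQ]
      clear hN h1
      induction N with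
      | zero => rfl
      | succ N ih => rw [Function.iterate_succ_apply, map_zero, ih]
    rw [h2, map_zero] at h1
    rcases mul_eq_zero.1 h1 with h3 | h3
    · exact absurd h3 (by positivity)
    · exact h3
  have h1 : eval (Function.update b x (a + s)) Q = (Polynomial.taylor a u).eval s := by
    rw [Polynomial.taylor_eval, hu, slx_eval, add_comm]
  rw [h1, Polynomial.eval_eq_sum_range' hdeg]
  refine Finset.sum_congr rfl fun i _ => ?_
  rw [← hd i]
  field_simp

end slc

theorem geo_le (n : ℕ) : ∑ i ∈ range n, (1 / 4 : ℝ) ^ i ≤ 4 / 3 := by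
  have h1 := geom_sum_eq (show (1 / 4 : ℝ) ≠ 1 by norm_num) n
  rw [h1]
  have h2 : (0 : ℝ) ≤ (1 / 4) ^ n := by positivity
  have h3 : ((1 / 4 : ℝ) ^ n - 1) / (1 / 4 - 1) = 4 / 3 * (1 - (1 / 4) ^ n) := by
    field_simp
    ring
  rw [h3]
  linarith

theorem lfpt_add (r : ℕ) (P Ψ : ℕ → PN) (b : ℕ → ℝ) : lfpt r Ψ b =
    Function.update b (r + 1) (eval b (P (r + 1)) +
      (eval b (Ψ (r + 1)) - eval b (P (r + 1)))) := by
  unfold lfpt
  rw [add_sub_cancel]

theorem iter_deg_le {σ : Type} (x : σ) {D : ℕ} (k : ℕ) : ∀ Q : MvPolynomial σ ℝ,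
    Q.totalDegree ≤ D → ((fun R : MvPolynomial σ ℝ => pderiv x R)^[k] Q).totalDegree ≤ D := by
  classical
  induction k with
  | zero => exact fun _ h => h
  | succ k ih =>
    intro Q hQ
    rw [Function.iterate_succ_apply]
    refine ih _ ?_
    rw [totalDegree, Finset.sup_le_iff]
    intro d hd
    rw [mem_support_iff, coeff_pderiv] at hd
    have h3 : coeff (d + Finsupp.single x 1) Q ≠ 0 := fun h => by
      rw [h, zero_mul] at hd
      exact hd rfl
    have h4 := le_totalDegree (mem_support_iff.2 h3)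
    rw [Finsupp.sum_add_index' (fun _ => rfl) (fun _ _ _ => rfl),
      Finsupp.sum_single_index rfl] at h4
    omega

/-- **Jets on a near leaf.** -/
theorem leaf_tr {r D : ℕ} {wd : ℕ → ℕ} {P Ψ : ℕ → PN} {Q : PN} {ρ S : ℝ}
    (hJ : Jet r D wd P Q ρ S) (hρ : 0 < ρ) (hn : ∀ b, Bxr 2 wd P (r + 1) b →
      |eval b (Ψ (r + 1)) - eval b (P (r + 1))| ≤ ρ / 4) :
    (∀ b, Bxr 2 wd P (r + 1) b → ∀ k : ℕ,
      ρ ^ k * |eval (lfpt r Ψ b) ((fun R : PN => pderiv (r + 1) R)^[k] Q)| ≤ 4 / 3 * (ρ * S)) ∧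
    ∃ b₀, Bxr 2 wd P (r + 1) b₀ ∧ S ≤ 2 * |eval (lfpt r Ψ b₀) (pderiv (r + 1) Q)| := by
  have hS := hJ.pos
  have hfac : ∀ i : ℕ, (1 : ℝ) ≤ (i.factorial : ℝ) := fun i => by
    exact_mod_cast Nat.one_le_iff_ne_zero.2 (Nat.factorial_ne_zero i)
  -- one term
  have hterm : ∀ (s A M : ℝ) (k i : ℕ), |s| ≤ ρ / 4 → 0 ≤ M → ρ ^ (k + i) * |A| ≤ M →
      ρ ^ k * |s ^ i / (i.factorial : ℝ) * A| ≤ (1 / 4) ^ i * M := by
    intro s A M k i hs hM hA
    have h1 : |s ^ i / (i.factorial : ℝ)| ≤ (ρ / 4) ^ i := by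
      rw [abs_div, abs_pow, abs_of_pos (lt_of_lt_of_le one_pos (hfac i)),
        div_le_iff₀ (lt_of_lt_of_le one_pos (hfac i))]
      have h2 := pow_le_pow_left₀ (abs_nonneg s) hs i
      have h3 : 0 ≤ (ρ / 4) ^ i := by positivity
      nlinarith [hfac i]
    rw [abs_mul]
    calc ρ ^ k * (|s ^ i / (i.factorial : ℝ)| * |A|) ≤ ρ ^ k * ((ρ / 4) ^ i * |A|) := by gcongr
      _ = (1 / 4) ^ i * (ρ ^ (k + i) * |A|) := by
        rw [div_pow, pow_add, one_div, inv_pow]
        field_simp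
      _ ≤ (1 / 4) ^ i * M := by gcongr
  have hup : ∀ b, Bxr 2 wd P (r + 1) b → ∀ k : ℕ,
      ρ ^ k * |eval (lfpt r Ψ b) ((fun R : PN => pderiv (r + 1) R)^[k] Q)| ≤
        4 / 3 * (ρ * S) := by
    intro b hb k
    have h1 := tay_upd (r + 1) b (eval b (P (r + 1)))
      (eval b (Ψ (r + 1)) - eval b (P (r + 1)))
      (iter_deg_le (r + 1) k Q hJ.deg)
    rw [← lfpt_add r P Ψ b] at h1
    rw [h1]
    refine (mul_le_mul_of_nonneg_left (Finset.abs_sum_le_sum_abs _ _) (by positivity)).trans ?_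
    rw [Finset.mul_sum]
    refine (Finset.sum_le_sum (g := fun i => (1 / 4 : ℝ) ^ i * (ρ * S)) fun i _ => ?_).trans ?_
    · refine hterm _ _ _ k i (hn b hb) (by positivity) ?_
      rw [← Function.iterate_add_apply, add_comm i k]
      exact hJ.jet b hb (k + i)
    · rw [← Finset.sum_mul]
      exact mul_le_mul_of_nonneg_right (geo_le _) (by positivity)
  refine ⟨hup, ?_⟩
  obtain ⟨b₀, hb₀, hbS⟩ := hJ.att
  refine ⟨b₀, hb₀, ?_⟩
  have h1 := tay_upd (r + 1) b₀ (eval b₀ (Ψ (r + 1)))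
    (eval b₀ (P (r + 1)) - eval b₀ (Ψ (r + 1))) (iter_deg_le (r + 1) 1 Q hJ.deg)
  rw [← lfpt_add r Ψ P b₀, Finset.sum_range_succ'] at h1
  have h2 : |∑ i ∈ range D, (eval b₀ (P (r + 1)) - eval b₀ (Ψ (r + 1))) ^ (i + 1) /
      ((i + 1).factorial : ℝ) * eval (Function.update b₀ (r + 1) (eval b₀ (Ψ (r + 1))))
        ((fun R : PN => pderiv (r + 1) R)^[i + 1] ((fun R : PN => pderiv (r + 1) R)^[1] Q))| ≤
      4 / 9 * S := by
    have h3 : ρ * |∑ i ∈ range D, (eval b₀ (P (r + 1)) - eval b₀ (Ψ (r + 1))) ^ (i + 1) /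
      ((i + 1).factorial : ℝ) * eval (Function.update b₀ (r + 1) (eval b₀ (Ψ (r + 1))))
        ((fun R : PN => pderiv (r + 1) R)^[i + 1] ((fun R : PN => pderiv (r + 1) R)^[1] Q))| ≤
        ρ * (4 / 9 * S) := by
      refine (mul_le_mul_of_nonneg_left (Finset.abs_sum_le_sum_abs _ _) hρ.le).trans ?_
      rw [Finset.mul_sum]
      refine (Finset.sum_le_sum (g := fun i => (1 / 4 : ℝ) ^ i * (1 / 4 * (4 / 3 * (ρ * S))))
        fun i _ => ?_).trans ?_
      · have h4 := hterm (eval b₀ (P (r + 1)) - eval b₀ (Ψ (r + 1)))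
          (eval (Function.update b₀ (r + 1) (eval b₀ (Ψ (r + 1))))
          ((fun R : PN => pderiv (r + 1) R)^[i + 1] ((fun R : PN => pderiv (r + 1) R)^[1] Q)))
          (4 / 3 * (ρ * S)) 1 (i + 1) (by
            rw [abs_sub_comm]
            exact hn b₀ hb₀) (by positivity) (by
            rw [← Function.iterate_add_apply, add_comm (i + 1) 1]
            exact hup b₀ hb₀ (1 + (i + 1)))
        rw [pow_one] at h4
        refine h4.trans (le_of_eq ?_)
        rw [pow_succ]
        ring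
      · rw [← Finset.sum_mul]
        have h5 := mul_le_mul_of_nonneg_right (geo_le D)
          (by positivity : 0 ≤ 1 / 4 * (4 / 3 * (ρ * S)))
        linarith
    exact le_of_mul_le_mul_left h3 hρ
  have h6 : (fun R : PN => pderiv (r + 1) R)^[1] Q = pderiv (r + 1) Q := rfl
  have h7 : Function.update b₀ (r + 1) (eval b₀ (Ψ (r + 1))) = lfpt r Ψ b₀ := rfl
  rw [h6, h7] at h1 h2
  simp only [pow_zero, Nat.factorial_zero, Nat.cast_one, div_one, one_mul,
    Function.iterate_zero_apply] at h1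
  have h8 : S ≤ 4 / 9 * S + |eval (lfpt r Ψ b₀) (pderiv (r + 1) Q)| := by
    conv_lhs => rw [← hbS, h1]
    exact (abs_add_le _ _).trans (add_le_add_left h2 _)
  linarith

/-- **From the dilated box to the box**, on the leaf. -/
theorem leaf_dil (r D K : ℕ) (ρ₁ : ℝ) (hρ₁ : 1 ≤ ρ₁) : ∃ E : ℝ, 1 ≤ E ∧
    ∀ (Ψ : ℕ → PN) (g : ℕ → ℕ) (R : PN) (S : ℝ), TriN Ψ → (∀ j, (Ψ j).totalDegree ≤ K) →
      R.totalDegree ≤ D → R.vars ⊆ range (r + 2) → 0 < S →
      (∃ b₀, Bxr ρ₁ g Ψ (r + 1) b₀ ∧ S ≤ 2 * |eval (lfpt r Ψ b₀) R|) →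
      ∃ b, Bxr 1 g Ψ (r + 1) b ∧ S ≤ E * |eval (lfpt r Ψ b) R| := by
  obtain ⟨K₂, hK₂⟩ : ∃ K₂, K₂ = max K (D * (K + 1)) := ⟨_, rfl⟩
  obtain ⟨C₁, hC₁, hdil⟩ := dil (r + 1) K₂
  obtain ⟨K₁, hK₁⟩ : ∃ K₁, K₁ = K₂ * (K₂ + 1) ^ (r + 1 + 1) := ⟨_, rfl⟩
  rw [← hK₁] at hdil
  have hp : (1 : ℝ) ≤ ρ₁ ^ K₁ := one_le_pow₀ hρ₁
  have hCp : (1 : ℝ) ≤ C₁ * ρ₁ ^ K₁ := by nlinarith
  refine ⟨4 * (C₁ * ρ₁ ^ K₁), by linarith, ?_⟩
  intro Ψ g R S hΨ hK hR hv hS ⟨b₀, hb₀, hbS⟩
  by_contra hcon
  push Not at hcon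
  obtain ⟨R₁, hR₁⟩ : ∃ R₁ : PN, R₁ = bind₁ (fun j => if j = r + 1 then Ψ (r + 1) else X j) R :=
    ⟨_, rfl⟩
  have hev : ∀ b : ℕ → ℝ, eval b R₁ = eval (lfpt r Ψ b) R := by
    intro b
    rw [hR₁, AdxRow.evl_bnd]
    congr 2
    funext j
    unfold lfpt
    by_cases hj : j = r + 1
    · subst hj
      rw [if_pos rfl, Function.update_self]
    · rw [if_neg hj, Function.update_of_ne hj, eval_X]
  have hvars : R₁.vars ⊆ range (r + 1) := by
    rw [hR₁]
    refine AdxRow.vars_bnd hv fun k hk => ?_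
    by_cases hj : k = r + 1
    · rw [if_pos hj]
      exact hΨ (r + 1)
    · rw [if_neg hj]
      exact AdxRow.vars_X_le (by omega)
  have hdeg : R₁.totalDegree ≤ K₂ := by
    rw [hR₁]
    refine (Dgb.deg_bind (B := K + 1) fun k _ => ?_).trans ?_
    · by_cases hj : k = r + 1
      · rw [if_pos hj]
        exact (hK _).trans (Nat.le_succ K)
      · rw [if_neg hj, totalDegree_X]
        omega
    · rw [hK₂]
      exact (Nat.mul_le_mul_right _ hR).trans (le_max_right _ _)
  have h1 := hdil Ψ g R₁ (r + 1) (S / (4 * (C₁ * ρ₁ ^ K₁))) ρ₁ hΨ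
    (fun j => (hK j).trans (by rw [hK₂]; exact le_max_left _ _)) le_rfl hvars hdeg hρ₁
    (fun b hb => by
      have h2 := hcon b hb
      rw [hev, le_div_iff₀ (by linarith), mul_comm]
      exact h2.le) b₀ hb₀
  rw [hev] at h1
  have h2 : C₁ * (S / (4 * (C₁ * ρ₁ ^ K₁))) * ρ₁ ^ K₁ = S / 4 := by
    have : C₁ ≠ 0 := by linarith
    have : ρ₁ ^ K₁ ≠ 0 := by linarith
    field_simp
  rw [h2] at h1
  linarith

end Pool.M3F
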