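import Pool.Agent.H5.M3F.Jet
import Pool.Agent.H5.M3F.Enc
import Pool.Agent.H37.M2C.Main

/-!
# M3F for closed labels in a class

`m3f_nlab`: for closed labels on natural boxes on a large event of a class
which is exact in the coordinates `c 0, …, c (r - 1)`, there are a label and a polynomial of bounded
degree which is small on the leaf, with all its derivatives in the direction of `c r`.
-/

set_option autoImplicit false

namespace Pool.M3F

open Finset Real MvPolynomial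
open Pool.Agent.H49.Ent Pool.Agent.H32.Dense Pool.STK Pool.KA Pool.KSAT Pool.K2S Pool.KS3 Pool.PB
  Pool.STAT Pool.GEN Pool.S6C

theorem wid_zero (W : ℕ) (g : ℕ → ℕ) : wid W g 0 = W := if_pos rfl

theorem wid_succ (W : ℕ) (g : ℕ → ℕ) (i : ℕ) : wid W g (i + 1) = g i := if_neg (Nat.succ_ne_zero i)

theorem sum_wid {W P₀ J r : ℕ} {g : ℕ → ℕ} (hP : P₀ ≤ J) (hw : ∀ i < r + 1, wid W g i ≤ P₀) :
    ∑ i ∈ range (r + 1), ((P₀ - wid W g i : ℕ) : ℝ) + ∑ _i ∈ range (r + 1), ((J - P₀ : ℕ) : ℝ) =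
      ((J - W : ℕ) : ℝ) + ∑ l ∈ range r, ((J - g l : ℕ) : ℝ) := by
  rw [← Finset.sum_add_distrib]
  have h1 : ∀ i ∈ range (r + 1), ((P₀ - wid W g i : ℕ) : ℝ) + ((J - P₀ : ℕ) : ℝ) =
      ((J - wid W g i : ℕ) : ℝ) := by
    intro i hi
    have h2 := hw i (mem_range.1 hi)
    rw [← Nat.cast_add]
    congr 1
    omega
  rw [Finset.sum_congr rfl h1, Finset.sum_range_succ', wid_zero, add_comm]
  congr 1

section

variable {m J : ℕ} {F : Fam m J} {W N r K : ℕ} {E V : Type} [Fintype E] {A : F.Ω → Prop}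
  {q : E → ℝ} {o o' : ℕ → E → F.Ω} {l : ℕ → E → LnT F} {y : ℕ → E → PtT F} {c : ℕ → Fin m}
  {g : ℕ → ℕ} {L : ℝ} {z : PtT F → V} {z' : LnT F → V} {P : V → ℕ → PN}

/-- The natural digits given a variable which determines the label. -/
theorem dig_ge (hN : NLab F c r W g K L A z z' P) (hq : IsLaw q) {Γ : Type} (pr : E → F.Ω)
    (Z : E → Γ)
    (hZ : ∀ e e', 0 < q e → 0 < q e' → Z e = Z e' →
      z (ptr F J (pr e)) = z (ptr F J (pr e'))) {P₀ : ℕ} (hP : P₀ ≤ J)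
    (hw : ∀ i < r + 1, wid W g i ≤ P₀) {e₁ E₀ : ℝ}
    (hT : ((J - W : ℕ) : ℝ) * Real.log 2 - e₁ ≤ CH q (fun e => F.T (pr e)) Z)
    (hY : E₀ ≤ CH q (fun e (i : Fin r) => F.X J (pr e) (c i)) (fun e => (Z e, F.W (pr e)))) :
    (∑ i ∈ range (r + 1), ((P₀ - wid W g i : ℕ) : ℝ)) * Real.log 2 -
      CH q (fun e (i : Fin (r + 1)) => ndp c P₀ (P (z (ptr F J (pr e)))) (ptr F J (pr e)) i) Z ≤
      e₁ + ((∑ l ∈ range r, ((J - g l : ℕ) : ℝ)) * Real.log 2 - E₀) + (r + 1) * Real.log 3 := by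
  have h1 := nd_ge (F := F) hq c (r := r) (W := W) pr Z P (fun e => z (ptr F J (pr e)))
    (fun _ => P₀) (fun _ _ => hP) hZ hN.tri hT hY
  have h2 := sum_wid (r := r) hP hw
  have h3 : ∑ i ∈ range (r + 1), (((J - P₀ : ℕ) : ℝ) * Real.log 2 + Real.log 3) =
      (∑ _i ∈ range (r + 1), ((J - P₀ : ℕ) : ℝ)) * Real.log 2 + (r + 1) * Real.log 3 := by
    rw [Finset.sum_add_distrib, ← Finset.sum_mul, Finset.sum_const, Finset.sum_const, card_range,
      nsmul_eq_mul, nsmul_eq_mul]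
    push_cast
    ring
  rw [h3] at h1
  have h4 : (∑ i ∈ range (r + 1), ((P₀ - wid W g i : ℕ) : ℝ)) * Real.log 2 =
      ((J - W : ℕ) : ℝ) * Real.log 2 + (∑ l ∈ range r, ((J - g l : ℕ) : ℝ)) * Real.log 2 -
      (∑ _i ∈ range (r + 1), ((J - P₀ : ℕ) : ℝ)) * Real.log 2 := by
    have h5 : ∑ i ∈ range (r + 1), ((P₀ - wid W g i : ℕ) : ℝ) =
      ((J - W : ℕ) : ℝ) + ∑ l ∈ range r, ((J - g l : ℕ) : ℝ) -
        ∑ _i ∈ range (r + 1), ((J - P₀ : ℕ) : ℝ) := by linarith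
    rw [h5]
    ring
  rw [h4]
  have h6 : CH q (fun e (i : Fin (r + 1)) => ndp c P₀ (P (z (ptr F J (pr e)))) (ptr F J (pr e)) i)
      Z = CH q (fun e (i : Fin (r + 1)) => ⌊(2 : ℝ) ^ P₀ * (px c (ptr F J (pr e)) i -
        eval (px c (ptr F J (pr e))) (P (z (ptr F J (pr e))) i))⌋) Z := rfl
  rw [h6]
  linarith

/-- The natural digits: upper bound. -/
theorem dig_le (hN : NLab F c r W g K L A z z' P) (hq : IsLaw q) {Γ : Type} (pr : E → F.Ω)
    (hpr : ∀ e, 0 < q e → A (pr e)) (hW : W ≤ J) (Z : E → Γ) {P₀ : ℕ}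
    (hw : ∀ i < r + 1, wid W g i ≤ P₀) :
    CH q (fun e (i : Fin (r + 1)) => ndp c P₀ (P (z (ptr F J (pr e)))) (ptr F J (pr e)) i) Z ≤
      (∑ i ∈ range (r + 1), ((P₀ - wid W g i : ℕ) : ℝ)) * Real.log 2 + (r + 1) * Real.log 5 := by
  have h1 := nd_le (F := F) hq c (r := r) pr Z P (fun e => z (ptr F J (pr e))) (fun _ => P₀)
    (wid W g) (fun i hi => hw i (by omega)) (fun e he i hi => by
      rcases Nat.eq_zero_or_pos i with rfl | h0
      · rw [hN.zero _ (hpr e he), eval_C, px_zero, wid_zero]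
        exact CLO.t_cell F hW (pr e)
      · obtain ⟨i, rfl⟩ : ∃ j', i = j' + 1 := ⟨i - 1, by omega⟩
        rw [wid_succ]
        exact hN.pos _ (hpr e he) i (by omega))
  refine h1.trans (le_of_eq ?_)
  rw [Finset.sum_add_distrib, ← Finset.sum_mul, Finset.sum_const, card_range, nsmul_eq_mul]
  push_cast
  ring

end

/-- **M3F for closed labels in a class.** The coordinates `c 0, …, c (r - 1)` are exact; the
precision of `c r` is larger than all the others (by `γ J`). -/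
theorem m3f_nlab (r : ℕ) : ∃ D : ℕ, ∀ {m : ℕ} (S : PCl m),
    (∀ (τ : ℝ) (J : ℕ) (F : Fam m J) (A : F.Ω → Prop), S.St τ J F A →
      F.Tr ∧ F.Tm (τ * J) ∧ F.Rb (τ * J) ∧ Real.exp (-(τ * J)) ≤ Pe F.p A) →
    ∀ (c : ℕ → Fin m) (w : ℝ) (g : ℕ → ℝ), 0 ≤ w → w ≤ 1 → (∀ l < r, w ≤ g l) →
    (∀ ρ : ℝ, 0 < ρ → ExvY S w (fun J F ω (i : Fin r) => F.X J ω (c i))
      ((∑ l ∈ range r, (1 - g l)) - ρ)) →
    ∀ (K : ℕ) (γ δ : ℝ), 0 < γ → 0 < δ → ∃ φ : ℝ, 0 < φ ∧ Bas S (fun J F A =>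
      ∀ (g' : ℕ → ℕ) (L : ℝ) (V : Type) (z : PtT F → V) (z' : LnT F → V) (P : V → ℕ → PN),
      (∀ l < r, (g l - φ) * J ≤ g' l) → (∀ l < r, (g' l : ℝ) + γ * J ≤ g' r) →
      (w + γ) * J ≤ g' r → g' r ≤ J → 0 ≤ L → Real.log (1 + L) ≤ φ * J →
      NLab F c r ⌊w * J⌋₊ g' K L A z z' P →
      ∃ ω, A ω ∧ 0 < F.p ω ∧ ∃ (Q : PN) (S : ℝ) (k : ℕ), (k : ℝ) ≤ δ * J ∧
        Jet r D (wid ⌊w * J⌋₊ g') (P (z (ptr F J ω))) Q (2 ^ k / 2 ^ g' r) S) := by
  classical
  obtain ⟨D, -, hD⟩ := exists_deg (r + 1)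
  refine ⟨D, ?_⟩
  intro m S hmem c w g hw hw1 hwg hex K γ δ hγ hδ
  obtain ⟨j, hj⟩ : ∃ j, j = 6 * (r + 1) * D := ⟨_, rfl⟩
  obtain ⟨C, C', hC, hfam⟩ := m3f_fam r D j K (by rw [hj]; exact hD) hj.ge
  have hl2 : 0 < Real.log 2 := Real.log_pos one_lt_two
  have hl2' : Real.log 2 ≤ 1 := by
    have := Real.log_two_lt_d9
    linarith
  have hl3 : 0 ≤ Real.log 3 := Real.log_nonneg (by norm_num)
  have hl5 : 0 ≤ Real.log 5 := Real.log_nonneg (by norm_num)
  -- the numbers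
  obtain ⟨κ₀, hκ₀⟩ : ∃ κ₀ : ℝ, κ₀ = min (γ / (j + 2)) (δ / (C' + 1)) := ⟨_, rfl⟩
  have hκ0 : 0 < κ₀ := by
    rw [hκ₀]
    exact lt_min (by positivity) (by positivity)
  have hκγ : (j + 2) * κ₀ ≤ γ := by
    have h1 : κ₀ ≤ γ / (j + 2) := by
      rw [hκ₀]
      exact min_le_left _ _
    rw [le_div_iff₀ (by positivity)] at h1
    linarith
  have hκδ : (C' + 1) * κ₀ ≤ δ := by
    have h1 : κ₀ ≤ δ / (C' + 1) := by
      rw [hκ₀]
      exact min_le_right _ _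
    rw [le_div_iff₀ (by positivity)] at h1
    linarith
  obtain ⟨θ, hθ⟩ : ∃ θ : ℝ, θ = κ₀ * Real.log 2 / (16 * (C + 1)) := ⟨_, rfl⟩
  have hθ0 : 0 < θ := by
    rw [hθ]
    positivity
  have hθC : 16 * (C + 1) * θ = κ₀ * Real.log 2 := by
    rw [hθ]
    field_simp
  have hpos : ∀ (τ : ℝ) (J : ℕ) (F : Fam m J) (A : F.Ω → Prop), S.St τ J F A → 0 < Pe F.p A :=
    fun τ J F A h => lt_of_lt_of_le (Real.exp_pos _) (hmem τ J F A h).2.2.2
  obtain ⟨N₀, τ₀, hτ₀, J₀, hmix⟩ := mix_class_s hpos (Y := fun J F ω (i : Fin r) => F.X J ω (c i))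
    (fun J F ω ω' h _ => by
      have h1 := (Prod.ext_iff.1 h).1
      funext i
      exact congrFun h1 (c i)) (half_pos hθ0) hex
  obtain ⟨τe, hτe, Je, hexe⟩ := hex (θ / 2) (half_pos hθ0)
  obtain ⟨φ, hφ⟩ : ∃ φ : ℝ, φ = min (θ / (3 * r + 1)) (κ₀ / 2) := ⟨_, rfl⟩
  have hφ0 : 0 < φ := by
    rw [hφ]
    exact lt_min (by positivity) (by positivity)
  have hφθ : (3 * r + 1) * φ ≤ θ := by
    have h1 : φ ≤ θ / (3 * r + 1) := by
      rw [hφ]
      exact min_le_left _ _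
    rw [le_div_iff₀ (by positivity)] at h1
    linarith
  have hφκ : φ ≤ κ₀ / 2 := by
    rw [hφ]
    exact min_le_right _ _
  obtain ⟨τ, hτ⟩ : ∃ τ : ℝ, τ = min (min τ₀ τe) (θ / (6 * (3 + N₀))) := ⟨_, rfl⟩
  have hτ0 : 0 < τ := by
    rw [hτ]
    exact lt_min (lt_min hτ₀ hτe) (by positivity)
  have hτ1 : τ ≤ τ₀ := by
    rw [hτ]
    exact (min_le_left _ _).trans (min_le_left _ _)
  have hτ2 : τ ≤ τe := by
    rw [hτ]
    exact (min_le_left _ _).trans (min_le_right _ _)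
  have hτθ : 6 * (3 + N₀) * τ ≤ θ := by
    have h1 : τ ≤ θ / (6 * (3 + N₀)) := by
      rw [hτ]
      exact min_le_right _ _
    rw [le_div_iff₀ (by positivity)] at h1
    linarith
  obtain ⟨c₀, hc₀⟩ : ∃ c₀ : ℝ, c₀ = 3 * ((r + 1) * (Real.log 3 + Real.log 5)) + N₀ + 1 :=
    ⟨_, rfl⟩
  obtain ⟨J₁, hJ₁⟩ := exists_nat_gt (c₀ / θ)
  obtain ⟨J₂, hJ₂⟩ := exists_nat_gt (2 / κ₀)
  refine ⟨φ, hφ0, τ, hτ0, max (max J₀ Je) (max J₁ (max J₂ 1)), ?_⟩
  intro J hJ F A hS g' L V z z' P hg1 hg2 hg3 hg4 hL hLφ hN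
  have hJ0 : J₀ ≤ J := (le_max_left _ _).trans ((le_max_left _ _).trans hJ)
  have hJe : Je ≤ J := (le_max_right _ _).trans ((le_max_left _ _).trans hJ)
  have hJ1 : (J₁ : ℝ) ≤ J := by
    exact_mod_cast (le_max_left J₁ _).trans ((le_max_right _ _).trans hJ)
  have hJ2 : (J₂ : ℝ) ≤ J := by
    exact_mod_cast (le_max_left J₂ 1).trans ((le_max_right J₁ _).trans
      ((le_max_right _ _).trans hJ))
  have hJ3 : (1 : ℝ) ≤ J := by
    exact_mod_cast (le_max_right J₂ 1).trans ((le_max_right J₁ _).trans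
      ((le_max_right _ _).trans hJ))
  have hJp : (0 : ℝ) < J := by linarith
  obtain ⟨hTr, hTm, hRb, hPe⟩ := hmem τ J F A hS
  have hA : 0 < Pe F.p A := hpos τ J F A hS
  have hl := isLaw_cond F.isLaw hA
  obtain ⟨p, hp⟩ : ∃ p, p = Pool.Agent.H49.Ent.cond F.p A True := ⟨_, rfl⟩
  have hsupp : ∀ ω, 0 < Pool.Agent.H49.Ent.cond F.p A True ω → A ω := fun ω hω =>
    cond_supp hω
  obtain ⟨W, hWe⟩ : ∃ W, W = ⌊w * J⌋₊ := ⟨_, rfl⟩
  have hWw : (W : ℝ) ≤ w * J := by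
    rw [hWe]
    exact Nat.floor_le (by positivity)
  have hWJ : W ≤ J := by
    have : (W : ℝ) ≤ J := hWw.trans (mul_le_of_le_one_left hJp.le hw1)
    exact_mod_cast this
  rw [← hWe] at hN ⊢
  have hq0 := hl.nonneg
  have hτJ : 0 ≤ τ * J := by positivity
  have hTs : ((J - W : ℕ) : ℝ) * Real.log 2 - 6 * (τ * J) ≤
      CH (Pool.Agent.H49.Ent.cond F.p A True) F.T (slam F W) := by
    have h1 := Pool.STPA.time_event F hTr hTm hRb hA hPe hWJ
    rw [Nat.cast_sub hWJ]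
    linarith
  have hWg : W ≤ g' r := by
    have h1 : (W : ℝ) ≤ g' r := by
      have : 0 ≤ γ * J := by positivity
      have h2 : w * J ≤ (w + γ) * J := by linarith
      linarith
    exact_mod_cast h1
  -- the exponent
  obtain ⟨κ, hκ⟩ : ∃ κ, κ = ⌊κ₀ * J⌋₊ := ⟨_, rfl⟩
  have hκ1 : (κ : ℝ) ≤ κ₀ * J := by
    rw [hκ]
    exact Nat.floor_le (by positivity)
  have hκ2 : κ₀ / 2 * J ≤ κ := by
    have h1 : κ₀ * J < κ + 1 := by
      rw [hκ]
      exact Nat.lt_floor_add_one _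
    have h2 : 2 / κ₀ < J := hJ₂.trans_le hJ2
    rw [div_lt_iff₀ hκ0] at h2
    linarith
  have hjκ : ((j : ℝ) + 2) * κ ≤ γ * J := by
    calc ((j : ℝ) + 2) * κ ≤ (j + 2) * (κ₀ * J) := mul_le_mul_of_nonneg_left hκ1 (by positivity)
      _ = ((j + 2) * κ₀) * J := by ring
      _ ≤ γ * J := mul_le_mul_of_nonneg_right hκγ hJp.le
  have hwk : ∀ i < r + 1, wid W g' i + (j + 2) * κ ≤ g' r := by
    intro i hi
    rcases Nat.eq_zero_or_pos i with rfl | h0
    · rw [wid_zero]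
      have h1 : (W : ℝ) + (j + 2) * κ ≤ g' r := by linarith
      exact_mod_cast h1
    · obtain ⟨i, rfl⟩ : ∃ j', i = j' + 1 := ⟨i - 1, by omega⟩
      rw [wid_succ]
      have h2 := hg2 i (by omega)
      have h1 : (g' i : ℝ) + (j + 2) * κ ≤ g' r := by linarith
      exact_mod_cast h1
  have hw' : ∀ i < r + 1, wid W g' i ≤ g' r := fun i hi => by
    have := hwk i hi
    omega
  have hWw' : ∀ i < r + 1, W ≤ wid W g' i + κ := by
    intro i hi
    rcases Nat.eq_zero_or_pos i with rfl | h0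
    · rw [wid_zero]
      omega
    · obtain ⟨i, rfl⟩ : ∃ j', i = j' + 1 := ⟨i - 1, by omega⟩
      rw [wid_succ]
      have h1 := hg1 i (by omega)
      have h2 := hwg i (by omega)
      have h3 : φ * J ≤ κ₀ / 2 * J := mul_le_mul_of_nonneg_right hφκ hJp.le
      have h5 : w * J ≤ g i * J := mul_le_mul_of_nonneg_right h2 hJp.le
      have h4 : (W : ℝ) ≤ g' i + κ := by linarith
      exact_mod_cast h4
  -- the sum of the precisions
  have hsum : ∑ l ∈ range r, ((J - g' l : ℕ) : ℝ) ≤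
      (∑ l ∈ range r, (1 - g l)) * J + r * φ * J := by
    have h1 : ∀ l ∈ range r, ((J - g' l : ℕ) : ℝ) ≤ (1 - g l) * J + φ * J := by
      intro l hl'
      have h2 := hg1 l (mem_range.1 hl')
      have h3 : g' l ≤ J := by
        have h4 := hw' (l + 1) (by have := mem_range.1 hl'; omega)
        rw [wid_succ] at h4
        omega
      rw [Nat.cast_sub h3]
      linarith
    refine (Finset.sum_le_sum h1).trans (le_of_eq ?_)
    rw [Finset.sum_add_distrib, ← Finset.sum_mul, Finset.sum_const, card_range, nsmul_eq_mul]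
    ring
  -- the errors
  obtain ⟨e, he⟩ : ∃ e : ℝ, e = 6 * (τ * J) + (r * φ + θ / 2) * J +
      (r + 1) * (Real.log 3 + Real.log 5) := ⟨_, rfl⟩
  have he0 : 0 ≤ e := by
    rw [he]
    positivity
  have hrφ : 0 ≤ (r * φ + θ / 2) * J := by positivity
  -- the time digits
  have het : ((g' r : ℝ) - W) * Real.log 2 - CH (Pool.Agent.H49.Ent.cond F.p A True)
      (fun ω => tdg W (g' r) (K2S.Fam.pt F ω)) (slam F W) ≤ 6 * (τ * J) := by
    have h1 := Pool.STPA.sub_Tm_of_reg hTr hTm hRb hA hPe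
    have h2 := Pool.FLF.time_fullr (Pool.FLF.Fam.sub F A hA) (w := W) (L := g' r - W) (r := g' r)
      (by omega) hg4 h1
    have h3 : CH (Pool.FLF.Fam.sub F A hA).p (fun ω => Pool.FLF.pT (g' r - W)
        (Pool.FLF.trp (Pool.FLF.Fam.sub F A hA) (g' r) ω)) (slam (Pool.FLF.Fam.sub F A hA) W) =
        CH (Pool.Agent.H49.Ent.cond F.p A True)
          (fun ω => Pool.FLF.pT (g' r - W) (Pool.FLF.trp F (g' r) ω)) (slam F W) :=
      Pool.FLF.sub_CH (fun ω => Pool.FLF.pT (g' r - W) (Pool.FLF.trp F (g' r) ω)) (slam F W)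
    rw [h3] at h2
    have h4 : (fun ω => Pool.FLF.pT (g' r - W) (Pool.FLF.trp F (g' r) ω)) =
        fun ω => tdg W (g' r) (K2S.Fam.pt F ω) := rfl
    rw [h4, Nat.cast_sub hWg] at h2
    linarith
  -- the label
  have hcls : ∀ ω, 0 < Pool.Agent.H49.Ent.cond F.p A True ω →
      z (ptr F J ω) = z' (slam F W ω) := fun ω hω => hN.cls ω (hsupp ω hω)
  have hTz : ((J - W : ℕ) : ℝ) * Real.log 2 - 6 * (τ * J) ≤
      CH (Pool.Agent.H49.Ent.cond F.p A True) (fun ω => F.T (id ω))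
        (fun ω => z (ptr F J ω)) := by
    refine hTs.trans (CH_mono_cond hq0 fun ω ω' h h' e => ?_)
    rw [hcls ω h, hcls ω' h', e]
  have hYz : (∑ l ∈ range r, (1 - g l) - θ / 2) * Real.log 2 * J ≤
      CH (Pool.Agent.H49.Ent.cond F.p A True) (fun ω (i : Fin r) => F.X J (id ω) (c i))
        (fun ω => (z (ptr F J ω), F.W (id ω))) := by
    have h1 := hexe J hJe F A (S.mono hτ2 hS) V z z' (by
      rw [← hWe]
      exact hN.cls)
    rw [← hWe] at h1
    refine h1.trans (CH_mono_cond hq0 fun ω ω' h h' e => ?_)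
    have e1 := Prod.ext_iff.1 e
    refine Prod.ext ?_ e1.2
    show z (ptr F J ω) = z (ptr F J ω')
    rw [hcls ω h, hcls ω' h']
    exact e1.1
  have he2 : (∑ i ∈ range (r + 1), ((g' r - wid W g' i : ℕ) : ℝ)) * Real.log 2 -
      CH (Pool.Agent.H49.Ent.cond F.p A True) (fun ω (i : Fin (r + 1)) =>
        ndp c (g' r) (P (z (ptr F J ω))) (ptr F J ω) i) (fun ω => z (ptr F J ω)) ≤ e := by
    have h1 := dig_ge hN hl (Γ := V) id (fun ω => z (ptr F J ω)) (fun _ _ _ _ h => h) hg4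
      hw' hTz hYz
    refine h1.trans ?_
    have h2 : (∑ l ∈ range r, ((J - g' l : ℕ) : ℝ)) * Real.log 2 -
        (∑ l ∈ range r, (1 - g l) - θ / 2) * Real.log 2 * J ≤ (r * φ + θ / 2) * J := by
      have h1 := mul_le_mul_of_nonneg_right hsum hl2.le
      have h2 : (r * φ + θ / 2) * J * Real.log 2 ≤ (r * φ + θ / 2) * J :=
        mul_le_of_le_one_right hrφ hl2'
      linarith
    have h5 : 0 ≤ ((r : ℝ) + 1) * Real.log 5 := by positivity
    rw [he]
    linarith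
  -- the chain
  obtain ⟨N, hN1, hNN, E, hE, q, o, o', l, y, hch, hm1, hm2⟩ := hmix J hJ0 F A
    (S.mono hτ1 hS) hl
  rw [← hWe] at hch
  have hq := hch.isLaw
  have hyN : ∀ v, 0 < q v → y N v = ptr F J (o' (N - 1) v) := fun v hv => by
    have h1 := hch.stop v hv (N - 1) (by omega)
    have h2 : N - 1 + 1 = N := by omega
    rw [h2] at h1
    exact h1.symm
  have hy0 : ∀ v, 0 < q v → y 0 v = ptr F J (o 0 v) := fun v hv =>
    (hch.start v hv 0 (by omega)).symm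
  have hcst : ∀ v, 0 < q v → z (y N v) = z (y 0 v) := fun v hv =>
    chain_const hch (bx := z) (bl := z') hcls hv N le_rfl
  have hpN : ∀ v, 0 < q v → A (o' (N - 1) v) := fun v hv =>
    hsupp _ ((hch.marg' (N - 1) (by omega)).pos hq.nonneg hv)
  have hp0 : ∀ v, 0 < q v → A (o 0 v) := fun v hv =>
    hsupp _ ((hch.marg 0 (by omega)).pos hq.nonneg hv)
  have hEb : (∑ l ∈ range r, ((J - g' l : ℕ) : ℝ)) * Real.log 2 -
      (∑ l ∈ range r, (1 - g l) - θ / 2) * Real.log 2 * J ≤ (r * φ + θ / 2) * J := by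
    have h1 := mul_le_mul_of_nonneg_right hsum hl2.le
    have h2 : (r * φ + θ / 2) * J * Real.log 2 ≤ (r * φ + θ / 2) * J :=
      mul_le_of_le_one_right hrφ hl2'
    linarith
  have he4 : CH q (fun v (i : Fin (r + 1)) => ndp c (g' r) (P (z (y N v))) (y N v) i)
        (fun v => z (y N v)) -
      CH q (fun v (i : Fin (r + 1)) => ndp c (g' r) (P (z (y N v))) (y N v) i) (y 0) ≤ e := by
    have h1 := dig_le hN hq (o' (N - 1)) hpN hWJ (fun v => z (y N v)) hw'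
    have h2 := dig_ge hN hq (Γ := PtT F) (o' (N - 1)) (y 0) (fun v v' hv hv' e => by
      rw [← hyN v hv, ← hyN v' hv', hcst v hv, hcst v' hv', e]) hg4 hw'
      (hTs.trans (chain_fn hch hN1 (fun ξ : PtT F => ξ.2.1))) hm1
    have e1 : ∀ {T : Type} (Z : E → T), CH q (fun v (i : Fin (r + 1)) =>
        ndp c (g' r) (P (z (y N v))) (y N v) i) Z = CH q (fun v (i : Fin (r + 1)) =>
        ndp c (g' r) (P (z (ptr F J (o' (N - 1) v)))) (ptr F J (o' (N - 1) v)) i) Z := by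
      intro T Z
      refine CH_congr hq.nonneg ?_ ?_ (fun _ _ _ _ e => e) (fun _ _ _ _ e => e)
      · intro v v' hv hv' e
        have e2 := (Prod.ext_iff.1 e).1
        simp only [hyN v hv, hyN v' hv'] at e2
        exact e2
      · intro v v' hv hv' e
        have e2 := (Prod.ext_iff.1 e).1
        simp only [← hyN v hv, ← hyN v' hv'] at e2
        exact e2
    rw [e1, e1, he]
    linarith
  have he4' : CH q (fun v (i : Fin (r + 1)) => ndp c (g' r) (P (z (y 0 v))) (y 0 v) i)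
        (fun v => z (y 0 v)) -
      CH q (fun v (i : Fin (r + 1)) => ndp c (g' r) (P (z (y 0 v))) (y 0 v) i) (y N) ≤ e := by
    have h1 := dig_le hN hq (o 0) hp0 hWJ (fun v => z (y 0 v)) hw'
    have h2 := dig_ge hN hq (Γ := PtT F) (o 0) (y N) (fun v v' hv hv' e => by
      rw [← hy0 v hv, ← hy0 v' hv', ← hcst v hv, ← hcst v' hv', e]) hg4 hw'
      (hTs.trans (chain_fn' hch hN1 (fun ξ : PtT F => ξ.2.1))) hm2
    have e1 : ∀ {T : Type} (Z : E → T), CH q (fun v (i : Fin (r + 1)) =>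
        ndp c (g' r) (P (z (y 0 v))) (y 0 v) i) Z = CH q (fun v (i : Fin (r + 1)) =>
        ndp c (g' r) (P (z (ptr F J (o 0 v)))) (ptr F J (o 0 v)) i) Z := by
      intro T Z
      refine CH_congr hq.nonneg ?_ ?_ (fun _ _ _ _ e => e) (fun _ _ _ _ e => e)
      · intro v v' hv hv' e
        have e2 := (Prod.ext_iff.1 e).1
        simp only [hy0 v hv, hy0 v' hv'] at e2
        exact e2
      · intro v v' hv hv' e
        have e2 := (Prod.ext_iff.1 e).1
        simp only [← hy0 v hv, ← hy0 v' hv'] at e2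
        exact e2
    rw [e1, e1, he]
    linarith
  rcases hfam F c W g' L A V z z' P κ N E q o o' l y (6 * (τ * J)) e e e hN hL hA hg4 hWg hWw' hwk
    hch (by positivity) he0 he0 he0 het (by
      rw [← Finset.sum_mul]
      have h1 : ∑ i : Fin (r + 1), ((g' r : ℝ) - wid W g' i) =
          ∑ i ∈ range (r + 1), ((g' r - wid W g' i : ℕ) : ℝ) := by
        rw [Finset.sum_range]
        refine Finset.sum_congr rfl fun i _ => ?_
        rw [Nat.cast_sub (hw' i i.2)]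
      rw [h1]
      exact he2) he4 he4' with hbad | hgood
  · exfalso
    have h1 : e + e + e + N * (6 * (τ * J) + 1) + Real.log (1 + L) + 1 ≤ 5 * θ * J := by
      have h2 : (N : ℝ) * (6 * (τ * J) + 1) ≤ N₀ * (6 * (τ * J) + 1) :=
        mul_le_mul_of_nonneg_right (by exact_mod_cast hNN) (by positivity)
      have h3 : c₀ ≤ θ * J := by
        have h4 : c₀ / θ < J := hJ₁.trans_le hJ1
        rw [div_lt_iff₀ hθ0] at h4
        linarith
      have h5 : 6 * (3 + N₀) * τ * J ≤ θ * J := mul_le_mul_of_nonneg_right hτθ hJp.le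
      have h6 : (3 * r + 1) * φ * J ≤ θ * J := mul_le_mul_of_nonneg_right hφθ hJp.le
      rw [hc₀] at h3
      rw [he]
      have h7 : 0 ≤ θ * J := by positivity
      linarith
    have h2 : C * (e + e + e + N * (6 * (τ * J) + 1) + Real.log (1 + L) + 1) ≤
        (C + 1) * (5 * θ * J) := by
      have h3 : 0 ≤ 5 * θ * J := by positivity
      calc _ ≤ C * (5 * θ * J) := mul_le_mul_of_nonneg_left h1 hC
        _ ≤ _ := by linarith
    have h3 : κ₀ / 2 * J * Real.log 2 ≤ κ * Real.log 2 := mul_le_mul_of_nonneg_right hκ2 hl2.le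
    have h4 : (C + 1) * (5 * θ * J) < κ₀ / 2 * J * Real.log 2 := by
      have h5 : κ₀ / 2 * J * Real.log 2 = (κ₀ * Real.log 2) * J / 2 := by ring
      rw [h5, ← hθC]
      have h6 : 0 < (C + 1) * θ * J := by positivity
      linarith
    linarith
  · obtain ⟨ω, hAω, hpω, R, hRD, hRv, b₀, hb₀, hb₀p, hjet⟩ := hgood
    refine ⟨ω, hAω, hpω, R, _, C' * κ, ?_, ⟨hRD, hRv, hb₀p, ⟨b₀, hb₀, rfl⟩, hjet⟩⟩
    push_cast
    calc (C' : ℝ) * κ ≤ C' * (κ₀ * J) := mul_le_mul_of_nonneg_left hκ1 (Nat.cast_nonneg _)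
      _ ≤ ((C' + 1) * κ₀) * J := by
        have : 0 ≤ κ₀ * J := by positivity
        linarith
      _ ≤ δ * J := mul_le_mul_of_nonneg_right hκδ hJp.le

end Pool.M3F
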