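import Pool.Agent.H5.M3F.Nlx
import Pool.Agent.H5.M3F.Jtp

/-!
# Closed labels with jets, and jets on the point side, in a class

`m3f_cls`: from chains of two-sided labels on a large event of a class which is exact in the
coordinates `c 0, …, c (r - 1)`, to closed labels on natural boxes, together with closed polynomials
of universal degree which are small on the leaf of `c r` with all their derivatives in this
direction, on the leaf of the closed label and on the leaf of the point side.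
-/

set_option autoImplicit false

namespace Pool.M3F

open Finset Real MvPolynomial
open Pool.Agent.H49.Ent Pool.Agent.H32.Dense Pool.STK Pool.KA Pool.KSAT Pool.K2S Pool.KS3 Pool.PB
  Pool.STAT Pool.STAT.CLO Pool.GEN Pool.S6C

variable {m J : ℕ}

/-- Less precision for the last coordinate, and a smaller event. -/
theorem NLab.mono {F : Fam m J} {c : ℕ → Fin m} {r W : ℕ} {g g₂ : ℕ → ℕ} {K : ℕ} {L : ℝ}
    {B B' : F.Ω → Prop} {V : Type} {z : PtT F → V} {z' : LnT F → V} {P : V → ℕ → PN}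
    (h : NLab F c r W g K L B z z' P) (hg : ∀ i < r, g₂ i = g i) (hr : g₂ r ≤ g r)
    (hB : ∀ ω, B' ω → B ω) : NLab F c r W g₂ K L B' z z' P := by
  have hw : ∀ j < r + 1, wid W g₂ j = wid W g j := by
    intro j hj
    unfold wid
    by_cases h0 : j = 0
    · rw [if_pos h0, if_pos h0]
    · rw [if_neg h0, if_neg h0, hg (j - 1) (by omega)]
  refine ⟨h.deg, h.tri, fun ω hω => h.cls ω (hB ω hω), fun ω hω => h.zero ω (hB ω hω), ?_, ?_⟩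
  · intro ω hω i hi
    refine (h.pos ω (hB ω hω) i hi).trans ?_
    refine one_div_le_one_div_of_le (by positivity) (pow_le_pow_right₀ (by norm_num) ?_)
    rcases Nat.lt_or_ge i r with h1 | h1
    · rw [hg i h1]
    · have h2 : i = r := by omega
      rw [h2]
      exact hr
  · intro ω hω b hb
    refine h.grad ω (hB ω hω) b fun j hj => ?_
    rw [← hw j hj]
    exact hb j hj

theorem Pe_spl {Ω : Type} [Fintype Ω] (p : Ω → ℝ) (A R : Ω → Prop) :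
    Pe p A = Pe p (fun ω => A ω ∧ R ω) + Pe p (fun ω => A ω ∧ ¬ R ω) := by
  classical
  rw [Pe_eq, Pe_eq, Pe_eq, ← Finset.sum_add_distrib]
  refine Finset.sum_congr rfl fun ω _ => ?_
  by_cases h1 : A ω <;> by_cases h2 : R ω <;> simp [h1, h2]

/-- **Closed labels with jets in a class.** From a chain of two-sided labels at the window
`2 ^ (-⌊w J⌋)`, on a large event `A` of a class which is exact in the coordinates
`c 0, …, c (r - 1)`, to closed labels `P (z ·)` on an event `B` of comparable probability with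
closed polynomials `Q (z ·)` of universal degree `D`: these are small, with all their derivatives in
the direction of `c r`, on the leaf of the closed label (`Jet`) and on the leaf of the point side
(`JetP`). -/
theorem m3f_cls (r : ℕ) : ∃ D : ℕ, ∀ K : ℕ, ∃ (sh sh₂ K' : ℕ) (S₀ E : ℝ), sh ≤ sh₂ ∧ 1 ≤ K' ∧
    1 ≤ S₀ ∧ 1 ≤ E ∧ ∀ {m : ℕ} (S : PCl m),
    (∀ (τ : ℝ) (J : ℕ) (F : Fam m J) (A : F.Ω → Prop), S.St τ J F A →
      F.Tr ∧ F.Tm (τ * J) ∧ F.Rb (τ * J) ∧ Real.exp (-(τ * J)) ≤ Pe F.p A) →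
    ∀ (c : ℕ → Fin m) (w : ℝ) (g : ℕ → ℝ) (γ : ℝ), Inj c (r + 1) → 0 ≤ w → 0 < γ →
    (∀ l ≤ r, w ≤ g l) → (∀ l ≤ r, γ ≤ g l) → (∀ l l', l ≤ l' → l' ≤ r → g l ≤ g l') →
    (∀ l < r, g l + 2 * γ ≤ g r) → w + 2 * γ ≤ g r → g r ≤ 1 →
    (∀ ρ : ℝ, 0 < ρ → ExvY S w (fun J F ω (i : Fin r) => F.X J ω (c i))
      ((∑ l ∈ range r, (1 - g l)) - ρ)) →
    ∀ δ : ℝ, 0 < δ → ∃ φ : ℝ, 0 < φ ∧ Bas S (fun J F A => ∀ (e : ℕ) (g' Kv : ℕ → ℕ)
      (G : PtT F → ℕ → MvPolynomial (Option (Fin m)) ℝ)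
      (H : LnT F → ℕ → MvPolynomial (Option (Fin m)) ℝ),
      (∀ l ≤ r, |(g' l : ℝ) - g l * J| ≤ φ * J) → (e : ℝ) ≤ φ * J → (∀ i < r + 1, Kv i ≤ K) →
      ChOK F c (r + 1) Kv ⌊w * J⌋₊ ⌊w * J⌋₊ e g' A G H →
      ∃ (g₂ g'' : ℕ → ℕ) (B : F.Ω → Prop) (L : ℝ) (V : Type) (z : PtT F → V) (z' : LnT F → V)
        (P : V → ℕ → PN) (Q : V → PN) (T : V → ℝ) (k : V → ℕ),
        (∀ l < r, g'' l = g' l) ∧ g'' r ≤ g' r ∧ (∀ l < r, g₂ l = g' l - sh) ∧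
        (∀ l < r, sh ≤ g' l) ∧ g₂ r + sh₂ = g'' r ∧ (g r - δ) * J ≤ g₂ r ∧ g'' r ≤ J ∧
        (∀ ω, B ω → A ω) ∧ Pe F.p A ≤ 4 * (K' * 5 ^ m) * Pe F.p B ∧ 0 ≤ L ∧
        Real.log (1 + L) ≤ δ * J ∧ NLab F c r ⌊w * J⌋₊ g₂ K' L B z z' P ∧
        ∀ ω, B ω → Nr K' S₀ (gg ⌊w * J⌋₊ g'') (P (z (ptr F J ω)))
            (Gs c (r + 1) ⌊w * J⌋₊ G (ptr F J ω)) (r + 2) ∧
          (k (z (ptr F J ω)) : ℝ) ≤ δ * J ∧
          Jet r D (wid ⌊w * J⌋₊ g₂) (P (z (ptr F J ω))) (Q (z (ptr F J ω)))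
            (2 ^ k (z (ptr F J ω)) / 2 ^ g₂ r) (T (z (ptr F J ω))) ∧
          JetP c r D (G (ptr F J ω)) g' ⌊w * J⌋₊ (F.t ω) (bk c (Q (z (ptr F J ω))))
            (2 ^ k (z (ptr F J ω)) / 2 ^ g₂ r) (4 / 3 * T (z (ptr F J ω))) E) := by
  classical
  obtain ⟨D, hT1⟩ := m3f_nlab r
  refine ⟨D, fun K => ?_⟩
  obtain ⟨sh, K', S₀, hK', hS₀, hsh, hT2⟩ := nlab_class r K
  obtain ⟨sh₂, E, hsh₂, hE, hJP⟩ := jetp_of r D K K' sh S₀ hK' hS₀ hsh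
  refine ⟨sh, sh₂, K', S₀, E, hsh₂, hK', hS₀, hE, ?_⟩
  intro m S hmem c w g γ hc hw hγ hwg hγg hsort hgap hwgap hgr hex δ hδ
  have hw1 : w ≤ 1 := by linarith
  obtain ⟨φ₁, hφ₁, τ₁, hτ₁, J₁, h1⟩ := hT1 S hmem c w g hw hw1 (fun l hl => hwg l hl.le) hex K' γ
    δ hγ hδ
  obtain ⟨ψ, hψ⟩ : ∃ ψ : ℝ, ψ = min (φ₁ / 2) (min (δ / 2) (γ / 4)) := ⟨_, rfl⟩
  have hψ0 : 0 < ψ := by
    rw [hψ]
    exact lt_min (by positivity) (lt_min (by positivity) (by positivity))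
  have hψ1 : ψ ≤ φ₁ / 2 := by
    rw [hψ]
    exact min_le_left _ _
  have hψ2 : ψ ≤ δ / 2 := by
    rw [hψ]
    exact (min_le_right _ _).trans (min_le_left _ _)
  have hψ3 : ψ ≤ γ / 4 := by
    rw [hψ]
    exact (min_le_right _ _).trans (min_le_right _ _)
  obtain ⟨φ₂, hφ₂, τ₂, hτ₂, J₂, h2⟩ := hT2 S hmem c w g γ hc hw hγ (by linarith) hwg hγg hsort
    (fun l hl => by have := hgap l hl; linarith) hgr hex ψ hψ0
  obtain ⟨φ, hφ⟩ : ∃ φ : ℝ, φ = min φ₂ ψ := ⟨_, rfl⟩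
  have hφ0 : 0 < φ := by
    rw [hφ]
    exact lt_min hφ₂ hψ0
  have hφ1 : φ ≤ φ₂ := by
    rw [hφ]
    exact min_le_left _ _
  have hφψ : φ ≤ ψ := by
    rw [hφ]
    exact min_le_right _ _
  obtain ⟨τ, hτ⟩ : ∃ τ : ℝ, τ = min τ₂ (τ₁ / 2) := ⟨_, rfl⟩
  have hτ0 : 0 < τ := by
    rw [hτ]
    exact lt_min hτ₂ (by positivity)
  have hτ1 : τ ≤ τ₂ := by
    rw [hτ]
    exact min_le_left _ _
  have hτ2 : τ + τ ≤ τ₁ := by
    have : τ ≤ τ₁ / 2 := by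
      rw [hτ]
      exact min_le_right _ _
    linarith
  obtain ⟨J₃, hJ₃⟩ := exists_nat_gt (Real.log (4 * (K' * 5 ^ m)) / τ)
  obtain ⟨J₄, hJ₄⟩ := exists_nat_gt ((sh₂ : ℝ) / ψ)
  refine ⟨φ, hφ0, τ, hτ0, max (max J₁ J₂) (max J₃ (max J₄ 1)), ?_⟩
  intro J hJ F A hS e g' Kv G H hg' he hKv hCh
  have hJ1 : J₁ ≤ J := (le_max_left _ _).trans ((le_max_left _ _).trans hJ)
  have hJ2 : J₂ ≤ J := (le_max_right _ _).trans ((le_max_left _ _).trans hJ)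
  have hJ3 : (J₃ : ℝ) ≤ J := by
    exact_mod_cast (le_max_left J₃ _).trans ((le_max_right _ _).trans hJ)
  have hJ4 : (J₄ : ℝ) ≤ J := by
    exact_mod_cast (le_max_left J₄ 1).trans ((le_max_right J₃ _).trans
      ((le_max_right _ _).trans hJ))
  have hJ5 : (1 : ℝ) ≤ J := by
    exact_mod_cast (le_max_right J₄ 1).trans ((le_max_right J₃ _).trans
      ((le_max_right _ _).trans hJ))
  have hJp : (0 : ℝ) < J := by linarith
  have hshJ : (sh₂ : ℝ) ≤ ψ * J := by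
    have h3 : (sh₂ : ℝ) / ψ < J := hJ₄.trans_le hJ4
    rw [div_lt_iff₀ hψ0] at h3
    linarith
  have hshJ' : (sh : ℝ) ≤ ψ * J := by
    have : (sh : ℝ) ≤ sh₂ := by exact_mod_cast hsh₂
    linarith
  have hφJ : φ * J ≤ φ₂ * J := mul_le_mul_of_nonneg_right hφ1 hJp.le
  have hφψJ : φ * J ≤ ψ * J := mul_le_mul_of_nonneg_right hφψ hJp.le
  have hψγJ : ψ * J ≤ γ / 4 * J := mul_le_mul_of_nonneg_right hψ3 hJp.le
  have hψφJ : ψ * J ≤ φ₁ / 2 * J := mul_le_mul_of_nonneg_right hψ1 hJp.le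
  have hψδJ : ψ * J ≤ δ / 2 * J := mul_le_mul_of_nonneg_right hψ2 hJp.le
  obtain ⟨g'', B₁, L, V, z, z', P, hg1, hg2, hg3, hg4, hg5, hBA, hBp, hL, hLJ, hN, hNr⟩ :=
    h2 J hJ2 F A (S.mono hτ1 hS) e g' Kv G H (fun l hl => (hg' l hl).trans hφJ) (he.trans hφJ)
      hKv hCh
  have hsh₂r : sh₂ ≤ g'' r := by
    have h3 := hγg r le_rfl
    have h4 : (γ - ψ) * J ≤ (g r - ψ) * J := mul_le_mul_of_nonneg_right (by linarith) hJp.le
    have h5 : (sh₂ : ℝ) ≤ g'' r := by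
      have : 0 ≤ γ * J := by positivity
      linarith
    exact_mod_cast h5
  -- the precisions
  obtain ⟨g₂, hg₂⟩ : ∃ g₂ : ℕ → ℕ, g₂ = fun i => if i = r then g'' r - sh₂ else g'' i - sh :=
    ⟨_, rfl⟩
  have hg₂r : g₂ r = g'' r - sh₂ := by
    rw [hg₂]
    exact if_pos rfl
  have hg₂l : ∀ i < r, g₂ i = g'' i - sh := fun i hi => by
    rw [hg₂]
    exact if_neg hi.ne
  have hg₂R : (g₂ r : ℝ) = g'' r - sh₂ := by
    rw [hg₂r, Nat.cast_sub hsh₂r]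
  have hg₂lo : (g r - 2 * ψ) * J ≤ g₂ r := by
    rw [hg₂R]
    linarith
  have hg₂L : ∀ i < r, (g₂ i : ℝ) = g' i - sh := fun i hi => by
    rw [hg₂l i hi, Nat.cast_sub (hg4 i hi.le), hg1 i hi]
  -- the good labels
  obtain ⟨Gd, hGd⟩ : ∃ Gd : V → Prop, Gd = fun v => ∃ (Q : PN) (T : ℝ) (k : ℕ),
      (k : ℝ) ≤ δ * J ∧ Jet r D (wid ⌊w * J⌋₊ g₂) (P v) Q (2 ^ k / 2 ^ g₂ r) T := ⟨_, rfl⟩
  have hKc : (1 : ℝ) ≤ K' * 5 ^ m := by
    have h3 : (1 : ℝ) ≤ K' := by exact_mod_cast hK'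
    have h4 : (1 : ℝ) ≤ 5 ^ m := one_le_pow₀ (by norm_num)
    nlinarith
  have hA0 : 0 < Pe F.p A := lt_of_lt_of_le (Real.exp_pos _) (hmem τ J F A hS).2.2.2
  have hbad : Pe F.p (fun ω => B₁ ω ∧ ¬ Gd (z (ptr F J ω))) ≤ 1 / 2 * Pe F.p B₁ := by
    by_contra hcon
    push Not at hcon
    have h3 : Pe F.p A ≤ 4 * (K' * 5 ^ m) * Pe F.p (fun ω => B₁ ω ∧ ¬ Gd (z (ptr F J ω))) := by
      refine hBp.trans ?_
      have h4 : 0 ≤ 4 * (K' * 5 ^ m : ℝ) := by linarith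
      have := mul_le_mul_of_nonneg_left hcon.le h4
      linarith
    have h4 : (4 * (K' * 5 ^ m) : ℝ) ≤ Real.exp (τ * J) := by
      have h5 : Real.log (4 * (K' * 5 ^ m)) / τ < J := hJ₃.trans_le hJ3
      rw [div_lt_iff₀ hτ0] at h5
      rw [← Real.log_le_iff_le_exp (by linarith)]
      linarith
    have h5 : 0 ≤ Pe F.p (fun ω => B₁ ω ∧ ¬ Gd (z (ptr F J ω))) := Pe_nonneg F.isLaw _
    have hSC : S.St (τ + τ) J F (fun ω => B₁ ω ∧ ¬ Gd (z (ptr F J ω))) := by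
      refine S.res hτ0.le hS (fun ω hω => hBA ω hω.1) ?_
      calc Real.exp (-(τ * J)) * Pe F.p A ≤ Real.exp (-(τ * J)) *
            (Real.exp (τ * J) * Pe F.p (fun ω => B₁ ω ∧ ¬ Gd (z (ptr F J ω)))) :=
            mul_le_mul_of_nonneg_left (h3.trans (mul_le_mul_of_nonneg_right h4 h5))
              (Real.exp_pos _).le
        _ = Pe F.p (fun ω => B₁ ω ∧ ¬ Gd (z (ptr F J ω))) := by
          rw [← mul_assoc, ← Real.exp_add, neg_add_cancel, Real.exp_zero, one_mul]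
    obtain ⟨ω, hω, hpω, Q, T, k, hk, hjet⟩ := h1 J hJ1 F _ (S.mono hτ2 hSC) g₂ L V z z' P
      (fun l hl => by
        rw [hg₂L l hl]
        have h6 := (abs_le.1 (hg' l hl.le)).1
        linarith)
      (fun l hl => by
        rw [hg₂L l hl]
        have h6 := (abs_le.1 (hg' l hl.le)).2
        have h7 : (g l + 2 * γ) * J ≤ g r * J := mul_le_mul_of_nonneg_right (hgap l hl) hJp.le
        have h8 : (0 : ℝ) ≤ sh := Nat.cast_nonneg _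
        linarith)
      (by
        have h7 : (w + 2 * γ) * J ≤ g r * J := mul_le_mul_of_nonneg_right hwgap hJp.le
        linarith)
      (by
        rw [hg₂r]
        omega) hL (by linarith)
      (hN.mono (fun i hi => hg₂l i hi) (by
        show g₂ r ≤ g'' r - sh
        rw [hg₂r]
        omega) fun ω hω => hω.1)
    refine hω.2 ?_
    rw [hGd]
    exact ⟨Q, T, k, hk, hjet⟩
  obtain ⟨Q, hQ⟩ : ∃ Q : V → PN, ∀ v, Gd v → ∃ (T : ℝ) (k : ℕ),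
      (k : ℝ) ≤ δ * J ∧ Jet r D (wid ⌊w * J⌋₊ g₂) (P v) (Q v) (2 ^ k / 2 ^ g₂ r) T := by
    have h3 : ∀ v, ∃ Q : PN, Gd v → ∃ (T : ℝ) (k : ℕ),
      (k : ℝ) ≤ δ * J ∧ Jet r D (wid ⌊w * J⌋₊ g₂) (P v) Q (2 ^ k / 2 ^ g₂ r) T := by
      intro v
      by_cases hv : Gd v
      · have hv' := hv
        rw [hGd] at hv'
        obtain ⟨Q, T, k, h4⟩ := hv'
        exact ⟨Q, fun _ => ⟨T, k, h4⟩⟩
      · exact ⟨0, fun h => absurd h hv⟩
    choose Q hQ using h3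
    exact ⟨Q, hQ⟩
  obtain ⟨T, hT⟩ : ∃ T : V → ℝ, ∀ v, Gd v → ∃ (k : ℕ),
      (k : ℝ) ≤ δ * J ∧ Jet r D (wid ⌊w * J⌋₊ g₂) (P v) (Q v) (2 ^ k / 2 ^ g₂ r) (T v) := by
    have h3 : ∀ v, ∃ T : ℝ, Gd v → ∃ (k : ℕ),
      (k : ℝ) ≤ δ * J ∧ Jet r D (wid ⌊w * J⌋₊ g₂) (P v) (Q v) (2 ^ k / 2 ^ g₂ r) T := by
      intro v
      by_cases hv : Gd v
      · obtain ⟨T, h4⟩ := hQ v hv
        exact ⟨T, fun _ => h4⟩
      · exact ⟨0, fun h => absurd h hv⟩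
    choose T hT using h3
    exact ⟨T, hT⟩
  obtain ⟨k, hk⟩ : ∃ k : V → ℕ, ∀ v, Gd v →
      (k v : ℝ) ≤ δ * J ∧ Jet r D (wid ⌊w * J⌋₊ g₂) (P v) (Q v) (2 ^ k v / 2 ^ g₂ r) (T v) := by
    have h3 : ∀ v, ∃ k : ℕ, Gd v →
      (k : ℝ) ≤ δ * J ∧ Jet r D (wid ⌊w * J⌋₊ g₂) (P v) (Q v) (2 ^ k / 2 ^ g₂ r) (T v) := by
      intro v
      by_cases hv : Gd v
      · obtain ⟨k, h4⟩ := hT v hv
        exact ⟨k, fun _ => h4⟩
      · exact ⟨0, fun h => absurd h hv⟩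
    choose k hk using h3
    exact ⟨k, hk⟩
  refine ⟨g₂, g'', fun ω => B₁ ω ∧ Gd (z (ptr F J ω)), L, V, z, z', P, Q, T, k, hg1, hg2,
    fun l hl => by rw [hg₂l l hl, hg1 l hl], fun l hl => by
      have := hg4 l hl.le
      rwa [hg1 l hl] at this, by omega, ?_, hg5,
    fun ω hω => hBA ω hω.1, ?_, hL, by linarith, ?_, ?_⟩
  · refine le_trans ?_ hg₂lo
    exact mul_le_mul_of_nonneg_right (by linarith) hJp.le
  · have h3 := Pe_spl F.p B₁ (fun ω => Gd (z (ptr F J ω)))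
    have h4 : Pe F.p B₁ ≤ 2 * Pe F.p (fun ω => B₁ ω ∧ Gd (z (ptr F J ω))) := by linarith
    have h5 : (0 : ℝ) ≤ 2 * (K' * 5 ^ m) := by linarith
    have := mul_le_mul_of_nonneg_left h4 h5
    linarith
  · exact hN.mono (fun i hi => hg₂l i hi) (by
      show g₂ r ≤ g'' r - sh
      rw [hg₂r]
      omega) fun ω hω => hω.1
  · intro ω hω
    obtain ⟨hk1, hk2⟩ := hk _ hω.2
    refine ⟨hNr ω hω.1, hk1, hk2, ?_⟩
    have hWJ : ⌊w * J⌋₊ ≤ J := by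
      have h3 : ((⌊w * J⌋₊ : ℕ) : ℝ) ≤ w * J := Nat.floor_le (by positivity)
      have h4 : ((⌊w * J⌋₊ : ℕ) : ℝ) ≤ J := h3.trans (by nlinarith)
      exact_mod_cast h4
    refine (hJP F c ⌊w * J⌋₊ g'' g₂ (G (ptr F J ω)) (P (z (ptr F J ω))) ω (Q (z (ptr F J ω)))
      (2 ^ k (z (ptr F J ω)) / 2 ^ g₂ r) (T (z (ptr F J ω))) hWJ hc
      (fun i hi => (hCh.degG _ i).trans (hKv i hi)) (hCh.depG _) (fun i hi => hg4 i hi.le) hsh₂r
      hg₂l (hNr ω hω.1) ?_ hk2).congr hg1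
    rw [← hg₂r]
    exact div_le_div_of_nonneg_right (one_le_pow₀ (by norm_num)) (by positivity)

end Pool.M3F
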