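import Pool.Agent.H5.M3F.M3N

/-!
# Closed labels on natural boxes in a class

`nlab_class`: from chains of two-sided labels at a window, on a large event of a class which is
exact in the coordinates `c 0, …, c (r - 1)`, to closed labels on natural boxes with all
derivatives bounded, on an event of comparable probability.
-/

set_option autoImplicit false

namespace Pool.M3F

open Finset Real MvPolynomial
open Pool.Agent.H49.Ent Pool.Agent.H32.Dense Pool.STK Pool.KA Pool.KSAT Pool.K2S Pool.KS3 Pool.PB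
  Pool.STAT Pool.STAT.CLO Pool.GEN Pool.S6C

theorem num_lam {x c₁ y lam l2 : ℝ} (hl2 : 1 / 2 ≤ l2) (hc : c₁ ≤ x) (hx : 1 ≤ x)
    (hy : 32 * x ≤ y) (hlam : y / 2 < lam + 1) (hlam0 : 0 ≤ lam) : x + c₁ ≤ lam * l2 := by
  have h2 : lam * (1 / 2) ≤ lam * l2 := mul_le_mul_of_nonneg_left hl2 hlam0
  linarith

theorem num_log {C₀ x L₀ c : ℝ} {n : ℕ} (hx : 0 ≤ x) (hC₀ : 1 ≤ C₀)
    (hL₀ : L₀ = C₀ * 2 ^ n) (hc : Real.log 2 + x + Real.log (2 * C₀) + n ≤ c) :
    Real.log (1 + Real.exp x * (1 + L₀)) ≤ c := by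
  have hl2 : 0 < Real.log 2 := Real.log_pos one_lt_two
  have hl2' : Real.log 2 ≤ 1 := by
    have := Real.log_two_lt_d9
    linarith
  have h3 : (1 : ℝ) ≤ 2 ^ n := one_le_pow₀ (by norm_num)
  have h0 : (1 : ℝ) ≤ C₀ * 2 ^ n := by
    calc (1 : ℝ) = 1 * 1 := (one_mul 1).symm
      _ ≤ C₀ * 2 ^ n := mul_le_mul hC₀ h3 zero_le_one (by linarith)
  have h4 : 1 + L₀ ≤ 2 * C₀ * 2 ^ n := by
    rw [hL₀, mul_assoc]
    linarith
  have hL : 0 ≤ L₀ := by
    rw [hL₀]
    linarith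
  have h2 : 1 ≤ Real.exp x := Real.one_le_exp hx
  have h5 : 1 ≤ Real.exp x * (2 * C₀ * 2 ^ n) := by
    calc (1 : ℝ) = 1 * 1 := (one_mul 1).symm
      _ ≤ Real.exp x * (2 * C₀ * 2 ^ n) := mul_le_mul h2 (by linarith) zero_le_one
        (Real.exp_pos x).le
  have h7 : Real.exp x * (1 + L₀) ≤ Real.exp x * (2 * C₀ * 2 ^ n) :=
    mul_le_mul_of_nonneg_left h4 (Real.exp_pos _).le
  have h1 : 1 + Real.exp x * (1 + L₀) ≤ 2 * (Real.exp x * (2 * C₀ * 2 ^ n)) := by linarith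
  have h8 : Real.log (1 + Real.exp x * (1 + L₀)) ≤
      Real.log 2 + (x + (Real.log (2 * C₀) + n * Real.log 2)) := by
    refine (Real.log_le_log (by positivity) h1).trans (le_of_eq ?_)
    rw [Real.log_mul (by norm_num) (by positivity), Real.log_mul (Real.exp_pos _).ne'
      (by positivity), Real.log_exp, Real.log_mul (by positivity) (by positivity), Real.log_pow]
  have h9 : (n : ℝ) * Real.log 2 ≤ n * 1 := mul_le_mul_of_nonneg_left hl2' (Nat.cast_nonneg n)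
  linarith

theorem num_fin {C₁ r φJ sh u y e v l2 lC c₁ b : ℝ} (hC₁ : 1 ≤ C₁) (hr : 0 ≤ r)
    (hφ : 0 ≤ φJ) (hu : u ≤ 6 * φJ + sh + 1) (hy : y ≤ φJ)
    (hb : b = C₁ * (r + 1) + 9) (hc₁ : c₁ = C₁ * ((r + 1) * sh + 2) + l2 + lC + 1)
    (hcJ : c₁ ≤ b * φJ) (he : e ≤ φJ) (hv : v ≤ 4 * φJ) :
    l2 + C₁ * (y + (r * φJ + r * sh) + u + 1) + lC + (e + 2 * v) ≤ 16 * (b * φJ) := by
  have h4 : C₁ * (y + (r * φJ + r * sh) + u + 1) ≤
      C₁ * (7 * (r + 1) * φJ + ((r + 1) * sh + 2)) := by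
    refine mul_le_mul_of_nonneg_left ?_ (by linarith)
    have h5 : 0 ≤ r * φJ := by positivity
    linarith
  have h5 : C₁ * (7 * (r + 1) * φJ + ((r + 1) * sh + 2)) =
      7 * (C₁ * (r + 1) * φJ) + C₁ * ((r + 1) * sh + 2) := by ring
  have h6 : b * φJ = C₁ * (r + 1) * φJ + 9 * φJ := by
    rw [hb]
    ring
  have h7 : 0 ≤ C₁ * (r + 1) * φJ := by positivity
  rw [hc₁] at hcJ
  linarith

theorem nlab_class (r K : ℕ) : ∃ (sh K' : ℕ) (S₀ : ℝ), 1 ≤ K' ∧ 1 ≤ S₀ ∧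
    1 + (K' * S₀ * 2) ^ K' ≤ 2 * 2 ^ sh ∧ ∀ {m : ℕ} (S : PCl m),
    (∀ (τ : ℝ) (J : ℕ) (F : Fam m J) (A : F.Ω → Prop), S.St τ J F A →
      F.Tr ∧ F.Tm (τ * J) ∧ F.Rb (τ * J) ∧ Real.exp (-(τ * J)) ≤ Pe F.p A) →
    ∀ (c : ℕ → Fin m) (w : ℝ) (g : ℕ → ℝ) (γ : ℝ), Inj c (r + 1) → 0 ≤ w → 0 < γ →
    w + γ ≤ 1 → (∀ l ≤ r, w ≤ g l) → (∀ l ≤ r, γ ≤ g l) →
    (∀ l l', l ≤ l' → l' ≤ r → g l ≤ g l') → (∀ l < r, g l + γ ≤ 1) → g r ≤ 1 →
    (∀ ρ : ℝ, 0 < ρ → ExvY S w (fun J F ω (i : Fin r) => F.X J ω (c i))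
      ((∑ l ∈ range r, (1 - g l)) - ρ)) →
    ∀ ψ : ℝ, 0 < ψ → ∃ φ : ℝ, 0 < φ ∧ Bas S (fun J F A => ∀ (e : ℕ) (g' Kv : ℕ → ℕ)
      (G : PtT F → ℕ → MvPolynomial (Option (Fin m)) ℝ)
      (H : LnT F → ℕ → MvPolynomial (Option (Fin m)) ℝ),
      (∀ l ≤ r, |(g' l : ℝ) - g l * J| ≤ φ * J) → (e : ℝ) ≤ φ * J → (∀ i < r + 1, Kv i ≤ K) →
      ChOK F c (r + 1) Kv ⌊w * J⌋₊ ⌊w * J⌋₊ e g' A G H →
      ∃ (g'' : ℕ → ℕ) (B : F.Ω → Prop) (L : ℝ) (V : Type) (z : PtT F → V) (z' : LnT F → V)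
        (P : V → ℕ → PN), (∀ l < r, g'' l = g' l) ∧ g'' r ≤ g' r ∧ (g r - ψ) * J ≤ g'' r ∧
        (∀ i ≤ r, sh ≤ g'' i) ∧ g'' r ≤ J ∧
        (∀ ω, B ω → A ω) ∧ Pe F.p A ≤ 2 * (K' * 5 ^ m) * Pe F.p B ∧ 0 ≤ L ∧
        Real.log (1 + L) ≤ ψ * J ∧ NLab F c r ⌊w * J⌋₊ (fun i => g'' i - sh) K' L B z z' P ∧
        ∀ ω, B ω → Nr K' S₀ (gg ⌊w * J⌋₊ g'') (P (z (ptr F J ω)))
          (Gs c (r + 1) ⌊w * J⌋₊ G (ptr F J ω)) (r + 2)) := by
  classical
  obtain ⟨sh, K', s₁, C₀, S₀, hK', hC₀, hS₀, hsh, hplab⟩ := plab_of r K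
  obtain ⟨C₁, hC₁, hnlab⟩ := nlab_of_plab r K'
  refine ⟨sh, K', S₀, hK', hS₀, hsh, ?_⟩
  intro m S hmem c w g γ hc hw hγ hwγ hwg hγg hsort hg1 hgr hex ψ hψ
  have hl2 : 0 < Real.log 2 := Real.log_pos one_lt_two
  have hl2' : Real.log 2 ≤ 1 := by
    have := Real.log_two_lt_d9
    linarith
  have hl2'' : 1 / 2 ≤ Real.log 2 := by
    have := Real.log_two_gt_d9
    linarith
  have hpos : ∀ (τ : ℝ) (J : ℕ) (F : Fam m J) (A : F.Ω → Prop), S.St τ J F A → 0 < Pe F.p A :=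
    fun τ J F A h => lt_of_lt_of_le (Real.exp_pos _) (hmem τ J F A h).2.2.2
  have hr0 : (0 : ℝ) ≤ r := Nat.cast_nonneg r
  -- the numbers
  obtain ⟨b, hb⟩ : ∃ b : ℝ, b = C₁ * (r + 1) + 9 := ⟨_, rfl⟩
  have hb0 : 0 < b := by
    rw [hb]
    positivity
  have hγ1 : γ ≤ 1 := by linarith
  obtain ⟨φ, hφ⟩ : ∃ φ : ℝ, φ = min (min (γ / 16) (ψ / (16 * b))) (γ / (32 * b)) := ⟨_, rfl⟩
  have hφ0 : 0 < φ := by
    rw [hφ]
    exact lt_min (lt_min (by positivity) (by positivity)) (by positivity)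
  obtain ⟨τe, hτe, Je, hexe⟩ := hex (φ / 4) (by positivity)
  have hφ1 : 16 * φ ≤ γ := by
    have h1 : φ ≤ γ / 16 := by
      rw [hφ]
      exact (min_le_left _ _).trans (min_le_left _ _)
    linarith
  have hφ2 : 16 * (b * φ) ≤ ψ := by
    have h1 : φ ≤ ψ / (16 * b) := by
      rw [hφ]
      exact (min_le_left _ _).trans (min_le_right _ _)
    rw [le_div_iff₀ (by positivity)] at h1
    linarith
  have hφ3 : 32 * (b * φ) ≤ γ := by
    have h1 : φ ≤ γ / (32 * b) := by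
      rw [hφ]
      exact min_le_right _ _
    rw [le_div_iff₀ (by positivity)] at h1
    linarith
  obtain ⟨τ, hτ⟩ : ∃ τ : ℝ, τ = min (τe / 2) (φ / 12) := ⟨_, rfl⟩
  have hτ0 : 0 < τ := by
    rw [hτ]
    exact lt_min (by positivity) (by positivity)
  have hτ1 : τ + τ ≤ τe := by
    have h1 : τ ≤ τe / 2 := by
      rw [hτ]
      exact min_le_left _ _
    linarith
  have hτ2 : 12 * τ ≤ φ := by
    have h1 : τ ≤ φ / 12 := by
      rw [hτ]
      exact min_le_right _ _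
    linarith
  obtain ⟨c₁, hc₁⟩ : ∃ c₁ : ℝ, c₁ = C₁ * ((r + 1) * sh + 2) + Real.log 2 + Real.log (2 * C₀) + 1 :=
    ⟨_, rfl⟩
  have hlC : 0 ≤ Real.log (2 * C₀) := Real.log_nonneg (by linarith)
  have hc10 : 0 < c₁ := by
    rw [hc₁]
    positivity
  obtain ⟨J₁, hJ₁⟩ := exists_nat_gt (c₁ / (b * φ))
  obtain ⟨J₂, hJ₂⟩ := exists_nat_gt (((sh : ℝ) + s₁ + 1) / φ)
  obtain ⟨J₃, hJ₃⟩ := exists_nat_gt (Real.log (K' * 5 ^ m) / τ)
  refine ⟨φ, hφ0, τ, hτ0, max (max Je J₁) (max J₂ (max J₃ 1)), ?_⟩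
  intro J hJ F A hS e g' Kv G H hg' he hKv hCh
  have hJe : Je ≤ J := (le_max_left _ _).trans ((le_max_left _ _).trans hJ)
  have hJ1 : (J₁ : ℝ) ≤ J := by
    exact_mod_cast (le_max_right Je J₁).trans ((le_max_left _ _).trans hJ)
  have hJ2 : (J₂ : ℝ) ≤ J := by
    exact_mod_cast (le_max_left J₂ _).trans ((le_max_right _ _).trans hJ)
  have hJ3 : (J₃ : ℝ) ≤ J := by
    exact_mod_cast (le_max_left J₃ 1).trans ((le_max_right J₂ _).trans
      ((le_max_right _ _).trans hJ))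
  have hJ4 : (1 : ℝ) ≤ J := by
    exact_mod_cast (le_max_right J₃ 1).trans ((le_max_right J₂ _).trans
      ((le_max_right _ _).trans hJ))
  have hJp : (0 : ℝ) < J := by linarith
  have hφJ : (sh : ℝ) + s₁ + 1 ≤ φ * J := by
    have h1 : ((sh : ℝ) + s₁ + 1) / φ < J := hJ₂.trans_le hJ2
    rw [div_lt_iff₀ hφ0] at h1
    linarith
  have hcJ : c₁ ≤ b * φ * J := by
    have h1 : c₁ / (b * φ) < J := hJ₁.trans_le hJ1
    rw [div_lt_iff₀ (by positivity)] at h1
    linarith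
  have hsh0 : (0 : ℝ) ≤ sh := Nat.cast_nonneg sh
  have hs10 : (0 : ℝ) ≤ s₁ := Nat.cast_nonneg s₁
  have he0 : (0 : ℝ) ≤ e := Nat.cast_nonneg e
  obtain ⟨W, hWe⟩ : ∃ W, W = ⌊w * J⌋₊ := ⟨_, rfl⟩
  rw [← hWe] at hCh ⊢
  have hWw : (W : ℝ) ≤ w * J := by
    rw [hWe]
    exact Nat.floor_le (by positivity)
  have hWJ : W ≤ J := by
    have : (W : ℝ) ≤ J := hWw.trans (mul_le_of_le_one_left hJp.le (by linarith))
    exact_mod_cast this
  have hγφ : 16 * φ * J ≤ γ * J := mul_le_mul_of_nonneg_right hφ1 hJp.le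
  -- sizes
  obtain ⟨v, hv⟩ : ∃ v, v = ⌊4 * φ * J⌋₊ := ⟨_, rfl⟩
  have hv1 : (v : ℝ) ≤ 4 * φ * J := by
    rw [hv]
    exact Nat.floor_le (by positivity)
  have hv2 : 4 * φ * J < v + 1 := by
    rw [hv]
    exact Nat.lt_floor_add_one _
  have hg'1 : ∀ l ≤ r, (g l - φ) * J ≤ g' l := fun l hl => by
    have := (abs_le.1 (hg' l hl)).1
    linarith
  have hg'2 : ∀ l ≤ r, (g' l : ℝ) ≤ (g l + φ) * J := fun l hl => by
    have := (abs_le.1 (hg' l hl)).2
    linarith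
  have hbig : e + v + s₁ ≤ J := by
    have h0 : γ * J ≤ J := mul_le_of_le_one_left hJp.le hγ1
    have h1 : (e : ℝ) + v + s₁ ≤ J := by linarith
    exact_mod_cast h1
  obtain ⟨g'', hg''⟩ : ∃ g'' : ℕ → ℕ, g'' = fun i =>
    if i = r then min (g' r) (J - (e + v + s₁)) else g' i := ⟨_, rfl⟩
  have hr'' : g'' r = min (g' r) (J - (e + v + s₁)) := by
    rw [hg'']
    exact if_pos rfl
  have hl'' : ∀ l < r, g'' l = g' l := fun l hl => by
    rw [hg'']
    exact if_neg hl.ne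
  have hr1 : (((J - (e + v + s₁) : ℕ)) : ℝ) = J - (e + v + s₁) := by
    rw [Nat.cast_sub hbig]
    push_cast
    ring
  have hr2 : (1 - 6 * φ) * J ≤ (((J - (e + v + s₁) : ℕ)) : ℝ) := by
    rw [hr1]
    linarith
  have hr3 : (g r - 6 * φ) * J ≤ g'' r := by
    rw [hr'', Nat.cast_min]
    refine le_min ?_ ?_
    · have h1 := hg'1 r le_rfl
      have h2 : 0 ≤ φ * J := by positivity
      linarith
    · refine le_trans ?_ hr2
      exact mul_le_mul_of_nonneg_right (by linarith) hJp.le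
  have hr4 : g'' r ≤ g' r := by
    rw [hr'']
    exact min_le_left _ _
  have hr5 : g'' r + (e + v) + s₁ ≤ J := by
    have : g'' r ≤ J - (e + v + s₁) := by
      rw [hr'']
      exact min_le_right _ _
    omega
  have hCh' : ChOK F c (r + 1) Kv W W e g'' A G H := hCh.last
    (fun i hi => hl'' i (by omega)) (fun i hi => by
      have : i = r := by omega
      rw [this]
      exact hr4)
  have hlow : ∀ i ≤ r, (g i - 6 * φ) * J ≤ g'' i := by
    intro i hi
    rcases Nat.lt_or_ge i r with h1 | h1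
    · rw [hl'' i h1]
      have h2 := hg'1 i hi
      have h3 : 0 ≤ φ * J := by positivity
      linarith
    · have : i = r := by omega
      rw [this]
      exact hr3
  have hsh' : ∀ i ≤ r, sh ≤ g'' i := by
    intro i hi
    have h1 := hlow i hi
    have h2 := hγg i hi
    have h3 : (g i - 6 * φ) * J ≥ (γ - 6 * φ) * J :=
      mul_le_mul_of_nonneg_right (by linarith) hJp.le
    have h4 : (sh : ℝ) ≤ g'' i := by linarith
    exact_mod_cast h4
  have hup : ∀ i < r, (g'' i : ℝ) ≤ (g i + φ) * J := fun i hi => by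
    rw [hl'' i hi]
    exact hg'2 i hi.le
  have hsort'' : ∀ l i, l ≤ i → i < r + 1 → g'' l ≤ g'' i + v := by
    intro l i hl hi
    rcases Nat.lt_or_ge l r with h1 | h1
    · have h2 := hup l h1
      rcases Nat.lt_or_ge i r with h3 | h3
      · have h4 := hg'1 i h3.le
        rw [← hl'' i h3] at h4
        have h5 := hsort l i hl h3.le
        have h6 : g l * J ≤ g i * J := mul_le_mul_of_nonneg_right h5 hJp.le
        have h7 : (g'' l : ℝ) < g'' i + v + 1 := by linarith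
        have h8 : g'' l < g'' i + v + 1 := by exact_mod_cast h7
        omega
      · have h3' : i = r := by omega
        have h5 := hsort l r h1.le le_rfl
        have h6 : g l * J ≤ g r * J := mul_le_mul_of_nonneg_right h5 hJp.le
        have h6' : (g l + γ) * J ≤ 1 * J := mul_le_mul_of_nonneg_right (hg1 l h1) hJp.le
        rw [h3', hr'']
        have h7 : (g'' l : ℝ) ≤ (min (g' r) (J - (e + v + s₁)) : ℕ) + v := by
          rw [Nat.cast_min]
          rcases min_choice (g' r : ℝ) (((J - (e + v + s₁) : ℕ)) : ℝ) with h8 | h8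
          · rw [h8]
            have h9 := hg'1 r le_rfl
            linarith
          · rw [h8, hr1]
            linarith
        exact_mod_cast h7
    · have h2 : i = l := by omega
      rw [h2]
      omega
  have hJ'' : ∀ i < r + 1, g'' i + (e + v) + s₁ ≤ J := by
    intro i hi
    rcases Nat.lt_or_ge i r with h1 | h1
    · have h2 := hup i h1
      have h6' : (g i + γ) * J ≤ 1 * J := mul_le_mul_of_nonneg_right (hg1 i h1) hJp.le
      have h3 : (g'' i : ℝ) + (e + v) + s₁ ≤ J := by linarith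
      exact_mod_cast h3
    · have : i = r := by omega
      rw [this]
      exact hr5
  obtain ⟨B, V, z, z', P, q, hBA, hBp, hP, hNr⟩ := hplab m J F c W e v g'' Kv A G H hWJ hc hKv
    (fun i hi => hsh' i (by omega)) hsort'' hJ'' hCh'
  -- the event
  have hKc : (1 : ℝ) ≤ K' * 5 ^ m := by
    have h1 : (1 : ℝ) ≤ K' := by exact_mod_cast hK'
    have h2 : (1 : ℝ) ≤ 5 ^ m := one_le_pow₀ (by norm_num)
    exact one_le_mul_of_one_le_of_one_le h1 h2
  have hPA := hpos τ J F A hS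
  have hPB : Real.exp (-(τ * J)) * Pe F.p A ≤ Pe F.p B := by
    have h1 : Real.log (K' * 5 ^ m) / τ < J := hJ₃.trans_le hJ3
    rw [div_lt_iff₀ hτ0] at h1
    have h2 : (K' : ℝ) * 5 ^ m ≤ Real.exp (τ * J) := by
      rw [← Real.log_le_iff_le_exp (by linarith)]
      linarith
    have h3 : 0 ≤ Pe F.p B := by
      have h4 : 0 < K' * 5 ^ m * Pe F.p B := lt_of_lt_of_le hPA hBp
      exact (pos_of_mul_pos_right h4 (by linarith)).le
    calc Real.exp (-(τ * J)) * Pe F.p A ≤ Real.exp (-(τ * J)) * (K' * 5 ^ m * Pe F.p B) :=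
          mul_le_mul_of_nonneg_left hBp (Real.exp_pos _).le
      _ ≤ Real.exp (-(τ * J)) * (Real.exp (τ * J) * Pe F.p B) :=
          mul_le_mul_of_nonneg_left (mul_le_mul_of_nonneg_right h2 h3) (Real.exp_pos _).le
      _ = Pe F.p B := by
        rw [← mul_assoc, ← Real.exp_add, neg_add_cancel, Real.exp_zero, one_mul]
  have hSB := S.res hτ0.le hS hBA hPB
  have hB0 := hpos _ J F B hSB
  obtain ⟨hTr, hTm, hRb, hPe⟩ := hmem _ J F B hSB
  have hl := isLaw_cond F.isLaw hB0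
  have hq0 := hl.nonneg
  have hsupp : ∀ ω, 0 < Pool.Agent.H49.Ent.cond F.p B True ω → B ω := fun ω hω => cond_supp hω
  have hcls : ∀ ω, 0 < Pool.Agent.H49.Ent.cond F.p B True ω →
      z (ptr F J ω) = z' (slam F W ω) := fun ω hω => hP.cls ω (hsupp ω hω)
  have hT : ((J - W : ℕ) : ℝ) * Real.log 2 - 12 * (τ * J) ≤
      CH (Pool.Agent.H49.Ent.cond F.p B True) F.T (fun ω => z (ptr F J ω)) := by
    have h1 := Pool.STPA.time_event F hTr hTm hRb hB0 hPe hWJ
    have h2 : CH (Pool.Agent.H49.Ent.cond F.p B True) F.T (slam F W) ≤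
        CH (Pool.Agent.H49.Ent.cond F.p B True) F.T (fun ω => z (ptr F J ω)) :=
      CH_mono_cond hq0 fun ω ω' h h' e => by rw [hcls ω h, hcls ω' h', e]
    rw [Nat.cast_sub hWJ]
    linarith
  have hg''J : ∀ i ≤ r, g'' i ≤ J := fun i hi => by
    have := hJ'' i (by omega)
    omega
  have hY : (∑ i ∈ range r, ((J - (g'' i - sh) : ℕ) : ℝ)) * Real.log 2 -
      (r * φ * J + r * sh) ≤ CH (Pool.Agent.H49.Ent.cond F.p B True)
        (fun ω (i : Fin r) => F.X J ω (c i)) (fun ω => (z (ptr F J ω), F.W ω)) := by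
    have h1 := hexe J hJe F B (S.mono hτ1 hSB) V z z' (by
      rw [← hWe]
      exact hP.cls)
    rw [← hWe] at h1
    have h2 : CH (Pool.Agent.H49.Ent.cond F.p B True)
        (fun ω (i : Fin r) => F.X J ω (c i)) (fun ω => (z' (slam F W ω), F.W ω)) ≤
        CH (Pool.Agent.H49.Ent.cond F.p B True)
          (fun ω (i : Fin r) => F.X J ω (c i)) (fun ω => (z (ptr F J ω), F.W ω)) := by
      refine CH_mono_cond hq0 fun ω ω' h h' e => ?_
      have e1 := Prod.ext_iff.1 e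
      refine Prod.ext ?_ e1.2
      show z (ptr F J ω) = z (ptr F J ω')
      rw [hcls ω h, hcls ω' h']
      exact e1.1
    have h3 : ∑ i ∈ range r, ((J - (g'' i - sh) : ℕ) : ℝ) ≤
        (∑ l ∈ range r, (1 - g l)) * J + r * φ * J + r * sh := by
      have h4 : ∀ l ∈ range r, ((J - (g'' l - sh) : ℕ) : ℝ) ≤ (1 - g l) * J + (φ * J + sh) := by
        intro l hl'
        have h5 := mem_range.1 hl'
        have h6 := hg''J l h5.le
        have h7 := hsh' l h5.le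
        have h8 := hg'1 l h5.le
        rw [← hl'' l h5] at h8
        rw [Nat.cast_sub (by omega), Nat.cast_sub h7]
        linarith
      refine (Finset.sum_le_sum h4).trans (le_of_eq ?_)
      rw [Finset.sum_add_distrib, ← Finset.sum_mul, Finset.sum_const, card_range, nsmul_eq_mul]
      ring
    have h5 := mul_le_mul_of_nonneg_right h3 hl2.le
    rcases Nat.eq_zero_or_pos r with h0 | h0
    · have h7 : ∑ i ∈ range r, ((J - (g'' i - sh) : ℕ) : ℝ) = 0 :=
        Finset.sum_eq_zero fun i hi => absurd (mem_range.1 hi) (by omega)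
      have h8 : (r : ℝ) = 0 := by exact_mod_cast h0
      have h9 := CH_nonneg (p := Pool.Agent.H49.Ent.cond F.p B True) hq0
        (fun ω (i : Fin r) => F.X J ω (c i)) (fun ω => (z (ptr F J ω), F.W ω))
      rw [h7, h8]
      linarith
    · have h7 : (1 : ℝ) ≤ r := by exact_mod_cast h0
      have h8 : φ / 4 * Real.log 2 * J ≤ φ * J * (1 - Real.log 2) := by
        have h9 := Real.log_two_lt_d9
        have h10 : φ * J * (Real.log 2 / 4) ≤ φ * J * (1 - Real.log 2) :=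
          mul_le_mul_of_nonneg_left (by linarith) (by positivity)
        calc φ / 4 * Real.log 2 * J = φ * J * (Real.log 2 / 4) := by ring
          _ ≤ _ := h10
      have h9 : φ * J * (1 - Real.log 2) ≤ r * φ * J * (1 - Real.log 2) := by
        have h10 : 0 ≤ φ * J * (1 - Real.log 2) := by
          have := hl2'
          have : 0 ≤ 1 - Real.log 2 := by linarith
          positivity
        calc φ * J * (1 - Real.log 2) = 1 * (φ * J * (1 - Real.log 2)) := (one_mul _).symm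
          _ ≤ r * (φ * J * (1 - Real.log 2)) := mul_le_mul_of_nonneg_right h7 h10
          _ = _ := by ring
      have h6 : (r * φ * J + r * sh) * Real.log 2 ≤
          r * φ * J + r * sh - r * φ * J * (1 - Real.log 2) := by
        have h10 : (r * sh : ℝ) * Real.log 2 ≤ r * sh * 1 :=
          mul_le_mul_of_nonneg_left hl2' (by positivity)
        linarith
      linarith
  -- the exponents
  obtain ⟨lam, hlam⟩ : ∃ lam, lam = ⌊γ / 2 * J⌋₊ := ⟨_, rfl⟩
  have hlam1 : (lam : ℝ) ≤ γ / 2 * J := by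
    rw [hlam]
    exact Nat.floor_le (by positivity)
  have hlam2 : γ / 2 * J < lam + 1 := by
    rw [hlam]
    exact Nat.lt_floor_add_one _
  obtain ⟨u, hu⟩ : ∃ u, u = ⌊6 * φ * J⌋₊ + sh + 1 := ⟨_, rfl⟩
  have hu1 : (u : ℝ) ≤ 6 * φ * J + sh + 1 := by
    rw [hu]
    push_cast
    have := Nat.floor_le (by positivity : 0 ≤ 6 * φ * J)
    linarith
  have hu2 : 6 * φ * J + sh ≤ u := by
    rw [hu]
    push_cast
    have := Nat.lt_floor_add_one (6 * φ * J)
    linarith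
  have hWu : ∀ i ≤ r, W ≤ (g'' i - sh) + u := by
    intro i hi
    have h1 := hlow i hi
    have h2 := hsh' i hi
    have h3 : w * J ≤ g i * J := mul_le_mul_of_nonneg_right (hwg i hi) hJp.le
    have h4 : (W : ℝ) ≤ ((g'' i - sh : ℕ) : ℝ) + u := by
      rw [Nat.cast_sub h2]
      linarith
    exact_mod_cast h4
  have hWlam : W + lam ≤ J := by
    have h1 : (w + γ) * J ≤ 1 * J := mul_le_mul_of_nonneg_right hwγ hJp.le
    have h2 : 0 ≤ γ * J := by positivity
    have h3 : (W : ℝ) + lam ≤ J := by linarith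
    exact_mod_cast h3
  have hglam : ∀ i < r, (g'' i - sh) + lam ≤ J := by
    intro i hi
    have h1 := hup i hi
    have h2 : (g i + γ) * J ≤ 1 * J := mul_le_mul_of_nonneg_right (hg1 i hi) hJp.le
    have h3 : (g'' i : ℝ) + lam ≤ J := by
      have : 0 ≤ φ * J := by positivity
      linarith
    have h4 : g'' i + lam ≤ J := by exact_mod_cast h3
    omega
  obtain ⟨L₀, hL₀⟩ : ∃ L₀ : ℝ, L₀ = C₀ * 2 ^ (e + 2 * v) := ⟨_, rfl⟩
  rw [← hL₀] at hP
  have hL00 : 0 ≤ L₀ := by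
    rw [hL₀]
    positivity
  have hτJ : 0 ≤ 12 * (τ * J) := by positivity
  have hτφ : 12 * (τ * J) ≤ φ * J := by
    have := mul_le_mul_of_nonneg_right hτ2 hJp.le
    linarith
  have he2 : 0 ≤ r * φ * J + r * sh := by positivity
  have hbJ : 32 * (b * φ) * J ≤ γ * J := mul_le_mul_of_nonneg_right hφ3 hJp.le
  have hmain : C₁ * (12 * (τ * J) + (r * φ * J + r * sh) + 1) ≤ b * φ * J + c₁ := by
    have h1 : C₁ * (12 * (τ * J) + (r * φ * J + r * sh) + 1) ≤
        C₁ * ((r + 1) * φ * J + ((r + 1) * sh + 2)) := by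
      refine mul_le_mul_of_nonneg_left ?_ (by linarith)
      linarith
    have h2 : C₁ * ((r + 1) * φ * J + ((r + 1) * sh + 2)) =
        (C₁ * (r + 1)) * (φ * J) + C₁ * ((r + 1) * sh + 2) := by ring
    have h3 : (C₁ * (r + 1)) * (φ * J) ≤ b * (φ * J) := by
      refine mul_le_mul_of_nonneg_right ?_ (by positivity)
      rw [hb]
      linarith
    rw [hc₁]
    linarith
  have hb9 : 9 ≤ b := by
    rw [hb]
    have : 0 ≤ C₁ * (r + 1) := by positivity
    linarith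
  have hbφ1 : 1 ≤ b * φ * J := by
    rw [mul_assoc]
    calc (1 : ℝ) = 1 * 1 := (one_mul 1).symm
      _ ≤ b * (φ * J) := mul_le_mul (by linarith) (by linarith) zero_le_one (by linarith)
  obtain ⟨B', hB'B, hB'p, hNL⟩ := hnlab m J F c W lam u (fun i => g'' i - sh) L₀ B V z z' P q
    (12 * (τ * J)) (r * φ * J + r * sh) hL00 hτJ he2 hWJ hP hB0 hWu hWlam hglam hT hY (by
      refine hmain.trans (num_lam hl2'' hcJ hbφ1 (y := γ * J) (by linarith) (by linarith)
        (Nat.cast_nonneg _)))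
  refine ⟨g'', B', Real.exp (C₁ * (12 * (τ * J) + (r * φ * J + r * sh) + u + 1)) * (1 + L₀), V, z,
    z', P, hl'', hr4, ?_, hsh', hg''J r le_rfl, fun ω hω => hBA ω (hB'B ω hω), ?_, by positivity,
    ?_, hNL, fun ω hω => hNr ω (hB'B ω hω)⟩
  · refine le_trans ?_ hr3
    refine mul_le_mul_of_nonneg_right ?_ hJp.le
    have h1 : 9 * φ ≤ b * φ := mul_le_mul_of_nonneg_right hb9 hφ0.le
    linarith
  · calc Pe F.p A ≤ K' * 5 ^ m * Pe F.p B := hBp
      _ ≤ K' * 5 ^ m * (2 * Pe F.p B') := mul_le_mul_of_nonneg_left hB'p (by linarith)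
      _ = _ := by ring
  · refine num_log (by positivity) hC₀ hL₀ ?_
    have h1 := num_fin (φJ := φ * J) (sh := sh) (u := u) (v := v) hC₁ hr0 (by positivity)
      (by linarith) hτφ hb hc₁ (by linarith) he (by linarith)
    have h6 : 16 * (b * φ) * J ≤ ψ * J := mul_le_mul_of_nonneg_right hφ2 hJp.le
    push_cast
    have h7 : 16 * (b * (φ * J)) = 16 * (b * φ) * J := by ring
    rw [h7] at h1
    have h8 : r * φ * J = r * (φ * J) := by ring
    rw [h8]
    linarith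

end Pool.M3F
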