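import Pool.Agent.H46.S6.Itr
import Pool.Agent.H35.K2S.Stab

/-!
# POP: labels with side information which is a kernel of the line

`A` is a variable which is independent of the point `X` given the line `L`. If a statement about
`(X, L)` and samples of `A` given `L` holds with probability `ρ`, and the density of the law of `A`
given `L` against the law of `A` given `X` is at most `exp c` at the first `N` samples, then the
first samples can be replaced by a function of `X` and the others by a function of `L`; the price is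
the factor `exp (-N c)`.
-/

set_option autoImplicit false

namespace Pool.M3F

open Finset Real
open Pool.Agent.H49.Ent Pool.Agent.H32.Dense Pool.STK Pool.KA Pool.KSAT Pool.K2S Pool.PLV

/-- Derandomisation, one variable. -/
theorem derand1 {Ω ξ β : Type} [Fintype Ω] [Fintype β] [Nonempty β] {p : Ω → ℝ}
    (X : Ω → ξ) (P : ξ → β → ℝ) (hP0 : ∀ x b, 0 ≤ P x b)
    (hP : ∀ ω, 0 < p ω → ∑ b, P (X ω) b ≤ 1) (hp : ∀ ω, 0 ≤ p ω)
    (G : Ω → β → ℝ) (hG : ∀ ω b, 0 ≤ G ω b) :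
    ∃ f : ξ → β, ∑ ω, p ω * ∑ b, P (X ω) b * G ω b ≤ ∑ ω, p ω * G ω (f (X ω)) := by
  classical
  obtain ⟨fib, hfib⟩ : ∃ fib : ξ → Finset Ω, fib = fun x => univ.filter fun ω => X ω = x :=
    ⟨_, rfl⟩
  have hmem : ∀ x ω, ω ∈ fib x ↔ X ω = x := fun x ω => by simp [hfib]
  have hmax : ∀ x, ∃ b₀ : β, ∀ b, ∑ ω ∈ fib x, p ω * G ω b ≤ ∑ ω ∈ fib x, p ω * G ω b₀ :=
    fun x => Finite.exists_max fun b => ∑ ω ∈ fib x, p ω * G ω b
  choose f hf using hmax
  refine ⟨f, ?_⟩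
  have e1 : ∀ F : Ω → ℝ, ∑ ω, F ω = ∑ x ∈ univ.image X, ∑ ω ∈ fib x, F ω := by
    intro F
    rw [hfib]
    exact (Finset.sum_fiberwise_of_maps_to (fun ω _ => Finset.mem_image_of_mem X
      (Finset.mem_univ ω)) F).symm
  rw [e1, e1 (fun ω => p ω * G ω (f (X ω)))]
  refine Finset.sum_le_sum fun x _ => ?_
  have e2 : ∑ ω ∈ fib x, p ω * ∑ b, P (X ω) b * G ω b =
      ∑ b, P x b * ∑ ω ∈ fib x, p ω * G ω b := by
    simp only [Finset.mul_sum]
    rw [Finset.sum_comm]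
    refine Finset.sum_congr rfl fun b _ => Finset.sum_congr rfl fun ω hω => ?_
    rw [(hmem x ω).1 hω]
    ring
  have e3 : ∑ ω ∈ fib x, p ω * G ω (f (X ω)) = ∑ ω ∈ fib x, p ω * G ω (f x) :=
    Finset.sum_congr rfl fun ω hω => by rw [(hmem x ω).1 hω]
  rw [e2, e3]
  have h0 : 0 ≤ ∑ ω ∈ fib x, p ω * G ω (f x) :=
    Finset.sum_nonneg fun ω _ => mul_nonneg (hp ω) (hG ω _)
  by_cases hx : ∃ ω, X ω = x ∧ 0 < p ω
  · obtain ⟨ω₀, h1, h2⟩ := hx
    have h3 : ∑ b, P x b ≤ 1 := by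
      rw [← h1]
      exact hP ω₀ h2
    calc ∑ b, P x b * ∑ ω ∈ fib x, p ω * G ω b
        ≤ ∑ b, P x b * ∑ ω ∈ fib x, p ω * G ω (f x) :=
          Finset.sum_le_sum fun b _ => mul_le_mul_of_nonneg_left (hf x b) (hP0 x b)
      _ = (∑ b, P x b) * ∑ ω ∈ fib x, p ω * G ω (f x) := (Finset.sum_mul _ _ _).symm
      _ ≤ 1 * ∑ ω ∈ fib x, p ω * G ω (f x) := mul_le_mul_of_nonneg_right h3 h0
      _ = _ := one_mul _
  · push Not at hx
    have h4 : ∀ b, ∑ ω ∈ fib x, p ω * G ω b = 0 := fun b => Finset.sum_eq_zero fun ω hω => by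
      have h5 : p ω = 0 := le_antisymm (hx ω ((hmem x ω).1 hω)) (hp ω)
      rw [h5, zero_mul]
    simp only [h4, mul_zero, Finset.sum_const_zero, le_refl]

/-- Derandomisation, two variables. -/
theorem derand2 {Ω ξ Λ β γ : Type} [Fintype Ω] [Fintype β] [Nonempty β] [Fintype γ] [Nonempty γ]
    {p : Ω → ℝ} (X : Ω → ξ) (L : Ω → Λ) (P : ξ → β → ℝ) (R : Λ → γ → ℝ)
    (hP0 : ∀ x b, 0 ≤ P x b) (hP : ∀ ω, 0 < p ω → ∑ b, P (X ω) b ≤ 1)
    (hR0 : ∀ x b, 0 ≤ R x b) (hR : ∀ ω, 0 < p ω → ∑ b, R (L ω) b ≤ 1) (hp : ∀ ω, 0 ≤ p ω)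
    (F : ξ → Λ → β → γ → ℝ) (hF : ∀ x l b c, 0 ≤ F x l b c) :
    ∃ (f : ξ → β) (g : Λ → γ), ∑ ω, p ω * ∑ b, P (X ω) b * ∑ c, R (L ω) c *
      F (X ω) (L ω) b c ≤ ∑ ω, p ω * F (X ω) (L ω) (f (X ω)) (g (L ω)) := by
  obtain ⟨f, hf⟩ := derand1 X P hP0 hP hp (fun ω b => ∑ c, R (L ω) c * F (X ω) (L ω) b c)
    fun ω b => Finset.sum_nonneg fun c _ => mul_nonneg (hR0 _ _) (hF _ _ _ _)
  obtain ⟨g, hg⟩ := derand1 L R hR0 hR hp (fun ω c => F (X ω) (L ω) (f (X ω)) c)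
    fun ω c => hF _ _ _ _
  exact ⟨f, g, hf.trans hg⟩

/-- Sums over samples and sums over the values. -/
theorem sum_val {Ω α : Type} [Fintype Ω] [Fintype α] [DecidableEq α] {K : ℕ} (κ : Ω → ℝ)
    (A : Ω → α) (G : (Fin K → α) → ℝ) :
    ∑ v : Fin K → Ω, (∏ k, κ (v k)) * G (fun k => A (v k)) =
      ∑ a : Fin K → α, (∏ k, law κ A (a k)) * G a := by
  classical
  have e1 : ∀ a : Fin K → α, ∏ k, law κ A (a k) =
      ∑ v : Fin K → Ω, if (fun k => A (v k)) = a then ∏ k, κ (v k) else 0 := by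
    intro a
    unfold law
    rw [Finset.prod_univ_sum, Fintype.piFinset_univ]
    refine Finset.sum_congr rfl fun v _ => ?_
    by_cases h : (fun k => A (v k)) = a
    · rw [if_pos h]
      refine Finset.prod_congr rfl fun k _ => ?_
      rw [if_pos (congrFun h k)]
    · rw [if_neg h]
      obtain ⟨k, hk⟩ := Function.ne_iff.mp h
      exact Finset.prod_eq_zero (Finset.mem_univ k) (if_neg hk)
  simp only [e1, Finset.sum_mul]
  rw [Finset.sum_comm]
  refine Finset.sum_congr rfl fun v _ => ?_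
  rw [Finset.sum_eq_single (fun k => A (v k))]
  · rw [if_pos rfl]
  · intro a _ ha
    rw [if_neg (Ne.symm ha), zero_mul]
  · intro h
    exact absurd (Finset.mem_univ _) h

theorem sum_law_le {Ω α : Type} [Fintype Ω] [Fintype α] (κ : Ω → ℝ) (A : Ω → α) :
    ∑ a, law κ A a = ∑ ω, κ ω := by
  classical
  unfold law
  rw [Finset.sum_comm]
  refine Finset.sum_congr rfl fun ω _ => ?_
  simp

theorem cond_sum_le {Ω ζ : Type} [Fintype Ω] {p : Ω → ℝ} (Z : Ω → ζ) (z : ζ) :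
    ∑ ω, Pool.Agent.H49.Ent.cond p Z z ω ≤ 1 := by
  by_cases h : law p Z z = 0
  · have : ∀ ω, Pool.Agent.H49.Ent.cond p Z z ω = 0 := by
      intro ω
      unfold Pool.Agent.H49.Ent.cond
      split_ifs
      · rw [h, div_zero]
      · rfl
    simp only [this, Finset.sum_const_zero, zero_le_one]
  · exact (sum_cond p Z h).le

/-- **POP.** -/
theorem pop {Ω ξ Λ α : Type} [Fintype Ω] [Fintype α] [Nonempty α] {p : Ω → ℝ} (hp : IsLaw p)
    (X : Ω → ξ) (L : Ω → Λ) (A : Ω → α) {N N' : ℕ}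
    (Q : ξ → Λ → (Fin N → α) → (Fin N' → α) → Prop) (c : ℝ) {ρ : ℝ}
    (h : ρ ≤ Pe (itr p L (N + N')) (fun w =>
      Q (X w.1) (L w.1) (fun k => A (w.2 (Fin.castAdd N' k))) (fun k => A (w.2 (Fin.natAdd N k))) ∧
      ∀ k : Fin N, law (Pool.Agent.H49.Ent.cond p L (L w.1)) A (A (w.2 (Fin.castAdd N' k))) ≤
        Real.exp c * law (Pool.Agent.H49.Ent.cond p X (X w.1)) A (A (w.2 (Fin.castAdd N' k))))) :
    ∃ (f : ξ → Fin N → α) (g : Λ → Fin N' → α),
      Real.exp (-(N * c)) * ρ ≤ Pe p (fun ω => Q (X ω) (L ω) (f (X ω)) (g (L ω))) := by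
  classical
  have hp0 := hp.nonneg
  obtain ⟨κ, hκ⟩ : ∃ κ : Λ → α → ℝ, κ = fun l => law (Pool.Agent.H49.Ent.cond p L l) A :=
    ⟨_, rfl⟩
  obtain ⟨κ', hκ'⟩ : ∃ κ' : ξ → α → ℝ, κ' = fun x => law (Pool.Agent.H49.Ent.cond p X x) A :=
    ⟨_, rfl⟩
  have κ0 : ∀ l a, 0 ≤ κ l a := fun l a => by
    rw [hκ]
    exact law_nonneg (cond_nonneg hp0 L l) A a
  have κ'0 : ∀ x a, 0 ≤ κ' x a := fun x a => by
    rw [hκ']
    exact law_nonneg (cond_nonneg hp0 X x) A a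
  have κ1 : ∀ l, ∑ a, κ l a ≤ 1 := fun l => by
    rw [hκ]
    simp only
    rw [sum_law_le]
    exact cond_sum_le L l
  have κ'1 : ∀ x, ∑ a, κ' x a ≤ 1 := fun x => by
    rw [hκ']
    simp only
    rw [sum_law_le]
    exact cond_sum_le X x
  have pr1 : ∀ (K : ℕ) (k : α → ℝ), (∀ a, 0 ≤ k a) → ∑ a, k a ≤ 1 →
      ∑ b : Fin K → α, ∏ i, k (b i) ≤ 1 := by
    intro K k hk hk1
    rw [sum_pi (fun _ => k)]
    rw [Finset.prod_const]
    exact pow_le_one₀ (Finset.sum_nonneg fun a _ => hk a) hk1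
  obtain ⟨f, g, hfg⟩ := derand2 (p := p) X L (fun x (b : Fin N → α) => ∏ i, κ' x (b i))
    (fun l (b : Fin N' → α) => ∏ i, κ l (b i)) (fun x b => Finset.prod_nonneg fun i _ => κ'0 x _)
    (fun ω _ => pr1 N _ (κ'0 _) (κ'1 _)) (fun x b => Finset.prod_nonneg fun i _ => κ0 x _)
    (fun ω _ => pr1 N' _ (κ0 _) (κ1 _)) hp0 (fun x l b c => if Q x l b c then 1 else 0)
    (fun x l b c => by split_ifs <;> norm_num)
  refine ⟨f, g, ?_⟩
  have e0 : Pe p (fun ω => Q (X ω) (L ω) (f (X ω)) (g (L ω))) =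
      ∑ ω, p ω * (if Q (X ω) (L ω) (f (X ω)) (g (L ω)) then 1 else 0) := by
    rw [Pe_eq]
    refine Finset.sum_congr rfl fun ω _ => ?_
    split_ifs <;> simp
  rw [e0]
  refine le_trans ?_ hfg
  -- the event in the space of samples
  have e1 : Pe (itr p L (N + N')) (fun w =>
      Q (X w.1) (L w.1) (fun k => A (w.2 (Fin.castAdd N' k))) (fun k => A (w.2 (Fin.natAdd N k))) ∧
      ∀ k : Fin N, law (Pool.Agent.H49.Ent.cond p L (L w.1)) A (A (w.2 (Fin.castAdd N' k))) ≤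
        Real.exp c * law (Pool.Agent.H49.Ent.cond p X (X w.1)) A (A (w.2 (Fin.castAdd N' k)))) ≤
      ∑ ω, p ω * ∑ b : Fin N → α, (Real.exp (N * c) * ∏ i, κ' (X ω) (b i)) *
        ∑ d : Fin N' → α, (∏ i, κ (L ω) (d i)) * (if Q (X ω) (L ω) b d then 1 else 0) := by
    rw [Pe_eq, Fintype.sum_prod_type]
    refine Finset.sum_le_sum fun ω _ => ?_
    obtain ⟨Gf, hGf⟩ : ∃ Gf : (Fin (N + N') → α) → ℝ, Gf = fun a =>
        if (Q (X ω) (L ω) (fun k => a (Fin.castAdd N' k))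
        (fun k => a (Fin.natAdd N k)) ∧ ∀ k : Fin N, κ (L ω) (a (Fin.castAdd N' k)) ≤
        Real.exp c * κ' (X ω) (a (Fin.castAdd N' k))) then 1 else 0 := ⟨_, rfl⟩
    have e2 : ∀ G : (Fin (N + N') → Ω) → ℝ, (∀ v, G v =
        p ω * ((∏ k, Pool.Agent.H49.Ent.cond p L (L ω) (v k)) * Gf (fun k => A (v k)))) →
        ∑ v, G v = p ω * ∑ v : Fin (N + N') → Ω,
        ((∏ k, Pool.Agent.H49.Ent.cond p L (L ω) (v k)) * Gf (fun k => A (v k))) := by
      intro G hG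
      rw [Finset.mul_sum]
      exact Finset.sum_congr rfl fun v _ => hG v
    rw [e2 _ (fun v => by
      rw [hGf, hκ, hκ']
      unfold itr
      dsimp only
      split_ifs <;> ring)]
    refine mul_le_mul_of_nonneg_left ?_ (hp0 ω)
    rw [sum_val (Pool.Agent.H49.Ent.cond p L (L ω)) A Gf]
    rw [← Equiv.sum_comp (Fin.appendEquiv N N'), Fintype.sum_prod_type]
    refine Finset.sum_le_sum fun b _ => ?_
    rw [Finset.mul_sum]
    refine Finset.sum_le_sum fun d _ => ?_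
    have e3 : ∀ k : Fin N, (Fin.appendEquiv N N') (b, d) (Fin.castAdd N' k) = b k := fun k => by
      simp [Fin.appendEquiv]
    have e4 : ∀ k : Fin N', (Fin.appendEquiv N N') (b, d) (Fin.natAdd N k) = d k := fun k => by
      simp [Fin.appendEquiv]
    rw [Fin.prod_univ_add, hGf]
    simp only [e3, e4]
    have e5 : ∀ a, law (Pool.Agent.H49.Ent.cond p L (L ω)) A a = κ (L ω) a := fun a => by rw [hκ]
    simp only [e5]
    by_cases hQ : Q (X ω) (L ω) b d ∧ ∀ k : Fin N, κ (L ω) (b k) ≤ Real.exp c * κ' (X ω) (b k)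
    · have e6 : (fun k => b k) = b := rfl
      have e7 : (fun k => d k) = d := rfl
      rw [if_pos hQ, if_pos hQ.1, mul_one, mul_one]
      refine mul_le_mul_of_nonneg_right ?_ (Finset.prod_nonneg fun i _ => κ0 _ _)
      calc ∏ i, κ (L ω) (b i) ≤ ∏ i, (Real.exp c * κ' (X ω) (b i)) :=
            Finset.prod_le_prod (fun i _ => κ0 _ _) fun i _ => hQ.2 i
        _ = Real.exp (N * c) * ∏ i, κ' (X ω) (b i) := by
            rw [Finset.prod_mul_distrib, Finset.prod_const, Finset.card_univ, Fintype.card_fin,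
              ← Real.exp_nat_mul]
    · rw [if_neg hQ, mul_zero]
      refine mul_nonneg (mul_nonneg (Real.exp_pos _).le (Finset.prod_nonneg fun i _ => κ'0 _ _))
        (mul_nonneg (Finset.prod_nonneg fun i _ => κ0 _ _) ?_)
      split_ifs <;> norm_num
  have e8 : ∑ ω, p ω * ∑ b : Fin N → α, (Real.exp (N * c) * ∏ i, κ' (X ω) (b i)) *
        ∑ d : Fin N' → α, (∏ i, κ (L ω) (d i)) * (if Q (X ω) (L ω) b d then 1 else 0) =
      Real.exp (N * c) * ∑ ω, p ω * ∑ b : Fin N → α, (∏ i, κ' (X ω) (b i)) *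
        ∑ d : Fin N' → α, (∏ i, κ (L ω) (d i)) * (if Q (X ω) (L ω) b d then 1 else 0) := by
    rw [Finset.mul_sum]
    refine Finset.sum_congr rfl fun ω _ => ?_
    rw [mul_left_comm]
    congr 1
    rw [Finset.mul_sum]
    refine Finset.sum_congr rfl fun b _ => ?_
    ring
  rw [e8] at e1
  have h9 := h.trans e1
  calc Real.exp (-(N * c)) * ρ ≤ Real.exp (-(N * c)) * (Real.exp (N * c) * ∑ ω, p ω *
        ∑ b : Fin N → α, (∏ i, κ' (X ω) (b i)) *
        ∑ d : Fin N' → α, (∏ i, κ (L ω) (d i)) * (if Q (X ω) (L ω) b d then 1 else 0)) :=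
        mul_le_mul_of_nonneg_left h9 (Real.exp_pos _).le
    _ = _ := by
        rw [← mul_assoc, ← Real.exp_add, neg_add_cancel, Real.exp_zero, one_mul]

end Pool.M3F
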