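import Pool.Agent.H5.M3F.Cel
import Pool.Agent.H95.GN.Uni
import Pool.Agent.H25.BFL.PRDb

/-!
# The derivatives of the closed polynomials in the time

`nlab_of_plab`: if the times and the base are full given the closed label, then the derivatives of
the closed polynomials in the time are bounded on half of the event: the values on the natural box
are near the ball of the point (entropic Remez inequality), and so the derivatives along the flow
of the time at fixed natural coordinates are bounded.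
-/

set_option autoImplicit false

namespace Pool.M3F

open Finset Real MvPolynomial
open Pool.Agent.H49.Ent Pool.Agent.H32.Dense Pool.STK Pool.KA Pool.KSAT Pool.K2S Pool.PB Pool.GEN
open Pool.STAT Pool.STAT.CLO
open Pool.BFL (Pb Pl)

variable {m J : ℕ}

/-- Restriction to the first `n` variables. -/
noncomputable def rsn (n : ℕ) : PN →ₐ[ℝ] MvPolynomial (Fin n) ℝ :=
  aeval fun j => if h : j < n then X ⟨j, h⟩ else 0

theorem eval_rsn {n : ℕ} (y : Fin n → ℝ) (F : PN) : eval y (rsn n F) =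
    eval (fun j => if h : j < n then y ⟨j, h⟩ else 0) F := by
  unfold rsn
  rw [aeval_def, eval₂_eq, map_sum, eval_eq]
  refine Finset.sum_congr rfl fun d _ => ?_
  rw [map_mul, map_prod, algebraMap_eq, eval_C]
  congr 1
  refine Finset.prod_congr rfl fun j _ => ?_
  rw [map_pow]
  congr 1
  split_ifs
  · rw [eval_X]
  · rw [map_zero]

theorem deg_rsn (n : ℕ) (F : PN) : (rsn n F).totalDegree ≤ F.totalDegree := by
  unfold rsn
  rw [aeval_def, eval₂_eq]
  refine totalDegree_finsetSum_le fun d hd => ?_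
  refine (totalDegree_mul _ _).trans ?_
  rw [algebraMap_eq, totalDegree_C, zero_add]
  refine (totalDegree_finsetProd _ _).trans ?_
  refine (Finset.sum_le_sum (g := fun j => d j) fun j _ => ?_).trans (le_totalDegree hd)
  refine (totalDegree_pow _ _).trans ?_
  calc d j * _ ≤ d j * 1 := by
        refine Nat.mul_le_mul_left _ ?_
        split_ifs
        · exact (totalDegree_X _).le
        · rw [totalDegree_zero]
          exact Nat.zero_le _
    _ = d j := Nat.mul_one _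

/-- The union bound. -/
theorem Pe_union {Ω : Type} [Fintype Ω] {p : Ω → ℝ} (hp : ∀ ω, 0 ≤ p ω) (n : ℕ)
    (A : ℕ → Ω → Prop) (B : Ω → Prop) (h : ∀ ω, B ω → ∃ i < n, A i ω) :
    Pe p B ≤ ∑ i ∈ range n, Pe p (A i) := by
  classical
  simp_rw [Pe_eq]
  rw [Finset.sum_comm]
  refine Finset.sum_le_sum fun ω _ => ?_
  by_cases hB : B ω
  · rw [if_pos hB]
    obtain ⟨i, hi, hA⟩ := h ω hB
    refine le_trans ?_ (Finset.single_le_sum (f := fun i => if A i ω then p ω else 0)
      (fun j _ => by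
        beta_reduce
        split_ifs
        · exact hp ω
        · exact le_rfl) (mem_range.2 hi))
    beta_reduce
    rw [if_pos hA]
  · rw [if_neg hB]
    refine Finset.sum_nonneg fun j _ => ?_
    split_ifs
    · exact hp ω
    · exact le_rfl

/-- **The derivatives in the time.** -/
theorem nlab_of_plab (r K : ℕ) : ∃ C₀ : ℝ, 1 ≤ C₀ ∧ ∀ (m J : ℕ) (F : Fam m J) (c : ℕ → Fin m)
    (W lam u : ℕ) (g : ℕ → ℕ) (L : ℝ) (B : F.Ω → Prop) (V : Type) (z : PtT F → V)
    (z' : LnT F → V)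
    (P : V → ℕ → PN) (q : V → ℕ → ℝ) (e₁ e₂ : ℝ), 0 ≤ L → 0 ≤ e₁ → 0 ≤ e₂ → W ≤ J →
    PLab F c r W g K L B z z' P q → 0 < Pe F.p B → (∀ i ≤ r, W ≤ g i + u) → W + lam ≤ J →
    (∀ i < r, g i + lam ≤ J) →
    ((J - W : ℕ) : ℝ) * Real.log 2 - e₁ ≤
      CH (Pool.Agent.H49.Ent.cond F.p B True) F.T (fun ω => z (ptr F J ω)) →
    (∑ i ∈ range r, ((J - g i : ℕ) : ℝ)) * Real.log 2 - e₂ ≤
      CH (Pool.Agent.H49.Ent.cond F.p B True) (fun ω (i : Fin r) => F.X J ω (c i))
        (fun ω => (z (ptr F J ω), F.W ω)) →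
    C₀ * (e₁ + e₂ + 1) ≤ lam * Real.log 2 →
    ∃ B' : F.Ω → Prop, (∀ ω, B' ω → B ω) ∧ Pe F.p B ≤ 2 * Pe F.p B' ∧
      NLab F c r W g K (Real.exp (C₀ * (e₁ + e₂ + u + 1)) * (1 + L)) B' z z' P := by
  classical
  obtain ⟨n, hn⟩ : ∃ n, n = r + 1 := ⟨_, rfl⟩
  obtain ⟨K₁, hK₁⟩ : ∃ K₁, K₁ = K * (K + 1) ^ (n + 1) := ⟨_, rfl⟩
  obtain ⟨C₁, hC₁, huni⟩ := Pool.UNJ.uni_core n K₁ 2 (by norm_num)
  obtain ⟨C₂, hC₂, htime⟩ := pd_time n K
  rw [← hK₁] at htime
  have hl3 : 0 ≤ Real.log 3 := Real.log_nonneg (by norm_num)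
  have hl5 : 0 ≤ Real.log 5 := Real.log_nonneg (by norm_num)
  obtain ⟨a, ha⟩ : ∃ a : ℝ, a = n * (Real.log 3 + Real.log 5) + 1 := ⟨_, rfl⟩
  have ha1 : 1 ≤ a := by
    rw [ha]
    have : 0 ≤ n * (Real.log 3 + Real.log 5) := by positivity
    linarith
  have hn0 : (0 : ℝ) < n := by
    rw [hn]
    positivity
  obtain ⟨η, hη⟩ : ∃ η : ℝ, η = 1 / (2 * n) := ⟨_, rfl⟩
  have hη0 : 0 < η := by
    rw [hη]
    positivity
  have hη1 : η ≤ 1 := by
    rw [hη, div_le_one (by positivity)]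
    have : (1 : ℝ) ≤ n := by
      rw [hn]
      push_cast
      have := Nat.cast_nonneg (α := ℝ) r
      linarith
    linarith
  obtain ⟨R, hR⟩ : ∃ R : ℝ, R = Real.log (2 * C₂ * 4 ^ K₁ + 1) := ⟨_, rfl⟩
  have hR0 : 0 ≤ R := by
    rw [hR]
    refine Real.log_nonneg ?_
    have : 0 ≤ 2 * C₂ * (4 : ℝ) ^ K₁ := by positivity
    linarith
  refine ⟨C₁ * a / η + R + 1, by
    have : 0 ≤ C₁ * a / η := by positivity
    linarith, ?_⟩
  intro m J F c W lam u g L B V z z' P q e₁ e₂ hL he₁ he₂ hW hP hB hWg hlW hlg hT hY hlam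
  have hu0 : (0 : ℝ) ≤ u := Nat.cast_nonneg u
  have hq := isLaw_cond F.isLaw hB
  obtain ⟨p, hp⟩ : ∃ p, p = Pool.Agent.H49.Ent.cond F.p B True := ⟨_, rfl⟩
  rw [← hp] at hq hT hY
  have hq0 := hq.nonneg
  have hsupp : ∀ ω, 0 < p ω → B ω := fun ω hω => by
    rw [hp] at hω
    exact cond_supp hω
  obtain ⟨v, hv⟩ : ∃ v : F.Ω → V, v = fun ω => z (ptr F J ω) := ⟨_, rfl⟩
  have hv' : ∀ ω, v ω = z (ptr F J ω) := fun ω => by rw [hv]
  rw [← hv] at hT
  have hY' : (∑ i ∈ range r, ((J - g i : ℕ) : ℝ)) * Real.log 2 - e₂ ≤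
      CH p (fun ω (i : Fin r) => F.X J ω (c i)) (fun ω => (v ω, F.W ω)) := by
    rw [hv]
    exact hY
  -- the natural coordinates
  obtain ⟨Bn, hBn⟩ : ∃ Bn : F.Ω → Fin n → ℝ, Bn = fun ω (j : Fin n) =>
    nc (wid W g) (P (v ω)) (px c (ptr F J ω)) j := ⟨_, rfl⟩
  have hnc : ∀ ω, B ω → ∀ j < n, |nc (wid W g) (P (v ω)) (px c (ptr F J ω)) j| ≤ 1 := by
    intro ω hω j hj
    rw [nc_le]
    rcases Nat.eq_zero_or_pos j with rfl | hj0
    · rw [hv', hP.zero ω hω, eval_C, px_zero]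
      have : wid W g 0 = W := if_pos rfl
      rw [this]
      exact t_cell F hW ω
    · obtain ⟨j, rfl⟩ : ∃ j', j = j' + 1 := ⟨j - 1, by omega⟩
      have : wid W g (j + 1) = g j := if_neg (by omega)
      rw [this, hv']
      exact hP.pos ω hω j (by omega)
  -- the entropy
  obtain ⟨θ, hθ⟩ : ∃ θ, θ = e₁ + e₂ + n * (Real.log 3 + Real.log 5) := ⟨_, rfl⟩
  have hθ0 : 0 ≤ θ := by
    rw [hθ]
    positivity
  have hcel : ∀ (L' : ℕ) ω, Pool.UNJ.cel (fun i => (fun _ => 0 : Fin n → ℕ) i + L') (Bn ω) =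
      fun i : Fin n => ⌊(2 : ℝ) ^ (wid W g i + L') * (px c (ptr F J ω) i -
        eval (px c (ptr F J ω)) (P (v ω) i))⌋ := by
    intro L' ω
    funext i
    unfold Pool.UNJ.cel
    rw [hBn]
    show ⌊(2 : ℝ) ^ (0 + L') * nc (wid W g) (P (v ω)) (px c (ptr F J ω)) i⌋ = _
    unfold nc
    rw [zero_add, ← mul_assoc, ← pow_add, add_comm L']
  have hent : n * (lam * Real.log 2) - θ ≤ CH p
      (fun ω => Pool.UNJ.cel (fun i => (fun _ => 0 : Fin n → ℕ) i + lam) (Bn ω))
      (fun ω => (Pool.UNJ.cel (fun _ => 0) (Bn ω), v ω)) := by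
    subst hn
    have h1 := nd_ge (F := F) hq c (r := r) (W := W) id v P v (fun i => wid W g i + lam)
      (fun i hi => by
        show wid W g i + lam ≤ J
        rcases Nat.eq_zero_or_pos i with rfl | hi0
        · have : wid W g 0 = W := if_pos rfl
          rw [this]
          exact hlW
        · obtain ⟨i, rfl⟩ : ∃ j', i = j' + 1 := ⟨i - 1, by omega⟩
          have : wid W g (i + 1) = g i := if_neg (by omega)
          rw [this]
          exact hlg i (by omega)) (fun _ _ _ _ h => h) hP.tri (e₁ := e₁) hT hY'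
    have h2 : (fun ω => Pool.UNJ.cel (fun i => (fun _ => 0 : Fin (r + 1) → ℕ) i + lam) (Bn ω)) =
        fun ω (i : Fin (r + 1)) => ⌊(2 : ℝ) ^ (wid W g i + lam) *
          (px c (ptr F J (id ω)) i - eval (px c (ptr F J (id ω))) (P (v ω) i))⌋ := by
      funext ω
      exact hcel lam ω
    rw [← h2] at h1
    have h3 := CH_le_add hq0
      (fun ω => Pool.UNJ.cel (fun i => (fun _ => 0 : Fin (r + 1) → ℕ) i + lam) (Bn ω))
      (fun ω => Pool.UNJ.cel (fun _ => 0) (Bn ω)) v
    have h4 : CH p (fun ω => Pool.UNJ.cel (fun _ => 0) (Bn ω)) v ≤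
        ∑ i ∈ range (r + 1), Real.log (2 * 2 + 1) := by
      refine Ful.ch_vec hq (fun ω => Pool.UNJ.cel (fun _ => 0) (Bn ω)) v (fun _ => 2) ?_
      intro i ω ω' hω hω' _ _
      have h5 := hnc ω (hsupp ω hω) i i.2
      have h6 := hnc ω' (hsupp ω' hω') i i.2
      have e5 : ∀ ω, Pool.UNJ.cel (fun _ => 0) (Bn ω) i =
          ⌊nc (wid W g) (P (v ω)) (px c (ptr F J ω)) i⌋ := by
        intro ω
        unfold Pool.UNJ.cel
        rw [hBn]
        simp only [pow_zero, one_mul]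
      rw [e5, e5]
      rw [abs_le] at h5 h6
      have g1 : (-1 : ℤ) ≤ ⌊nc (wid W g) (P (v ω)) (px c (ptr F J ω)) i⌋ := by
        rw [Int.le_floor]
        push_cast
        exact h5.1
      have g2 : ⌊nc (wid W g) (P (v ω)) (px c (ptr F J ω)) i⌋ ≤ 1 := by
        have := Int.floor_le (nc (wid W g) (P (v ω)) (px c (ptr F J ω)) i)
        have h7 : ((⌊nc (wid W g) (P (v ω)) (px c (ptr F J ω)) i⌋ : ℤ) : ℝ) ≤ ((1 : ℤ) : ℝ) := by
          push_cast
          linarith [h5.2]
        exact_mod_cast h7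
      have g3 : (-1 : ℤ) ≤ ⌊nc (wid W g) (P (v ω')) (px c (ptr F J ω')) i⌋ := by
        rw [Int.le_floor]
        push_cast
        exact h6.1
      have g4 : ⌊nc (wid W g) (P (v ω')) (px c (ptr F J ω')) i⌋ ≤ 1 := by
        have := Int.floor_le (nc (wid W g) (P (v ω')) (px c (ptr F J ω')) i)
        have h7 : ((⌊nc (wid W g) (P (v ω')) (px c (ptr F J ω')) i⌋ : ℤ) : ℝ) ≤
            ((1 : ℤ) : ℝ) := by
          push_cast
          linarith [h6.2]
        exact_mod_cast h7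
      have g5 : |⌊nc (wid W g) (P (v ω)) (px c (ptr F J ω)) i⌋ -
          ⌊nc (wid W g) (P (v ω')) (px c (ptr F J ω')) i⌋| ≤ 2 := by
        rw [abs_le]
        omega
      exact_mod_cast g5
    rw [Finset.sum_const, card_range, nsmul_eq_mul] at h4
    have e6 : (2 : ℝ) * 2 + 1 = 5 := by norm_num
    rw [e6] at h4
    -- the sum
    have h5 : ∑ i ∈ range (r + 1), (((J - (wid W g i + lam) : ℕ) : ℝ) * Real.log 2 +
        Real.log 3) = ((J - W : ℕ) : ℝ) * Real.log 2 +
        (∑ i ∈ range r, ((J - g i : ℕ) : ℝ)) * Real.log 2 -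
        (r + 1) * (lam * Real.log 2) + (r + 1) * Real.log 3 := by
      rw [Finset.sum_range_succ']
      have e7 : ((J - (wid W g 0 + lam) : ℕ) : ℝ) = ((J - W : ℕ) : ℝ) - lam := by
        have : wid W g 0 = W := if_pos rfl
        rw [this, ← Nat.sub_sub, Nat.cast_sub (by omega)]
      have e8 : ∀ i ∈ range r, (((J - (wid W g (i + 1) + lam) : ℕ) : ℝ) * Real.log 2 +
          Real.log 3) = ((J - g i : ℕ) : ℝ) * Real.log 2 + (Real.log 3 - lam * Real.log 2) := by
        intro i hi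
        have h9 := hlg i (mem_range.1 hi)
        have : wid W g (i + 1) = g i := if_neg (by omega)
        rw [this, ← Nat.sub_sub, Nat.cast_sub (by omega)]
        ring
      rw [Finset.sum_congr rfl e8, e7, Finset.sum_add_distrib, ← Finset.sum_mul,
        Finset.sum_const, card_range, nsmul_eq_mul]
      ring
    rw [h5] at h1
    have e9 : ((r + 1 : ℕ) : ℝ) = r + 1 := by push_cast; ring
    rw [hθ, e9]
    rw [e9] at h4
    have e10 : ((r : ℝ) + 1) * (Real.log 3 + Real.log 5) =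
        (r + 1) * Real.log 3 + (r + 1) * Real.log 5 := by ring
    rw [e10]
    linarith
  -- the polynomials
  obtain ⟨Dp, hDp⟩ : ∃ Dp : ℕ → V → MvPolynomial (Fin n) ℝ, Dp = fun i x =>
    rsn n (bind₁ (nuc (wid W g) (P x)) (P x i - MvPolynomial.C (q x i))) := ⟨_, rfl⟩
  have hvF : ∀ x i, (P x i - MvPolynomial.C (q x i)).vars ⊆ range i := fun x i =>
    AdxRow.vars_sub_le (hP.tri x i) (by
      rw [vars_C]
      exact Finset.empty_subset _)
  have hdF : ∀ x i, (P x i - MvPolynomial.C (q x i)).totalDegree ≤ K := fun x i => by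
    refine (totalDegree_sub _ _).trans (max_le (hP.deg x i) ?_)
    rw [totalDegree_C]
    exact Nat.zero_le _
  have hDd : ∀ i ≤ n, ∀ x, (Dp i x).totalDegree ≤ K₁ := by
    intro i hi x
    rw [hDp]
    refine (deg_rsn _ _).trans ?_
    have := (nat_deg (hP.tri x) (hP.deg x) (wid W g) hi (hvF x i) (hdF x i)).2
    rw [hK₁]
    exact this
  have hev : ∀ i ≤ n, ∀ x, ∀ y : ℕ → ℝ, eval (fun j : Fin n => y j) (Dp i x) =
      eval y (bind₁ (nuc (wid W g) (P x)) (P x i - MvPolynomial.C (q x i))) := by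
    intro i hi x y
    rw [hDp]
    simp only
    rw [eval_rsn]
    refine eval_cg ((nat_deg (hP.tri x) (hP.deg x) (wid W g) hi (hvF x i) (hdF x i)).1) ?_
    intro j hj
    rw [dif_pos (by omega)]
  obtain ⟨τ, hτ⟩ : ∃ τ : ℝ, τ = 2 * 2 ^ u / 2 ^ W := ⟨_, rfl⟩
  have hτ0 : 0 < τ := by
    rw [hτ]
    positivity
  have hsmall : ∀ i, 1 ≤ i → i ≤ n → ∀ ω, B ω → |eval (Bn ω) (Dp i (v ω))| ≤ τ := by
    intro i hi1 hi ω hω
    have h1 : Bn ω = fun j : Fin n => nc (wid W g) (P (v ω)) (px c (ptr F J ω)) j := by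
      rw [hBn]
    rw [h1, hev i hi (v ω), ← eval_nat (hP.tri _), map_sub, eval_C]
    obtain ⟨i, rfl⟩ : ∃ j', i = j' + 1 := ⟨i - 1, by omega⟩
    have h2 := hP.pos ω hω i (by omega)
    have h3 := hP.ball ω hω i
    rw [hv']
    have hu1 : (1 : ℝ) ≤ 2 ^ u := one_le_pow₀ (by norm_num)
    have h4 : (1 : ℝ) / 2 ^ g i ≤ 2 ^ u / 2 ^ W := by
      rw [div_le_div_iff₀ (by positivity) (by positivity), one_mul, ← pow_add, add_comm u]
      exact pow_le_pow_right₀ (by norm_num) (hWg i (by omega))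
    have h4' : (1 : ℝ) / 2 ^ W ≤ 2 ^ u / 2 ^ W := div_le_div_of_nonneg_right hu1 (by positivity)
    have h5 : τ = 2 ^ u / 2 ^ W + 2 ^ u / 2 ^ W := by
      rw [hτ]
      ring
    rw [h5]
    rw [abs_le] at h2 h3 ⊢
    constructor <;> linarith [h2.1, h2.2, h3.1, h3.2]
  have hL1 : C₁ * (θ + 1) / η ≤ lam * Real.log 2 := by
    refine le_trans ?_ hlam
    have h1 : θ + 1 ≤ a * (e₁ + e₂ + 1) := by
      rw [hθ, ha]
      have h2 : 0 ≤ n * (Real.log 3 + Real.log 5) := by positivity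
      nlinarith
    have h2 : C₁ * (θ + 1) / η ≤ C₁ * (a * (e₁ + e₂ + 1)) / η :=
      div_le_div_of_nonneg_right (mul_le_mul_of_nonneg_left h1 (by linarith)) hη0.le
    have h3 : C₁ * (a * (e₁ + e₂ + 1)) / η = C₁ * a / η * (e₁ + e₂ + 1) := by ring
    rw [h3] at h2
    refine h2.trans (mul_le_mul_of_nonneg_right (by linarith) (by linarith))
  have hgood : ∀ i, 1 ≤ i → i ≤ n → Pb p (fun ω => ¬ ∀ b : Fin n → ℝ,
      (∀ j, |b j - Bn ω j| ≤ 2 / 2 ^ 0) →
      |eval b (Dp i (v ω))| ≤ Real.exp (C₁ * (θ + 1) / η) * τ) ≤ η := by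
    intro i hi1 hi
    have h1 := huni F.Ω V p lam (fun _ => 0) Bn v (Dp i) B (fun _ => τ) θ η hq (hDd i hi) hθ0 hη0
      hη1 (fun _ => hτ0) hent (by
        rw [Pool.Agent.H25.BFL.Pb_eq_Pe]
        have h2 : Pe p (fun ω => ¬ B ω) = 0 := by
          rw [Pe_eq]
          refine Finset.sum_eq_zero fun ω _ => ?_
          by_cases h3 : B ω
          · exact if_neg (not_not.2 h3)
          · rw [if_pos h3]
            by_contra h4
            exact h3 (hsupp ω (lt_of_le_of_ne (hq0 ω) (Ne.symm h4)))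
        rw [h2]
        positivity) hL1 (hsmall i hi1 hi)
    exact h1
  -- the good event
  obtain ⟨Gd, hGd⟩ : ∃ Gd : F.Ω → Prop, Gd = fun ω => ∀ i, 1 ≤ i → i ≤ n → ∀ b : Fin n → ℝ,
      (∀ j, |b j - Bn ω j| ≤ 2 / 2 ^ 0) →
      |eval b (Dp i (v ω))| ≤ Real.exp (C₁ * (θ + 1) / η) * τ := ⟨_, rfl⟩
  have hPbad : Pe p (fun ω => ¬ Gd ω) ≤ 1 / 2 := by
    have h1 : Pe p (fun ω => ¬ Gd ω) ≤ ∑ i ∈ range n, Pe p (fun ω => ¬ ∀ b : Fin n → ℝ,
      (∀ j, |b j - Bn ω j| ≤ 2 / 2 ^ 0) →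
      |eval b (Dp (i + 1) (v ω))| ≤ Real.exp (C₁ * (θ + 1) / η) * τ) := by
      refine Pe_union hq0 n (fun i ω => ¬ ∀ b : Fin n → ℝ,
        (∀ j, |b j - Bn ω j| ≤ 2 / 2 ^ 0) →
        |eval b (Dp (i + 1) (v ω))| ≤ Real.exp (C₁ * (θ + 1) / η) * τ) _ fun ω hω => ?_
      by_contra hcon
      push Not at hcon
      apply hω
      rw [hGd]
      intro i hi1 hi
      obtain ⟨i, rfl⟩ : ∃ j', i = j' + 1 := ⟨i - 1, by omega⟩
      exact hcon i (by omega)
    refine h1.trans ?_
    have h2 : ∀ i ∈ range n, Pe p (fun ω => ¬ ∀ b : Fin n → ℝ,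
        (∀ j, |b j - Bn ω j| ≤ 2 / 2 ^ 0) →
        |eval b (Dp (i + 1) (v ω))| ≤ Real.exp (C₁ * (θ + 1) / η) * τ) ≤ η := by
      intro i hi
      have h3 := hgood (i + 1) (by omega) (by have := mem_range.1 hi; omega)
      rwa [Pool.Agent.H25.BFL.Pb_eq_Pe] at h3
    refine (Finset.sum_le_sum h2).trans (le_of_eq ?_)
    rw [Finset.sum_const, card_range, nsmul_eq_mul, hη]
    field_simp
  have hPgood : 1 / 2 ≤ Pe p Gd := by
    have h1 : Pe p Gd + Pe p (fun ω => ¬ Gd ω) = 1 := by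
      rw [Pe_eq, Pe_eq, ← Finset.sum_add_distrib, ← hq.sum_one]
      refine Finset.sum_congr rfl fun ω _ => ?_
      by_cases h2 : Gd ω
      · rw [if_pos h2, if_neg (not_not.2 h2), add_zero]
      · rw [if_neg h2, if_pos h2, zero_add]
    linarith
  refine ⟨fun ω => B ω ∧ Gd ω, fun ω hω => hω.1, ?_, ?_⟩
  · have h1 : Pe p Gd = Pe F.p (fun ω => B ω ∧ Gd ω) / Pe F.p B := by
      rw [hp]
      exact Pool.K2S.Pe_cond Gd
    rw [h1, le_div_iff₀ hB] at hPgood
    linarith
  · refine ⟨hP.deg, hP.tri, fun ω hω => hP.cls ω hω.1, fun ω hω => hP.zero ω hω.1,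
      fun ω hω => hP.pos ω hω.1, ?_⟩
    intro ω hω b hb i hi l hl
    obtain ⟨S, hS⟩ : ∃ S : ℝ, S = 2 * 2 ^ u * Real.exp (C₁ * (θ + 1) / η) := ⟨_, rfl⟩
    have hS0 : 0 ≤ S := by
      rw [hS]
      positivity
    have hexp1 : 1 ≤ Real.exp ((C₁ * a / η + R + 1) * (e₁ + e₂ + u + 1)) := by
      refine Real.one_le_exp ?_
      have : 0 ≤ C₁ * a / η + R + 1 := by positivity
      positivity
    rcases Nat.eq_zero_or_pos l with rfl | hl0
    · have h1 := htime (P (z (ptr F J ω))) (wid W g) W (q (z (ptr F J ω))) S L 4 b (hP.tri _)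
        (hP.deg _) (if_pos rfl) (by
          intro i' hi1 hi' b' hb'
          have h2 := hω.2
          rw [hGd] at h2
          obtain ⟨y, hy⟩ : ∃ y : ℕ → ℝ, y = fun j =>
            if j < i' then nc (wid W g) (P (z (ptr F J ω))) b' j else 0 := ⟨_, rfl⟩
          have h3 := h2 i' hi1 hi' (fun j : Fin n => y j)
            (fun j => by
              rw [hBn]
              simp only
              rw [hv']
              have h4 := hnc ω hω.1 j j.2
              rw [hv'] at h4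
              have h5 : |y j| ≤ 1 := by
                rw [hy]
                simp only
                split_ifs with h6
                · exact nc_le.2 (hb' j h6)
                · rw [abs_zero]
                  exact zero_le_one
              have e1 : (2 : ℝ) / 2 ^ 0 = 2 := by norm_num
              rw [e1]
              rw [abs_le] at h4 h5 ⊢
              constructor <;> linarith [h4.1, h4.2, h5.1, h5.2])
          have h7 : eval y (bind₁ (nuc (wid W g) (P (z (ptr F J ω)))) (P (z (ptr F J ω)) i' -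
              MvPolynomial.C (q (z (ptr F J ω)) i'))) =
              eval (nc (wid W g) (P (z (ptr F J ω))) b') (bind₁ (nuc (wid W g)
                (P (z (ptr F J ω)))) (P (z (ptr F J ω)) i' -
                  MvPolynomial.C (q (z (ptr F J ω)) i'))) := by
            refine eval_cg ((nat_deg (hP.tri _) (hP.deg _) (wid W g) hi' (hvF _ i')
              (hdF _ i')).1) fun j hj => ?_
            rw [hy]
            exact if_pos hj
          rw [hv', hev i' hi', h7, ← eval_nat (hP.tri _), map_sub, eval_C] at h3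
          refine h3.trans (le_of_eq ?_)
          rw [hS, hτ]
          ring) (by norm_num) hS0 (by
          have : n = r + 1 := hn
          rw [this]
          exact hb) hL (fun j hj l' h1 h2 => hP.gradv ω hω.1 b hb j (by omega) l' h1 h2) i (by omega)
      refine h1.trans ?_
      have h2 : C₂ * S * 4 ^ K₁ ≤ Real.exp ((C₁ * a / η + R + 1) * (e₁ + e₂ + u + 1)) := by
        have h3 : C₂ * S * 4 ^ K₁ = (2 * C₂ * 4 ^ K₁) * (2 ^ u *
            Real.exp (C₁ * (θ + 1) / η)) := by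
          rw [hS]
          ring
        have h3u : (2 : ℝ) ^ u ≤ Real.exp u := by
          have h6 : (2 : ℝ) ≤ Real.exp 1 := by
            have := Real.add_one_le_exp (1 : ℝ)
            linarith
          calc (2 : ℝ) ^ u ≤ Real.exp 1 ^ u := pow_le_pow_left₀ (by norm_num) h6 _
            _ = Real.exp u := by rw [← Real.exp_nat_mul, mul_one]
        have h4 : 2 * C₂ * (4 : ℝ) ^ K₁ ≤ Real.exp R := by
          rw [hR, Real.exp_log (by positivity)]
          linarith
        have h5 : C₁ * (θ + 1) / η ≤ C₁ * a / η * (e₁ + e₂ + 1) := by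
          have h1 : θ + 1 ≤ a * (e₁ + e₂ + 1) := by
            rw [hθ, ha]
            have h2 : 0 ≤ n * (Real.log 3 + Real.log 5) := by positivity
            nlinarith
          have h2 : C₁ * (θ + 1) / η ≤ C₁ * (a * (e₁ + e₂ + 1)) / η :=
            div_le_div_of_nonneg_right (mul_le_mul_of_nonneg_left h1 (by linarith)) hη0.le
          have h3 : C₁ * (a * (e₁ + e₂ + 1)) / η = C₁ * a / η * (e₁ + e₂ + 1) := by ring
          rwa [h3] at h2
        rw [h3]
        refine (mul_le_mul h4 (mul_le_mul h3u (Real.exp_le_exp.2 h5) (Real.exp_pos _).le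
          (Real.exp_pos _).le) (by positivity) (Real.exp_pos _).le).trans ?_
        rw [← Real.exp_add, ← Real.exp_add]
        refine Real.exp_le_exp.2 ?_
        have h7 : 0 ≤ C₁ * a / η := by positivity
        have h8 : 0 ≤ C₁ * a / η * u := by positivity
        have h9 : 0 ≤ R * u := by positivity
        nlinarith
      refine mul_le_mul_of_nonneg_right h2 (by linarith)
    · have h1 := hP.gradv ω hω.1 b hb i hi l hl0 hl
      refine h1.trans ?_
      nlinarith
  
end Pool.M3F
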